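import Pool.Agent.Fac.Defs
import Pool.Agent.SRC.Loops

/-!
# Block FAC, algebra: switching without currents, characters, transfer (helper61)
-/

set_option autoImplicit false

namespace Pool.Agent.Fac

open Finset
open Pool.Agent.SRC (Vx Ed tip bde bd edg conn ind fl uv)
open Pool.Agent.FK1 (wB wF FF NN bdm ZA Inc SD)
open Pool.Agent.TC (spin cf)

variable {d : ℕ}

/-! ## row a1: dictionary -/

theorem bdm_eq (η : Finset (Ed d)) : bdm bde η = bd η := rfl

private theorem a1_two (g : Vx d → ZMod 2) : g + g = 0 := by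
  funext v
  exact CharTwo.add_self_eq_zero (g v)

theorem ZA_eq_ZZ (x : ℝ) (E : Finset (Ed d)) (A : Vx d → ZMod 2) :
    ZA bde (fun _ => x) E A = Pool.Agent.SRC.ZZ (Pool.Agent.SRC.loopM x) E A := by
  unfold ZA Pool.Agent.SRC.ZZ Pool.Agent.SRC.EL
  refine Finset.sum_congr rfl fun η _ => ?_
  have h1 : (Pool.Agent.SRC.loopM x).s • bd η = bd η := one_smul _ _
  rw [h1, Finset.prod_const]
  change _ = ind (bd η = A) * (x ^ η.card * 1 ^ (E \ η).card) * 1
  rw [one_pow, mul_one, mul_one]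
  rfl

/-- total mass of the pair of loop models with coins -/
theorem MM_one (x : ℝ) (E : Finset (Ed d)) (A : Vx d → ZMod 2) :
    MM x E A (fun _ _ _ => 1) = ZA bde (fun _ => x) E A * ZA bde (fun _ => x) E 0 := by
  unfold MM ZA
  rw [Finset.sum_mul]
  refine Finset.sum_congr rfl fun η1 _ => ?_
  rw [Finset.mul_sum]
  refine Finset.sum_congr rfl fun η2 _ => ?_
  have h1 : ∀ b ∈ E.powerset, ind (bd η1 = A) * ind (bd η2 = 0) *
      (x ^ η1.card * x ^ η2.card * wB (fun _ => x ^ 2) E b) * 1 =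
      ind (bd η1 = A) * ind (bd η2 = 0) * (x ^ η1.card * x ^ η2.card) *
        wB (fun _ => x ^ 2) E b := fun b _ => by ring
  rw [Finset.sum_congr rfl h1, ← Finset.mul_sum, FK1.sum_wB, Finset.prod_const, Finset.prod_const,
    bdm_eq, bdm_eq]
  ring

theorem FW_one (x : ℝ) (E : Finset (Ed d)) (A : Vx d → ZMod 2) :
    FW x E A (fun _ => 1) = ZA bde (fun _ => x) E A := by
  rw [FK1.ZA_eq a1_two]
  unfold FW
  exact Finset.sum_congr rfl fun ω _ => mul_one _

theorem MM_mono {x : ℝ} (h0 : 0 ≤ x) (h1 : x ≤ 1) (E : Finset (Ed d)) (A : Vx d → ZMod 2)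
    {f g : Finset (Ed d) → Finset (Ed d) → Finset (Ed d) → ℝ}
    (h : ∀ η1 ⊆ E, ∀ η2 ⊆ E, ∀ b ⊆ E, bd η1 = A → bd η2 = 0 → f η1 η2 b ≤ g η1 η2 b) :
    MM x E A f ≤ MM x E A g := by
  unfold MM
  refine Finset.sum_le_sum fun η1 h1' => Finset.sum_le_sum fun η2 h2' =>
    Finset.sum_le_sum fun b hb => ?_
  rw [Finset.mem_powerset] at h1' h2' hb
  by_cases e1 : bd η1 = A
  · by_cases e2 : bd η2 = 0
    · have hw : 0 ≤ wB (fun _ : Ed d => x ^ 2) E b :=
        FK1.wB_nonneg (fun _ _ => by positivity) (fun _ _ => pow_le_one₀ h0 h1) hb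
      refine mul_le_mul_of_nonneg_left (h η1 h1' η2 h2' b hb e1 e2) ?_
      exact mul_nonneg (mul_nonneg (SRC.ind_nonneg _) (SRC.ind_nonneg _))
        (mul_nonneg (mul_nonneg (pow_nonneg h0 _) (pow_nonneg h0 _)) hw)
    · rw [SRC.ind_false e2]
      simp
  · rw [SRC.ind_false e1]
    simp

theorem FW_mono {x : ℝ} (h0 : 0 ≤ x) (h1 : x ≤ 1) (E : Finset (Ed d)) (A : Vx d → ZMod 2)
    {f g : Finset (Ed d) → ℝ} (h : ∀ ω ⊆ E, FF bde A ω → f ω ≤ g ω) : FW x E A f ≤ FW x E A g := by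
  unfold FW
  refine Finset.sum_le_sum fun ω hω => ?_
  rw [Finset.mem_powerset] at hω
  by_cases e1 : FF bde A ω
  · refine mul_le_mul_of_nonneg_left (h ω hω e1) ?_
    exact mul_nonneg (FK1.wF_nonneg (fun _ _ => h0) (fun _ _ => h1) hω) (SRC.ind_nonneg _)
  · rw [SRC.ind_false e1]
    simp
-- END a1

/-! ## row a2: switching. For `m` and `o ⊆ m` fixed the sum over `η1, η2, b` with `symmDiff η1 η2 = o`,
`η1 ∪ η2 ∪ b = m`, `bd η2 = U` is `x ^ |o| * (x ^ 2) ^ |m \ o| * (1 - x ^ 2) ^ |E \ m| * NN U m`: an edge of `o`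
lies in exactly one of `η1`, `η2` (weight `x`, the coin is free), an edge of `m \ o` lies in both
(weight `x ^ 2`, the coin is free) or in none and has a coin (weight `x ^ 2`); and
`NN U m = NN 0 m * ind (FF U m)` (`FK1.NN_eq`), so both sides of the identity are the sum over `m`,
`o ⊆ m`, `bd o = A`, of the same weight times `NN U m`. -/

private lemma a2_split {E : Finset (Ed d)} {e : Ed d} (he : e ∉ E) (T : Finset (Ed d) → ℝ) :
    ∑ s ∈ (insert e E).powerset, T s = ∑ s ∈ E.powerset, (T s + T (insert e s)) := by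
  rw [Finset.sum_powerset_insert he, Finset.sum_add_distrib]

private lemma a2_wB0 (y : ℝ) {E b : Finset (Ed d)} {e : Ed d} (he : e ∉ E) (hb : b ⊆ E) :
    wB (fun _ => y) (insert e E) b = (1 - y) * wB (fun _ => y) E b := by
  unfold wB
  have heb : e ∉ b := fun h => he (hb h)
  rw [Finset.insert_sdiff_of_notMem E heb,
    Finset.prod_insert (fun h => he (Finset.sdiff_subset h))]
  ring

private lemma a2_wB1 (y : ℝ) {E b : Finset (Ed d)} {e : Ed d} (he : e ∉ E) (hb : b ⊆ E) :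
    wB (fun _ => y) (insert e E) (insert e b) = y * wB (fun _ => y) E b := by
  unfold wB
  have heb : e ∉ b := fun h => he (hb h)
  have h1 : insert e E \ insert e b = E \ b := by
    ext a
    simp only [Finset.mem_sdiff, Finset.mem_insert]
    constructor
    · rintro ⟨h3 | h3, h4⟩
      · exact absurd (Or.inl h3) h4
      · exact ⟨h3, fun h5 => h4 (Or.inr h5)⟩
    · rintro ⟨h3, h4⟩
      exact ⟨Or.inr h3, fun h5 => h5.elim (fun h6 => he (h6 ▸ h3)) h4⟩
  rw [h1, Finset.prod_insert heb]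
  ring

private lemma a2_main (x : ℝ) (E : Finset (Ed d))
    (G : Finset (Ed d) → Finset (Ed d) → Finset (Ed d) → ℝ) :
    ∑ η1 ∈ E.powerset, ∑ η2 ∈ E.powerset, ∑ b ∈ E.powerset,
      (x ^ η1.card * x ^ η2.card * wB (fun _ => x ^ 2) E b) *
        G (symmDiff η1 η2) η2 (η1 ∪ η2 ∪ b) =
    ∑ m ∈ E.powerset, ∑ o ∈ m.powerset, ∑ η ∈ m.powerset,
      (x ^ o.card * (x ^ 2) ^ (m \ o).card * (1 - x ^ 2) ^ (E \ m).card) * G o η m := by
  induction E using Finset.induction_on generalizing G with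
  | empty =>
    simp [wB]
  | insert e E he ih =>
    obtain ⟨G', hG'⟩ : ∃ G' : Finset (Ed d) → Finset (Ed d) → Finset (Ed d) → ℝ, ∀ o η m,
        G' o η m = (1 - x ^ 2) * G o η m + x ^ 2 * G o η (insert e m) +
          x * G (insert e o) η (insert e m) + x * G (insert e o) (insert e η) (insert e m) +
          x ^ 2 * G o (insert e η) (insert e m) := ⟨fun o η m => _, fun o η m => rfl⟩
    have hL : ∑ η1 ∈ (insert e E).powerset, ∑ η2 ∈ (insert e E).powerset,
        ∑ b ∈ (insert e E).powerset,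
        (x ^ η1.card * x ^ η2.card * wB (fun _ => x ^ 2) (insert e E) b) *
          G (symmDiff η1 η2) η2 (η1 ∪ η2 ∪ b) =
        ∑ η1 ∈ E.powerset, ∑ η2 ∈ E.powerset, ∑ b ∈ E.powerset,
        (x ^ η1.card * x ^ η2.card * wB (fun _ => x ^ 2) E b) *
          G' (symmDiff η1 η2) η2 (η1 ∪ η2 ∪ b) := by
      rw [a2_split he]
      refine Finset.sum_congr rfl fun η1 h1 => ?_
      rw [a2_split he, a2_split he, ← Finset.sum_add_distrib]
      refine Finset.sum_congr rfl fun η2 h2 => ?_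
      rw [a2_split he, a2_split he, a2_split he, a2_split he, ← Finset.sum_add_distrib,
        ← Finset.sum_add_distrib, ← Finset.sum_add_distrib]
      refine Finset.sum_congr rfl fun b h3 => ?_
      rw [Finset.mem_powerset] at h1 h2 h3
      have he1 : e ∉ η1 := fun h => he (h1 h)
      have he2 : e ∉ η2 := fun h => he (h2 h)
      have he3 : e ∉ b := fun h => he (h3 h)
      have s1 : symmDiff (insert e η1) η2 = insert e (symmDiff η1 η2) := by
        ext a
        simp only [Finset.mem_symmDiff, Finset.mem_insert]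
        by_cases ha : a = e
        · subst ha; simp [he1, he2]
        · simp [ha]
      have s2 : symmDiff η1 (insert e η2) = insert e (symmDiff η1 η2) := by
        ext a
        simp only [Finset.mem_symmDiff, Finset.mem_insert]
        by_cases ha : a = e
        · subst ha; simp [he1, he2]
        · simp [ha]
      have s3 : symmDiff (insert e η1) (insert e η2) = symmDiff η1 η2 := by
        ext a
        simp only [Finset.mem_symmDiff, Finset.mem_insert]
        by_cases ha : a = e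
        · subst ha; simp [he1, he2]
        · simp [ha]
      have u1 : ∀ p q r : Finset (Ed d), insert e p ∪ q ∪ r = insert e (p ∪ q ∪ r) := by
        intro p q r
        rw [Finset.insert_union, Finset.insert_union]
      have u2 : ∀ p q r : Finset (Ed d), p ∪ insert e q ∪ r = insert e (p ∪ q ∪ r) := by
        intro p q r
        rw [Finset.union_insert, Finset.insert_union]
      have u3 : ∀ p q r : Finset (Ed d), p ∪ q ∪ insert e r = insert e (p ∪ q ∪ r) := by
        intro p q r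
        rw [Finset.union_insert]
      have u4 : ∀ p : Finset (Ed d), insert e (insert e p) = insert e p := fun p =>
        Finset.insert_idem e p
      simp only [u1, u2, u3, u4, s1, s2, s3, Finset.card_insert_of_notMem he1,
        Finset.card_insert_of_notMem he2, a2_wB0 _ he h3, a2_wB1 _ he h3, hG', pow_succ _ η1.card,
        pow_succ _ η2.card]
      ring
    have hR : ∑ m ∈ (insert e E).powerset, ∑ o ∈ m.powerset, ∑ η ∈ m.powerset,
        (x ^ o.card * (x ^ 2) ^ (m \ o).card * (1 - x ^ 2) ^ ((insert e E) \ m).card) * G o η m =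
        ∑ m ∈ E.powerset, ∑ o ∈ m.powerset, ∑ η ∈ m.powerset,
        (x ^ o.card * (x ^ 2) ^ (m \ o).card * (1 - x ^ 2) ^ (E \ m).card) *
          G' o η m := by
      rw [a2_split he]
      refine Finset.sum_congr rfl fun m hm => ?_
      rw [Finset.mem_powerset] at hm
      have hem : e ∉ m := fun h => he (hm h)
      rw [a2_split hem, ← Finset.sum_add_distrib]
      refine Finset.sum_congr rfl fun o ho => ?_
      rw [Finset.mem_powerset] at ho
      have heo : e ∉ o := fun h => hem (ho h)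
      rw [a2_split hem, a2_split hem, ← Finset.sum_add_distrib, ← Finset.sum_add_distrib]
      refine Finset.sum_congr rfl fun η hη => ?_
      have c1 : (insert e E \ m).card = (E \ m).card + 1 := by
        rw [Finset.insert_sdiff_of_notMem E hem,
          Finset.card_insert_of_notMem (fun h => he (Finset.sdiff_subset h))]
      have c2 : insert e E \ insert e m = E \ m := by
        ext a
        simp only [Finset.mem_sdiff, Finset.mem_insert]
        by_cases ha : a = e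
        · subst ha; simp [he]
        · simp [ha]
      have c3 : (insert e m \ o).card = (m \ o).card + 1 := by
        rw [Finset.insert_sdiff_of_notMem m heo,
          Finset.card_insert_of_notMem (fun h => hem (Finset.sdiff_subset h))]
      have c4 : insert e m \ insert e o = m \ o := by
        ext a
        simp only [Finset.mem_sdiff, Finset.mem_insert]
        by_cases ha : a = e
        · subst ha; simp [hem]
        · simp [ha]
      simp only [c1, c2, c3, c4, Finset.card_insert_of_notMem heo, pow_succ, hG']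
      ring
    rw [hL, hR]
    exact ih G'

private lemma a2_two (g : Vx d → ZMod 2) : g + g = 0 := by
  funext v
  exact CharTwo.add_self_eq_zero (g v)

private lemma a2_bd (η1 η2 : Finset (Ed d)) : bd (symmDiff η1 η2) = bd η1 + bd η2 := by
  rw [← bdm_eq, ← bdm_eq, ← bdm_eq]
  exact Pool.Agent.FK1.bdm_symmDiff a2_two η1 η2

private lemma a2_ZA (x : ℝ) (E : Finset (Ed d)) (A : Vx d → ZMod 2) :
    ZA bde (fun _ => x) E A = ∑ η ∈ E.powerset, ind (bd η = A) * x ^ η.card := by
  unfold ZA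
  refine Finset.sum_congr rfl fun η _ => ?_
  rw [Finset.prod_const, bdm_eq]

theorem switch (x : ℝ) (E : Finset (Ed d)) (A U : Vx d → ZMod 2) :
    MM x E A (fun η1 η2 b => ind (FF bde U (η1 ∪ η2 ∪ b))) =
      ZA bde (fun _ => x) E (A + U) * ZA bde (fun _ => x) E U := by
  obtain ⟨G1, hG1⟩ : ∃ G1 : Finset (Ed d) → Finset (Ed d) → Finset (Ed d) → ℝ, ∀ o η m,
      G1 o η m = ind (bd o = A) * ind (bd η = 0) * ind (FF bde U m) :=
    ⟨fun o η m => _, fun o η m => rfl⟩
  obtain ⟨G2, hG2⟩ : ∃ G2 : Finset (Ed d) → Finset (Ed d) → Finset (Ed d) → ℝ, ∀ o η m,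
      G2 o η m = ind (bd o = A) * ind (bd η = U) := ⟨fun o η m => _, fun o η m => rfl⟩
  have h1 : MM x E A (fun η1 η2 b => ind (FF bde U (η1 ∪ η2 ∪ b))) =
      ∑ η1 ∈ E.powerset, ∑ η2 ∈ E.powerset, ∑ b ∈ E.powerset,
      (x ^ η1.card * x ^ η2.card * wB (fun _ => x ^ 2) E b) *
        G1 (symmDiff η1 η2) η2 (η1 ∪ η2 ∪ b) := by
    unfold MM
    refine Finset.sum_congr rfl fun η1 _ => Finset.sum_congr rfl fun η2 _ =>
      Finset.sum_congr rfl fun b _ => ?_
    have h2 : ind (bd η1 = A) * ind (bd η2 = 0) =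
        ind (bd (symmDiff η1 η2) = A) * ind (bd η2 = 0) := by
      by_cases h3 : bd η2 = 0
      · rw [a2_bd, h3, add_zero]
      · rw [Pool.Agent.SRC.ind_false h3, mul_zero, mul_zero]
    rw [hG1, ← h2]
    ring
  have h4 : ∑ η1 ∈ E.powerset, ∑ η2 ∈ E.powerset, ∑ b ∈ E.powerset,
      (x ^ η1.card * x ^ η2.card * wB (fun _ => x ^ 2) E b) *
        G2 (symmDiff η1 η2) η2 (η1 ∪ η2 ∪ b) =
      ZA bde (fun _ => x) E (A + U) * ZA bde (fun _ => x) E U := by
    rw [a2_ZA, a2_ZA, Finset.sum_mul_sum]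
    refine Finset.sum_congr rfl fun η1 _ => Finset.sum_congr rfl fun η2 _ => ?_
    rw [Finset.sum_congr rfl fun b _ => by rw [hG2]]
    have h5 : ind (bd (symmDiff η1 η2) = A) * ind (bd η2 = U) =
        ind (bd η1 = A + U) * ind (bd η2 = U) := by
      by_cases h3 : bd η2 = U
      · rw [a2_bd, h3]
        congr 1
        refine Pool.Agent.SRC.ind_congr ⟨fun h6 => ?_, fun h6 => ?_⟩
        · rw [← h6, add_assoc, a2_two, add_zero]
        · rw [h6, add_assoc, a2_two, add_zero]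
      · rw [Pool.Agent.SRC.ind_false h3, mul_zero, mul_zero]
    rw [h5]
    have h7 : ∀ b ∈ E.powerset, (x ^ η1.card * x ^ η2.card * wB (fun _ => x ^ 2) E b) *
        (ind (bd η1 = A + U) * ind (bd η2 = U)) =
        wB (fun _ => x ^ 2) E b *
          (ind (bd η1 = A + U) * x ^ η1.card * (ind (bd η2 = U) * x ^ η2.card)) :=
      fun b _ => by ring
    rw [Finset.sum_congr rfl h7, ← Finset.sum_mul, Pool.Agent.FK1.sum_wB, one_mul]
  rw [h1, ← h4, a2_main, a2_main]
  refine Finset.sum_congr rfl fun m _ => Finset.sum_congr rfl fun o _ => ?_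
  have h8 : ∑ η ∈ m.powerset, ind (bd η = U) =
      (∑ η ∈ m.powerset, ind (bd η = 0)) * ind (FF bde U m) :=
    Pool.Agent.FK1.NN_eq a2_two U m
  have h9 : ∀ η ∈ m.powerset, (x ^ o.card * (x ^ 2) ^ (m \ o).card *
      (1 - x ^ 2) ^ (E \ m).card) * (ind (bd o = A) * ind (bd η = 0) * ind (FF bde U m)) =
      (x ^ o.card * (x ^ 2) ^ (m \ o).card * (1 - x ^ 2) ^ (E \ m).card) * ind (bd o = A) *
        ind (FF bde U m) * ind (bd η = 0) := fun η _ => by ring
  have h10 : ∀ η ∈ m.powerset, (x ^ o.card * (x ^ 2) ^ (m \ o).card *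
      (1 - x ^ 2) ^ (E \ m).card) * (ind (bd o = A) * ind (bd η = U)) =
      (x ^ o.card * (x ^ 2) ^ (m \ o).card * (1 - x ^ 2) ^ (E \ m).card) * ind (bd o = A) *
        ind (bd η = U) := fun η _ => by ring
  simp only [hG1, hG2]
  rw [Finset.sum_congr rfl h9, Finset.sum_congr rfl h10, ← Finset.mul_sum, ← Finset.mul_sum, h8]
  ring

/-! ## row a3: characters. If no subset of `ω` has boundary `s1 U` some cluster of `ω` contains an odd number
of points of `U` (FK1.Gr of helper34, or directly), so `sU U` changes sign under the flip of this cluster. -/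

/-! ## row a3: characters. If no subset of `ω` has boundary `s1 U` some cluster of `ω` contains an odd number
of points of `U` (FK1.Gr of helper34, or directly), so `sU U` changes sign under the flip of this cluster. -/

-- BEGIN a3
theorem HH_card_pos (D : Finset (Vx d)) (ω : Finset (Ed d)) : 0 < (HH D ω).card := by
  refine Finset.card_pos.2 ⟨∅, (SRC.mem_fl _ _ _).2 ⟨Finset.empty_mem_powerset D, ?_⟩⟩
  intro e _
  simp

theorem sU_symmDiff (U T T' : Finset (Vx d)) : sU U (symmDiff T T') = sU U T * sU U T' := by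
  unfold sU
  rw [← Finset.prod_mul_distrib]
  refine Finset.prod_congr rfl fun v _ => ?_
  unfold spin
  by_cases h1 : v ∈ T <;> by_cases h2 : v ∈ T' <;> simp [Finset.mem_symmDiff, h1, h2]

private theorem a3_two (g : Vx d → ZMod 2) : g + g = 0 := by
  funext v
  exact CharTwo.add_self_eq_zero (g v)

/-- a product of signs -/
private theorem a3_sign (U T : Finset (Vx d)) :
    sU U T = if Even (U ∩ T).card then 1 else -1 := by
  unfold sU
  have h1 : ∏ v ∈ U, spin T v = (-1 : ℝ) ^ (U ∩ T).card := by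
    unfold spin
    rw [Finset.prod_ite, Finset.prod_const, Finset.prod_const_one, mul_one, Finset.filter_mem_eq_inter]
  rw [h1]
  split_ifs with h
  · exact h.neg_one_pow
  · exact (Nat.not_even_iff_odd.1 h).neg_one_pow

/-- the boundary of an edge set counted on a set which is a union of clusters -/
private theorem a3_bd {ω T : Finset _} (hT : Cst (d := d) ω T) {η : Finset (Ed d)} (hη : η ⊆ ω) :
    ∑ v ∈ T, bd η v = 0 := by
  have h1 : ∀ v, bd η v = ∑ e ∈ η, bde e v := fun v => by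
    unfold bd
    rw [Finset.sum_apply]
  simp only [h1]
  rw [Finset.sum_comm]
  refine Finset.sum_eq_zero fun e he => ?_
  have h2 := hT e (hη he)
  simp only [bde, Pi.add_apply]
  rw [Finset.sum_add_distrib]
  have h3 : ∀ u : Vx d, ∑ v ∈ T, (Pi.single u (1 : ZMod 2) : Vx d → ZMod 2) v =
      if u ∈ T then 1 else 0 := by
    intro u
    simp only [Pi.single_apply]
    rw [Finset.sum_ite_eq']
  rw [h3, h3]
  by_cases h4 : e.1 ∈ T
  · rw [if_pos h4, if_pos (h2.1 h4)]
    rfl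
  · rw [if_neg h4, if_neg (fun h => h4 (h2.2 h)), add_zero]

private theorem a3_card (U T : Finset (Vx d)) : ∑ v ∈ T, s1 U v = ((U ∩ T).card : ZMod 2) := by
  unfold s1
  rw [← Finset.sum_filter, Finset.sum_const, nsmul_one, Finset.filter_mem_eq_inter, Finset.inter_comm]

/-- the sets which are boundaries of subsets of `ω` -/
private def a3_W (ω : Finset (Ed d)) : Submodule (ZMod 2) (Vx d → ZMod 2) where
  carrier := {A | FF bde A ω}
  add_mem' := fun ha hb => FK1.FF.add a3_two ha hb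
  zero_mem' := FK1.FF.zero ω
  smul_mem' := fun c A hA => by
    have hc : c = 0 ∨ c = 1 := by
      revert c
      decide
    rcases hc with rfl | rfl
    · rw [zero_smul]
      exact FK1.FF.zero ω
    · rw [one_smul]
      exact hA

/-- some union of clusters meets `U` in an odd number of points -/
private theorem a3_flip {D : Finset (Vx d)} {ω : Finset (Ed d)} (hω : EndsIn ω D)
    {U : Finset (Vx d)} (hU : U ⊆ D) (hF : ¬ FF bde (s1 U) ω) :
    ∃ T₀ ∈ HH D ω, sU U T₀ = -1 := by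
  have hnot : s1 U ∉ a3_W ω := hF
  obtain ⟨f, hf, hf0⟩ := Submodule.exists_dual_map_eq_bot_of_notMem hnot inferInstance
  have hz : ∀ A, FF bde A ω → f A = 0 := by
    intro A hA
    have h1 : f A ∈ (a3_W ω).map f := Submodule.mem_map_of_mem hA
    rw [hf0] at h1
    exact (Submodule.mem_bot (ZMod 2)).1 h1
  refine ⟨fl D (fun v => f (Pi.single v 1) = 1), (SRC.mem_fl _ _ _).2
    ⟨Finset.mem_powerset.2 (SRC.fl_subset _ _), ?_⟩, ?_⟩
  · intro e he
    have h1 : f (bde e) = 0 := hz _ ⟨{e}, Finset.singleton_subset_iff.2 he, by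
      unfold bdm
      rw [Finset.sum_singleton]⟩
    unfold bde at h1
    rw [map_add] at h1
    have h2 : f (Pi.single e.1 1) = f (Pi.single (tip e) 1) := by
      have h3 := CharTwo.add_self_eq_zero (f (Pi.single (tip e) 1))
      exact add_right_cancel (h1.trans h3.symm)
    rw [SRC.mem_fl, SRC.mem_fl, h2]
    exact ⟨fun h => ⟨(hω e he).2, h.2⟩, fun h => ⟨(hω e he).1, h.2⟩⟩
  · rw [a3_sign, if_neg]
    intro hev
    have h1 : s1 U = ∑ v ∈ U, (Pi.single v (1 : ZMod 2) : Vx d → ZMod 2) := by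
      funext w
      rw [Finset.sum_apply]
      simp only [Pi.single_apply]
      rw [Finset.sum_ite_eq]
      rfl
    have h2 : f (s1 U) = ((U ∩ fl D (fun v => f (Pi.single v 1) = 1)).card : ZMod 2) := by
      rw [h1, map_sum]
      have h3 : ∀ v ∈ U, f (Pi.single v 1) =
          if v ∈ fl D (fun v => f (Pi.single v 1) = 1) then (1 : ZMod 2) else 0 := by
        intro v hv
        split_ifs with h
        · exact ((SRC.mem_fl _ _ _).1 h).2
        · have h4 : f (Pi.single v 1) ≠ 1 := fun h5 => h ((SRC.mem_fl _ _ _).2 ⟨hU hv, h5⟩)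
          generalize f (Pi.single v 1) = c at h4
          revert c
          decide
      rw [Finset.sum_congr rfl h3, ← Finset.sum_filter, Finset.sum_const, nsmul_one,
        Finset.filter_mem_eq_inter]
    apply hf
    rw [h2]
    exact (ZMod.natCast_eq_zero_iff_even).2 hev

theorem tE_sU {D : Finset (Vx d)} {ω : Finset (Ed d)} (hω : EndsIn ω D) {U : Finset (Vx d)}
    (hU : U ⊆ D) : tE D ω (sU U) = ind (FF bde (s1 U) ω) := by
  unfold tE
  have hc : ((HH D ω).card : ℝ) ≠ 0 := by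
    exact_mod_cast (HH_card_pos D ω).ne'
  by_cases hF : FF bde (s1 U) ω
  · rw [SRC.ind_true hF]
    have h1 : ∀ T ∈ HH D ω, sU U T = 1 := by
      intro T hT
      obtain ⟨-, hT⟩ := (SRC.mem_fl _ _ _).1 hT
      obtain ⟨η, hη, hb⟩ := hF
      have h2 := a3_bd hT hη
      rw [bdm_eq] at hb
      rw [hb, a3_card] at h2
      rw [a3_sign, if_pos ((ZMod.natCast_eq_zero_iff_even).1 h2)]
    rw [Finset.sum_congr rfl h1, Finset.sum_const, nsmul_one, div_self hc]
  · rw [SRC.ind_false hF]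
    obtain ⟨T₀, hT₀, hs⟩ := a3_flip hω hU hF
    have h1 : ∑ T ∈ HH D ω, sU U T = ∑ T ∈ HH D ω, sU U (symmDiff T T₀) := by
      have hmem : ∀ T ∈ HH D ω, symmDiff T T₀ ∈ HH D ω := by
        intro T hT
        obtain ⟨hT1, hT2⟩ := (SRC.mem_fl _ _ _).1 hT
        obtain ⟨hT3, hT4⟩ := (SRC.mem_fl _ _ _).1 hT₀
        refine (SRC.mem_fl _ _ _).2 ⟨?_, ?_⟩
        · rw [Finset.mem_powerset] at hT1 hT3 ⊢
          exact Finset.union_subset (Finset.sdiff_subset.trans hT1) (Finset.sdiff_subset.trans hT3)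
        · intro e he
          rw [Finset.mem_symmDiff, Finset.mem_symmDiff, hT2 e he, hT4 e he]
      refine Finset.sum_bij' (fun T _ => symmDiff T T₀) (fun T _ => symmDiff T T₀) hmem hmem ?_ ?_ ?_
      · intro T _
        exact symmDiff_symmDiff_cancel_right T₀ T
      · intro T _
        exact symmDiff_symmDiff_cancel_right T₀ T
      · intro T _
        rw [symmDiff_symmDiff_cancel_right]
    have h2 : ∑ T ∈ HH D ω, sU U (symmDiff T T₀) = -∑ T ∈ HH D ω, sU U T := by
      rw [← Finset.sum_neg_distrib]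
      refine Finset.sum_congr rfl fun T _ => ?_
      rw [sU_symmDiff, hs, mul_neg_one]
    rw [h2] at h1
    have h3 : ∑ T ∈ HH D ω, sU U T = 0 := by linarith
    rw [h3, zero_div]

theorem fE_sU {D : Finset (Vx d)} {ω1 ω2 : Finset (Ed d)} (h1 : EndsIn ω1 D) (h2 : EndsIn ω2 D)
    {U : Finset (Vx d)} (hU : U ⊆ D) :
    fE D ω1 ω2 (sU U) = ind (FF bde (s1 U) ω1) * ind (FF bde (s1 U) ω2) := by
  rw [← tE_sU h1 hU, ← tE_sU h2 hU]
  unfold fE
  have h3 : ∀ T1, tE D ω2 (fun T2 => sU U (symmDiff T1 T2)) = sU U T1 * tE D ω2 (sU U) := by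
    intro T1
    unfold tE
    simp only [sU_symmDiff]
    rw [← Finset.mul_sum, mul_div_assoc]
  simp only [h3]
  unfold tE
  rw [← Finset.sum_mul]
  ring
-- END a3

/-! ## row a4: Fourier expansion of a function of the signs at the points of `W` -/

/-! ## row a4: Fourier expansion of a function of the signs at the points of `W` -/

-- BEGIN a4
private theorem a4_spin (T T' : Finset (Vx d)) (v : Vx d) (h : v ∈ T' ↔ v ∈ T) :
    1 + spin T' v * spin T v = 2 := by
  unfold spin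
  by_cases h1 : v ∈ T
  · rw [if_pos h1, if_pos (h.mpr h1)]; norm_num
  · rw [if_neg h1, if_neg (fun h2 => h1 (h.mp h2))]; norm_num

private theorem a4_spin' (T T' : Finset (Vx d)) (v : Vx d) (h : ¬ (v ∈ T' ↔ v ∈ T)) :
    1 + spin T' v * spin T v = 0 := by
  unfold spin
  by_cases h1 : v ∈ T
  · by_cases h2 : v ∈ T'
    · exact absurd ⟨fun _ => h1, fun _ => h2⟩ h
    · rw [if_pos h1, if_neg h2]; norm_num
  · by_cases h2 : v ∈ T'
    · rw [if_neg h1, if_pos h2]; norm_num
    · exact absurd ⟨fun h3 => absurd h3 h2, fun h3 => absurd h3 h1⟩ h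

private theorem a4_orth (W T T' : Finset (Vx d)) (hT' : T' ⊆ W) :
    ∑ U ∈ W.powerset, sU U T' * sU U T = if T' = T ∩ W then 2 ^ W.card else 0 := by
  have h1 : ∑ U ∈ W.powerset, sU U T' * sU U T = ∏ v ∈ W, (1 + spin T' v * spin T v) := by
    rw [Finset.prod_one_add]
    refine Finset.sum_congr rfl fun U _ => ?_
    unfold sU
    rw [← Finset.prod_mul_distrib]
  rw [h1]
  by_cases h : T' = T ∩ W
  · rw [if_pos h]
    rw [Finset.prod_congr rfl fun v hv => a4_spin T T' v (by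
      rw [h, Finset.mem_inter]
      exact ⟨fun h2 => h2.1, fun h2 => ⟨h2, hv⟩⟩)]
    simp
  · rw [if_neg h]
    have h2 : ∃ v ∈ W, ¬ (v ∈ T' ↔ v ∈ T) := by
      by_contra h3
      push Not at h3
      apply h
      ext v
      rw [Finset.mem_inter]
      constructor
      · intro h4
        exact ⟨(h3 v (hT' h4)).mp h4, hT' h4⟩
      · rintro ⟨h4, h5⟩
        exact (h3 v h5).mpr h4
    obtain ⟨v, hv, h3⟩ := h2
    exact Finset.prod_eq_zero hv (a4_spin' T T' v h3)

private theorem a4_abs (U T : Finset (Vx d)) : |sU U T| = 1 := by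
  unfold sU
  rw [Finset.abs_prod]
  refine Finset.prod_eq_one fun v _ => ?_
  unfold spin
  split_ifs <;> norm_num

theorem fourier (W : Finset (Vx d)) (f : Finset (Vx d) → ℝ) (hf : ∀ T, |f T| ≤ 1)
    (hW : ∀ T, f T = f (T ∩ W)) :
    ∃ F : Finset (Vx d) → ℝ, (∀ U, |F U| ≤ 1) ∧ ∀ T, f T = ∑ U ∈ W.powerset, F U * sU U T := by
  have p2 : (0 : ℝ) < 2 ^ W.card := by positivity
  refine ⟨fun U => (∑ T ∈ W.powerset, f T * sU U T) / 2 ^ W.card, fun U => ?_, fun T => ?_⟩
  · rw [abs_div, abs_of_pos p2, div_le_one p2]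
    refine (Finset.abs_sum_le_sum_abs _ _).trans ?_
    have h1 : ∑ T ∈ W.powerset, |f T * sU U T| ≤ ∑ T ∈ W.powerset, (1 : ℝ) := by
      refine Finset.sum_le_sum fun T _ => ?_
      rw [abs_mul, a4_abs, mul_one]
      exact hf T
    refine h1.trans ?_
    rw [Finset.sum_const, Finset.card_powerset]
    simp
  · have h1 : ∑ U ∈ W.powerset, (∑ T' ∈ W.powerset, f T' * sU U T') / 2 ^ W.card * sU U T =
        (∑ T' ∈ W.powerset, f T' * ∑ U ∈ W.powerset, sU U T' * sU U T) / 2 ^ W.card := by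
      have e1 : ∀ U : Finset (Vx d), (∑ T' ∈ W.powerset, f T' * sU U T') / 2 ^ W.card * sU U T =
          (∑ T' ∈ W.powerset, f T' * (sU U T' * sU U T)) / 2 ^ W.card := by
        intro U
        rw [div_mul_eq_mul_div, Finset.sum_mul]
        congr 1
        exact Finset.sum_congr rfl fun T' _ => by ring
      rw [Finset.sum_congr rfl fun U _ => e1 U, ← Finset.sum_div, Finset.sum_comm]
      congr 1
      refine Finset.sum_congr rfl fun T' _ => ?_
      rw [Finset.mul_sum]
    rw [h1, Finset.sum_congr rfl fun T' hT' => by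
      rw [a4_orth W T T' (Finset.mem_powerset.mp hT'), mul_ite, mul_zero]]
    rw [Finset.sum_ite_eq', if_pos (Finset.mem_powerset.mpr Finset.inter_subset_right)]
    rw [mul_div_assoc, div_self p2.ne', mul_one]
    exact hW T
-- END a4

/-! ## row a5: linearity -/

theorem tE_add (D : Finset (Vx d)) (ω : Finset (Ed d)) (f g : Finset (Vx d) → ℝ) :
    tE D ω (fun T => f T + g T) = tE D ω f + tE D ω g := by
  unfold tE
  rw [Finset.sum_add_distrib, add_div]

theorem tE_mono (D : Finset (Vx d)) (ω : Finset (Ed d)) {f g : Finset (Vx d) → ℝ}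
    (h : ∀ T ∈ HH D ω, f T ≤ g T) : tE D ω f ≤ tE D ω g := by
  unfold tE
  exact div_le_div_of_nonneg_right (Finset.sum_le_sum h) (Nat.cast_nonneg _)

theorem fE_mono (D : Finset (Vx d)) (ω1 ω2 : Finset (Ed d)) {f g : Finset (Vx d) → ℝ}
    (h : ∀ T1 ∈ HH D ω1, ∀ T2 ∈ HH D ω2, f (symmDiff T1 T2) ≤ g (symmDiff T1 T2)) :
    fE D ω1 ω2 f ≤ fE D ω1 ω2 g := by
  unfold fE
  exact tE_mono D ω1 fun T1 hT1 => tE_mono D ω2 fun T2 hT2 => h T1 hT1 T2 hT2

theorem tE_sum (D : Finset (Vx d)) (ω : Finset (Ed d)) {κ : Type*} (s : Finset κ)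
    (c : κ → ℝ) (f : κ → Finset (Vx d) → ℝ) :
    tE D ω (fun T => ∑ i ∈ s, c i * f i T) = ∑ i ∈ s, c i * tE D ω (f i) := by
  unfold tE
  rw [Finset.sum_comm, Finset.sum_div]
  refine Finset.sum_congr rfl fun i _ => ?_
  rw [← Finset.mul_sum, mul_div_assoc]

theorem fE_sum (D : Finset (Vx d)) (ω1 ω2 : Finset (Ed d)) {κ : Type*} (s : Finset κ)
    (c : κ → ℝ) (f : κ → Finset (Vx d) → ℝ) :
    fE D ω1 ω2 (fun T => ∑ i ∈ s, c i * f i T) = ∑ i ∈ s, c i * fE D ω1 ω2 (f i) := by
  unfold fE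
  rw [← tE_sum]
  congr 1
  funext T1
  exact tE_sum D ω2 s c fun i T2 => f i (symmDiff T1 T2)

/-- from `fourier`, `tE_sU`, `switch` -/
theorem MM_tE {D : Finset (Vx d)} {E : Finset (Ed d)} (hE : EndsIn E D) (x : ℝ) (A : Vx d → ZMod 2)
    {W : Finset (Vx d)} (hWD : W ⊆ D) (F : Finset (Vx d) → ℝ) (f : Finset (Vx d) → ℝ)
    (hf : ∀ T, f T = ∑ U ∈ W.powerset, F U * sU U T) :
    MM x E A (fun η1 η2 b => tE D (η1 ∪ η2 ∪ b) f) =
      ∑ U ∈ W.powerset, F U * (ZA bde (fun _ => x) E (A + s1 U) * ZA bde (fun _ => x) E (s1 U)) := by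
  have h1 : ∀ η1 ∈ E.powerset, ∀ η2 ∈ E.powerset, ∀ b ∈ E.powerset,
      tE D (η1 ∪ η2 ∪ b) f = ∑ U ∈ W.powerset, F U * ind (FF bde (s1 U) (η1 ∪ η2 ∪ b)) := by
    intro η1 h1 η2 h2 b hb
    have hf' : f = fun T => ∑ U ∈ W.powerset, F U * sU U T := funext hf
    have hω : EndsIn (η1 ∪ η2 ∪ b) D := by
      intro e he
      rw [Finset.mem_union, Finset.mem_union] at he
      rcases he with (he | he) | he
      · exact hE e (Finset.mem_powerset.1 h1 he)
      · exact hE e (Finset.mem_powerset.1 h2 he)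
      · exact hE e (Finset.mem_powerset.1 hb he)
    rw [hf', tE_sum D (η1 ∪ η2 ∪ b) W.powerset F fun U T => sU U T]
    refine Finset.sum_congr rfl fun U hU => ?_
    rw [← tE_sU hω ((Finset.mem_powerset.1 hU).trans hWD)]
  have h2 : ∀ U ∈ W.powerset, F U * (ZA bde (fun _ => x) E (A + s1 U) * ZA bde (fun _ => x) E (s1 U)) =
      ∑ η1 ∈ E.powerset, ∑ η2 ∈ E.powerset, ∑ b ∈ E.powerset,
        ind (bd η1 = A) * ind (bd η2 = 0) * (x ^ η1.card * x ^ η2.card * wB (fun _ => x ^ 2) E b) *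
          (F U * ind (FF bde (s1 U) (η1 ∪ η2 ∪ b))) := by
    intro U _
    rw [← switch x E A (s1 U)]
    unfold MM
    rw [Finset.mul_sum]
    refine Finset.sum_congr rfl fun η1 _ => ?_
    rw [Finset.mul_sum]
    refine Finset.sum_congr rfl fun η2 _ => ?_
    rw [Finset.mul_sum]
    refine Finset.sum_congr rfl fun b _ => ?_
    ring
  rw [Finset.sum_congr rfl h2]
  unfold MM
  refine Eq.trans (Finset.sum_congr rfl fun η1 hη1 => ?_) Finset.sum_comm
  refine Eq.trans (Finset.sum_congr rfl fun η2 hη2 => ?_) Finset.sum_comm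
  refine Eq.trans (Finset.sum_congr rfl fun b hb => ?_) Finset.sum_comm
  beta_reduce
  rw [h1 η1 hη1 η2 hη2 b hb, Finset.mul_sum]


/-! ## row a6: the transfer. `ZA (A + s1 U) = FW (A + s1 U) 1`; on `Gd` the parity event `A + s1 U` is `H` and
the parity event `s1 U`; off `Gd` use the bound; `ZA (A + s1 U) ≤ 2 ZA A` follows in the same way. -/

/-! ## row a6: the transfer. `ZA (A + s1 U) = FW (A + s1 U) 1`; on `Gd` the parity event `A + s1 U` is `H` and
the parity event `s1 U`; off `Gd` use the bound; `ZA (A + s1 U) ≤ 2 ZA A` follows in the same way. -/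

-- BEGIN a6
private theorem a6_h2 (g : Vx d → ZMod 2) : g + g = 0 := by
  funext v
  exact CharTwo.add_self_eq_zero (g v)

private theorem a6_fE {D : Finset (Vx d)} {E : Finset (Ed d)} (hE : EndsIn E D)
    {W : Finset (Vx d)} (hWD : W ⊆ D) (F f : Finset (Vx d) → ℝ)
    (hf : ∀ T, f T = ∑ U ∈ W.powerset, F U * sU U T) {ω1 ω2 : Finset (Ed d)} (h1 : ω1 ⊆ E)
    (h2 : ω2 ⊆ E) : fE D ω1 ω2 f =
      ∑ U ∈ W.powerset, F U * (ind (FF bde (s1 U) ω1) * ind (FF bde (s1 U) ω2)) := by
  have e : f = fun T => ∑ U ∈ W.powerset, F U * sU U T := funext hf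
  rw [e, fE_sum]
  refine Finset.sum_congr rfl fun U hU => ?_
  rw [fE_sU (fun e he => hE e (h1 he)) (fun e he => hE e (h2 he))
    ((Finset.mem_powerset.mp hU).trans hWD)]

private theorem a6_K {D : Finset (Vx d)} {E : Finset (Ed d)} (hE : EndsIn E D) (x : ℝ)
    {W : Finset (Vx d)} (hWD : W ⊆ D) (F f : Finset (Vx d) → ℝ)
    (hf : ∀ T, f T = ∑ U ∈ W.powerset, F U * sU U T) (P : Finset (Ed d) → Prop) :
    ∑ ω1 ∈ E.powerset, wF bde (fun _ => x) E ω1 * ind (P ω1) *
        FW x E 0 (fun ω2 => fE D ω1 ω2 f) =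
      ∑ U ∈ W.powerset, F U * ((∑ ω1 ∈ E.powerset, wF bde (fun _ => x) E ω1 *
        (ind (P ω1) * ind (FF bde (s1 U) ω1))) * ZA bde (fun _ => x) E (s1 U)) := by
  have e1 : ∀ ω1 ∈ E.powerset, wF bde (fun _ => x) E ω1 * ind (P ω1) *
      FW x E 0 (fun ω2 => fE D ω1 ω2 f) =
      ∑ U ∈ W.powerset, F U * ((wF bde (fun _ => x) E ω1 *
        (ind (P ω1) * ind (FF bde (s1 U) ω1))) * ZA bde (fun _ => x) E (s1 U)) := by
    intro ω1 h1
    rw [Finset.mem_powerset] at h1
    have e2 : FW x E 0 (fun ω2 => fE D ω1 ω2 f) =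
        ∑ U ∈ W.powerset, F U * (ind (FF bde (s1 U) ω1) * ZA bde (fun _ => x) E (s1 U)) := by
      unfold FW
      have e3 : ∀ ω2 ∈ E.powerset, wF bde (fun _ => x) E ω2 * ind (FF bde 0 ω2) *
          fE D ω1 ω2 f = ∑ U ∈ W.powerset, F U * (ind (FF bde (s1 U) ω1) *
            (wF bde (fun _ => x) E ω2 * ind (FF bde (s1 U) ω2))) := by
        intro ω2 h2
        rw [Finset.mem_powerset] at h2
        rw [Pool.Agent.SRC.ind_true (FF.zero ω2), mul_one, a6_fE hE hWD F f hf h1 h2,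
          Finset.mul_sum]
        exact Finset.sum_congr rfl fun U _ => by ring
      rw [Finset.sum_congr rfl e3, Finset.sum_comm]
      refine Finset.sum_congr rfl fun U _ => ?_
      rw [Pool.Agent.FK1.ZA_eq a6_h2, ← Finset.mul_sum, ← Finset.mul_sum]
    rw [e2, Finset.mul_sum]
    exact Finset.sum_congr rfl fun U _ => by ring
  rw [Finset.sum_congr rfl e1, Finset.sum_comm]
  refine Finset.sum_congr rfl fun U _ => ?_
  rw [← Finset.mul_sum, ← Finset.sum_mul]

/-- without sources the sign field of the double current is exactly the product of two FK sign fields -/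
theorem transfer0 {D : Finset (Vx d)} {E : Finset (Ed d)} (hE : EndsIn E D) (x : ℝ)
    {W : Finset (Vx d)} (hWD : W ⊆ D) (f : Finset (Vx d) → ℝ) (hf : ∀ T, |f T| ≤ 1)
    (hW : ∀ T, f T = f (T ∩ W)) :
    MM x E 0 (fun η1 η2 b => tE D (η1 ∪ η2 ∪ b) f) = FP x E 0 (fun ω1 ω2 => fE D ω1 ω2 f) := by
  obtain ⟨F, _, hF⟩ := fourier W f hf hW
  rw [MM_tE hE x 0 hWD F f hF]
  have h1 := a6_K hE x hWD F f hF (FF bde 0)
  have h3 : FP x E 0 (fun ω1 ω2 => fE D ω1 ω2 f) =
      ∑ ω1 ∈ E.powerset, wF bde (fun _ => x) E ω1 * ind (FF bde 0 ω1) *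
        FW x E 0 (fun ω2 => fE D ω1 ω2 f) := rfl
  rw [h3, h1]
  refine Finset.sum_congr rfl fun U _ => ?_
  rw [zero_add]
  congr 2
  rw [Pool.Agent.FK1.ZA_eq a6_h2]
  refine Finset.sum_congr rfl fun ω _ => ?_
  rw [Pool.Agent.SRC.ind_true (FF.zero ω), one_mul]

private theorem a6_sub {x : ℝ} (h0 : 0 ≤ x) (h1 : x ≤ 1) (E : Finset (Ed d))
    {P Q : Finset (Ed d) → Prop} (h : ∀ ω ⊆ E, P ω → Q ω) :
    ∑ ω ∈ E.powerset, wF bde (fun _ => x) E ω * ind (P ω) ≤
      ∑ ω ∈ E.powerset, wF bde (fun _ => x) E ω * ind (Q ω) := by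
  refine Finset.sum_le_sum fun ω hω => ?_
  rw [Finset.mem_powerset] at hω
  exact mul_le_mul_of_nonneg_left (Pool.Agent.SRC.ind_mono (h ω hω))
    (Pool.Agent.FK1.wF_nonneg (fun _ _ => h0) (fun _ _ => h1) hω)

theorem transfer {D : Finset (Vx d)} {E : Finset (Ed d)} (hE : EndsIn E D) {x : ℝ} (h0 : 0 ≤ x)
    (h1 : x ≤ 1) (A : Vx d → ZMod 2) {W : Finset (Vx d)} (hWD : W ⊆ D)
    (Gd H : Finset (Ed d) → Prop) (hHA : ∀ ω ⊆ E, H ω → FF bde A ω)
    (hpar : ∀ ω ⊆ E, Gd ω → ∀ U ⊆ W, (FF bde (A + s1 U) ω ↔ H ω ∧ FF bde (s1 U) ω))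
    {δ : ℝ} (hδ0 : 0 ≤ δ) (hδ : δ ≤ 1 / 2)
    (hGd : ∀ U ⊆ W, FW x E (A + s1 U) (fun ω => ind (¬ Gd ω)) ≤
      δ * FW x E (A + s1 U) (fun _ => 1))
    (f : Finset (Vx d) → ℝ) (hf0 : ∀ T, 0 ≤ f T) (hf1 : ∀ T, f T ≤ 1)
    (hW : ∀ T, f T = f (T ∩ W)) :
    MM x E A (fun η1 η2 b => tE D (η1 ∪ η2 ∪ b) f) ≤
      FP x E A (fun ω1 ω2 => fE D ω1 ω2 f) +
        (2 : ℝ) ^ W.card * (2 * δ) * (ZA bde (fun _ => x) E A * ZA bde (fun _ => x) E 0) := by
  have habs : ∀ T, |f T| ≤ 1 := fun T => by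
    rw [abs_of_nonneg (hf0 T)]; exact hf1 T
  obtain ⟨F, hFa, hF⟩ := fourier W f habs hW
  rw [MM_tE hE x A hWD F f hF]
  -- the middle quantity
  have hK := a6_K hE x hWD F f hF (fun ω => H ω ∧ Gd ω)
  have wn : ∀ ω ∈ E.powerset, 0 ≤ wF bde (fun _ => x) E ω := fun ω hω =>
    Pool.Agent.FK1.wF_nonneg (fun _ _ => h0) (fun _ _ => h1) (Finset.mem_powerset.mp hω)
  -- FP from below
  have hlow : ∑ ω1 ∈ E.powerset, wF bde (fun _ => x) E ω1 * ind (H ω1 ∧ Gd ω1) *
      FW x E 0 (fun ω2 => fE D ω1 ω2 f) ≤ FP x E A (fun ω1 ω2 => fE D ω1 ω2 f) := by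
    show _ ≤ ∑ ω1 ∈ E.powerset, wF bde (fun _ => x) E ω1 * ind (FF bde A ω1) *
      FW x E 0 (fun ω2 => fE D ω1 ω2 f)
    refine Finset.sum_le_sum fun ω1 hω1 => ?_
    have hω1' := Finset.mem_powerset.mp hω1
    refine mul_le_mul_of_nonneg_right (mul_le_mul_of_nonneg_left
      (Pool.Agent.SRC.ind_mono fun h => hHA ω1 hω1' h.1) (wn ω1 hω1)) ?_
    unfold FW
    refine Finset.sum_nonneg fun ω2 hω2 => mul_nonneg (mul_nonneg (wn ω2 hω2)
      (Pool.Agent.SRC.ind_nonneg _)) ?_
    unfold fE tE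
    exact div_nonneg (Finset.sum_nonneg fun T1 _ => div_nonneg
      (Finset.sum_nonneg fun T2 _ => hf0 _) (Nat.cast_nonneg _)) (Nat.cast_nonneg _)
  -- abbreviations
  have eZ : ∀ B, ZA bde (fun _ => x) E B =
      ∑ ω ∈ E.powerset, wF bde (fun _ => x) E ω * ind (FF bde B ω) := fun B =>
    Pool.Agent.FK1.ZA_eq a6_h2 _ E B
  have hZn : ∀ B, 0 ≤ ZA bde (fun _ => x) E B := fun B => by
    rw [eZ]
    exact Finset.sum_nonneg fun ω hω => mul_nonneg (wn ω hω) (Pool.Agent.SRC.ind_nonneg _)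
  have hZ0 : ∀ B, ZA bde (fun _ => x) E B ≤ ZA bde (fun _ => x) E 0 := fun B => by
    rw [eZ, eZ 0]
    exact a6_sub h0 h1 E fun ω _ _ => FF.zero ω
  -- decomposition of `ZA (A + s1 U)`
  have hdec : ∀ U ⊆ W, ZA bde (fun _ => x) E (A + s1 U) =
      (∑ ω ∈ E.powerset, wF bde (fun _ => x) E ω * (ind (H ω ∧ Gd ω) * ind (FF bde (s1 U) ω))) +
        FW x E (A + s1 U) (fun ω => ind (¬ Gd ω)) := by
    intro U hU
    rw [eZ]
    unfold FW
    rw [← Finset.sum_add_distrib]
    refine Finset.sum_congr rfl fun ω hω => ?_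
    have hω' := Finset.mem_powerset.mp hω
    show wF bde (fun _ => x) E ω * ind (FF bde (A + s1 U) ω) =
      wF bde (fun _ => x) E ω * (ind (H ω ∧ Gd ω) * ind (FF bde (s1 U) ω)) +
        wF bde (fun _ => x) E ω * ind (FF bde (A + s1 U) ω) * ind (¬ Gd ω)
    by_cases hG : Gd ω
    · rw [Pool.Agent.SRC.ind_false (p := ¬ Gd ω) (not_not.mpr hG), mul_zero, add_zero]
      congr 1
      rw [← Pool.Agent.SRC.ind_and]
      refine Pool.Agent.SRC.ind_congr ?_
      rw [hpar ω hω' hG U hU]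
      exact ⟨fun h => ⟨⟨h.1, hG⟩, h.2⟩, fun h => ⟨h.1.1, h.2⟩⟩
    · rw [Pool.Agent.SRC.ind_true (p := ¬ Gd ω) hG, mul_one,
        Pool.Agent.SRC.ind_false (p := H ω ∧ Gd ω) (fun h => hG h.2), zero_mul, mul_zero, zero_add]
  have hbad : ∀ U ⊆ W, FW x E (A + s1 U) (fun ω => ind (¬ Gd ω)) ≤
      δ * ZA bde (fun _ => x) E (A + s1 U) := fun U hU => by
    have := hGd U hU
    rwa [FW_one] at this
  have hmid : ∀ U, (∑ ω ∈ E.powerset, wF bde (fun _ => x) E ω *
      (ind (H ω ∧ Gd ω) * ind (FF bde (s1 U) ω))) ≤ ZA bde (fun _ => x) E A := by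
    intro U
    rw [eZ]
    refine Finset.sum_le_sum fun ω hω => mul_le_mul_of_nonneg_left ?_ (wn ω hω)
    have hω' := Finset.mem_powerset.mp hω
    rw [← Pool.Agent.SRC.ind_and]
    exact Pool.Agent.SRC.ind_mono fun h => hHA ω hω' h.1.1
  have hfac : ∀ U ⊆ W, ZA bde (fun _ => x) E (A + s1 U) ≤ 2 * ZA bde (fun _ => x) E A := by
    intro U hU
    have k1 := hdec U hU
    have k2 := hbad U hU
    have k3 := hmid U
    have k4 := hZn (A + s1 U)
    nlinarith
  -- assembly
  have hterm : ∀ U ∈ W.powerset,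
      F U * (ZA bde (fun _ => x) E (A + s1 U) * ZA bde (fun _ => x) E (s1 U)) ≤
        F U * ((∑ ω ∈ E.powerset, wF bde (fun _ => x) E ω *
          (ind (H ω ∧ Gd ω) * ind (FF bde (s1 U) ω))) * ZA bde (fun _ => x) E (s1 U)) +
          2 * δ * (ZA bde (fun _ => x) E A * ZA bde (fun _ => x) E 0) := by
    intro U hU
    have hU' := Finset.mem_powerset.mp hU
    have k1 := hdec U hU'
    have k2 := hbad U hU'
    have k5 := hfac U hU'
    set b := FW x E (A + s1 U) (fun ω => ind (¬ Gd ω)) with hb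
    have hb0 : 0 ≤ b := by
      rw [hb]
      exact Finset.sum_nonneg fun ω hω => mul_nonneg (mul_nonneg (wn ω hω)
        (Pool.Agent.SRC.ind_nonneg _)) (Pool.Agent.SRC.ind_nonneg _)
    have k6 : b ≤ 2 * δ * ZA bde (fun _ => x) E A := by
      refine k2.trans ?_
      have := mul_le_mul_of_nonneg_left k5 hδ0
      linarith
    rw [k1, add_mul, mul_add]
    have k7 : F U * (b * ZA bde (fun _ => x) E (s1 U)) ≤
        2 * δ * (ZA bde (fun _ => x) E A * ZA bde (fun _ => x) E 0) := by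
      have a1 : F U * (b * ZA bde (fun _ => x) E (s1 U)) ≤ b * ZA bde (fun _ => x) E (s1 U) := by
        have a2 : F U ≤ 1 := (le_abs_self _).trans (hFa U)
        have a3 : 0 ≤ b * ZA bde (fun _ => x) E (s1 U) := mul_nonneg hb0 (hZn _)
        nlinarith
      refine a1.trans ?_
      calc b * ZA bde (fun _ => x) E (s1 U)
          ≤ (2 * δ * ZA bde (fun _ => x) E A) * ZA bde (fun _ => x) E 0 :=
            mul_le_mul k6 (hZ0 _) (hZn _) (hb0.trans k6)
        _ = _ := by ring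
    linarith
  refine (Finset.sum_le_sum hterm).trans ?_
  rw [Finset.sum_add_distrib, ← hK, Finset.sum_const, Finset.card_powerset, nsmul_eq_mul]
  push_cast
  have : (2 : ℝ) ^ W.card * (2 * δ * (ZA bde (fun _ => x) E A * ZA bde (fun _ => x) E 0)) =
      (2 : ℝ) ^ W.card * (2 * δ) * (ZA bde (fun _ => x) E A * ZA bde (fun _ => x) E 0) := by ring
  linarith
-- END a6

end Pool.Agent.Fac
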