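import Pool.Agent.Fac.Nse

/-!
# Block FAC, products of local events for the FK pair (helper61)
-/

set_option autoImplicit false

namespace Pool.Agent.Fac

open Finset
open Pool.Agent.SRC (Vx Ed tip bde bd edg conn ind fl uv)
open Pool.Agent.FK1 (wB wF FF NN bdm ZA Inc SD)
open Pool.Agent.TC (spin cf)

variable {d : ℕ}

/-! ## row b1: Markov property. `wF ω * ind (FF A ω) = wB ω * NN A ω` (`NN_eq`) and
`NN A (ω' ∪ ω'') = ∑ η' ⊆ ω', NN (A + bd η') ω''` for disjoint `ω'`, `ω''`. -/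

private theorem b1_h2 (g : Vx d → ZMod 2) : g + g = 0 := by
  funext v
  exact CharTwo.add_self_eq_zero _

private theorem b1_FW (x : ℝ) (E : Finset (Ed d)) (A : Vx d → ZMod 2) (f : Finset (Ed d) → ℝ) :
    FW x E A f = ∑ ω ∈ E.powerset, wB (fun _ => x) E ω * NN bde A ω * f ω := by
  unfold FW
  refine Finset.sum_congr rfl fun ω _ => ?_
  rw [FK1.NN_eq b1_h2 A ω]
  unfold wF
  ring

private theorem b1_NN (A : Vx d → ZMod 2) {ω ω' : Finset (Ed d)} (h : Disjoint ω ω') :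
    NN bde A (ω ∪ ω') = ∑ η ∈ ω.powerset, NN bde (A + bd η) ω' := by
  unfold NN
  rw [FK1.sum_powerset_union ω ω' h]
  refine Finset.sum_congr rfl fun s hs => Finset.sum_congr rfl fun t ht => ?_
  rw [Finset.mem_powerset] at hs ht
  rw [FK1.bdm_union (Finset.disjoint_of_subset_left hs (Finset.disjoint_of_subset_right ht h))]
  have h1 : bdm bde s = bd s := rfl
  rw [h1]
  apply SRC.ind_congr
  constructor
  · intro h2
    rw [← h2, add_right_comm, b1_h2, zero_add]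
  · intro h2
    rw [h2, add_left_comm, b1_h2, add_zero]

theorem FW_split (x : ℝ) {E F : Finset (Ed d)} (hF : F ⊆ E) (A : Vx d → ZMod 2)
    (f : Finset (Ed d) → ℝ) :
    FW x E A f = ∑ ω ∈ (E \ F).powerset, wB (fun _ => x) (E \ F) ω *
      ∑ η ∈ ω.powerset, FW x F (A + bd η) (fun ω' => f (ω ∪ ω')) := by
  have hE : E = (E \ F) ∪ F := (Finset.sdiff_union_of_subset hF).symm
  have hd : Disjoint (E \ F) F := Finset.sdiff_disjoint
  rw [b1_FW]
  have h1 : ∑ ω ∈ E.powerset, wB (fun _ => x) E ω * NN bde A ω * f ω =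
      ∑ ω ∈ ((E \ F) ∪ F).powerset, wB (fun _ => x) ((E \ F) ∪ F) ω * NN bde A ω * f ω := by
    rw [← hE]
  rw [h1, FK1.sum_powerset_union _ _ hd]
  refine Finset.sum_congr rfl fun ω hω => ?_
  rw [Finset.mem_powerset] at hω
  simp only [b1_FW]
  rw [Finset.sum_comm, Finset.mul_sum]
  refine Finset.sum_congr rfl fun ω' hω' => ?_
  rw [Finset.mem_powerset] at hω'
  rw [FK1.wB_union _ hd hω hω',
    b1_NN A (Finset.disjoint_of_subset_left hω (Finset.disjoint_of_subset_right hω' hd))]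
  rw [Finset.mul_sum, Finset.sum_mul, Finset.mul_sum]
  refine Finset.sum_congr rfl fun η _ => ?_
  ring

private theorem b1_congr (x : ℝ) {F : Finset (Ed d)} (A : Vx d → ZMod 2)
    {f f' : Finset (Ed d) → ℝ} (h : ∀ ω, ω ⊆ F → f ω = f' ω) : FW x F A f = FW x F A f' := by
  unfold FW
  exact Finset.sum_congr rfl fun ω hω => by rw [h ω (Finset.mem_powerset.1 hω)]

private theorem b1_mul (x : ℝ) (F : Finset (Ed d)) (A : Vx d → ZMod 2)
    (f : Finset (Ed d) → ℝ) (c : ℝ) : FW x F A (fun ω => f ω * c) = FW x F A f * c := by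
  unfold FW
  rw [Finset.sum_mul]
  exact Finset.sum_congr rfl fun ω _ => by ring

private theorem b1_inter {E F ω ω' : Finset (Ed d)} (hω : ω ⊆ E \ F) (hω' : ω' ⊆ F) :
    (ω ∪ ω') ∩ F = ω' := by
  rw [Finset.union_inter_distrib_right, Finset.inter_eq_left.2 hω',
    Finset.disjoint_iff_inter_eq_empty.1
      (Finset.disjoint_of_subset_left hω Finset.sdiff_disjoint), Finset.empty_union]

private theorem b1_sdiff {E F ω ω' : Finset (Ed d)} (hω : ω ⊆ E \ F) (hω' : ω' ⊆ F) :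
    (ω ∪ ω') \ F = ω := by
  rw [Finset.union_sdiff_distrib, Finset.sdiff_eq_empty_iff_subset.2 hω', Finset.union_empty]
  exact Finset.sdiff_eq_self_of_disjoint
    (Finset.disjoint_of_subset_left hω Finset.sdiff_disjoint)

private theorem b1_wB {x : ℝ} (h0 : 0 ≤ x) (h1 : x ≤ 1) {E ω : Finset (Ed d)} (hω : ω ⊆ E) :
    0 ≤ wB (fun _ => x) E ω :=
  FK1.wB_nonneg (fun _ _ => h0) (fun _ _ => h1) hω

/-- a bound for all sources in `F` holds given everything outside of `F` -/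
theorem FW_local {x : ℝ} (h0 : 0 ≤ x) (h1 : x ≤ 1) {E F : Finset (Ed d)} (hF : F ⊆ E)
    (A : Vx d → ZMod 2) {g : Finset (Ed d) → ℝ} {ε : ℝ}
    (hg : ∀ A' : Vx d → ZMod 2, FW x F A' g ≤ ε * FW x F A' (fun _ => 1))
    (G : Finset (Ed d) → ℝ) (hG0 : ∀ ω, 0 ≤ G ω) (hG : ∀ ω, G ω = G (ω \ F)) :
    FW x E A (fun ω => g (ω ∩ F) * G ω) ≤ ε * FW x E A G := by
  rw [FW_split x hF, FW_split x hF A G, Finset.mul_sum]
  refine Finset.sum_le_sum fun ω hω => ?_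
  rw [Finset.mem_powerset] at hω
  rw [mul_left_comm]
  refine mul_le_mul_of_nonneg_left ?_ (b1_wB h0 h1 hω)
  rw [Finset.mul_sum]
  refine Finset.sum_le_sum fun η _ => ?_
  have e1 : FW x F (A + bd η) (fun ω' => g ((ω ∪ ω') ∩ F) * G (ω ∪ ω')) =
      FW x F (A + bd η) g * G ω := by
    rw [← b1_mul]
    refine b1_congr x _ fun ω' hω' => ?_
    rw [b1_inter hω hω', hG (ω ∪ ω'), b1_sdiff hω hω']
  have e2 : FW x F (A + bd η) (fun ω' => G (ω ∪ ω')) =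
      FW x F (A + bd η) (fun _ => 1) * G ω := by
    rw [← b1_mul]
    refine b1_congr x _ fun ω' hω' => ?_
    rw [hG (ω ∪ ω'), b1_sdiff hω hω', one_mul]
  rw [e1, e2, ← mul_assoc]
  exact mul_le_mul_of_nonneg_right (hg _) (hG0 ω)

private theorem b1_lin (x : ℝ) (F : Finset (Ed d)) (A : Vx d → ZMod 2)
    (S : Finset (Finset (Ed d))) (c : Finset (Ed d) → ℝ)
    (h : Finset (Ed d) → Finset (Ed d) → Finset (Ed d) → ℝ) :
    FW x F A (fun ω => ∑ b ∈ S, c b * ∑ ζ ∈ b.powerset, h b ζ ω) =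
      ∑ b ∈ S, c b * ∑ ζ ∈ b.powerset, FW x F A (fun ω => h b ζ ω) := by
  unfold FW
  simp only [Finset.mul_sum]
  rw [Finset.sum_comm]
  refine Finset.sum_congr rfl fun b _ => ?_
  rw [Finset.sum_comm]
  refine Finset.sum_congr rfl fun ζ _ => Finset.sum_congr rfl fun ω _ => ?_
  ring

private theorem b1_FP (x : ℝ) {E F : Finset (Ed d)} (hF : F ⊆ E) (A : Vx d → ZMod 2)
    (f : Finset (Ed d) → Finset (Ed d) → ℝ) (u : Finset (Ed d) → Finset (Ed d) → ℝ)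
    (G : Finset (Ed d) → Finset (Ed d) → ℝ)
    (hf : ∀ a b ω1 ω2, a ⊆ E \ F → b ⊆ E \ F → ω1 ⊆ F → ω2 ⊆ F →
      f (a ∪ ω1) (b ∪ ω2) = u ω1 ω2 * G a b) :
    FP x E A f = ∑ a ∈ (E \ F).powerset, wB (fun _ => x) (E \ F) a *
      ∑ η ∈ a.powerset, ∑ b ∈ (E \ F).powerset, wB (fun _ => x) (E \ F) b *
        ∑ ζ ∈ b.powerset, FW x F (A + bd η) (fun ω1 => FW x F (0 + bd ζ) (fun ω2 => u ω1 ω2)) *
          G a b := by
  unfold FP
  rw [FW_split x hF]
  refine Finset.sum_congr rfl fun a ha => ?_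
  rw [Finset.mem_powerset] at ha
  congr 1
  refine Finset.sum_congr rfl fun η _ => ?_
  have e1 : FW x F (A + bd η) (fun ω' => FW x E 0 (fun ω2 => f (a ∪ ω') ω2)) =
      FW x F (A + bd η) (fun ω' => ∑ b ∈ (E \ F).powerset, wB (fun _ => x) (E \ F) b *
        ∑ ζ ∈ b.powerset, FW x F (0 + bd ζ) (fun ω2 => u ω' ω2) * G a b) := by
    refine b1_congr x _ fun ω' hω' => ?_
    rw [FW_split x hF]
    refine Finset.sum_congr rfl fun b hb => ?_
    rw [Finset.mem_powerset] at hb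
    congr 1
    refine Finset.sum_congr rfl fun ζ _ => ?_
    rw [← b1_mul]
    exact b1_congr x _ fun ω2 hω2 => hf a b ω' ω2 ha hb hω' hω2
  rw [e1, b1_lin]
  refine Finset.sum_congr rfl fun b _ => ?_
  congr 1
  refine Finset.sum_congr rfl fun ζ _ => ?_
  rw [b1_mul]

theorem FP_local {x : ℝ} (h0 : 0 ≤ x) (h1 : x ≤ 1) {E F : Finset (Ed d)} (hF : F ⊆ E)
    (A : Vx d → ZMod 2) {g : Finset (Ed d) → Finset (Ed d) → ℝ} {ε : ℝ}
    (hg : ∀ A1 A2 : Vx d → ZMod 2, FW x F A1 (fun ω1 => FW x F A2 (fun ω2 => g ω1 ω2)) ≤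
      ε * (FW x F A1 (fun _ => 1) * FW x F A2 (fun _ => 1)))
    (G : Finset (Ed d) → Finset (Ed d) → ℝ) (hG0 : ∀ ω1 ω2, 0 ≤ G ω1 ω2)
    (hG : ∀ ω1 ω2, G ω1 ω2 = G (ω1 \ F) (ω2 \ F)) :
    FP x E A (fun ω1 ω2 => g (ω1 ∩ F) (ω2 ∩ F) * G ω1 ω2) ≤ ε * FP x E A G := by
  rw [b1_FP x hF A _ g G (fun a b ω1 ω2 ha hb hω1 hω2 => by
      rw [b1_inter ha hω1, b1_inter hb hω2, hG (a ∪ ω1), b1_sdiff ha hω1, b1_sdiff hb hω2]),
    b1_FP x hF A G (fun _ _ => 1) G (fun a b ω1 ω2 ha hb hω1 hω2 => by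
      rw [hG (a ∪ ω1), b1_sdiff ha hω1, b1_sdiff hb hω2, one_mul])]
  rw [Finset.mul_sum]
  refine Finset.sum_le_sum fun a ha => ?_
  rw [Finset.mem_powerset] at ha
  rw [mul_left_comm]
  refine mul_le_mul_of_nonneg_left ?_ (b1_wB h0 h1 ha)
  rw [Finset.mul_sum]
  refine Finset.sum_le_sum fun η _ => ?_
  rw [Finset.mul_sum]
  refine Finset.sum_le_sum fun b hb => ?_
  rw [Finset.mem_powerset] at hb
  rw [mul_left_comm]
  refine mul_le_mul_of_nonneg_left ?_ (b1_wB h0 h1 hb)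
  rw [Finset.mul_sum]
  refine Finset.sum_le_sum fun ζ _ => ?_
  rw [← mul_assoc]
  refine mul_le_mul_of_nonneg_right (le_trans (hg _ _) (le_of_eq ?_)) (hG0 a b)
  congr 1
  have e3 := b1_mul x F (A + bd η) (fun _ => (1 : ℝ)) (FW x F (0 + bd ζ) (fun _ => 1))
  rw [← e3]
  exact b1_congr x _ fun ω _ => by rw [one_mul]

/-! ## row b2: `gF` is local, the regions of sparse blocks are disjoint -/

private theorem b2_edg {S S' : Finset (Vx d)} (h : S ⊆ S') : edg S ⊆ edg S' := by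
  intro e he
  simp only [edg, Finset.mem_filter, Finset.mem_product, Finset.mem_univ, and_true] at he ⊢
  exact ⟨h he.1, h he.2⟩

private theorem b2_ball {l n : ℕ} (hn : 1 ≤ n) {Q Q' w : Vx d} (hQ : Q' ∈ ball Q 1)
    (hw : w ∈ fi n Q') : ball (ce l w) l ⊆ RG l n Q := by
  intro v hv
  unfold ball at hQ hv
  unfold fi at hw
  unfold RG
  rw [Finset.mem_Icc, Pi.le_def, Pi.le_def] at hQ hv hw ⊢
  simp only [ce] at hv
  have hl : (0 : ℤ) ≤ 2 * (l : ℤ) + 1 := by positivity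
  have hn' : (0 : ℤ) ≤ (n : ℤ) := by positivity
  constructor
  · intro k
    have h1 := hv.1 k
    have h2 := hw.1 k
    have h3 := hQ.1 k
    have h4 : (n : ℤ) * (Q k - 2) ≤ n * Q' k :=
      mul_le_mul_of_nonneg_left (by push_cast at h3; linarith) hn'
    have h5 := mul_le_mul_of_nonneg_left (le_trans h4 h2) hl
    show (2 * (l : ℤ) + 1) * n * (Q k - 2) - l ≤ v k
    rw [mul_assoc]
    linarith
  · intro k
    have h1 := hv.2 k
    have h2 := hw.2 k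
    have h3 := hQ.2 k
    have h4 : (n : ℤ) * Q' k ≤ n * (Q k + 2) :=
      mul_le_mul_of_nonneg_left (by push_cast at h3; linarith) hn'
    have h6 : w k ≤ n * (Q k + 3) - 1 := by
      have : (n : ℤ) * (Q k + 3) = n * (Q k + 2) + n := by ring
      linarith
    have h5 := mul_le_mul_of_nonneg_left h6 hl
    show v k ≤ (2 * (l : ℤ) + 1) * n * (Q k + 3) - l - 1
    rw [mul_assoc]
    linarith

private theorem b2_inter {S S' : Finset (Vx d)} (h : S ⊆ S') {ω ω' : Finset (Ed d)}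
    (hω : ω ∩ edg S' = ω' ∩ edg S') : ω ∩ edg S = ω' ∩ edg S := by
  have h1 := b2_edg h
  rw [← Finset.inter_eq_right.2 h1, ← Finset.inter_assoc, hω, Finset.inter_assoc]

private theorem b2_Cr {l : ℕ} {v : Vx d} {R : Finset (Vx d)} (h : ball v l ⊆ R)
    {ω ω' : Finset (Ed d)} (hω : ω ∩ edg R = ω' ∩ edg R) : Cr l v ω ↔ Cr l v ω' := by
  unfold Cr
  rw [b2_inter h hω]

private theorem b2_G1 {l n : ℕ} (hn : 1 ≤ n) {Q : Vx d} {ω ω' : Finset (Ed d)}
    (h : ω ∩ edg (RG l n Q) = ω' ∩ edg (RG l n Q)) : G1 l n Q ω ↔ G1 l n Q ω' := by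
  unfold G1
  rw [h]
  constructor
  · intro H Q1 hQ1 Q2 hQ2 w1 hw1 w2 hw2 h1 h2
    exact H Q1 hQ1 Q2 hQ2 w1 hw1 w2 hw2 ((b2_Cr (b2_ball hn hQ1 hw1) h).2 h1)
      ((b2_Cr (b2_ball hn hQ2 hw2) h).2 h2)
  · intro H Q1 hQ1 Q2 hQ2 w1 hw1 w2 hw2 h1 h2
    exact H Q1 hQ1 Q2 hQ2 w1 hw1 w2 hw2 ((b2_Cr (b2_ball hn hQ1 hw1) h).1 h1)
      ((b2_Cr (b2_ball hn hQ2 hw2) h).1 h2)

private theorem b2_G2 {κ : ℝ} {l n : ℕ} (hn : 1 ≤ n) {Q Q' : Vx d} (hQ : Q' ∈ ball Q 1)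
    {ω1 ω2 ω1' ω2' : Finset (Ed d)}
    (h1 : ω1 ∩ edg (RG l n Q) = ω1' ∩ edg (RG l n Q))
    (h2 : ω2 ∩ edg (RG l n Q) = ω2' ∩ edg (RG l n Q)) :
    G2 κ l n Q' ω1 ω2 ↔ G2 κ l n Q' ω1' ω2' := by
  have e : fl (fi n Q') (fun w => Cr l (ce l w) ω1 ∧ Cr l (ce l w) ω2) =
      fl (fi n Q') (fun w => Cr l (ce l w) ω1' ∧ Cr l (ce l w) ω2') := by
    ext w
    rw [SRC.mem_fl, SRC.mem_fl]
    refine and_congr_right fun hw => ?_
    rw [b2_Cr (b2_ball hn hQ hw) h1, b2_Cr (b2_ball hn hQ hw) h2]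
  unfold G2
  rw [e]

theorem gF_congr {κ : ℝ} {l n : ℕ} (hn : 1 ≤ n) {Q : Vx d} {ω1 ω2 ω1' ω2' : Finset (Ed d)}
    (h1 : ω1 ∩ edg (RG l n Q) = ω1' ∩ edg (RG l n Q))
    (h2 : ω2 ∩ edg (RG l n Q) = ω2' ∩ edg (RG l n Q)) :
    gF κ l n Q ω1 ω2 ↔ gF κ l n Q ω1' ω2' := by
  unfold gF
  rw [b2_G1 hn h1, b2_G1 hn h2]
  refine and_congr_right fun _ => and_congr_right fun _ => ?_
  exact forall₂_congr fun Q' hQ' => b2_G2 hn hQ' h1 h2

theorem RG_disj {l n : ℕ} (hn : 1 ≤ n) {Q Q' : Vx d} (h : ∃ k, 5 ≤ |Q k - Q' k|) :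
    Disjoint (RG l n Q) (RG l n Q') := by
  obtain ⟨k, hk⟩ := h
  rw [Finset.disjoint_left]
  intro v hv hv'
  unfold RG at hv hv'
  rw [Finset.mem_Icc, Pi.le_def, Pi.le_def] at hv hv'
  have a1 := hv.1 k
  have a2 := hv.2 k
  have a3 := hv'.1 k
  have a4 := hv'.2 k
  have hN : (0 : ℤ) ≤ (2 * (l : ℤ) + 1) * n := by positivity
  rcases le_abs.1 hk with h5 | h5
  · have := mul_le_mul_of_nonneg_left (show Q' k + 3 ≤ Q k - 2 by linarith) hN
    linarith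
  · have := mul_le_mul_of_nonneg_left (show Q k + 3 ≤ Q' k - 2 by linarith) hN
    linarith

/-! ## row b3: the product over sparse blocks, induction over `P` with `FP_local` -/

/-- the local hypothesis: the block is bad with probability at most `ε` for all sources -/
def LocBad (x κ : ℝ) (l n d : ℕ) (ε : ℝ) : Prop :=
  ∀ (Q : Vx d) (A1 A2 : Vx d → ZMod 2),
    FW x (edg (RG l n Q)) A1 (fun ω1 => FW x (edg (RG l n Q)) A2 (fun ω2 =>
      ind (¬ gF κ l n Q ω1 ω2))) ≤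
      ε * (FW x (edg (RG l n Q)) A1 (fun _ => 1) * FW x (edg (RG l n Q)) A2 (fun _ => 1))

private theorem b3_FW_lin (x : ℝ) (E : Finset (Ed d)) (A : Vx d → ZMod 2)
    (f g : Finset (Ed d) → ℝ) (c : ℝ) :
    FW x E A (fun ω => f ω + c * g ω) = FW x E A f + c * FW x E A g := by
  unfold FW
  rw [Finset.mul_sum, ← Finset.sum_add_distrib]
  refine Finset.sum_congr rfl fun ω _ => ?_
  ring

private theorem b3_FW_smul (x : ℝ) (E : Finset (Ed d)) (A : Vx d → ZMod 2)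
    (f : Finset (Ed d) → ℝ) (c : ℝ) :
    FW x E A (fun ω => c * f ω) = c * FW x E A f := by
  unfold FW
  rw [Finset.mul_sum]
  refine Finset.sum_congr rfl fun ω _ => ?_
  ring

theorem FP_prod {x : ℝ} (h0 : 0 ≤ x) (h1 : x ≤ 1) {κ : ℝ} {l n : ℕ} (hn : 1 ≤ n) {ε : ℝ}
    (hε : 0 ≤ ε) (hL : LocBad x κ l n d ε) {E : Finset (Ed d)} (A : Vx d → ZMod 2)
    (P : Finset (Vx d)) (hP : Spr P) (hE : ∀ Q ∈ P, edg (RG l n Q) ⊆ E) {c : ℝ} (hc : 0 ≤ c) :
    FP x E A (fun ω1 ω2 => ∏ Q ∈ P, (ind (¬ gF κ l n Q ω1 ω2) + c)) ≤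
      (ε + c) ^ P.card * (ZA bde (fun _ => x) E A * ZA bde (fun _ => x) E 0) := by
  classical
  induction P using Finset.induction_on with
  | empty =>
    simp only [Finset.prod_empty, Finset.card_empty, pow_zero, one_mul]
    unfold FP
    beta_reduce
    have h1' : FW x E 0 (fun _ => (1 : ℝ)) = ZA bde (fun _ => x) E 0 := FW_one x E 0
    rw [h1']
    have h2' : FW x E A (fun _ => ZA bde (fun _ => x) E 0) =
        ZA bde (fun _ => x) E 0 * FW x E A (fun _ => 1) := by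
      rw [← b3_FW_smul]
      simp only [mul_one]
    rw [h2', FW_one, mul_comm]
  | insert Q P hQ ih =>
    have hP' : Spr P := fun a ha b hb hab =>
      hP a (Finset.mem_insert_of_mem ha) b (Finset.mem_insert_of_mem hb) hab
    have hE' : ∀ Q' ∈ P, edg (RG l n Q') ⊆ E := fun Q' hQ' => hE Q' (Finset.mem_insert_of_mem hQ')
    have ih' := ih hP' hE'
    have hF : edg (RG l n Q) ⊆ E := hE Q (Finset.mem_insert_self _ _)
    -- the local factor
    have hg : ∀ A1 A2 : Vx d → ZMod 2, FW x (edg (RG l n Q)) A1 (fun ω1 =>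
        FW x (edg (RG l n Q)) A2 (fun ω2 => ind (¬ gF κ l n Q ω1 ω2) + c)) ≤
        (ε + c) * (FW x (edg (RG l n Q)) A1 (fun _ => 1) * FW x (edg (RG l n Q)) A2 (fun _ => 1)) := by
      intro A1 A2
      have h3 : ∀ ω1, FW x (edg (RG l n Q)) A2 (fun ω2 => ind (¬ gF κ l n Q ω1 ω2) + c) =
          FW x (edg (RG l n Q)) A2 (fun ω2 => ind (¬ gF κ l n Q ω1 ω2)) +
            (c * FW x (edg (RG l n Q)) A2 (fun _ => 1)) * 1 := by
        intro ω1
        rw [mul_one, ← b3_FW_lin]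
        simp only [mul_one]
      have h4 : FW x (edg (RG l n Q)) A1 (fun ω1 =>
          FW x (edg (RG l n Q)) A2 (fun ω2 => ind (¬ gF κ l n Q ω1 ω2) + c)) =
          FW x (edg (RG l n Q)) A1 (fun ω1 => FW x (edg (RG l n Q)) A2 (fun ω2 =>
            ind (¬ gF κ l n Q ω1 ω2))) +
          (c * FW x (edg (RG l n Q)) A2 (fun _ => 1)) * FW x (edg (RG l n Q)) A1 (fun _ => 1) := by
        rw [← b3_FW_lin]
        congr 1
        funext ω1
        exact h3 ω1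
      rw [h4]
      have h5 := hL Q A1 A2
      linarith [h5]
    -- the other factors
    have hG0 : ∀ ω1 ω2 : Finset (Ed d), 0 ≤ ∏ Q' ∈ P, (ind (¬ gF κ l n Q' ω1 ω2) + c) := by
      intro ω1 ω2
      exact Finset.prod_nonneg fun Q' _ => add_nonneg (Pool.Agent.SRC.ind_nonneg _) hc
    have hcap : ∀ Q' ∈ P, ∀ ω : Finset (Ed d),
        ω ∩ edg (RG l n Q') = (ω \ edg (RG l n Q)) ∩ edg (RG l n Q') := by
      intro Q' hQ' ω
      have hne : Q ≠ Q' := fun h => hQ (h ▸ hQ')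
      have hd := RG_disj (l := l) hn (hP Q (Finset.mem_insert_self _ _) Q'
        (Finset.mem_insert_of_mem hQ') hne)
      ext e
      rw [Finset.mem_inter, Finset.mem_inter, Finset.mem_sdiff]
      constructor
      · rintro ⟨h6, h7⟩
        refine ⟨⟨h6, fun h8 => ?_⟩, h7⟩
        exact Finset.disjoint_left.1 hd ((Pool.Agent.SRC.mem_edg _ _).1 h8).1
          ((Pool.Agent.SRC.mem_edg _ _).1 h7).1
      · rintro ⟨h6, h7⟩
        exact ⟨h6.1, h7⟩
    have hG : ∀ ω1 ω2 : Finset (Ed d), (∏ Q' ∈ P, (ind (¬ gF κ l n Q' ω1 ω2) + c)) =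
        ∏ Q' ∈ P, (ind (¬ gF κ l n Q' (ω1 \ edg (RG l n Q)) (ω2 \ edg (RG l n Q))) + c) := by
      intro ω1 ω2
      refine Finset.prod_congr rfl fun Q' hQ' => ?_
      rw [Pool.Agent.SRC.ind_congr (not_congr (gF_congr hn (hcap Q' hQ' ω1) (hcap Q' hQ' ω2)))]
    have h6 := FP_local h0 h1 hF A hg (fun ω1 ω2 => ∏ Q' ∈ P, (ind (¬ gF κ l n Q' ω1 ω2) + c))
      hG0 hG
    have h7 : (fun ω1 ω2 : Finset (Ed d) =>
        ∏ Q' ∈ insert Q P, (ind (¬ gF κ l n Q' ω1 ω2) + c)) = fun ω1 ω2 =>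
        (ind (¬ gF κ l n Q (ω1 ∩ edg (RG l n Q)) (ω2 ∩ edg (RG l n Q))) + c) *
          ∏ Q' ∈ P, (ind (¬ gF κ l n Q' ω1 ω2) + c) := by
      funext ω1 ω2
      rw [Finset.prod_insert hQ]
      congr 2
      refine Pool.Agent.SRC.ind_congr (not_congr (gF_congr hn ?_ ?_))
      · rw [Finset.inter_assoc, Finset.inter_self]
      · rw [Finset.inter_assoc, Finset.inter_self]
    rw [h7, Finset.card_insert_of_notMem hQ, pow_succ]
    refine h6.trans ?_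
    have h8 : (ε + c) * FP x E A (fun ω1 ω2 => ∏ Q' ∈ P, (ind (¬ gF κ l n Q' ω1 ω2) + c)) ≤
        (ε + c) * ((ε + c) ^ P.card * (ZA bde (fun _ => x) E A * ZA bde (fun _ => x) E 0)) :=
      mul_le_mul_of_nonneg_left ih' (add_nonneg hε hc)
    refine h8.trans (le_of_eq ?_)
    ring


/-! ## row b4: sparse subsets (residue classes mod 5) -/

theorem exists_sparse (P : Finset (Vx d)) :
    ∃ P' ⊆ P, Spr P' ∧ P.card ≤ 5 ^ d * P'.card := by
  classical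
  obtain ⟨r, -, hr⟩ := Finset.exists_max_image (Finset.univ : Finset (Fin d → ZMod 5))
    (fun r => (P.filter (fun Q => (fun k => ((Q k : ℤ) : ZMod 5)) = r)).card)
    ⟨fun _ => 0, Finset.mem_univ _⟩
  refine ⟨P.filter (fun Q => (fun k => ((Q k : ℤ) : ZMod 5)) = r), Finset.filter_subset _ _, ?_, ?_⟩
  · intro Q hQ Q' hQ' hne
    obtain ⟨k, hk⟩ := Function.ne_iff.mp hne
    refine ⟨k, ?_⟩
    have h1 := (Finset.mem_filter.mp hQ).2
    have h2 := (Finset.mem_filter.mp hQ').2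
    have h3 : ((Q k : ℤ) : ZMod 5) = ((Q' k : ℤ) : ZMod 5) := by
      have := congrFun (h1.trans h2.symm) k
      exact this
    have h4 : (5 : ℤ) ∣ Q k - Q' k := by
      have h5 := (ZMod.intCast_eq_intCast_iff_dvd_sub (Q' k) (Q k) 5).mp h3.symm
      exact_mod_cast h5
    exact Int.le_of_dvd (abs_pos.mpr (sub_ne_zero.mpr hk)) ((dvd_abs _ _).mpr h4)
  · have h1 := Finset.card_eq_sum_card_fiberwise (s := P) (t := (Finset.univ : Finset (Fin d → ZMod 5)))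
      (f := fun Q => (fun k => ((Q k : ℤ) : ZMod 5))) (fun x _ => Finset.mem_coe.mpr (Finset.mem_univ _))
    calc P.card = _ := h1
      _ ≤ ∑ _b : Fin d → ZMod 5, (P.filter (fun Q => (fun k => ((Q k : ℤ) : ZMod 5)) = r)).card :=
        Finset.sum_le_sum fun b _ => hr b (Finset.mem_univ _)
      _ = 5 ^ d * (P.filter (fun Q => (fun k => ((Q k : ℤ) : ZMod 5)) = r)).card := by
        rw [Finset.sum_const, smul_eq_mul, Finset.card_univ, Fintype.card_fun, ZMod.card,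
          Fintype.card_fin]

/-! ## row b5: the bound for the product FK measure -/

-- row b5 of Fac/Blk.lean (helper35): replaces the stub of FP_bad
-- BEGIN b5
theorem FP_bad {x : ℝ} (h0 : 0 ≤ x) (h1 : x ≤ 1) {κ : ℝ} (hκ : 0 < κ) {l n : ℕ} (hn : 1 ≤ n)
    {ε : ℝ} (hε : 0 ≤ ε) (hL : LocBad x κ l n d ε) {D : Finset (Vx d)} {E : Finset (Ed d)}
    (hED : EndsIn E D) (A : Vx d → ZMod 2) (P : Finset (Vx d)) (hP : Spr P)
    (hE : ∀ Q ∈ P, edg (RG l n Q) ⊆ E) (hD : ∀ Q ∈ P, RG l n Q ⊆ D) :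
    FP x E A (fun ω1 ω2 => fE D ω1 ω2 (fun T => ∏ Q ∈ P, ind (¬ gd κ l n Q T))) ≤
      (ε + 3 ^ d / (κ ^ 2 * (n : ℝ) ^ d)) ^ P.card *
        (ZA bde (fun _ => x) E A * ZA bde (fun _ => x) E 0) := by
  refine le_trans ?_ (FP_prod h0 h1 hn hε hL A P hP hE (c := 3 ^ d / (κ ^ 2 * (n : ℝ) ^ d))
    (by positivity))
  unfold FP
  refine FW_mono h0 h1 E A fun ω1 hω1 _ => ?_
  refine FW_mono h0 h1 E 0 fun ω2 hω2 _ => ?_
  exact bad_prod (fun e he => hED e (hω1 he)) (fun e he => hED e (hω2 he)) hκ hn P hP hD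
-- END b5

end Pool.Agent.Fac
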