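import Pool.Agent.Fac.Blk

/-!
# Block FAC, coherence holds with high probability (helper61)
-/

set_option autoImplicit false

namespace Pool.Agent.Fac

open Finset
open Pool.Agent.SRC (Vx Ed tip bde bd edg conn ind fl uv)
open Pool.Agent.FK1 (wB wF FF NN bdm ZA Inc SD)
open Pool.Agent.TC (spin cf)

variable {d : ℕ}

/-- the sample points which decide whether the blocks of `P` are good -/
noncomputable def smp (l n : ℕ) (P : Finset (Vx d)) : Finset (Vx d) := by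
  classical exact P.biUnion fun Q => (ball Q 1).biUnion fun Q' => (fi n Q').image (ce l)

/-- all blocks of the boxes -/
noncomputable def blks (bs : List (BX d)) : Finset (Vx d) := by
  classical exact bs.toFinset.biUnion BX.L

/-! ## row c1 -/

/-! ## row c1 -/

-- BEGIN c1 (helper89)
private theorem c1_mem {l n : ℕ} {P : Finset (Vx d)} {v : Vx d} :
    v ∈ smp l n P ↔ ∃ Q ∈ P, ∃ Q' ∈ ball Q 1, ∃ w ∈ fi n Q', ce l w = v := by
  unfold smp
  simp only [Finset.mem_biUnion, Finset.mem_image]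

/-- good blocks depend only on the sample points -/
theorem gd_congr {κ : ℝ} {l n : ℕ} {Q : Vx d} {T T' : Finset (Vx d)}
    (h : T ∩ smp l n {Q} = T' ∩ smp l n {Q}) : gd κ l n Q T ↔ gd κ l n Q T' := by
  have h1 : ∀ Q' ∈ ball Q 1, SS l n Q' T = SS l n Q' T' := by
    intro Q' hQ'
    unfold SS
    refine Finset.sum_congr rfl fun w hw => ?_
    have h2 : ce l w ∈ smp l n {Q} :=
      c1_mem.2 ⟨Q, Finset.mem_singleton_self Q, Q', hQ', w, hw, rfl⟩
    have h3 : ce l w ∈ T ↔ ce l w ∈ T' := by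
      have h4 : ce l w ∈ T ∩ smp l n {Q} ↔ ce l w ∈ T' ∩ smp l n {Q} := by rw [h]
      rw [Finset.mem_inter, Finset.mem_inter] at h4
      exact ⟨fun h5 => (h4.1 ⟨h5, h2⟩).1, fun h5 => (h4.2 ⟨h5, h2⟩).1⟩
    unfold spin
    by_cases h5 : ce l w ∈ T
    · rw [if_pos h5, if_pos (h3.1 h5)]
    · rw [if_neg h5, if_neg fun h6 => h5 (h3.2 h6)]
  unfold gd
  constructor
  · rintro ⟨z, hz, h2⟩
    exact ⟨z, hz, fun Q' hQ' => by rw [← h1 Q' hQ']; exact h2 Q' hQ'⟩
  · rintro ⟨z, hz, h2⟩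
    exact ⟨z, hz, fun Q' hQ' => by rw [h1 Q' hQ']; exact h2 Q' hQ'⟩

theorem smp_card {l n : ℕ} (P : Finset (Vx d)) : (smp l n P).card ≤ P.card * (3 ^ d * n ^ d) := by
  unfold smp
  refine Finset.card_biUnion_le_card_mul _ _ _ fun Q _ => ?_
  have h1 := ball_card Q 1
  have h2 : (ball Q 1).card = 3 ^ d := h1
  rw [← h2]
  refine Finset.card_biUnion_le_card_mul _ _ _ fun Q' _ => ?_
  exact Finset.card_image_le.trans (le_of_eq (fi_card n Q'))

theorem smp_mono {l n : ℕ} {P P' : Finset (Vx d)} (h : P ⊆ P') : smp l n P ⊆ smp l n P' := by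
  intro v hv
  rw [c1_mem] at hv ⊢
  obtain ⟨Q, hQ, h1⟩ := hv
  exact ⟨Q, h hQ, h1⟩

theorem smp_sub_RG {l n : ℕ} (hn : 1 ≤ n) (Q : Vx d) : smp l n {Q} ⊆ RG l n Q := by
  intro v hv
  rw [c1_mem] at hv
  obtain ⟨Q1, hQ1, Q', hQ', w, hw, rfl⟩ := hv
  rw [Finset.mem_singleton] at hQ1
  subst hQ1
  have h1 : Q' ∈ ball Q1 2 := by
    unfold ball at hQ' ⊢
    rw [Finset.mem_Icc] at hQ' ⊢
    refine ⟨fun k => ?_, fun k => ?_⟩
    · have h2 : Q1 k - ((1 : ℕ) : ℤ) ≤ Q' k := hQ'.1 k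
      show Q1 k - ((2 : ℕ) : ℤ) ≤ Q' k
      push_cast at h2 ⊢
      omega
    · have h2 : Q' k ≤ Q1 k + ((1 : ℕ) : ℤ) := hQ'.2 k
      show Q' k ≤ Q1 k + ((2 : ℕ) : ℤ)
      push_cast at h2 ⊢
      omega
  refine ball_sub_RG hn h1 hw ?_
  unfold ball
  rw [Finset.mem_Icc]
  refine ⟨fun k => ?_, fun k => ?_⟩
  · show ce l w k - (l : ℤ) ≤ ce l w k
    omega
  · show ce l w k ≤ ce l w k + (l : ℤ)
    omega

/-- product of indicators of bad blocks as a function of the sample points -/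
theorem prod_bad_inter {κ : ℝ} {l n : ℕ} (P : Finset (Vx d)) (T : Finset (Vx d)) :
    ∏ Q ∈ P, ind (¬ gd κ l n Q T) = ∏ Q ∈ P, ind (¬ gd κ l n Q (T ∩ smp l n P)) := by
  refine Finset.prod_congr rfl fun Q hQ => ?_
  have h1 : T ∩ smp l n {Q} = T ∩ smp l n P ∩ smp l n {Q} := by
    rw [Finset.inter_assoc, Finset.inter_eq_right.2
      (smp_mono (Finset.singleton_subset_iff.2 hQ))]
  have h2 : (¬ gd κ l n Q T) ↔ ¬ gd κ l n Q (T ∩ smp l n P) := not_congr (gd_congr h1)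
  rw [propext h2]
-- END c1

/-! ## row c2: a union bound. If coherence fails there are a box, a star path `s` of `h = 2 * 5 ^ d * m`
blocks in it and at least `h / 2 = 5 ^ d * m` bad blocks on the path; `exists_sparse` gives a sparse set `P`
of at least `m` bad blocks of the path, and a subset with exactly `m` elements. The number of star paths is at
most `card * (3 ^ d) ^ h` (encode by the start and the steps), the number of subsets of a path `2 ^ h`. -/

/-! ## row c2: a union bound. If coherence fails there are a box, a star path `s` of `h = 2 * 5 ^ d * m`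
blocks in it and at least `h / 2 = 5 ^ d * m` bad blocks on the path; `exists_sparse` gives a sparse set `P`
of at least `m` bad blocks of the path, and a subset with exactly `m` elements. The number of star paths is at
most `card * (3 ^ d) ^ h` (encode by the start and the steps), the number of subsets of a path `2 ^ h`. -/

-- BEGIN c2
private theorem c2_mem_blks (bs : List (BX d)) (Q : Vx d) :
    Q ∈ blks bs ↔ ∃ b ∈ bs, Q ∈ b.L := by
  unfold blks
  simp

/-- the path with the given start and steps -/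
private def c2_path {h : ℕ} (q : Vx d) (t : Fin h → Fin d → Fin 3) : ℕ → Vx d
  | 0 => q
  | i + 1 => fun k => c2_path q t i k + (if hi : i < h then (((t ⟨i, hi⟩ k : Fin 3) : ℕ) : ℤ) - 1
      else 0)

private theorem c2_path_eq {h : ℕ} {s : ℕ → Vx d} (hs : SPath h s) :
    ∃ t : Fin h → Fin d → Fin 3, ∀ i, i < h → c2_path (s 0) t i = s i := by
  refine ⟨fun i k => ⟨(s (i + 1) k - s i k + 1).toNat % 3, Nat.mod_lt _ (by norm_num)⟩, ?_⟩
  intro i
  induction i with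
  | zero => exact fun _ => rfl
  | succ i ih =>
    intro hi
    have h1 := ih (by omega)
    have h2 := hs.2 i hi
    funext k
    simp only [c2_path, h1]
    rw [dif_pos (by omega : i < h)]
    have h3 := abs_le.1 (h2 k)
    have h4 : (s (i + 1) k - s i k + 1).toNat % 3 = (s (i + 1) k - s i k + 1).toNat :=
      Nat.mod_eq_of_lt (by omega)
    change s i k + (((s (i + 1) k - s i k + 1).toNat % 3 : ℕ) - 1 : ℤ) = s (i + 1) k
    rw [h4]
    omega

/-- sparse sets of `m` blocks on star paths of `h` blocks inside the boxes: a finite family which contains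
them all, of cardinality at most `card * (2 * 3 ^ d) ^ h` -/
theorem exists_family (bs : List (BX d)) (h m : ℕ) (hh : 1 ≤ h) :
    ∃ Fam : Finset (Finset (Vx d)),
      (Fam.card : ℝ) ≤ (blks bs).card * (2 * 3 ^ d) ^ h ∧
      (∀ P ∈ Fam, P ⊆ blks bs ∧ Spr P ∧ P.card = m) ∧
      ∀ b ∈ bs, ∀ s, SPath h s → (∀ i, i < h → s i ∈ b.L) → ∀ P : Finset (Vx d), Spr P →
        P.card = m → (∀ Q ∈ P, ∃ i, i < h ∧ s i = Q) → P ∈ Fam := by
  classical
  set S : Finset (Vx d × (Fin h → Fin d → Fin 3) × Finset (Fin h)) :=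
    (blks bs) ×ˢ (Finset.univ ×ˢ Finset.univ) with hS
  set F : Vx d × (Fin h → Fin d → Fin 3) × Finset (Fin h) → Finset (Vx d) :=
    fun c => c.2.2.image (fun i : Fin h => c2_path c.1 c.2.1 (i : ℕ)) with hF
  refine ⟨(S.image F).filter (fun P => P ⊆ blks bs ∧ Spr P ∧ P.card = m), ?_, ?_, ?_⟩
  · have h1 : ((S.image F).filter (fun P => P ⊆ blks bs ∧ Spr P ∧ P.card = m)).card ≤ S.card :=
      (Finset.card_filter_le _ _).trans Finset.card_image_le
    have h2 : S.card = (blks bs).card * ((3 ^ d) ^ h * 2 ^ h) := by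
      rw [hS, Finset.card_product, Finset.card_product, Finset.card_univ, Finset.card_univ,
        Fintype.card_finset, Fintype.card_fin, Fintype.card_fun, Fintype.card_fun,
        Fintype.card_fin, Fintype.card_fin, Fintype.card_fin]
    rw [h2] at h1
    have h3 : ((((S.image F).filter (fun P => P ⊆ blks bs ∧ Spr P ∧ P.card = m)).card : ℕ) : ℝ) ≤
        (((blks bs).card * ((3 ^ d) ^ h * 2 ^ h) : ℕ) : ℝ) := by
      exact_mod_cast h1
    refine h3.trans (le_of_eq ?_)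
    push_cast
    rw [mul_pow]
    ring
  · intro P hP
    exact (Finset.mem_filter.1 hP).2
  · intro b hb s hs hsL P hSpr hcard hPs
    refine Finset.mem_filter.2 ⟨?_, ?_, hSpr, hcard⟩
    · obtain ⟨t, ht⟩ := c2_path_eq hs
      refine Finset.mem_image.2 ⟨(s 0, t, Finset.univ.filter fun i : Fin h => s i ∈ P), ?_, ?_⟩
      · rw [hS, Finset.mem_product, Finset.mem_product]
        exact ⟨(c2_mem_blks bs _).2 ⟨b, hb, hsL 0 (by omega)⟩, Finset.mem_univ _,
          Finset.mem_univ _⟩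
      · rw [hF]
        ext Q
        rw [Finset.mem_image]
        constructor
        · rintro ⟨i, hi, rfl⟩
          change c2_path (s 0) t i ∈ P
          rw [ht i i.2]
          exact (Finset.mem_filter.1 hi).2
        · intro hQ
          obtain ⟨i, hi, rfl⟩ := hPs Q hQ
          exact ⟨⟨i, hi⟩, Finset.mem_filter.2 ⟨Finset.mem_univ _, hQ⟩, ht i hi⟩
    · intro Q hQ
      obtain ⟨i, hi, rfl⟩ := hPs Q hQ
      exact (c2_mem_blks bs _).2 ⟨b, hb, hsL i hi⟩
-- END c2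

/-! ## row c3 -/

/-! ## row c3 -/

-- BEGIN c3
theorem coh_le_sum {κ : ℝ} {l n m : ℕ} (hm : 1 ≤ m) (bs : List (BX d))
    {Fam : Finset (Finset (Vx d))}
    (hF : ∀ b ∈ bs, ∀ s, SPath (2 * 5 ^ d * m) s → (∀ i, i < 2 * 5 ^ d * m → s i ∈ b.L) →
      ∀ P : Finset (Vx d), Spr P → P.card = m → (∀ Q ∈ P, ∃ i, i < 2 * 5 ^ d * m ∧ s i = Q) →
        P ∈ Fam) (T : Finset (Vx d)) :
    ind (¬ CohA κ l n (2 * 5 ^ d * m) bs T) ≤ ∑ P ∈ Fam, ∏ Q ∈ P, ind (¬ gd κ l n Q T) := by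
  classical
  have hnn : ∀ P ∈ Fam, 0 ≤ ∏ Q ∈ P, ind (¬ gd κ l n Q T) := fun P _ =>
    Finset.prod_nonneg fun Q _ => SRC.ind_nonneg _
  by_cases hC : CohA κ l n (2 * 5 ^ d * m) bs T
  · rw [SRC.ind_false (not_not.2 hC)]
    exact Finset.sum_nonneg hnn
  · rw [SRC.ind_true hC]
    unfold CohA at hC
    push Not at hC
    obtain ⟨b, hb, hC⟩ := hC
    unfold Coh at hC
    push Not at hC
    obtain ⟨s, hs, hsL, hcard⟩ := hC
    set I : Finset ℕ := fl (Finset.range (2 * 5 ^ d * m)) (fun i => ¬ gd κ l n (s i) T) with hI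
    have hmem : ∀ i, i ∈ I ↔ i < 2 * 5 ^ d * m ∧ ¬ gd κ l n (s i) T := fun i => by
      rw [hI, SRC.mem_fl, Finset.mem_range]
    have hinj : Set.InjOn s (I : Set ℕ) := by
      intro i hi j hj hij
      exact hs.1 i j ((hmem i).1 hi).1 ((hmem j).1 hj).1 hij
    have hBc : (I.image s).card = I.card := Finset.card_image_of_injOn hinj
    obtain ⟨P', hP'B, hP'S, hP'c⟩ := exists_sparse (I.image s)
    rw [hBc] at hP'c
    have h5 : 0 < 5 ^ d := by positivity
    have hm' : m ≤ P'.card := by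
      have h6 : 2 * 5 ^ d * m ≤ 2 * (5 ^ d * P'.card) := hcard.trans (Nat.mul_le_mul_left 2 hP'c)
      have h7 : 5 ^ d * m ≤ 5 ^ d * P'.card := by
        have : 2 * (5 ^ d * m) ≤ 2 * (5 ^ d * P'.card) := by rw [← mul_assoc]; exact h6
        omega
      exact Nat.le_of_mul_le_mul_left h7 h5
    obtain ⟨P, hPP', hPc⟩ := Finset.exists_subset_card_eq hm'
    have hPI : ∀ Q ∈ P, ∃ i, i ∈ I ∧ s i = Q := by
      intro Q hQ
      obtain ⟨i, hi, rfl⟩ := Finset.mem_image.1 (hP'B (hPP' hQ))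
      exact ⟨i, hi, rfl⟩
    have hPF : P ∈ Fam := by
      refine hF b hb s hs hsL P ?_ hPc ?_
      · intro Q hQ Q' hQ' hne
        exact hP'S Q (hPP' hQ) Q' (hPP' hQ') hne
      · intro Q hQ
        obtain ⟨i, hi, rfl⟩ := hPI Q hQ
        exact ⟨i, ((hmem i).1 hi).1, rfl⟩
    have hone : ∏ Q ∈ P, ind (¬ gd κ l n Q T) = 1 := by
      refine Finset.prod_eq_one fun Q hQ => ?_
      obtain ⟨i, hi, rfl⟩ := hPI Q hQ
      exact SRC.ind_true ((hmem i).1 hi).2
    rw [← hone]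
    exact Finset.single_le_sum (f := fun P => ∏ Q ∈ P, ind (¬ gd κ l n Q T)) hnn hPF
-- END c3

/-! ## row c4: the bound. `tE` is linear and monotone; for every `P` of the family use the transfer hypothesis
`hT` for `f T = ∏ Q ∈ P, ind (¬ gd Q T)` (`prod_bad_inter`) and `FP_bad`. -/

/-! ## row c4: the bound. `tE` is linear and monotone; for every `P` of the family use the transfer hypothesis
`hT` for `f T = ∏ Q ∈ P, ind (¬ gd Q T)` (`prod_bad_inter`) and `FP_bad`. -/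

-- BEGIN c4
private lemma c4_MM_sum (x : ℝ) (E : Finset (Ed d)) (A : Vx d → ZMod 2)
    (Fam : Finset (Finset (Vx d)))
    (f : Finset (Vx d) → Finset (Ed d) → Finset (Ed d) → Finset (Ed d) → ℝ) :
    MM x E A (fun η1 η2 b => ∑ P ∈ Fam, f P η1 η2 b) = ∑ P ∈ Fam, MM x E A (f P) := by
  unfold MM
  symm
  rw [Finset.sum_comm]
  refine Finset.sum_congr rfl fun η1 _ => ?_
  rw [Finset.sum_comm]
  refine Finset.sum_congr rfl fun η2 _ => ?_
  rw [Finset.sum_comm]
  refine Finset.sum_congr rfl fun b _ => ?_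
  rw [← Finset.mul_sum]

theorem coh_bound {x : ℝ} (h0 : 0 ≤ x) (h1 : x ≤ 1) {κ : ℝ} (hκ : 0 < κ) {l n : ℕ} (hn : 1 ≤ n)
    {ε : ℝ} (hε : 0 ≤ ε) (hL : LocBad x κ l n d ε) {D : Finset (Vx d)} {E : Finset (Ed d)}
    (hED : EndsIn E D) (A : Vx d → ZMod 2) (bs : List (BX d))
    (hE : ∀ Q ∈ blks bs, edg (RG l n Q) ⊆ E) (hD : ∀ Q ∈ blks bs, RG l n Q ⊆ D) {m : ℕ}
    (hm : 1 ≤ m) {err : ℝ} (herr : 0 ≤ err)
    (hT : ∀ P ⊆ blks bs, P.card ≤ m → ∀ f : Finset (Vx d) → ℝ, (∀ T, 0 ≤ f T) → (∀ T, f T ≤ 1) →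
      (∀ T, f T = f (T ∩ smp l n P)) →
      MM x E A (fun η1 η2 b => tE D (η1 ∪ η2 ∪ b) f) ≤
        FP x E A (fun ω1 ω2 => fE D ω1 ω2 f) +
          err * (ZA bde (fun _ => x) E A * ZA bde (fun _ => x) E 0)) :
    MM x E A (fun η1 η2 b => tE D (η1 ∪ η2 ∪ b)
        (fun T => ind (¬ CohA κ l n (2 * 5 ^ d * m) bs T))) ≤
      (blks bs).card * (2 * 3 ^ d) ^ (2 * 5 ^ d * m) *
        ((ε + 3 ^ d / (κ ^ 2 * (n : ℝ) ^ d)) ^ m + err) *
          (ZA bde (fun _ => x) E A * ZA bde (fun _ => x) E 0) := by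
  have hh : 1 ≤ 2 * 5 ^ d * m := by
    have : 0 < 2 * 5 ^ d * m := by positivity
    exact this
  obtain ⟨Fam, hcard, hFam, hmem⟩ := exists_family bs (2 * 5 ^ d * m) m hh
  set Z : ℝ := ZA bde (fun _ => x) E A * ZA bde (fun _ => x) E 0 with hZ
  have hZ0 : 0 ≤ Z := by
    rw [hZ, ← MM_one]
    have h2 := MM_mono h0 h1 E A (f := fun _ _ _ => 0) (g := fun _ _ _ => 1)
      (fun _ _ _ _ _ _ _ _ => zero_le_one)
    refine le_trans (le_of_eq ?_) h2
    unfold MM
    simp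
  have hc0 : 0 ≤ (ε + 3 ^ d / (κ ^ 2 * (n : ℝ) ^ d)) ^ m + err := by positivity
  have hstep1 : MM x E A (fun η1 η2 b => tE D (η1 ∪ η2 ∪ b)
        (fun T => ind (¬ CohA κ l n (2 * 5 ^ d * m) bs T))) ≤
      MM x E A (fun η1 η2 b => ∑ P ∈ Fam, tE D (η1 ∪ η2 ∪ b)
        (fun T => ∏ Q ∈ P, ind (¬ gd κ l n Q T))) := by
    refine MM_mono h0 h1 E A fun η1 _ η2 _ b _ _ _ => ?_
    refine (tE_mono D (η1 ∪ η2 ∪ b) fun T _ => coh_le_sum (κ := κ) (l := l) (n := n) hm bs hmem T).trans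
      (le_of_eq ?_)
    have h3 := tE_sum D (η1 ∪ η2 ∪ b) Fam (fun _ => 1) (fun P T => ∏ Q ∈ P, ind (¬ gd κ l n Q T))
    simp only [one_mul] at h3
    exact h3
  refine hstep1.trans ?_
  rw [c4_MM_sum]
  have hstep2 : ∀ P ∈ Fam, MM x E A (fun η1 η2 b => tE D (η1 ∪ η2 ∪ b)
        (fun T => ∏ Q ∈ P, ind (¬ gd κ l n Q T))) ≤
      ((ε + 3 ^ d / (κ ^ 2 * (n : ℝ) ^ d)) ^ m + err) * Z := by
    intro P hP
    obtain ⟨hP1, hP2, hP3⟩ := hFam P hP
    have hi0 : ∀ p : Prop, (0 : ℝ) ≤ ind p := fun p => by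
      by_cases hp : p
      · unfold ind; rw [if_pos hp]; exact zero_le_one
      · unfold ind; rw [if_neg hp]
    have hi1 : ∀ p : Prop, ind p ≤ (1 : ℝ) := fun p => by
      by_cases hp : p
      · unfold ind; rw [if_pos hp]
      · unfold ind; rw [if_neg hp]; exact zero_le_one
    have h3 := hT P hP1 hP3.le (fun T => ∏ Q ∈ P, ind (¬ gd κ l n Q T))
      (fun T => Finset.prod_nonneg fun Q _ => hi0 _)
      (fun T => Finset.prod_le_one (fun Q _ => hi0 _) fun Q _ => hi1 _)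
      (fun T => prod_bad_inter P T)
    have h4 := FP_bad h0 h1 hκ hn hε hL hED A P hP2 (fun Q hQ => hE Q (hP1 hQ))
      (fun Q hQ => hD Q (hP1 hQ))
    rw [hP3] at h4
    rw [add_mul]
    exact h3.trans (add_le_add h4 le_rfl)
  refine (Finset.sum_le_sum hstep2).trans ?_
  rw [Finset.sum_const, nsmul_eq_mul, mul_assoc (((blks bs).card : ℝ) * (2 * 3 ^ d) ^ (2 * 5 ^ d * m))]
  exact mul_le_mul_of_nonneg_right hcard (mul_nonneg hc0 hZ0)
-- END c4

/-! ## row c5: Markov inequality for the conditional probability given `m = η1 ∪ η2 ∪ b` -/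

/-! ## row c5: Markov inequality for the conditional probability given `m = η1 ∪ η2 ∪ b` -/

-- BEGIN c5
private theorem c5_tE {D : Finset (Vx d)} {ω : Finset (Ed d)} {g : Finset (Vx d) → ℝ}
    (hg : ∀ T, 0 ≤ g T) : 0 ≤ tE D ω g :=
  div_nonneg (sum_nonneg fun T _ => hg T) (Nat.cast_nonneg _)

theorem markov {x : ℝ} (h0 : 0 ≤ x) (h1 : x ≤ 1) {D : Finset (Vx d)} {E : Finset (Ed d)}
    (A : Vx d → ZMod 2) (g : Finset (Vx d) → ℝ) (hg : ∀ T, 0 ≤ g T) {β : ℝ}
    (hβ : MM x E A (fun η1 η2 b => tE D (η1 ∪ η2 ∪ b) g) ≤ β) {c : ℝ} (hc : 0 < c) :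
    MM x E A (fun η1 η2 b => ind (1 ≤ c * tE D (η1 ∪ η2 ∪ b) g)) ≤ c * β := by
  have h2 : MM x E A (fun η1 η2 b => ind (1 ≤ c * tE D (η1 ∪ η2 ∪ b) g))
      ≤ MM x E A (fun η1 η2 b => c * tE D (η1 ∪ η2 ∪ b) g) := by
    refine MM_mono h0 h1 E A fun η1 _ η2 _ b _ _ _ => ?_
    have h3 : 0 ≤ c * tE D (η1 ∪ η2 ∪ b) g := mul_nonneg hc.le (c5_tE hg)
    by_cases h4 : 1 ≤ c * tE D (η1 ∪ η2 ∪ b) g
    · rw [Pool.Agent.SRC.ind_true h4]
      exact h4
    · rw [Pool.Agent.SRC.ind_false h4]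
      exact h3
  have h3 : MM x E A (fun η1 η2 b => c * tE D (η1 ∪ η2 ∪ b) g)
      = c * MM x E A (fun η1 η2 b => tE D (η1 ∪ η2 ∪ b) g) := by
    unfold MM
    simp only [mul_sum]
    refine sum_congr rfl fun η1 _ => sum_congr rfl fun η2 _ => sum_congr rfl fun b _ => ?_
    ring
  rw [h3] at h2
  exact h2.trans (mul_le_mul_of_nonneg_left hβ hc.le)

-- END c5

end Pool.Agent.Fac
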