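import Pool.Agent.Fac.Defs

/-!
# Block FAC, deterministic part: the sign of the giant (helper61)
-/

set_option autoImplicit false

namespace Pool.Agent.Fac

open Finset
open Pool.Agent.SRC (Vx Ed tip bde bd edg conn ind fl uv)
open Pool.Agent.FK1 (wB wF FF NN bdm ZA Inc SD)
open Pool.Agent.TC (spin cf)

variable {d : ℕ}

/-- any two boxes of the list are joined by a chain of big overlaps -/
def Lnk (h : ℕ) (bs : List (BX d)) : Prop :=
  ∀ b ∈ bs, ∀ c ∈ bs, Relation.ReflTransGen (fun b c : BX d => c ∈ bs ∧ BX.lap h b c) b c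

/-- existence of giants (`Top.giant`) -/
def Gia (d h : ℕ) : Prop := ∀ (lo hi : Vx d), (∀ k, lo k + (h : ℤ) + 4 ≤ hi k) →
  ∀ B : Finset (Vx d), B ⊆ Finset.Icc lo hi → Sm h B → ∃ G, Giant h (Finset.Icc lo hi) B G

/-! ## row d1: good neighbours have the same sign -/

private theorem d1_self (Q : Vx d) : Q ∈ ball Q 1 := by
  unfold ball
  rw [Finset.mem_Icc]
  constructor
  · intro k
    show Q k - ((1 : ℕ) : ℤ) ≤ Q k
    push_cast
    linarith
  · intro k
    show Q k ≤ Q k + ((1 : ℕ) : ℤ)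
    push_cast
    linarith

private theorem d1_uv (i k : Fin d) : 0 ≤ (uv i : Vx d) k ∧ (uv i : Vx d) k ≤ 1 := by
  unfold Pool.Agent.SRC.uv
  rw [Pi.single_apply]
  split_ifs <;> constructor <;> norm_num

private theorem d1_up (i : Fin d) (R : Vx d) : R + uv i ∈ ball R 1 := by
  unfold ball
  rw [Finset.mem_Icc]
  constructor
  · intro k
    show R k - ((1 : ℕ) : ℤ) ≤ R k + (uv i : Vx d) k
    push_cast
    linarith [(d1_uv i k).1]
  · intro k
    show R k + (uv i : Vx d) k ≤ R k + ((1 : ℕ) : ℤ)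
    push_cast
    linarith [(d1_uv i k).2]

private theorem d1_dn (i : Fin d) (R : Vx d) : R ∈ ball (R + uv i) 1 := by
  unfold ball
  rw [Finset.mem_Icc]
  constructor
  · intro k
    show R k + (uv i : Vx d) k - ((1 : ℕ) : ℤ) ≤ R k
    push_cast
    linarith [(d1_uv i k).2]
  · intro k
    show R k ≤ R k + (uv i : Vx d) k + ((1 : ℕ) : ℤ)
    push_cast
    linarith [(d1_uv i k).1]

/-- the sum of a good block is not zero, neighbours of a good block have the same sign -/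
theorem gd_sign {κ : ℝ} (hκ : 0 < κ) {l n : ℕ} (hn : 1 ≤ n) {Q Q' : Vx d} {T : Finset (Vx d)}
    (h : gd κ l n Q T) (hQ : Q' ∈ ball Q 1) : 0 < SS l n Q T * SS l n Q' T := by
  obtain ⟨z, hz, hall⟩ := h
  have hn' : (0 : ℝ) < (n : ℝ) := by exact_mod_cast hn
  have pos : 0 < κ * (n : ℝ) ^ d := mul_pos hκ (pow_pos hn' d)
  have h1 : 0 < z * SS l n Q T := lt_of_lt_of_le pos (hall Q (d1_self Q))
  have h2 : 0 < z * SS l n Q' T := lt_of_lt_of_le pos (hall Q' hQ)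
  have hz2 : z * z = 1 := by
    rcases hz with rfl | rfl <;> norm_num
  calc 0 < (z * SS l n Q T) * (z * SS l n Q' T) := mul_pos h1 h2
    _ = (z * z) * (SS l n Q T * SS l n Q' T) := by ring
    _ = SS l n Q T * SS l n Q' T := by rw [hz2, one_mul]

private theorem d1_trans {a b c : ℝ} (h1 : 0 < a * b) (h2 : 0 < b * c) : 0 < a * c := by
  have h3 := mul_pos h1 h2
  have h4 : a * b * (b * c) = b ^ 2 * (a * c) := by ring
  rw [h4] at h3
  by_contra hneg
  rw [not_lt] at hneg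
  have h5 := mul_nonpos_of_nonneg_of_nonpos (sq_nonneg b) hneg
  linarith

/-- on a connected set of good blocks the sign is constant -/
theorem sign_const {κ : ℝ} (hκ : 0 < κ) {l n : ℕ} (hn : 1 ≤ n) {G : Finset (Vx d)} (hG : Cnn G)
    {T : Finset (Vx d)} (h : ∀ Q ∈ G, gd κ l n Q T) :
    ∀ Q ∈ G, ∀ Q' ∈ G, 0 < SS l n Q T * SS l n Q' T := by
  intro Q hQ Q' hQ'
  have hc := hG Q hQ Q' hQ'
  clear hQ'
  unfold Pool.Agent.SRC.conn at hc
  induction hc with
  | refl => exact gd_sign hκ hn (h Q hQ) (d1_self Q)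
  | tail _ hadj ih =>
    refine d1_trans ih ?_
    obtain ⟨i, hi | hi⟩ := hadj
    · obtain ⟨he, rfl⟩ := hi
      have he1 := Finset.mem_coe.1 he
      unfold Pool.Agent.SRC.edg at he1
      rw [Finset.mem_filter, Finset.mem_product] at he1
      exact gd_sign hκ hn (h _ he1.1.1) (d1_up i _)
    · obtain ⟨he, rfl⟩ := hi
      have he1 := Finset.mem_coe.1 he
      unfold Pool.Agent.SRC.edg at he1
      rw [Finset.mem_filter, Finset.mem_product] at he1
      exact gd_sign hκ hn (h _ he1.2) (d1_dn i _)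

/-- `Coh` implies that the bad set is small, also the union of two bad sets -/
theorem coh_sm {κ : ℝ} {l n h : ℕ} {L T T' : Finset (Vx d)} (h1 : Coh κ l n h L T)
    (h2 : Coh κ l n h L T') : Sm h (Bd κ l n L T ∪ Bd κ l n L T') := by
  intro s hs
  by_contra hno
  push Not at hno
  have hL : ∀ i, i < h → s i ∈ L := by
    intro i hi
    have h3 := hno i hi
    rw [Finset.mem_union] at h3
    rcases h3 with h3 | h3
    · exact Pool.Agent.SRC.fl_subset _ _ h3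
    · exact Pool.Agent.SRC.fl_subset _ _ h3
  have c1 := h1 s hs hL
  have c2 := h2 s hs hL
  have hsub : Finset.range h ⊆ fl (Finset.range h) (fun i => ¬ gd κ l n (s i) T) ∪
      fl (Finset.range h) (fun i => ¬ gd κ l n (s i) T') := by
    intro i hi
    have h3 := hno i (Finset.mem_range.1 hi)
    rw [Finset.mem_union] at h3 ⊢
    rcases h3 with h3 | h3
    · exact Or.inl ((Pool.Agent.SRC.mem_fl _ _ _).2 ⟨hi, ((Pool.Agent.SRC.mem_fl _ _ _).1 h3).2⟩)
    · exact Or.inr ((Pool.Agent.SRC.mem_fl _ _ _).2 ⟨hi, ((Pool.Agent.SRC.mem_fl _ _ _).1 h3).2⟩)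
  have h4 := (Finset.card_le_card hsub).trans (Finset.card_union_le _ _)
  rw [Finset.card_range] at h4
  omega

/-! ## row d2: giants -/

/-! ## row d2: giants -/

-- BEGIN d2
theorem Sm_mono {h : ℕ} {B B' : Finset (Vx d)} (hB : Sm h B') (hs : B ⊆ B') : Sm h B := by
  intro s hp
  obtain ⟨i, hi, h1⟩ := hB s hp
  exact ⟨i, hi, fun h2 => h1 (hs h2)⟩

private theorem d2_conn {X Y : Finset (Vx d)} (h : X ⊆ Y) {u v : Vx d}
    (hc : conn (↑(edg X) : Set (Ed d)) u v) : conn (↑(edg Y) : Set (Ed d)) u v := by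
  refine Pool.Agent.SRC.conn_mono ?_ hc
  intro e he
  rw [Finset.mem_coe, Pool.Agent.SRC.mem_edg] at he ⊢
  exact ⟨h he.1, h he.2⟩

/-- a connected set of large diameter outside of `B` lies in the giant -/
theorem Giant.absorb {h : ℕ} {L B G : Finset (Vx d)} (hG : Giant h L B G) {U : Finset (Vx d)}
    (hU : U ⊆ L \ B) (hc : Cnn U) (hd : Dm h U) : U ⊆ G := by
  obtain ⟨u, huU, huG⟩ := hG.meet U (hU.trans sdiff_subset) hc hd
  intro v hv
  exact hG.max u huG v (hU hv) (d2_conn hU (hc u huU v hv))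

/-- giants for a larger bad set are contained in giants -/
theorem Giant.anti {h : ℕ} {L B B' G G' : Finset (Vx d)} (hG : Giant h L B G)
    (hG' : Giant h L B' G') (hB : B ⊆ B') : G' ⊆ G :=
  hG.absorb (hG'.sub.trans (sdiff_subset_sdiff (Subset.refl _) hB)) hG'.con hG'.diam

/-- the giants of two boxes with a big overlap meet: take the giant of the overlap -/
theorem Giant.lap {h : ℕ} (hGia : Gia d h) {b c : BX d} (hl : BX.lap h b c)
    {B1 B2 G1 G2 : Finset (Vx d)} (h1 : Giant h b.L B1 G1) (h2 : Giant h c.L B2 G2)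
    (hB : ∀ Q ∈ b.L, Q ∈ c.L → (Q ∈ B1 ↔ Q ∈ B2)) (hs : Sm h B1) : ∃ Q ∈ G1, Q ∈ G2 := by
  have hI : ∀ Q, Q ∈ Finset.Icc (fun k => Max.max (b.lo k) (c.lo k)) (fun k => Min.min (b.hi k) (c.hi k)) →
      Q ∈ b.L ∧ Q ∈ c.L := fun Q hQ => by
    rw [mem_Icc] at hQ
    unfold BX.L
    rw [mem_Icc, mem_Icc]
    exact ⟨⟨fun k => (le_max_left _ _).trans (hQ.1 k), fun k => (hQ.2 k).trans (min_le_left _ _)⟩,
      ⟨fun k => (le_max_right _ _).trans (hQ.1 k), fun k => (hQ.2 k).trans (min_le_right _ _)⟩⟩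
  obtain ⟨G, hG⟩ := hGia (fun k => Max.max (b.lo k) (c.lo k)) (fun k => Min.min (b.hi k) (c.hi k)) hl
    (B1 ∩ Finset.Icc (fun k => Max.max (b.lo k) (c.lo k)) (fun k => Min.min (b.hi k) (c.hi k)))
    inter_subset_right (Sm_mono hs inter_subset_left)
  have hG1 : G ⊆ b.L \ B1 := fun Q hQ => by
    have h3 := mem_sdiff.mp (hG.sub hQ)
    exact mem_sdiff.mpr ⟨(hI Q h3.1).1, fun h4 => h3.2 (mem_inter.mpr ⟨h4, h3.1⟩)⟩
  have hG2 : G ⊆ c.L \ B2 := fun Q hQ => by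
    have h3 := mem_sdiff.mp (hG.sub hQ)
    have h4 := hI Q h3.1
    exact mem_sdiff.mpr ⟨h4.2, fun h5 => (mem_sdiff.mp (hG1 hQ)).2 ((hB Q h4.1 h4.2).mpr h5)⟩
  obtain ⟨Q, hQ, -⟩ := hG.diam
  exact ⟨Q, h1.absorb hG1 hG.con hG.diam hQ, h2.absorb hG2 hG.con hG.diam hQ⟩

-- END d2

/-! ## row d3: the sign of the giants -/

/-- `z` is the sign of the giants of all boxes -/
def Sgn (κ : ℝ) (l n h : ℕ) (bs : List (BX d)) (T : Finset (Vx d)) (z : ℝ) : Prop :=
  CohA κ l n h bs T ∧ (z = 1 ∨ z = -1) ∧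
    ∀ b ∈ bs, ∀ G, Giant h b.L (Bd κ l n b.L T) G → ∀ Q ∈ G, 0 < z * SS l n Q T

open Classical in
/-- the sign as a function of the sign field: `0` if there is no coherence -/
noncomputable def sg (κ : ℝ) (l n h : ℕ) (bs : List (BX d)) (T : Finset (Vx d)) : ℝ :=
  if Sgn κ l n h bs T 1 then 1 else if Sgn κ l n h bs T (-1) then -1 else 0

private theorem d3_giant {κ : ℝ} {l n h : ℕ} (hGia : Gia d h) {b : BX d} (hb : b.big h)
    {T : Finset (Vx d)} (hc : Coh κ l n h b.L T) :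
    Sm h (Bd κ l n b.L T) ∧ ∃ G, Giant h b.L (Bd κ l n b.L T) G := by
  have h1 := coh_sm hc hc
  rw [Finset.union_self] at h1
  exact ⟨h1, hGia b.lo b.hi hb (Bd κ l n b.L T) (Pool.Agent.SRC.fl_subset _ _) h1⟩

private theorem d3_gd {κ : ℝ} {l n h : ℕ} {L T G : Finset (Vx d)}
    (hG : Giant h L (Bd κ l n L T) G) : ∀ Q ∈ G, gd κ l n Q T := by
  intro Q hQ
  have h1 := hG.sub hQ
  rw [Finset.mem_sdiff] at h1
  by_contra hno
  exact h1.2 ((Pool.Agent.SRC.mem_fl _ _ _).2 ⟨h1.1, hno⟩)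

private theorem d3_tr {z a b : ℝ} (h1 : 0 < z * a) (h2 : 0 < a * b) : 0 < z * b := d1_trans h1 h2

/-- on `CohA` the sign exists: take the sign of the giant of the first box, go along the links -/
theorem exists_sgn {κ : ℝ} (hκ : 0 < κ) {l n h : ℕ} (hn : 1 ≤ n) (hGia : Gia d h)
    {bs : List (BX d)} (hne : bs ≠ []) (hbig : ∀ b ∈ bs, b.big h) (hl : Lnk h bs)
    {T : Finset (Vx d)} (hT : CohA κ l n h bs T) : ∃ z, Sgn κ l n h bs T z := by
  obtain ⟨b0, hb0⟩ := List.exists_mem_of_ne_nil bs hne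
  obtain ⟨_, G0, hG0⟩ := d3_giant hGia (hbig b0 hb0) (hT b0 hb0)
  obtain ⟨Q0, hQ0, _⟩ := hG0.diam
  have hpos : 0 < SS l n Q0 T * SS l n Q0 T :=
    sign_const hκ hn hG0.con (d3_gd hG0) Q0 hQ0 Q0 hQ0
  obtain ⟨z, hz, hzQ⟩ : ∃ z : ℝ, (z = 1 ∨ z = -1) ∧ 0 < z * SS l n Q0 T := by
    rcases lt_trichotomy (SS l n Q0 T) 0 with h1 | h1 | h1
    · exact ⟨-1, Or.inr rfl, by linarith⟩
    · rw [h1] at hpos
      simp at hpos
    · exact ⟨1, Or.inl rfl, by linarith⟩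
  refine ⟨z, hT, hz, ?_⟩
  intro b hb
  have hch := hl b0 hb0 b hb
  have key : b ∈ bs ∧ ∀ G, Giant h b.L (Bd κ l n b.L T) G → ∀ Q ∈ G, 0 < z * SS l n Q T := by
    clear hb
    induction hch with
    | refl =>
      refine ⟨hb0, ?_⟩
      intro G hG Q hQ
      have hsub := Giant.anti hG0 hG (Finset.Subset.refl _)
      exact d3_tr hzQ (sign_const hκ hn hG0.con (d3_gd hG0) Q0 hQ0 Q (hsub hQ))
    | tail _ hst ih =>
      refine ⟨hst.1, ?_⟩
      intro G hG Q hQ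
      obtain ⟨hs, G1, hG1⟩ := d3_giant hGia (hbig _ ih.1) (hT _ ih.1)
      obtain ⟨R, hR1, hR2⟩ := Giant.lap hGia hst.2 hG1 hG (by
        intro Q hQ1 hQ2
        unfold Bd
        rw [Pool.Agent.SRC.mem_fl, Pool.Agent.SRC.mem_fl]
        exact ⟨fun hh => ⟨hQ2, hh.2⟩, fun hh => ⟨hQ1, hh.2⟩⟩) hs
      exact d3_tr (ih.2 G1 hG1 R hR1) (sign_const hκ hn hG.con (d3_gd hG) R hR2 Q hQ)
  exact key.2

/-- the sign is unique -/
theorem sgn_unique {κ : ℝ} {l n h : ℕ} (hGia : Gia d h) {bs : List (BX d)} (hne : bs ≠ [])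
    (hbig : ∀ b ∈ bs, b.big h) {T : Finset (Vx d)} {z z' : ℝ} (h1 : Sgn κ l n h bs T z)
    (h2 : Sgn κ l n h bs T z') : z = z' := by
  obtain ⟨b0, hb0⟩ := List.exists_mem_of_ne_nil bs hne
  obtain ⟨_, G0, hG0⟩ := d3_giant hGia (hbig b0 hb0) (h1.1 b0 hb0)
  obtain ⟨Q0, hQ0, _⟩ := hG0.diam
  have e1 := h1.2.2 b0 hb0 G0 hG0 Q0 hQ0
  have e2 := h2.2.2 b0 hb0 G0 hG0 Q0 hQ0
  rcases h1.2.1 with rfl | rfl
  · rcases h2.2.1 with rfl | rfl
    · rfl
    · exfalso
      linarith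
  · rcases h2.2.1 with rfl | rfl
    · exfalso
      linarith
    · rfl

/-! ## row d4: flipping all signs -/

/-! ## row d4: flipping all signs -/

-- BEGIN d4a
theorem SS_compl {l n : ℕ} {D : Finset (Vx d)} {Q : Vx d} (hD : ∀ w ∈ fi n Q, ce l w ∈ D)
    (T : Finset (Vx d)) (hT : T ⊆ D) : SS l n Q (D \ T) = -SS l n Q T := by
  unfold SS
  rw [← Finset.sum_neg_distrib]
  refine Finset.sum_congr rfl fun w hw => ?_
  have h1 := hD w hw
  unfold spin
  by_cases h : ce l w ∈ T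
  · rw [if_neg (fun h2 => (Finset.mem_sdiff.1 h2).2 h), if_pos h, neg_neg]
  · rw [if_pos (Finset.mem_sdiff.2 ⟨h1, h⟩), if_neg h]

theorem gd_compl {κ : ℝ} {l n : ℕ} {D : Finset (Vx d)} {Q : Vx d}
    (hD : ∀ Q' ∈ ball Q 1, ∀ w ∈ fi n Q', ce l w ∈ D) (T : Finset (Vx d)) (hT : T ⊆ D) :
    gd κ l n Q (D \ T) ↔ gd κ l n Q T := by
  constructor
  · rintro ⟨z, hz, h⟩
    refine ⟨-z, ?_, fun Q' hQ' => ?_⟩
    · rcases hz with rfl | rfl
      · exact Or.inr rfl
      · exact Or.inl (neg_neg 1)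
    · have h1 := h Q' hQ'
      rw [SS_compl (hD Q' hQ') T hT] at h1
      rw [neg_mul, ← mul_neg]
      exact h1
  · rintro ⟨z, hz, h⟩
    refine ⟨-z, ?_, fun Q' hQ' => ?_⟩
    · rcases hz with rfl | rfl
      · exact Or.inr rfl
      · exact Or.inl (neg_neg 1)
    · rw [SS_compl (hD Q' hQ') T hT, neg_mul_neg]
      exact h Q' hQ'
-- END d4a

private theorem d4b_self (Q : Vx d) : Q ∈ ball Q 1 := by
  unfold ball
  rw [Finset.mem_Icc]
  constructor
  · intro k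
    show Q k - ((1 : ℕ) : ℤ) ≤ Q k
    push_cast; omega
  · intro k
    show Q k ≤ Q k + ((1 : ℕ) : ℤ)
    push_cast; omega

private theorem d4b_coh {κ : ℝ} {l n h : ℕ} {L D : Finset (Vx d)}
    (hD : ∀ Q ∈ L, ∀ Q' ∈ ball Q 1, ∀ w ∈ fi n Q', ce l w ∈ D)
    (T : Finset (Vx d)) (hT : T ⊆ D) (hc : Coh κ l n h L T) : Coh κ l n h L (D \ T) := by
  intro s hs hsL
  have h1 := hc s hs hsL
  have h2 : fl (Finset.range h) (fun i => ¬ gd κ l n (s i) (D \ T)) =
      fl (Finset.range h) (fun i => ¬ gd κ l n (s i) T) := by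
    ext i
    rw [Pool.Agent.SRC.mem_fl, Pool.Agent.SRC.mem_fl]
    refine and_congr_right fun hi => ?_
    rw [gd_compl (hD (s i) (hsL i (Finset.mem_range.1 hi))) T hT]
  rw [h2]
  exact h1

private theorem d4b_bd {κ : ℝ} {l n : ℕ} {L D : Finset (Vx d)}
    (hD : ∀ Q ∈ L, ∀ Q' ∈ ball Q 1, ∀ w ∈ fi n Q', ce l w ∈ D)
    (T : Finset (Vx d)) (hT : T ⊆ D) : Bd κ l n L (D \ T) = Bd κ l n L T := by
  unfold Bd
  ext Q
  rw [Pool.Agent.SRC.mem_fl, Pool.Agent.SRC.mem_fl]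
  refine and_congr_right fun hQ => ?_
  rw [gd_compl (hD Q hQ) T hT]

private theorem d4b_sgn {κ : ℝ} {l n h : ℕ} {bs : List (BX d)} {D : Finset (Vx d)}
    (hD : ∀ b ∈ bs, ∀ Q ∈ b.L, ∀ Q' ∈ ball Q 1, ∀ w ∈ fi n Q', ce l w ∈ D)
    (T : Finset (Vx d)) (hT : T ⊆ D) {z : ℝ} (hz : Sgn κ l n h bs T z) :
    Sgn κ l n h bs (D \ T) (-z) := by
  refine ⟨fun b hb => d4b_coh (hD b hb) T hT (hz.1 b hb), ?_, ?_⟩
  · rcases hz.2.1 with h1 | h1
    · right; rw [h1]
    · left; rw [h1, neg_neg]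
  · intro b hb G hG Q hQ
    rw [d4b_bd (hD b hb) T hT] at hG
    have h1 := hz.2.2 b hb G hG Q hQ
    have hQL : Q ∈ b.L := (Finset.mem_sdiff.1 (hG.sub hQ)).1
    rw [SS_compl (hD b hb Q hQL Q (d4b_self Q)) T hT, neg_mul_neg]
    exact h1

/-- `sg` is odd with values in `1, -1, 0`, and vanishes only without coherence -/
theorem sg_compl {κ : ℝ} (hκ : 0 < κ) {l n h : ℕ} (hn : 1 ≤ n) (hGia : Gia d h)
    {bs : List (BX d)} (hne : bs ≠ []) (hbig : ∀ b ∈ bs, b.big h) (hl : Lnk h bs)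
    {D : Finset (Vx d)}
    (hD : ∀ b ∈ bs, ∀ Q ∈ b.L, ∀ Q' ∈ ball Q 1, ∀ w ∈ fi n Q', ce l w ∈ D)
    (T : Finset (Vx d)) (hT : T ⊆ D) : sg κ l n h bs (D \ T) = -sg κ l n h bs T := by
  have key : ∀ z : ℝ, Sgn κ l n h bs (D \ T) z ↔ Sgn κ l n h bs T (-z) := by
    intro z
    constructor
    · intro h1
      have h2 := d4b_sgn hD (D \ T) Finset.sdiff_subset h1
      rwa [Finset.sdiff_sdiff_eq_self hT] at h2
    · intro h1
      have h2 := d4b_sgn hD T hT h1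
      rwa [neg_neg] at h2
  have k1 := key 1
  have k2 := key (-1)
  rw [neg_neg] at k2
  unfold sg
  by_cases a1 : Sgn κ l n h bs T 1
  · by_cases a2 : Sgn κ l n h bs T (-1)
    · exact absurd (sgn_unique hGia hne hbig a1 a2) (by norm_num)
    · rw [if_neg (fun h3 => a2 (k1.1 h3)), if_pos (k2.2 a1), if_pos a1]
  · by_cases a2 : Sgn κ l n h bs T (-1)
    · rw [if_pos (k1.2 a2), if_neg a1, if_pos a2, neg_neg]
    · rw [if_neg (fun h3 => a2 (k1.1 h3)), if_neg (fun h3 => a1 (k2.1 h3)), if_neg a1, if_neg a2,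
        neg_zero]

theorem sg_eq_zero {κ : ℝ} (hκ : 0 < κ) {l n h : ℕ} (hn : 1 ≤ n) (hGia : Gia d h)
    {bs : List (BX d)} (hne : bs ≠ []) (hbig : ∀ b ∈ bs, b.big h) (hl : Lnk h bs)
    {T : Finset (Vx d)} (hT : sg κ l n h bs T = 0) : ¬ CohA κ l n h bs T := by
  intro hc
  obtain ⟨z, hz⟩ := exists_sgn hκ hn hGia hne hbig hl hc
  unfold sg at hT
  rcases hz.2.1 with h1 | h1
  · rw [h1] at hz
    rw [if_pos hz] at hT
    exact one_ne_zero hT
  · rw [h1] at hz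
    by_cases a1 : Sgn κ l n h bs T 1
    · rw [if_pos a1] at hT
      exact one_ne_zero hT
    · rw [if_neg a1, if_pos hz] at hT
      norm_num at hT

theorem sg_val (κ : ℝ) (l n h : ℕ) (bs : List (BX d)) (T : Finset (Vx d)) :
    sg κ l n h bs T = 1 ∨ sg κ l n h bs T = -1 ∨ sg κ l n h bs T = 0 := by
  unfold sg
  split_ifs
  · exact Or.inl rfl
  · exact Or.inr (Or.inl rfl)
  · exact Or.inr (Or.inr rfl)
-- END d4a

/-! ## row d5: a cluster whose flip changes the sign visits a block of every connected set of large diameter.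
Take the giant `G` of the union of the two bad sets (`coh_sm`); it lies in both giants (`Giant.anti`); it meets
`U`; the sums at this block have opposite signs. -/

/-! ## row d5: a cluster whose flip changes the sign visits a block of every connected set of large diameter.
Take the giant `G` of the union of the two bad sets (`coh_sm`); it lies in both giants (`Giant.anti`); it meets
`U`; the sums at this block have opposite signs. -/

-- BEGIN d5
private lemma d5_one {κ : ℝ} {l n h : ℕ} {bs : List (BX d)} {T : Finset (Vx d)}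
    (h1 : sg κ l n h bs T = 1) : Sgn κ l n h bs T 1 := by
  by_contra hn
  unfold sg at h1
  rw [if_neg hn] at h1
  split_ifs at h1
  · linarith
  · linarith

private lemma d5_neg {κ : ℝ} {l n h : ℕ} {bs : List (BX d)} {T : Finset (Vx d)}
    (h1 : sg κ l n h bs T = -1) : Sgn κ l n h bs T (-1) := by
  by_contra hn
  unfold sg at h1
  rw [if_neg hn] at h1
  split_ifs at h1
  · linarith
  · linarith

theorem flip_visits {κ : ℝ} (hκ : 0 < κ) {l n h : ℕ} (hn : 1 ≤ n) (hGia : Gia d h)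
    {bs : List (BX d)} (hbig : ∀ b ∈ bs, b.big h) {T C : Finset (Vx d)}
    (h1 : sg κ l n h bs T = 1) (h2 : sg κ l n h bs (symmDiff T C) = -1) :
    ∀ b ∈ bs, ∀ U ⊆ b.L, Cnn U → Dm h U → ∃ Q ∈ U, ∃ w ∈ fi n Q, ce l w ∈ C := by
  intro b hb U hU hUc hUd
  obtain ⟨hT1, -, hT2⟩ := d5_one h1
  obtain ⟨hC1, -, hC2⟩ := d5_neg h2
  have hs := coh_sm (hT1 b hb) (hC1 b hb)
  have hsub : ∀ T' : Finset (Vx d), Bd κ l n b.L T' ⊆ Finset.Icc b.lo b.hi := fun T' Q hQ =>
    ((Pool.Agent.SRC.mem_fl _ _ _).1 hQ).1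
  obtain ⟨G, hG⟩ := hGia b.lo b.hi (hbig b hb) _ (Finset.union_subset (hsub T) (hsub (symmDiff T C))) hs
  obtain ⟨G1, hG1⟩ := hGia b.lo b.hi (hbig b hb) _ (hsub T) (Sm_mono hs Finset.subset_union_left)
  obtain ⟨G2, hG2⟩ := hGia b.lo b.hi (hbig b hb) _ (hsub (symmDiff T C))
    (Sm_mono hs Finset.subset_union_right)
  obtain ⟨Q, hQU, hQG⟩ := hG.meet U hU hUc hUd
  have e1 := hT2 b hb G1 hG1 Q (Giant.anti hG1 hG Finset.subset_union_left hQG)
  have e2 := hC2 b hb G2 hG2 Q (Giant.anti hG2 hG Finset.subset_union_right hQG)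
  refine ⟨Q, hQU, ?_⟩
  by_contra hcon
  push Not at hcon
  have e3 : SS l n Q (symmDiff T C) = SS l n Q T := by
    unfold SS
    refine Finset.sum_congr rfl fun w hw => ?_
    have h3 := hcon w hw
    unfold spin
    by_cases h : ce l w ∈ T
    · rw [if_pos h, if_pos (Finset.mem_symmDiff.2 (Or.inl ⟨h, h3⟩))]
    · rw [if_neg h, if_neg]
      intro h4
      rcases Finset.mem_symmDiff.1 h4 with h5 | h5
      · exact h h5.1
      · exact h3 h5.1
  rw [e3] at e2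
  linarith
-- END d5

end Pool.Agent.Fac
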