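import Pool.Agent.Fac.Defs

/-!
# Block FAC: masks and the flip of one cluster (helper83)

`mask`: the coins `b` are iid. If the cluster of `u0` in `m0 ∪ b` meets at least `k` of the disjoint connected
blocks `Q i` but contains none of the points `v i ∈ Q i`, then in none of the blocks which it meets are
all coins open; the probability is at most `(1 - p ^ n0) ^ k`.

`flip_one`: an odd function `z` with values in `{-1, 0, 1}` on the sign fields of `m` which seldom
vanishes changes from `1` to `-1` by the flip of one cluster.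
-/

set_option autoImplicit false

namespace Pool.Agent.Fac

open Finset
open Pool.Agent.SRC
open Pool.Agent.FK1 (wB wB_nonneg wB_union sum_wB sum_powerset_union)

variable {d : ℕ}

/-! ## masks -/

/-- edges inside `Q` do not matter for a cluster which does not meet `Q` -/
theorem conn_add {ω : Set (Ed d)} {c : Finset (Ed d)} {Q : Finset (Vx d)} (hc : c ⊆ edg Q)
    {u : Vx d} (hu : ∀ y ∈ Q, ¬ conn ω u y) {y : Vx d} (h : conn (ω ∪ ↑c) u y) : conn ω u y := by
  induction h with
  | refl => exact conn_refl ω u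
  | @tail w y _ h2 ih =>
    refine conn_trans ih (Relation.ReflTransGen.single ?_)
    obtain ⟨i, hi⟩ := h2
    refine ⟨i, ?_⟩
    rcases hi with ⟨h3, h4⟩ | ⟨h3, h4⟩
    · rcases h3 with h3 | h3
      · exact Or.inl ⟨h3, h4⟩
      · exact absurd ih (hu w ((mem_edg Q _).1 (hc (Finset.mem_coe.1 h3))).1)
    · rcases h3 with h3 | h3
      · exact Or.inr ⟨h3, h4⟩
      · refine absurd ih (hu w ?_)
        have h5 := ((mem_edg Q _).1 (hc (Finset.mem_coe.1 h3))).2
        rw [h4]
        exact h5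

/-- the blocks met by the cluster of `u0` -/
noncomputable def met {ι : Type*} (Q : ι → Finset (Vx d)) (u0 : Vx d) (I : Finset ι)
    (ω : Finset (Ed d)) : Finset ι := fl I (fun i => ∃ y ∈ Q i, conn (↑ω : Set (Ed d)) u0 y)

/-- the cluster of `u0` contains none of the points `v i` -/
def avd {ι : Type*} (v : ι → Vx d) (u0 : Vx d) (I : Finset ι) (ω : Finset (Ed d)) : Prop :=
  ∀ i ∈ I, ¬ conn (↑ω : Set (Ed d)) u0 (v i)

/-- the exponential form of the mask estimate -/
theorem mask_exp {ι : Type*} [DecidableEq ι] {p : ℝ} (hp0 : 0 ≤ p) (hp1 : p ≤ 1) {lam : ℝ}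
    (hl : 0 < lam) (Q : ι → Finset (Vx d)) (v : ι → Vx d) (u0 : Vx d) (I : Finset ι) :
    ∀ (E m0 : Finset (Ed d)), (∀ i ∈ I, ∀ j ∈ I, i ≠ j → Disjoint (Q i) (Q j)) →
    (∀ i ∈ I, edg (Q i) ⊆ E) → (∀ i ∈ I, 1 - p ^ (edg (Q i)).card ≤ lam) →
    (∀ i ∈ I, Cnn (Q i)) → (∀ i ∈ I, v i ∈ Q i) →
    ∑ b ∈ E.powerset, wB (fun _ => p) E b *
      (ind (avd v u0 I (m0 ∪ b)) * lam⁻¹ ^ (met Q u0 I (m0 ∪ b)).card) ≤ 1 := by
  classical
  induction I using Finset.induction_on with
  | empty =>
    intro E m0 _ _ _ _ _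
    refine le_of_eq ?_
    rw [← sum_wB (fun _ => p) E]
    refine Finset.sum_congr rfl fun b _ => ?_
    have h1 : avd v u0 ∅ (m0 ∪ b) := fun i hi => absurd hi (Finset.notMem_empty i)
    have h2 : met Q u0 ∅ (m0 ∪ b) = ∅ := Finset.subset_empty.1 (fl_subset _ _)
    rw [ind_true h1, h2, Finset.card_empty, pow_zero, mul_one, mul_one]
  | insert i I hi ih =>
    intro E m0 hdis hE hn hc hv
    let Ei : Finset (Ed d) := edg (Q i)
    let E' : Finset (Ed d) := E \ Ei
    have hEi : Ei ⊆ E := hE i (Finset.mem_insert_self i I)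
    have hEE : E = Ei ∪ E' := (Finset.union_sdiff_of_subset hEi).symm
    have hdE : Disjoint Ei E' := Finset.disjoint_sdiff
    let g : Finset (Ed d) → ℝ := fun ω => ind (avd v u0 I ω) * lam⁻¹ ^ (met Q u0 I ω).card
    have hg0 : ∀ ω, 0 ≤ g ω := fun ω => mul_nonneg (ind_nonneg _) (pow_nonneg (inv_nonneg.2 hl.le) _)
    have IH : ∀ m1 : Finset (Ed d), ∑ b ∈ E'.powerset, wB (fun _ => p) E' b * g (m1 ∪ b) ≤ 1 := by
      intro m1
      refine ih E' m1 (fun a ha b hb => hdis a (Finset.mem_insert_of_mem ha) b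
        (Finset.mem_insert_of_mem hb)) (fun a ha => ?_)
        (fun a ha => hn a (Finset.mem_insert_of_mem ha))
        (fun a ha => hc a (Finset.mem_insert_of_mem ha))
        (fun a ha => hv a (Finset.mem_insert_of_mem ha))
      intro e he
      refine Finset.mem_sdiff.2 ⟨hE a (Finset.mem_insert_of_mem ha) he, fun he' => ?_⟩
      have h1 := (mem_edg _ _).1 he
      have h2 := (mem_edg _ _).1 he'
      exact Finset.disjoint_left.1 (hdis a (Finset.mem_insert_of_mem ha) i
        (Finset.mem_insert_self i I) (fun h => hi (h ▸ ha))) h1.1 h2.1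
    let A : Finset (Ed d) → Prop := fun b => ∃ y ∈ Q i, conn (↑(m0 ∪ b) : Set (Ed d)) u0 y
    have hcoe : ∀ c b : Finset (Ed d), (↑(m0 ∪ (c ∪ b)) : Set (Ed d)) = ↑(m0 ∪ b) ∪ ↑c := by
      intro c b
      rw [← Finset.coe_union]
      congr 1
      rw [Finset.union_comm c b, Finset.union_assoc]
    have hsub : ∀ c b : Finset (Ed d), (↑(m0 ∪ b) : Set (Ed d)) ⊆ ↑(m0 ∪ (c ∪ b)) := by
      intro c b
      rw [hcoe]
      exact Set.subset_union_left
    -- if `A` fails the edges of the block do not matter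
    have hAf : ∀ b, ¬ A b → ∀ c, c ⊆ Ei → ∀ y, conn (↑(m0 ∪ (c ∪ b)) : Set (Ed d)) u0 y ↔
        conn (↑(m0 ∪ b) : Set (Ed d)) u0 y := by
      intro b hb c hc' y
      refine ⟨fun h => ?_, conn_mono (hsub c b)⟩
      rw [hcoe] at h
      exact conn_add hc' (fun y hy h' => hb ⟨y, hy, h'⟩) h
    have hgA : ∀ b, ¬ A b → ∀ c, c ⊆ Ei → g (m0 ∪ (c ∪ b)) = g (m0 ∪ b) := by
      intro b hb c hc'
      have h1 := hAf b hb c hc'
      have h2 : avd v u0 I (m0 ∪ (c ∪ b)) ↔ avd v u0 I (m0 ∪ b) := by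
        unfold avd
        simp only [h1]
      have h3 : met Q u0 I (m0 ∪ (c ∪ b)) = met Q u0 I (m0 ∪ b) := by
        unfold met
        simp only [h1]
      show ind _ * _ = ind _ * _
      rw [ind_congr h2, h3]
    -- the pointwise estimate
    have hpt : ∀ b, ∀ c, c ⊆ Ei →
        ind (avd v u0 (insert i I) (m0 ∪ (c ∪ b))) *
          lam⁻¹ ^ (met Q u0 (insert i I) (m0 ∪ (c ∪ b))).card ≤
        ind (¬ A b) * g (m0 ∪ b) + ind (c ≠ Ei) * (lam⁻¹ * (ind (A b) * g (m0 ∪ (c ∪ b)))) := by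
      intro b c hc'
      have h1 : ind (avd v u0 (insert i I) (m0 ∪ (c ∪ b))) ≤ ind (avd v u0 I (m0 ∪ (c ∪ b))) :=
        ind_mono fun h j hj => h j (Finset.mem_insert_of_mem hj)
      by_cases hA : A b
      · rw [ind_false (not_not.2 hA), zero_mul, zero_add, ind_true hA, one_mul]
        by_cases hcE : c = Ei
        · -- the block is full: the cluster contains `v i`
          have h2 : ¬ avd v u0 (insert i I) (m0 ∪ (c ∪ b)) := by
            intro h
            obtain ⟨y, hy, hy'⟩ := hA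
            refine h i (Finset.mem_insert_self i I) (conn_trans (conn_mono (hsub c b) hy') ?_)
            refine conn_mono ?_ (hc i (Finset.mem_insert_self i I) y hy (v i)
              (hv i (Finset.mem_insert_self i I)))
            rw [hcoe, hcE]
            exact Set.subset_union_right
          rw [ind_false h2, ind_false (not_not.2 hcE), zero_mul, zero_mul]
        · rw [ind_true hcE, one_mul]
          have h2 : i ∈ met Q u0 (insert i I) (m0 ∪ (c ∪ b)) := by
            obtain ⟨y, hy, hy'⟩ := hA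
            exact (mem_fl _ _ _).2 ⟨Finset.mem_insert_self i I, y, hy, conn_mono (hsub c b) hy'⟩
          have h3 : met Q u0 (insert i I) (m0 ∪ (c ∪ b)) =
              insert i (met Q u0 I (m0 ∪ (c ∪ b))) := by
            ext j
            rw [met, met, mem_fl, Finset.mem_insert, Finset.mem_insert, mem_fl]
            constructor
            · rintro ⟨rfl | h4, h5⟩
              · exact Or.inl rfl
              · exact Or.inr ⟨h4, h5⟩
            · rintro (rfl | ⟨h4, h5⟩)
              · exact ⟨Or.inl rfl, ((mem_fl _ _ _).1 h2).2⟩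
              · exact ⟨Or.inr h4, h5⟩
          have h4 : i ∉ met Q u0 I (m0 ∪ (c ∪ b)) := fun h => hi (fl_subset _ _ h)
          rw [h3, Finset.card_insert_of_notMem h4, pow_succ]
          calc _ ≤ ind (avd v u0 I (m0 ∪ (c ∪ b))) *
                (lam⁻¹ ^ (met Q u0 I (m0 ∪ (c ∪ b))).card * lam⁻¹) :=
                mul_le_mul_of_nonneg_right h1
                  (mul_nonneg (pow_nonneg (inv_nonneg.2 hl.le) _) (inv_nonneg.2 hl.le))
            _ = lam⁻¹ * g (m0 ∪ (c ∪ b)) := by
                show _ = lam⁻¹ * (ind _ * _)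
                ring
      · rw [ind_true hA, one_mul, ind_false hA, zero_mul, mul_zero, mul_zero, add_zero,
          ← hgA b hA c hc']
        have h3 : met Q u0 (insert i I) (m0 ∪ (c ∪ b)) = met Q u0 I (m0 ∪ (c ∪ b)) := by
          ext j
          rw [met, met, mem_fl, Finset.mem_insert, mem_fl]
          constructor
          · rintro ⟨rfl | h4, h5⟩
            · obtain ⟨y, hy, hy'⟩ := h5
              exact absurd ⟨y, hy, (hAf b hA c hc' y).1 hy'⟩ hA
            · exact ⟨h4, h5⟩
          · rintro ⟨h4, h5⟩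
            exact ⟨Or.inr h4, h5⟩
        rw [h3]
        exact mul_le_mul_of_nonneg_right h1 (pow_nonneg (inv_nonneg.2 hl.le) _)
    have hw : ∀ F : Finset (Ed d), ∀ s ∈ F.powerset, 0 ≤ wB (fun _ => p) F s := fun F s hs =>
      wB_nonneg (fun _ _ => hp0) (fun _ _ => hp1) (Finset.mem_powerset.1 hs)
    let al : ℝ := ∑ b ∈ E'.powerset, wB (fun _ => p) E' b * (ind (¬ A b) * g (m0 ∪ b))
    have hal0 : 0 ≤ al := Finset.sum_nonneg fun b hb =>
      mul_nonneg (hw _ b hb) (mul_nonneg (ind_nonneg _) (hg0 _))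
    have hal1 : al ≤ 1 := by
      refine le_trans (Finset.sum_le_sum fun b hb => ?_) (IH m0)
      refine mul_le_mul_of_nonneg_left ?_ (hw _ b hb)
      calc ind (¬ A b) * g (m0 ∪ b) ≤ 1 * g (m0 ∪ b) :=
            mul_le_mul_of_nonneg_right (ind_le_one _) (hg0 _)
        _ = _ := one_mul _
    have hbe : ∀ c ∈ Ei.powerset,
        ∑ b ∈ E'.powerset, wB (fun _ => p) E' b * (ind (A b) * g (m0 ∪ (c ∪ b))) ≤ 1 - al := by
      intro c hc'
      have h1 := IH (m0 ∪ c)
      have h2 : ∑ b ∈ E'.powerset, wB (fun _ => p) E' b * g (m0 ∪ c ∪ b) =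
          al + ∑ b ∈ E'.powerset, wB (fun _ => p) E' b * (ind (A b) * g (m0 ∪ (c ∪ b))) := by
        rw [← Finset.sum_add_distrib]
        refine Finset.sum_congr rfl fun b _ => ?_
        rw [Finset.union_assoc]
        by_cases hA : A b
        · rw [ind_false (not_not.2 hA), ind_true hA]
          ring
        · rw [ind_true hA, ind_false hA, hgA b hA c (Finset.mem_powerset.1 hc')]
          ring
      linarith
    have hsum : ∑ c ∈ Ei.powerset, wB (fun _ => p) Ei c * ind (c ≠ Ei) ≤ lam := by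
      have h1 : ∑ c ∈ Ei.powerset, wB (fun _ => p) Ei c * ind (c ≠ Ei) =
          1 - p ^ Ei.card := by
        have h2 : ∀ c ∈ Ei.powerset, wB (fun _ => p) Ei c * ind (c ≠ Ei) =
            wB (fun _ => p) Ei c - if c = Ei then wB (fun _ => p) Ei c else 0 := by
          intro c _
          by_cases h3 : c = Ei
          · rw [ind_false (not_not.2 h3), if_pos h3]
            ring
          · rw [ind_true h3, if_neg h3]
            ring
        rw [Finset.sum_congr rfl h2, Finset.sum_sub_distrib, sum_wB, Finset.sum_ite_eq',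
          if_pos (Finset.mem_powerset_self _)]
        unfold wB
        rw [Finset.sdiff_self, Finset.prod_empty, mul_one, Finset.prod_const]
      rw [h1]
      exact hn i (Finset.mem_insert_self i I)
    calc ∑ b ∈ E.powerset, wB (fun _ => p) E b *
          (ind (avd v u0 (insert i I) (m0 ∪ b)) *
            lam⁻¹ ^ (met Q u0 (insert i I) (m0 ∪ b)).card)
        = ∑ c ∈ Ei.powerset, ∑ b ∈ E'.powerset, wB (fun _ => p) Ei c * wB (fun _ => p) E' b *
          (ind (avd v u0 (insert i I) (m0 ∪ (c ∪ b))) *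
            lam⁻¹ ^ (met Q u0 (insert i I) (m0 ∪ (c ∪ b))).card) := by
          conv_lhs => rw [hEE]
          rw [sum_powerset_union Ei E' hdE]
          refine Finset.sum_congr rfl fun c hc' => Finset.sum_congr rfl fun b hb => ?_
          rw [wB_union _ hdE (Finset.mem_powerset.1 hc') (Finset.mem_powerset.1 hb)]
      _ ≤ ∑ c ∈ Ei.powerset, ∑ b ∈ E'.powerset, wB (fun _ => p) Ei c * wB (fun _ => p) E' b *
          (ind (¬ A b) * g (m0 ∪ b) +
            ind (c ≠ Ei) * (lam⁻¹ * (ind (A b) * g (m0 ∪ (c ∪ b))))) :=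
          Finset.sum_le_sum fun c hc' => Finset.sum_le_sum fun b hb =>
            mul_le_mul_of_nonneg_left (hpt b c (Finset.mem_powerset.1 hc'))
              (mul_nonneg (hw _ c hc') (hw _ b hb))
      _ = ∑ c ∈ Ei.powerset, (wB (fun _ => p) Ei c * al +
          wB (fun _ => p) Ei c * ind (c ≠ Ei) * lam⁻¹ *
            ∑ b ∈ E'.powerset, wB (fun _ => p) E' b * (ind (A b) * g (m0 ∪ (c ∪ b)))) := by
          refine Finset.sum_congr rfl fun c _ => ?_
          rw [Finset.mul_sum, Finset.mul_sum, ← Finset.sum_add_distrib]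
          refine Finset.sum_congr rfl fun b _ => ?_
          ring
      _ ≤ ∑ c ∈ Ei.powerset, (wB (fun _ => p) Ei c * al +
          wB (fun _ => p) Ei c * ind (c ≠ Ei) * lam⁻¹ * (1 - al)) := by
          refine Finset.sum_le_sum fun c hc' => ?_
          have h1 := mul_le_mul_of_nonneg_left (hbe c hc')
            (mul_nonneg (mul_nonneg (hw _ c hc') (ind_nonneg (c ≠ Ei))) (inv_nonneg.2 hl.le))
          linarith
      _ = al + (∑ c ∈ Ei.powerset, wB (fun _ => p) Ei c * ind (c ≠ Ei)) * (lam⁻¹ * (1 - al)) := by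
          rw [Finset.sum_add_distrib, ← Finset.sum_mul, sum_wB, one_mul, Finset.sum_mul]
          congr 1
          refine Finset.sum_congr rfl fun c _ => ?_
          ring
      _ ≤ al + lam * (lam⁻¹ * (1 - al)) := by
          have h1 := mul_le_mul_of_nonneg_right hsum
            (mul_nonneg (inv_nonneg.2 hl.le) (sub_nonneg.2 hal1))
          linarith
      _ = 1 := by
          rw [← mul_assoc, mul_inv_cancel₀ hl.ne']
          ring

/-- MASK. -/
theorem mask {ι : Type*} [DecidableEq ι] {p : ℝ} (hp0 : 0 ≤ p) (hp1 : p ≤ 1) (n0 k : ℕ)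
    (E : Finset (Ed d)) (I : Finset ι) (Q : ι → Finset (Vx d)) (v : ι → Vx d)
    (hdis : ∀ i ∈ I, ∀ j ∈ I, i ≠ j → Disjoint (Q i) (Q j)) (hE : ∀ i ∈ I, edg (Q i) ⊆ E)
    (hn : ∀ i ∈ I, (edg (Q i)).card ≤ n0) (hc : ∀ i ∈ I, Cnn (Q i)) (hv : ∀ i ∈ I, v i ∈ Q i)
    (m0 : Finset (Ed d)) (u0 : Vx d) :
    ∑ b ∈ E.powerset, wB (fun _ => p) E b *
      ind (k ≤ (fl I (fun i => ∃ y ∈ Q i, conn (↑(m0 ∪ b) : Set (Ed d)) u0 y)).card ∧
        ∀ i ∈ I, ¬ conn (↑(m0 ∪ b) : Set (Ed d)) u0 (v i)) ≤ (1 - p ^ n0) ^ k := by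
  classical
  have h0 : 0 ≤ 1 - p ^ n0 := sub_nonneg.2 (pow_le_one₀ hp0 hp1)
  have hw : ∀ s ∈ E.powerset, 0 ≤ wB (fun _ => p) E s := fun s hs =>
    wB_nonneg (fun _ _ => hp0) (fun _ _ => hp1) (Finset.mem_powerset.1 hs)
  -- the bound for every larger `lam ≤ 1`
  have key : ∀ lam : ℝ, 1 - p ^ n0 < lam → lam ≤ 1 →
      ∑ b ∈ E.powerset, wB (fun _ => p) E b *
        ind (k ≤ (fl I (fun i => ∃ y ∈ Q i, conn (↑(m0 ∪ b) : Set (Ed d)) u0 y)).card ∧
          ∀ i ∈ I, ¬ conn (↑(m0 ∪ b) : Set (Ed d)) u0 (v i)) ≤ lam ^ k := by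
    intro lam hlam hlam1
    have hl : 0 < lam := h0.trans_lt hlam
    have h1 := mask_exp hp0 hp1 hl Q v u0 I E m0 hdis hE (fun i hi => by
      have h2 : p ^ n0 ≤ p ^ (edg (Q i)).card := pow_le_pow_of_le_one hp0 hp1 (hn i hi)
      linarith) hc hv
    have h2 : ∀ b ∈ E.powerset, wB (fun _ => p) E b *
        ind (k ≤ (fl I (fun i => ∃ y ∈ Q i, conn (↑(m0 ∪ b) : Set (Ed d)) u0 y)).card ∧
          ∀ i ∈ I, ¬ conn (↑(m0 ∪ b) : Set (Ed d)) u0 (v i)) ≤
        lam ^ k * (wB (fun _ => p) E b *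
          (ind (avd v u0 I (m0 ∪ b)) * lam⁻¹ ^ (met Q u0 I (m0 ∪ b)).card)) := by
      intro b hb
      rw [mul_left_comm]
      refine mul_le_mul_of_nonneg_left ?_ (hw b hb)
      by_cases h3 : k ≤ (met Q u0 I (m0 ∪ b)).card ∧ avd v u0 I (m0 ∪ b)
      · have h4 : ind (k ≤ (fl I (fun i => ∃ y ∈ Q i,
            conn (↑(m0 ∪ b) : Set (Ed d)) u0 y)).card ∧
            ∀ i ∈ I, ¬ conn (↑(m0 ∪ b) : Set (Ed d)) u0 (v i)) = 1 := ind_true h3
        rw [h4, ind_true h3.2, one_mul, inv_pow, ← div_eq_mul_inv, le_div_iff₀ (by positivity),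
          one_mul]
        exact pow_le_pow_of_le_one hl.le hlam1 h3.1
      · have h4 : ind (k ≤ (fl I (fun i => ∃ y ∈ Q i,
            conn (↑(m0 ∪ b) : Set (Ed d)) u0 y)).card ∧
            ∀ i ∈ I, ¬ conn (↑(m0 ∪ b) : Set (Ed d)) u0 (v i)) = 0 := ind_false h3
        rw [h4]
        exact mul_nonneg (pow_nonneg hl.le _) (mul_nonneg (ind_nonneg _)
          (pow_nonneg (inv_nonneg.2 hl.le) _))
    calc _ ≤ ∑ b ∈ E.powerset, lam ^ k * (wB (fun _ => p) E b *
          (ind (avd v u0 I (m0 ∪ b)) * lam⁻¹ ^ (met Q u0 I (m0 ∪ b)).card)) :=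
          Finset.sum_le_sum h2
      _ = lam ^ k * ∑ b ∈ E.powerset, wB (fun _ => p) E b *
          (ind (avd v u0 I (m0 ∪ b)) * lam⁻¹ ^ (met Q u0 I (m0 ∪ b)).card) :=
          (Finset.mul_sum _ _ _).symm
      _ ≤ lam ^ k * 1 := mul_le_mul_of_nonneg_left h1 (pow_nonneg hl.le _)
      _ = lam ^ k := mul_one _
  rcases eq_or_lt_of_le (sub_le_self 1 (pow_nonneg hp0 n0) : 1 - p ^ n0 ≤ 1) with h1 | h1
  · -- `p ^ n0 = 0`: the bound is `1`
    rw [h1, one_pow, ← sum_wB (fun _ => p) E]
    refine Finset.sum_le_sum fun b hb => ?_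
    calc _ ≤ wB (fun _ => p) E b * 1 := mul_le_mul_of_nonneg_left (ind_le_one _) (hw b hb)
      _ = _ := mul_one _
  · refine ge_of_tendsto (f := fun lam : ℝ => lam ^ k) (x := nhdsWithin (1 - p ^ n0) (Set.Ioi (1 - p ^ n0))) ?_ ?_
    · exact ((continuous_pow k).tendsto _).mono_left nhdsWithin_le_nhds
    · filter_upwards [Ioo_mem_nhdsGT h1] with lam hlam
      exact key lam hlam.1 hlam.2.le

/-! ## the flip of one cluster -/

theorem mem_HH {D : Finset (Vx d)} {m : Finset (Ed d)} {T : Finset (Vx d)} :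
    T ∈ HH D m ↔ T ⊆ D ∧ Cst m T := by
  unfold HH
  rw [mem_fl, Finset.mem_powerset]

theorem Cst.conn {m : Finset (Ed d)} {T : Finset (Vx d)} (h : Cst m T) {u y : Vx d}
    (hy : conn (↑m : Set (Ed d)) u y) : u ∈ T ↔ y ∈ T := by
  induction hy with
  | refl => exact Iff.rfl
  | @tail w y _ h2 ih =>
    refine ih.trans ?_
    obtain ⟨i, ⟨h3, h4⟩ | ⟨h3, h4⟩⟩ := h2
    · have h5 := h (w, i) (Finset.mem_coe.1 h3)
      rw [h4]
      exact h5
    · have h5 := h (y, i) (Finset.mem_coe.1 h3)
      rw [h4]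
      exact h5.symm

theorem Cst.symmDiff {m : Finset (Ed d)} {T U : Finset (Vx d)} (h : Cst m T) (h' : Cst m U) :
    Cst m (symmDiff T U) := by
  intro e he
  rw [Finset.mem_symmDiff, Finset.mem_symmDiff, h e he, h' e he]

theorem conn_edge {m : Finset (Ed d)} {e : Ed d} (he : e ∈ m) :
    conn (↑m : Set (Ed d)) e.1 (tip e) :=
  Relation.ReflTransGen.single ⟨e.2, Or.inl ⟨Finset.mem_coe.2 he, rfl⟩⟩

/-- the union of the clusters of the points of `W` -/
noncomputable def uc (D : Finset (Vx d)) (m : Finset (Ed d)) (W : Finset (Vx d)) :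
    Finset (Vx d) := fl D (fun v => ∃ w ∈ W, conn (↑m : Set (Ed d)) w v)

theorem uc_Cst {D : Finset (Vx d)} {m : Finset (Ed d)} (hm : EndsIn m D) (W : Finset (Vx d)) :
    Cst m (uc D m W) := by
  intro e he
  unfold uc
  rw [mem_fl, mem_fl]
  constructor
  · rintro ⟨_, w, hw, h⟩
    exact ⟨(hm e he).2, w, hw, conn_trans h (conn_edge he)⟩
  · rintro ⟨_, w, hw, h⟩
    exact ⟨(hm e he).1, w, hw, conn_trans h (conn_symm (conn_edge he))⟩

theorem uc_HH {D : Finset (Vx d)} {m : Finset (Ed d)} (hm : EndsIn m D) (W : Finset (Vx d)) :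
    uc D m W ∈ HH D m := mem_HH.2 ⟨fl_subset _ _, uc_Cst hm W⟩

theorem HH_symmDiff {D : Finset (Vx d)} {m : Finset (Ed d)} {T U : Finset (Vx d)}
    (h : T ∈ HH D m) (h' : U ∈ HH D m) : symmDiff T U ∈ HH D m := by
  rw [mem_HH] at h h' ⊢
  refine ⟨fun v hv => ?_, h.2.symmDiff h'.2⟩
  rcases Finset.mem_symmDiff.1 hv with h1 | h1
  · exact h.1 h1.1
  · exact h'.1 h1.1

theorem Cl_eq_uc (D : Finset (Vx d)) (m : Finset (Ed d)) (u : Vx d) : Cl D m u = uc D m {u} := by
  unfold Cl uc
  ext v
  rw [mem_fl, mem_fl]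
  simp only [Finset.mem_singleton, exists_eq_left]

/-- FLIP: an odd function which seldom vanishes changes its sign by the flip of one cluster -/
theorem flip_one {D : Finset (Vx d)} {m : Finset (Ed d)} (hm : EndsIn m D)
    (z : Finset (Vx d) → ℝ) (hz : ∀ T ∈ HH D m, z T = 0 ∨ z T = 1 ∨ z T = -1)
    (hodd : ∀ T ∈ HH D m, z (D \ T) = - z T)
    (h : (fl (HH D m) (fun T => z T = 0)).card * (D.card + 1) < (HH D m).card) :
    ∃ T ∈ HH D m, ∃ u ∈ D, symmDiff T (Cl D m u) ∈ HH D m ∧ z T = 1 ∧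
      z (symmDiff T (Cl D m u)) = -1 := by
  classical
  by_contra hcon
  push Not at hcon
  -- no flip of one cluster changes the sign
  have hno : ∀ T ∈ HH D m, ∀ u ∈ D, z T ≠ 0 → z (symmDiff T (Cl D m u)) ≠ - z T := by
    intro T hT u hu h0 h1
    have hT' : symmDiff T (Cl D m u) ∈ HH D m := HH_symmDiff hT (by rw [Cl_eq_uc]; exact uc_HH hm _)
    rcases hz T hT with h2 | h2 | h2
    · exact h0 h2
    · exact hcon T hT u hu hT' h2 (by rw [h1, h2])
    · refine hcon _ hT' u hu ?_ (by rw [h1, h2, neg_neg]) ?_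
      · rw [symmDiff_symmDiff_cancel_right]
        exact hT
      · rw [symmDiff_symmDiff_cancel_right]
        exact h2
  let N0 : ℕ := (fl (HH D m) (fun T => z T = 0)).card
  let BW : Finset (Vx d) → Finset (Finset (Vx d)) := fun W =>
    fl (HH D m) (fun T => z T ≠ 0 ∧ z (symmDiff T (uc D m W)) = - z T)
  have hind : ∀ W : Finset (Vx d), W ⊆ D → (BW W).card ≤ W.card * N0 := by
    intro W
    induction W using Finset.induction_on with
    | empty =>
      intro _
      rw [Finset.card_empty, zero_mul, Nat.le_zero, Finset.card_eq_zero]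
      refine Finset.eq_empty_of_forall_notMem fun T hT => ?_
      obtain ⟨_, h1, h2⟩ := (mem_fl _ _ _).1 hT
      have h3 : uc D m ∅ = ∅ := by
        refine Finset.eq_empty_of_forall_notMem fun v hv => ?_
        obtain ⟨_, w, hw, _⟩ := (mem_fl _ _ _).1 hv
        exact absurd hw (Finset.notMem_empty w)
      have h3' : symmDiff T (∅ : Finset (Vx d)) = T := by
        rw [← Finset.bot_eq_empty, symmDiff_bot]
      rw [h3, h3'] at h2
      exact h1 (by linarith)
    | insert w W hw ih =>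
      intro hW
      have hWD : W ⊆ D := fun v hv => hW (Finset.mem_insert_of_mem hv)
      have hwD : w ∈ D := hW (Finset.mem_insert_self w W)
      -- the new union is the old one, or the old one and one new cluster
      have h1 : uc D m (insert w W) = uc D m W ∨
          uc D m (insert w W) = symmDiff (uc D m W) (Cl D m w) := by
        by_cases h2 : ∃ w' ∈ W, conn (↑m : Set (Ed d)) w' w
        · left
          obtain ⟨w', hw', hc⟩ := h2
          ext v
          unfold uc
          rw [mem_fl, mem_fl]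
          constructor
          · rintro ⟨hv, a, ha, hav⟩
            rcases Finset.mem_insert.1 ha with rfl | ha
            · exact ⟨hv, w', hw', conn_trans hc hav⟩
            · exact ⟨hv, a, ha, hav⟩
          · rintro ⟨hv, a, ha, hav⟩
            exact ⟨hv, a, Finset.mem_insert_of_mem ha, hav⟩
        · right
          ext v
          rw [Finset.mem_symmDiff]
          unfold uc Cl
          rw [mem_fl, mem_fl, mem_fl]
          constructor
          · rintro ⟨hv, a, ha, hav⟩
            rcases Finset.mem_insert.1 ha with rfl | ha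
            · exact Or.inr ⟨⟨hv, hav⟩, fun ⟨_, b, hb, hbv⟩ => h2 ⟨b, hb, conn_trans hbv (conn_symm hav)⟩⟩
            · exact Or.inl ⟨⟨hv, a, ha, hav⟩, fun ⟨_, hbv⟩ =>
                h2 ⟨a, ha, conn_trans hav (conn_symm hbv)⟩⟩
          · rintro (⟨⟨hv, a, ha, hav⟩, _⟩ | ⟨⟨hv, hav⟩, _⟩)
            · exact ⟨hv, a, Finset.mem_insert_of_mem ha, hav⟩
            · exact ⟨hv, w, Finset.mem_insert_self w W, hav⟩
      have h2 : BW (insert w W) ⊆ BW W ∪
          (fl (HH D m) (fun T => z T = 0)).image (fun T => symmDiff T (uc D m W)) := by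
        intro T hT
        obtain ⟨hT1, hT2, hT3⟩ := (mem_fl _ _ _).1 hT
        rw [Finset.mem_union]
        rcases h1 with h1 | h1
        · left
          refine (mem_fl _ _ _).2 ⟨hT1, hT2, ?_⟩
          rw [h1] at hT3
          exact hT3
        · have hT' : symmDiff T (uc D m W) ∈ HH D m := HH_symmDiff hT1 (uc_HH hm W)
          by_cases h3 : z (symmDiff T (uc D m W)) = 0
          · right
            refine Finset.mem_image.2 ⟨_, (mem_fl _ _ _).2 ⟨hT', h3⟩, ?_⟩
            exact symmDiff_symmDiff_cancel_right _ _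
          · left
            refine (mem_fl _ _ _).2 ⟨hT1, hT2, ?_⟩
            have h4 := hno _ hT' w hwD h3
            rw [symmDiff_assoc, ← h1, hT3] at h4
            -- `z T'` is `± z T`, not `z T`
            rcases hz T hT1 with h5 | h5 | h5
            · exact absurd h5 hT2
            · rcases hz _ hT' with h6 | h6 | h6
              · exact absurd h6 h3
              · exact absurd (by rw [h5, h6]) h4
              · rw [h5, h6]
            · rcases hz _ hT' with h6 | h6 | h6
              · exact absurd h6 h3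
              · rw [h5, h6, neg_neg]
              · exact absurd (by rw [h5, h6]) h4
      calc (BW (insert w W)).card ≤ _ := Finset.card_le_card h2
        _ ≤ (BW W).card + ((fl (HH D m) (fun T => z T = 0)).image
            (fun T => symmDiff T (uc D m W))).card := Finset.card_union_le _ _
        _ ≤ W.card * N0 + N0 := Nat.add_le_add (ih hWD) Finset.card_image_le
        _ = (insert w W).card * N0 := by
            rw [Finset.card_insert_of_notMem hw, Nat.add_mul, one_mul]
  -- `W = D`: the complement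
  have hD : ∀ T ∈ HH D m, z T ≠ 0 → T ∈ BW D := by
    intro T hT h0
    refine (mem_fl _ _ _).2 ⟨hT, h0, ?_⟩
    have h1 : symmDiff T (uc D m D) = D \ T := by
      ext v
      rw [Finset.mem_symmDiff, Finset.mem_sdiff]
      unfold uc
      rw [mem_fl]
      have hTD := (mem_HH.1 hT).1
      constructor
      · rintro (⟨h2, h3⟩ | ⟨h2, h3⟩)
        · exact absurd ⟨hTD h2, v, hTD h2, conn_refl _ v⟩ h3
        · exact ⟨h2.1, h3⟩
      · rintro ⟨h2, h3⟩
        exact Or.inr ⟨⟨h2, v, h2, conn_refl _ v⟩, h3⟩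
    rw [h1]
    exact hodd T hT
  have h1 : (HH D m).card ≤ N0 + (BW D).card := by
    have h2 : HH D m ⊆ fl (HH D m) (fun T => z T = 0) ∪ BW D := by
      intro T hT
      by_cases h0 : z T = 0
      · exact Finset.mem_union_left _ ((mem_fl _ _ _).2 ⟨hT, h0⟩)
      · exact Finset.mem_union_right _ (hD T hT h0)
    exact (Finset.card_le_card h2).trans (Finset.card_union_le _ _)
  have h2 := hind D (Finset.Subset.refl D)
  have h3 : N0 * (D.card + 1) < (HH D m).card := h
  have h4 : N0 * (D.card + 1) = D.card * N0 + N0 := by ring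
  omega

end Pool.Agent.Fac
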