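import Pool.Agent.Fac.Coh
import Pool.Agent.Fac.Det
import Pool.Agent.Fac.Msk

/-!
# Block FAC, the core theorem: one cluster of the double current contains all crossing clusters (helper61)
-/

set_option autoImplicit false

namespace Pool.Agent.Fac

open Finset
open Pool.Agent.SRC (Vx Ed tip bde bd edg conn ind fl uv)
open Pool.Agent.FK1 (wB wF FF NN bdm ZA Inc SD)
open Pool.Agent.TC (spin cf)

variable {d : ℕ}

/-! ## row k1: layers. If every connected subset of `U` of diameter at least `h` meets `V` and `U` is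
connected of diameter at least `k0 * (h + 1)` then `U` has at least `k0` points in `V` (cut `U` into `k0` layers in
the long direction; every layer contains a connected piece which crosses it). -/

/-! ## row k1: layers. If every connected subset of `U` of diameter at least `h` meets `V` and `U` is
connected of diameter at least `k0 * (h + 1)` then `U` has at least `k0` points in `V` (cut `U` into `k0` layers in
the long direction; every layer contains a connected piece which crosses it). -/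

-- BEGIN k1

private lemma k1_adj {X : Finset (Vx d)} {u v : Vx d} :
    Pool.Agent.SRC.adj (↑(edg X) : Set (Ed d)) u v ↔
      (∃ i, v = u + uv i ∨ u = v + uv i) ∧ u ∈ X ∧ v ∈ X := by
  unfold Pool.Agent.SRC.adj
  constructor
  · rintro ⟨i, ⟨h1, h2⟩ | ⟨h1, h2⟩⟩
    · have h3 := Finset.mem_filter.1 (Finset.mem_coe.1 h1)
      have h4 := (Finset.mem_product.1 h3.1).1
      have h5 : tip (u, i) ∈ X := h3.2
      refine ⟨⟨i, Or.inl h2⟩, h4, ?_⟩
      rw [h2]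
      exact h5
    · have h3 := Finset.mem_filter.1 (Finset.mem_coe.1 h1)
      have h4 := (Finset.mem_product.1 h3.1).1
      have h5 : tip (v, i) ∈ X := h3.2
      refine ⟨⟨i, Or.inr h2⟩, ?_, h4⟩
      rw [h2]
      exact h5
  · rintro ⟨⟨i, h | h⟩, hu, hv⟩
    · refine ⟨i, Or.inl ⟨Finset.mem_coe.2 (Finset.mem_filter.2
        ⟨Finset.mem_product.2 ⟨hu, Finset.mem_univ _⟩, ?_⟩), h⟩⟩
      show u + uv i ∈ X
      rw [← h]
      exact hv
    · refine ⟨i, Or.inr ⟨Finset.mem_coe.2 (Finset.mem_filter.2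
        ⟨Finset.mem_product.2 ⟨hv, Finset.mem_univ _⟩, ?_⟩), h⟩⟩
      show v + uv i ∈ X
      rw [← h]
      exact hu

private lemma k1_uv (i k : Fin d) : 0 ≤ uv i k ∧ uv i k ≤ 1 := by
  unfold uv
  by_cases h : k = i
  · subst h
    simp
  · rw [Pi.single_eq_of_ne h]
    exact ⟨le_refl _, zero_le_one⟩

private lemma k1_lev {X : Finset (Vx d)} {u v : Vx d}
    (h : Pool.Agent.SRC.adj (↑(edg X) : Set (Ed d)) u v) (k : Fin d) :
    u ∈ X ∧ v ∈ X ∧ v k ≤ u k + 1 := by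
  obtain ⟨⟨i, h1⟩, h2, h3⟩ := k1_adj.1 h
  refine ⟨h2, h3, ?_⟩
  have h4 := k1_uv i k
  rcases h1 with h1 | h1
  · rw [h1, Pi.add_apply]
    linarith [h4.2]
  · rw [h1, Pi.add_apply]
    linarith [h4.1]

/-- a connected set which goes from level `≤ c` to level `> c + h` has a connected piece in the layer
`[c, c + h]` which crosses it -/
private lemma k1_cross (h : ℕ) {U : Finset (Vx d)} (k : Fin d) (c : ℤ) {u v : Vx d} (hu : u ∈ U)
    (hc : conn (↑(edg U) : Set (Ed d)) u v) (h1 : u k ≤ c) (h2 : c + h < v k) :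
    ∃ U' ⊆ U, Cnn U' ∧ Dm h U' ∧ ∀ w ∈ U', c ≤ w k ∧ w k ≤ c + h := by
  classical
  obtain ⟨S, hmS⟩ : ∃ S : Finset (Vx d), ∀ w, w ∈ S ↔ w ∈ U ∧ c ≤ w k ∧ w k ≤ c + h :=
    ⟨U.filter (fun w => c ≤ w k ∧ w k ≤ c + h), fun w => Finset.mem_filter⟩
  have good : ∃ x ∈ S, ∃ y ∈ S, x k = c ∧ y k = c + h ∧ conn (↑(edg S) : Set (Ed d)) x y := by
    by_contra hno
    have hinv : ∀ w, conn (↑(edg U) : Set (Ed d)) u w →
        w k < c ∨ (w ∈ S ∧ ∃ x ∈ S, x k = c ∧ conn (↑(edg S) : Set (Ed d)) x w) := by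
      intro w hw
      unfold conn at hw
      induction hw with
      | refl =>
        rcases h1.lt_or_eq with g | g
        · exact Or.inl g
        · have hS : u ∈ S := (hmS u).2 ⟨hu, g.ge, by rw [g]; omega⟩
          exact Or.inr ⟨hS, u, hS, g, Relation.ReflTransGen.refl⟩
      | tail hab hbc ih =>
        rename_i w w'
        obtain ⟨hwU, hwU', l1⟩ := k1_lev hbc k
        rcases lt_trichotomy (w' k) c with g | g | g
        · exact Or.inl g
        · have hS : w' ∈ S := (hmS w').2 ⟨hwU', g.ge, by rw [g]; omega⟩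
          exact Or.inr ⟨hS, w', hS, g, Relation.ReflTransGen.refl⟩
        · rcases ih with a | ⟨a1, x, hx, hxc, hxw⟩
          · omega
          · by_cases hh : w' k ≤ c + h
            · have hS : w' ∈ S := (hmS w').2 ⟨hwU', g.le, hh⟩
              exact Or.inr ⟨hS, x, hx, hxc,
                Relation.ReflTransGen.tail hxw (k1_adj.2 ⟨(k1_adj.1 hbc).1, a1, hS⟩)⟩
            · exfalso
              have h3 := ((hmS w).1 a1).2.2
              exact hno ⟨x, hx, w, a1, hxc, by omega, hxw⟩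
    rcases hinv v hc with h3 | ⟨h3, -⟩
    · omega
    · have h4 := ((hmS v).1 h3).2.2
      omega
  obtain ⟨x, hx, y, hy, hxc, hyc, hxy⟩ := good
  obtain ⟨U', hU'⟩ : ∃ U' : Finset (Vx d), ∀ w, w ∈ U' ↔
      w ∈ S ∧ conn (↑(edg S) : Set (Ed d)) x w :=
    ⟨S.filter (fun w => conn (↑(edg S) : Set (Ed d)) x w), fun w => Finset.mem_filter⟩
  have key : ∀ w, conn (↑(edg S) : Set (Ed d)) x w → conn (↑(edg U') : Set (Ed d)) x w := by
    intro w hw
    have hw0 := hw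
    unfold conn at hw
    clear hw0
    induction hw with
    | refl => exact Relation.ReflTransGen.refl
    | tail hab hbc ih =>
      rename_i w w'
      obtain ⟨h3, h4, -⟩ := k1_lev hbc k
      refine Relation.ReflTransGen.tail ih (k1_adj.2 ⟨(k1_adj.1 hbc).1, (hU' w).2 ⟨h3, hab⟩,
        (hU' w').2 ⟨h4, Relation.ReflTransGen.tail hab hbc⟩⟩)
  refine ⟨U', fun w hw => ((hmS w).1 ((hU' w).1 hw).1).1, ?_, ?_, ?_⟩
  · intro a ha b hb
    exact Pool.Agent.SRC.conn_trans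
      (Pool.Agent.SRC.conn_symm (key a ((hU' a).1 ha).2)) (key b ((hU' b).1 hb).2)
  · refine ⟨x, (hU' x).2 ⟨hx, Relation.ReflTransGen.refl⟩, y, (hU' y).2 ⟨hy, hxy⟩, k, ?_⟩
    rw [hxc, hyc, abs_sub_comm]
    have h3 : c + (h : ℤ) - c = h := by ring
    rw [h3]
    exact le_abs_self _
  · intro w hw
    exact ((hmS w).1 ((hU' w).1 hw).1).2

private lemma k1_layers (h k0 : ℕ) {U V : Finset (Vx d)} (hU : Cnn U) {u v : Vx d} (hu : u ∈ U)
    (hv : v ∈ U) (k : Fin d) (hk : ((k0 * (h + 1) : ℕ) : ℤ) ≤ v k - u k)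
    (hV : ∀ U' ⊆ U, Cnn U' → Dm h U' → ∃ Q ∈ U', Q ∈ V) : k0 ≤ (U ∩ V).card := by
  classical
  have h1 : ∀ j : ℕ, j < k0 → ∃ Q ∈ U ∩ V, u k + j * (h + 1) ≤ Q k ∧ Q k ≤ u k + j * (h + 1) + h := by
    intro j hj
    have h2 : ((j : ℤ) + 1) * (h + 1) ≤ (k0 : ℤ) * (h + 1) := by
      refine mul_le_mul_of_nonneg_right ?_ (by positivity)
      exact_mod_cast hj
    have h0 : (0 : ℤ) ≤ (j : ℤ) * (h + 1) := by positivity
    push_cast at hk
    obtain ⟨U', hUU, hc, hD, hl⟩ := k1_cross h k (u k + j * (h + 1)) hu (hU u hu v hv)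
      (by linarith) (by linarith)
    obtain ⟨Q, hQ, hQV⟩ := hV U' hUU hc hD
    exact ⟨Q, Finset.mem_inter.2 ⟨hUU hQ, hQV⟩, hl Q hQ⟩
  choose! f hf using h1
  have h3 : (Finset.range k0).card ≤ (U ∩ V).card := by
    refine Finset.card_le_card_of_injOn f (fun j hj => (hf j (Finset.mem_range.1 hj)).1) ?_
    intro i hi j hj hij
    have hi' := (hf i (Finset.mem_range.1 hi)).2
    have hj' := (hf j (Finset.mem_range.1 hj)).2
    rw [hij] at hi'
    by_contra hne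
    rcases Nat.lt_or_gt_of_ne hne with g | g
    · have g1 : ((i : ℤ) + 1) * (h + 1) ≤ (j : ℤ) * (h + 1) := by
        refine mul_le_mul_of_nonneg_right ?_ (by positivity)
        exact_mod_cast g
      linarith [hi'.2, hj'.1]
    · have g1 : ((j : ℤ) + 1) * (h + 1) ≤ (i : ℤ) * (h + 1) := by
        refine mul_le_mul_of_nonneg_right ?_ (by positivity)
        exact_mod_cast g
      linarith [hi'.1, hj'.2]
  rwa [Finset.card_range] at h3

theorem layers (h k0 : ℕ) {U V : Finset (Vx d)} (hU : Cnn U) (hm : Dm (k0 * (h + 1)) U)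
    (hV : ∀ U' ⊆ U, Cnn U' → Dm h U' → ∃ Q ∈ U', Q ∈ V) : k0 ≤ (U ∩ V).card := by
  obtain ⟨u, hu, v, hv, k, hk⟩ := hm
  rcases le_total (u k) (v k) with g | g
  · rw [abs_sub_comm, abs_of_nonneg (sub_nonneg.2 g)] at hk
    exact k1_layers h k0 hU hu hv k hk hV
  · rw [abs_of_nonneg (sub_nonneg.2 g)] at hk
    exact k1_layers h k0 hU hv hu k hk hV

-- END k1

/-! ## row k2: if coherence is very likely given `m`, some cluster of `m` visits everything: `flip_one` (Msk) with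
`z = sg` (`sg_val`, `sg_compl`, `sg_eq_zero`), then `flip_visits`. -/

/-- the cluster of `u` visits a cell of some block of every connected set of diameter at least `h` -/
def Vsts (D : Finset (Vx d)) (l n h : ℕ) (bs : List (BX d)) (m : Finset (Ed d)) (u : Vx d) : Prop :=
  ∀ b ∈ bs, ∀ U ⊆ b.L, Cnn U → Dm h U → ∃ Q ∈ U, ∃ w ∈ fi n Q, ce l w ∈ Cl D m u

private lemma k2_count {D : Finset (Vx d)} {m : Finset (Ed d)} {P R : Finset (Vx d) → Prop}
    (hPR : ∀ T ∈ HH D m, P T → R T)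
    (hp : ((D.card : ℝ) + 1) * tE D m (fun T => ind (R T)) < 1) :
    (fl (HH D m) P).card * (D.card + 1) < (HH D m).card := by
  have hc : (0 : ℝ) < (HH D m).card := by exact_mod_cast HH_card_pos D m
  have h1 : ((fl (HH D m) P).card : ℝ) ≤ ∑ T ∈ HH D m, ind (R T) := by
    have h2 : ((fl (HH D m) P).card : ℝ) = ∑ T ∈ fl (HH D m) P, ind (R T) := by
      rw [Finset.card_eq_sum_ones, Nat.cast_sum]
      refine Finset.sum_congr rfl fun T hT => ?_
      have h3 := (Pool.Agent.SRC.mem_fl _ _ _).1 hT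
      rw [Pool.Agent.SRC.ind_true (hPR T h3.1 h3.2), Nat.cast_one]
    rw [h2]
    exact Finset.sum_le_sum_of_subset_of_nonneg (Pool.Agent.SRC.fl_subset _ _)
      fun T _ _ => Pool.Agent.SRC.ind_nonneg _
  unfold tE at hp
  rw [← mul_div_assoc, div_lt_one hc] at hp
  have h4 : ((fl (HH D m) P).card : ℝ) * ((D.card : ℝ) + 1) < (HH D m).card := by
    refine lt_of_le_of_lt ?_ hp
    rw [mul_comm]
    exact mul_le_mul_of_nonneg_left h1 (by positivity)
  exact_mod_cast h4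

theorem exists_cluster {κ : ℝ} (hκ : 0 < κ) {l n h : ℕ} (hn : 1 ≤ n) (hGia : Gia d h)
    {bs : List (BX d)} (hne : bs ≠ []) (hbig : ∀ b ∈ bs, b.big h) (hl : Lnk h bs)
    {D : Finset (Vx d)}
    (hD : ∀ b ∈ bs, ∀ Q ∈ b.L, ∀ Q' ∈ ball Q 1, ∀ w ∈ fi n Q', ce l w ∈ D)
    {m : Finset (Ed d)} (hm : EndsIn m D)
    (hp : ¬ 1 ≤ ((D.card : ℝ) + 1) * tE D m (fun T => ind (¬ CohA κ l n h bs T))) :
    ∃ u ∈ D, Vsts D l n h bs m u := by
  have hsub : ∀ T ∈ HH D m, T ⊆ D := fun T hT =>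
    Finset.mem_powerset.1 ((Pool.Agent.SRC.mem_fl _ _ _).1 hT).1
  obtain ⟨T, hT, u, hu, _, h1, h2⟩ := flip_one hm (sg κ l n h bs)
    (fun T _ => by
      rcases sg_val κ l n h bs T with h | h | h
      · exact Or.inr (Or.inl h)
      · exact Or.inr (Or.inr h)
      · exact Or.inl h)
    (fun T hT => sg_compl hκ hn hGia hne hbig hl hD T (hsub T hT))
    (k2_count (R := fun T => ¬ CohA κ l n h bs T)
      (fun T _ h0 => sg_eq_zero hκ hn hGia hne hbig hl h0) (not_le.1 hp))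
  exact ⟨u, hu, flip_visits hκ hn hGia hbig h1 h2⟩
-- END k2 (exists_cluster)

/-! ## row k3: the bad pairs -/

/-- the cluster of `u` in `η ∪ b` visits at least `k0` blocks of the cluster of `g` in `η` but does not contain it -/
def BadP (D : Finset (Vx d)) (l n k0 : ℕ) (bs : List (BX d)) (η b : Finset (Ed d)) (u g : Vx d) :
    Prop :=
  ¬ conn (↑(η ∪ b) : Set (Ed d)) u g ∧
    k0 ≤ (fl (blks bs) (fun Q => Q ∈ vis l n (Cl D η g) ∧
      ∃ y ∈ Bk l n Q, conn (↑(η ∪ b) : Set (Ed d)) u y)).card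

private lemma k2_ce (l n : ℕ) {Q w : Vx d} (hw : w ∈ fi n Q) : ce l w ∈ Bk l n Q := by
  unfold fi at hw
  unfold Bk
  rw [Finset.mem_Icc] at hw ⊢
  refine ⟨fun k => ?_, fun k => ?_⟩
  · have h1 := hw.1 k
    simp only [ce] at h1 ⊢
    have h2 : (2 * (l : ℤ) + 1) * ((n : ℤ) * Q k) ≤ (2 * (l : ℤ) + 1) * w k :=
      mul_le_mul_of_nonneg_left h1 (by positivity)
    have h3 : (0 : ℤ) ≤ l := by positivity
    linarith
  · have h1 := hw.2 k
    simp only [ce] at h1 ⊢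
    have h2 : (2 * (l : ℤ) + 1) * w k ≤ (2 * (l : ℤ) + 1) * ((n : ℤ) * Q k + ((n : ℤ) - 1)) :=
      mul_le_mul_of_nonneg_left h1 (by positivity)
    have h3 : (0 : ℤ) ≤ l := by positivity
    linarith

/-- `layers` with `V` = the blocks visited by the cluster of `u` -/
theorem one_of {l n h k0 : ℕ} (hn : 1 ≤ n) {bs : List (BX d)} {D : Finset (Vx d)}
    {η1 η2 b : Finset (Ed d)} {u : Vx d} (hu : u ∈ D) (hv : Vsts D l n h bs (η1 ∪ η2 ∪ b) u)
    (hb : ∀ g ∈ D, ¬ BadP D l n k0 bs (η1 ∪ η2) b u g) :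
    One D l n (k0 * (h + 1)) bs η1 η2 b := by
  classical
  refine ⟨u, hu, fun g hg hC => ?_⟩
  by_contra hcon
  obtain ⟨c, hc, U, hU1, hU2, hU3, hU4⟩ := hC
  refine hb g hg ⟨hcon, ?_⟩
  refine (layers h k0 hU3 hU4 (V := fl (blks bs) (fun Q => Q ∈ vis l n (Cl D (η1 ∪ η2) g) ∧
      ∃ y ∈ Bk l n Q, conn (↑(η1 ∪ η2 ∪ b) : Set (Ed d)) u y)) ?_).trans
    (Finset.card_le_card Finset.inter_subset_right)
  intro U' hU' hc' hd'
  obtain ⟨Q, hQ, w, hw, hwC⟩ := hv c hc U' (hU'.trans hU2) hc' hd'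
  refine ⟨Q, hQ, (Pool.Agent.SRC.mem_fl _ _ _).2 ⟨?_, hU1 (hU' hQ), ce l w, k2_ce l n hw,
    ((Pool.Agent.SRC.mem_fl _ _ _).1 hwC).2⟩⟩
  unfold blks
  exact Finset.mem_biUnion.2 ⟨c, List.mem_toFinset.2 hc, hU2 (hU' hQ)⟩
-- END k2 (one_of)

/-! ## row k4: geometry of the vertex blocks -/

/-! ## row k4: geometry of the vertex blocks -/

-- BEGIN k4
private theorem k4_conn {lo hi : Vx d} (v : Vx d) (hv : ∀ k, lo k ≤ v k ∧ v k ≤ hi k) :
    ∀ (N : ℕ) (u : Vx d), (∀ k, lo k ≤ u k ∧ u k ≤ hi k) → (∑ k, (u k - v k).natAbs) = N →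
      conn (↑(edg (Finset.Icc lo hi)) : Set (Ed d)) u v := by
  intro N
  induction N with
  | zero =>
    intro u _ h
    have h1 : u = v := by
      funext k
      have h2 := (Finset.sum_eq_zero_iff.1 h) k (Finset.mem_univ k)
      omega
    rw [h1]
    exact Relation.ReflTransGen.refl
  | succ N ih =>
    intro u hu h
    have h1 : ∃ k, u k ≠ v k := by
      by_contra hcon
      push Not at hcon
      have h2 : (∑ k, (u k - v k).natAbs) = 0 :=
        Finset.sum_eq_zero fun k _ => by rw [hcon k, sub_self]; rfl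
      omega
    obtain ⟨k, hk⟩ := h1
    have hstep : ∀ u' : Vx d, (∀ l, l ≠ k → u' l = u l) → (lo k ≤ u' k ∧ u' k ≤ hi k) →
        (u' k - v k).natAbs + 1 = (u k - v k).natAbs →
        ((∀ l, lo l ≤ u' l ∧ u' l ≤ hi l) →
          Pool.Agent.SRC.adj (↑(edg (Finset.Icc lo hi)) : Set (Ed d)) u u') →
        conn (↑(edg (Finset.Icc lo hi)) : Set (Ed d)) u v := by
      intro u' hl hb hk' hc
      have hu' : ∀ l, lo l ≤ u' l ∧ u' l ≤ hi l := by
        intro l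
        by_cases hlk : l = k
        · subst hlk
          exact hb
        · rw [hl l hlk]
          exact hu l
      have hN : (∑ l, (u' l - v l).natAbs) = N := by
        have h2 : (u k - v k).natAbs + ∑ l ∈ Finset.univ.erase k, (u l - v l).natAbs =
            ∑ l, (u l - v l).natAbs :=
          Finset.add_sum_erase _ (fun l => (u l - v l).natAbs) (Finset.mem_univ k)
        have h3 : (u' k - v k).natAbs + ∑ l ∈ Finset.univ.erase k, (u' l - v l).natAbs =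
            ∑ l, (u' l - v l).natAbs :=
          Finset.add_sum_erase _ (fun l => (u' l - v l).natAbs) (Finset.mem_univ k)
        have h4 : ∑ l ∈ Finset.univ.erase k, (u' l - v l).natAbs =
            ∑ l ∈ Finset.univ.erase k, (u l - v l).natAbs :=
          Finset.sum_congr rfl fun l hl' => by rw [hl l (Finset.ne_of_mem_erase hl')]
        omega
      exact Relation.ReflTransGen.head (hc hu') (ih u' hu' hN)
    have hvk := hv k
    have huk := hu k
    have hmem : ∀ w : Vx d, (∀ l, lo l ≤ w l ∧ w l ≤ hi l) → w ∈ Finset.Icc lo hi := fun w hw =>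
      Finset.mem_Icc.2 ⟨fun l => (hw l).1, fun l => (hw l).2⟩
    rcases lt_or_gt_of_ne hk with hlt | hgt
    · have e1 : (u + uv k) k = u k + 1 := by simp [uv]
      have e2 : ∀ l, l ≠ k → (u + uv k) l = u l := fun l hl => by simp [uv, hl]
      refine hstep (u + uv k) e2 (by rw [e1]; omega) (by rw [e1]; omega) fun hw => ?_
      refine ⟨k, Or.inl ⟨?_, rfl⟩⟩
      rw [Finset.mem_coe, edg, Finset.mem_filter, Finset.mem_product]
      exact ⟨⟨hmem u hu, Finset.mem_univ _⟩, hmem _ hw⟩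
    · have e1 : (u - uv k) k = u k - 1 := by simp [uv]
      have e2 : ∀ l, l ≠ k → (u - uv k) l = u l := fun l hl => by simp [uv, hl]
      refine hstep (u - uv k) e2 (by rw [e1]; omega) (by rw [e1]; omega) fun hw => ?_
      refine ⟨k, Or.inr ⟨?_, (sub_add_cancel _ _).symm⟩⟩
      rw [Finset.mem_coe, edg, Finset.mem_filter, Finset.mem_product]
      refine ⟨⟨hmem _ hw, Finset.mem_univ _⟩, ?_⟩
      show u - uv k + uv k ∈ _
      rw [sub_add_cancel]
      exact hmem u hu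

private theorem k4_W {l n : ℕ} (hn : 1 ≤ n) : (1 : ℤ) ≤ (2 * (l : ℤ) + 1) * n := by
  have h1 : (1 : ℤ) ≤ n := by exact_mod_cast hn
  have h2 : (0 : ℤ) ≤ l := by positivity
  nlinarith

private theorem k4_mem {l n : ℕ} {v Q : Vx d} : v ∈ Bk l n Q ↔
    ∀ k, (2 * (l : ℤ) + 1) * n * Q k - l ≤ v k ∧
      v k ≤ (2 * (l : ℤ) + 1) * n * Q k - l + ((2 * (l : ℤ) + 1) * n - 1) := by
  rw [Bk, Finset.mem_Icc]
  exact ⟨fun h k => ⟨h.1 k, h.2 k⟩, fun h => ⟨fun k => (h k).1, fun k => (h k).2⟩⟩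

theorem Bk_disj {l n : ℕ} (hn : 1 ≤ n) {Q Q' : Vx d} (h : Q ≠ Q') :
    Disjoint (Bk l n Q) (Bk l n Q') := by
  rw [Finset.disjoint_left]
  intro v h1 h2
  refine h (funext fun k => ?_)
  have hW := k4_W (l := l) hn
  have h3 := k4_mem.1 h1 k
  have h4 := k4_mem.1 h2 k
  generalize (2 * (l : ℤ) + 1) * n = W at hW h3 h4
  rcases lt_trichotomy (Q k) (Q' k) with h5 | h5 | h5
  · nlinarith
  · exact h5
  · nlinarith

theorem mem_Bk {l n : ℕ} (hn : 1 ≤ n) (v Q : Vx d) : v ∈ Bk l n Q ↔ bk l n v = Q := by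
  have hW := k4_W (l := l) hn
  have hW0 : (0 : ℤ) < (2 * (l : ℤ) + 1) * n := by linarith
  rw [k4_mem]
  constructor
  · intro h
    funext k
    have h1 := h k
    show (v k + l) / ((2 * (l : ℤ) + 1) * n) = Q k
    generalize (2 * (l : ℤ) + 1) * n = W at hW hW0 h1 ⊢
    refine le_antisymm ?_ ?_
    · have h2 : (v k + l) / W < Q k + 1 := Int.ediv_lt_of_lt_mul hW0 (by linarith)
      linarith
    · exact Int.le_ediv_of_mul_le hW0 (by linarith)
  · rintro rfl k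
    show (2 * (l : ℤ) + 1) * n * ((v k + l) / ((2 * (l : ℤ) + 1) * n)) - l ≤ v k ∧ v k ≤
      (2 * (l : ℤ) + 1) * n * ((v k + l) / ((2 * (l : ℤ) + 1) * n)) - l +
        ((2 * (l : ℤ) + 1) * n - 1)
    generalize (2 * (l : ℤ) + 1) * n = W at hW hW0 ⊢
    have h1 := Int.emod_add_mul_ediv (v k + l) W
    have h2 := Int.emod_nonneg (v k + l) hW0.ne'
    have h3 := Int.emod_lt_of_pos (v k + l) hW0
    constructor <;> linarith

theorem Bk_cnn {l n : ℕ} (hn : 1 ≤ n) (Q : Vx d) : Cnn (Bk l n Q) := by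
  intro u hu v hv
  exact k4_conn v (k4_mem.1 hv) _ u (k4_mem.1 hu) rfl

theorem Bk_sub_RG {l n : ℕ} (hn : 1 ≤ n) (Q : Vx d) : Bk l n Q ⊆ RG l n Q := by
  intro v hv
  have hW := k4_W (l := l) hn
  have h1 := k4_mem.1 hv
  rw [RG, Finset.mem_Icc]
  refine ⟨fun k => ?_, fun k => ?_⟩
  · have h2 := h1 k
    show (2 * (l : ℤ) + 1) * n * (Q k - 2) - l ≤ v k
    generalize (2 * (l : ℤ) + 1) * n = W at hW h2 ⊢
    nlinarith
  · have h2 := h1 k
    show v k ≤ (2 * (l : ℤ) + 1) * n * (Q k + 3) - l - 1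
    generalize (2 * (l : ℤ) + 1) * n = W at hW h2 ⊢
    nlinarith

theorem ce_mem_Bk {l n : ℕ} (hn : 1 ≤ n) {Q w : Vx d} (hw : w ∈ fi n Q) : ce l w ∈ Bk l n Q := by
  rw [fi, Finset.mem_Icc] at hw
  rw [k4_mem]
  intro k
  have h1 : (n : ℤ) * Q k ≤ w k := hw.1 k
  have h2 : w k ≤ (n : ℤ) * Q k + ((n : ℤ) - 1) := hw.2 k
  have h3 : (0 : ℤ) ≤ l := by positivity
  show (2 * (l : ℤ) + 1) * n * Q k - l ≤ (2 * (l : ℤ) + 1) * w k ∧ (2 * (l : ℤ) + 1) * w k ≤
    (2 * (l : ℤ) + 1) * n * Q k - l + ((2 * (l : ℤ) + 1) * n - 1)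
  have h4 := mul_le_mul_of_nonneg_left h1 (by linarith : (0 : ℤ) ≤ 2 * (l : ℤ) + 1)
  have h5 := mul_le_mul_of_nonneg_left h2 (by linarith : (0 : ℤ) ≤ 2 * (l : ℤ) + 1)
  constructor
  · linarith
  · linarith

theorem edg_Bk_card {l n : ℕ} (hn : 1 ≤ n) (Q : Vx d) :
    (edg (Bk l n Q)).card ≤ d * ((2 * l + 1) * n) ^ d := by
  have hW := k4_W (l := l) hn
  have h1 : (Bk l n Q).card = ((2 * l + 1) * n) ^ d := by
    rw [Bk, Pi.card_Icc]
    have h2 : ∀ k : Fin d, (Finset.Icc ((2 * (l : ℤ) + 1) * n * Q k - l)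
        ((2 * (l : ℤ) + 1) * n * Q k - l + ((2 * (l : ℤ) + 1) * n - 1))).card =
        (2 * l + 1) * n := by
      intro k
      rw [Int.card_Icc]
      have h3 : (2 * (l : ℤ) + 1) * n * Q k - l + ((2 * (l : ℤ) + 1) * n - 1) + 1 -
          ((2 * (l : ℤ) + 1) * n * Q k - l) = (((2 * l + 1) * n : ℕ) : ℤ) := by
        push_cast
        ring
      rw [h3, Int.toNat_natCast]
    rw [Finset.prod_congr rfl fun k _ => h2 k, Finset.prod_const, Finset.card_univ,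
      Fintype.card_fin]
  calc (edg (Bk l n Q)).card ≤ ((Bk l n Q) ×ˢ (Finset.univ : Finset (Fin d))).card :=
        Finset.card_le_card (Finset.filter_subset _ _)
    _ = ((2 * l + 1) * n) ^ d * d := by
        rw [Finset.card_product, h1, Finset.card_univ, Fintype.card_fin]
    _ = d * ((2 * l + 1) * n) ^ d := Nat.mul_comm _ _
-- END k4

/-! ## row k5: the mask bound for one pair `u, g`: `mask` (Msk) with `m0 = η`, `p = x ^ 2`, `I` = the blocks of
`blks bs` visited by `Cl D η g`, `v Q` = a vertex of the cluster in the block (not joined to `u`, because `g` is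
not). Then the union bound over `u, g ∈ D`. -/

/-! ## row k5: the mask bound for one pair `u, g`: `mask` (Msk) with `m0 = η`, `p = x ^ 2`, `I` = the blocks of
`blks bs` visited by `Cl D η g`, `v Q` = a vertex of the cluster in the block (not joined to `u`, because `g` is
not). Then the union bound over `u, g ∈ D`. -/

-- BEGIN k5
private lemma k5_sub {x : ℝ} (h0 : 0 ≤ x) (h1 : x ≤ 1) {E b : Finset (Ed d)} (hb : b ∈ E.powerset) :
    0 ≤ wB (fun _ => x ^ 2) E b :=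
  Pool.Agent.FK1.wB_nonneg (fun _ _ => pow_nonneg h0 2) (fun _ _ => pow_le_one₀ h0 h1)
    (Finset.mem_powerset.1 hb)

theorem mask_pair {x : ℝ} (h0 : 0 ≤ x) (h1 : x ≤ 1) {l n k0 : ℕ} (hn : 1 ≤ n)
    {bs : List (BX d)} {D : Finset (Vx d)} {E : Finset (Ed d)} (hE : ∀ Q ∈ blks bs, edg (RG l n Q) ⊆ E)
    (η : Finset (Ed d)) (u g : Vx d) :
    ∑ b ∈ E.powerset, wB (fun _ => x ^ 2) E b * ind (BadP D l n k0 bs η b u g) ≤
      (1 - (x ^ 2) ^ (d * ((2 * l + 1) * n) ^ d)) ^ k0 := by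
  classical
  have hch : ∀ Q : Vx d, ∃ v : Vx d, Q ∈ vis l n (Cl D η g) → (v ∈ Cl D η g ∧ bk l n v = Q) := by
    intro Q
    by_cases hQ : Q ∈ vis l n (Cl D η g)
    · have hQ' := hQ
      unfold vis at hQ'
      obtain ⟨v, hv, hvQ⟩ := Finset.mem_image.1 hQ'
      exact ⟨v, fun _ => ⟨hv, hvQ⟩⟩
    · exact ⟨Q, fun h => absurd h hQ⟩
  choose v hv using hch
  let I : Finset (Vx d) := Pool.Agent.SRC.fl (blks bs) (fun Q => Q ∈ vis l n (Cl D η g))
  have hI : ∀ Q ∈ I, Q ∈ blks bs ∧ Q ∈ vis l n (Cl D η g) := fun Q hQ =>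
    (Pool.Agent.SRC.mem_fl _ _ _).1 hQ
  have hmask := mask (pow_nonneg h0 2) (pow_le_one₀ h0 h1) (d * ((2 * l + 1) * n) ^ d) k0 E I
    (fun Q => Bk l n Q) v (fun Q _ Q' _ hne => Bk_disj hn hne)
    (fun Q hQ => by
      intro e he
      refine hE Q (hI Q hQ).1 ?_
      rw [Pool.Agent.SRC.mem_edg] at he ⊢
      exact ⟨Bk_sub_RG hn Q he.1, Bk_sub_RG hn Q he.2⟩)
    (fun Q _ => edg_Bk_card hn Q) (fun Q _ => Bk_cnn hn Q)
    (fun Q hQ => (mem_Bk hn _ _).2 (hv Q (hI Q hQ).2).2) η u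
  refine le_trans (Finset.sum_le_sum fun b hb => ?_) hmask
  refine mul_le_mul_of_nonneg_left (Pool.Agent.SRC.ind_mono ?_) (k5_sub h0 h1 hb)
  rintro ⟨h2, h3⟩
  refine ⟨h3.trans (Finset.card_le_card ?_), ?_⟩
  · intro Q hQ
    obtain ⟨h4, h5, h6⟩ := (Pool.Agent.SRC.mem_fl _ _ _).1 hQ
    exact (Pool.Agent.SRC.mem_fl _ _ _).2 ⟨(Pool.Agent.SRC.mem_fl _ _ _).2 ⟨h4, h5⟩, h6⟩
  · intro Q hQ h4
    have h5 := (hv Q (hI Q hQ).2).1
    unfold Cl at h5
    have h6 := ((Pool.Agent.SRC.mem_fl _ _ _).1 h5).2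
    refine h2 (Pool.Agent.SRC.conn_trans h4 (Pool.Agent.SRC.conn_symm
      (Pool.Agent.SRC.conn_mono ?_ h6)))
    rw [Finset.coe_union]
    exact Set.subset_union_left

theorem mask_MM {x : ℝ} (h0 : 0 ≤ x) (h1 : x ≤ 1) {l n k0 : ℕ} (hn : 1 ≤ n)
    {bs : List (BX d)} {D : Finset (Vx d)} {E : Finset (Ed d)} (hE : ∀ Q ∈ blks bs, edg (RG l n Q) ⊆ E)
    (A : Vx d → ZMod 2) :
    MM x E A (fun η1 η2 b => ind (∃ u ∈ D, ∃ g ∈ D, BadP D l n k0 bs (η1 ∪ η2) b u g)) ≤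
      (D.card : ℝ) ^ 2 * (1 - (x ^ 2) ^ (d * ((2 * l + 1) * n) ^ d)) ^ k0 *
        (ZA bde (fun _ => x) E A * ZA bde (fun _ => x) E 0) := by
  classical
  set C : ℝ := (1 - (x ^ 2) ^ (d * ((2 * l + 1) * n) ^ d)) ^ k0 with hC
  -- the union bound for the coins
  have hun : ∀ η : Finset (Ed d), ∑ b ∈ E.powerset, wB (fun _ => x ^ 2) E b *
      ind (∃ u ∈ D, ∃ g ∈ D, BadP D l n k0 bs η b u g) ≤ (D.card : ℝ) ^ 2 * C := by
    intro η
    have h2 : ∀ b : Finset (Ed d), ind (∃ u ∈ D, ∃ g ∈ D, BadP D l n k0 bs η b u g) ≤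
        ∑ u ∈ D, ∑ g ∈ D, ind (BadP D l n k0 bs η b u g) := by
      intro b
      by_cases h3 : ∃ u ∈ D, ∃ g ∈ D, BadP D l n k0 bs η b u g
      · obtain ⟨u, hu, g, hg, hug⟩ := h3
        calc ind (∃ u ∈ D, ∃ g ∈ D, BadP D l n k0 bs η b u g) ≤ 1 := Pool.Agent.SRC.ind_le_one _
          _ = ind (BadP D l n k0 bs η b u g) := (Pool.Agent.SRC.ind_true hug).symm
          _ ≤ ∑ g ∈ D, ind (BadP D l n k0 bs η b u g) :=
              Finset.single_le_sum (f := fun g => ind (BadP D l n k0 bs η b u g))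
                (fun _ _ => Pool.Agent.SRC.ind_nonneg _) hg
          _ ≤ ∑ u ∈ D, ∑ g ∈ D, ind (BadP D l n k0 bs η b u g) :=
              Finset.single_le_sum (f := fun u => ∑ g ∈ D, ind (BadP D l n k0 bs η b u g))
                (fun _ _ => Finset.sum_nonneg fun _ _ => Pool.Agent.SRC.ind_nonneg _) hu
      · rw [Pool.Agent.SRC.ind_false h3]
        exact Finset.sum_nonneg fun _ _ => Finset.sum_nonneg fun _ _ => Pool.Agent.SRC.ind_nonneg _
    calc ∑ b ∈ E.powerset, wB (fun _ => x ^ 2) E b *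
          ind (∃ u ∈ D, ∃ g ∈ D, BadP D l n k0 bs η b u g)
        ≤ ∑ b ∈ E.powerset, ∑ u ∈ D, ∑ g ∈ D, wB (fun _ => x ^ 2) E b *
            ind (BadP D l n k0 bs η b u g) := by
          refine Finset.sum_le_sum fun b hb => ?_
          refine (mul_le_mul_of_nonneg_left (h2 b) (k5_sub h0 h1 hb)).trans (le_of_eq ?_)
          rw [Finset.mul_sum]
          exact Finset.sum_congr rfl fun u _ => Finset.mul_sum _ _ _
      _ = ∑ u ∈ D, ∑ g ∈ D, ∑ b ∈ E.powerset, wB (fun _ => x ^ 2) E b *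
            ind (BadP D l n k0 bs η b u g) := by
          rw [Finset.sum_comm]
          exact Finset.sum_congr rfl fun u _ => Finset.sum_comm
      _ ≤ ∑ _u ∈ D, ∑ _g ∈ D, C := Finset.sum_le_sum fun u _ => Finset.sum_le_sum fun g _ =>
          mask_pair h0 h1 hn hE η u g
      _ = (D.card : ℝ) ^ 2 * C := by
          rw [Finset.sum_const, Finset.sum_const, nsmul_eq_mul, nsmul_eq_mul]
          ring
  rw [← MM_one x E A]
  unfold MM
  rw [Finset.mul_sum]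
  refine Finset.sum_le_sum fun η1 _ => ?_
  rw [Finset.mul_sum]
  refine Finset.sum_le_sum fun η2 _ => ?_
  have hc0 : 0 ≤ ind (bd η1 = A) * ind (bd η2 = 0) * (x ^ η1.card * x ^ η2.card) :=
    mul_nonneg (mul_nonneg (Pool.Agent.SRC.ind_nonneg _) (Pool.Agent.SRC.ind_nonneg _))
      (mul_nonneg (pow_nonneg h0 _) (pow_nonneg h0 _))
  calc ∑ b ∈ E.powerset, ind (bd η1 = A) * ind (bd η2 = 0) *
        (x ^ η1.card * x ^ η2.card * wB (fun _ => x ^ 2) E b) *
          ind (∃ u ∈ D, ∃ g ∈ D, BadP D l n k0 bs (η1 ∪ η2) b u g)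
      = (ind (bd η1 = A) * ind (bd η2 = 0) * (x ^ η1.card * x ^ η2.card)) *
          ∑ b ∈ E.powerset, wB (fun _ => x ^ 2) E b *
            ind (∃ u ∈ D, ∃ g ∈ D, BadP D l n k0 bs (η1 ∪ η2) b u g) := by
        rw [Finset.mul_sum]
        refine Finset.sum_congr rfl fun b _ => ?_
        ring
    _ ≤ (ind (bd η1 = A) * ind (bd η2 = 0) * (x ^ η1.card * x ^ η2.card)) *
          ((D.card : ℝ) ^ 2 * C) := mul_le_mul_of_nonneg_left (hun _) hc0
    _ = (D.card : ℝ) ^ 2 * C * ∑ b ∈ E.powerset, ind (bd η1 = A) * ind (bd η2 = 0) *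
        (x ^ η1.card * x ^ η2.card * wB (fun _ => x ^ 2) E b) * 1 := by
        have h3 : ∑ b ∈ E.powerset, ind (bd η1 = A) * ind (bd η2 = 0) *
            (x ^ η1.card * x ^ η2.card * wB (fun _ => x ^ 2) E b) * 1 =
            (ind (bd η1 = A) * ind (bd η2 = 0) * (x ^ η1.card * x ^ η2.card)) *
              ∑ b ∈ E.powerset, wB (fun _ => x ^ 2) E b := by
          rw [Finset.mul_sum]
          refine Finset.sum_congr rfl fun b _ => ?_
          ring
        rw [h3, Pool.Agent.FK1.sum_wB]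
        ring
-- END k5

/-! ## row k6: THE CORE THEOREM, assembly -/

/-- the error of the core theorem; `N` = number of vertices -/
noncomputable def err1 (d : ℕ) (x ρ err : ℝ) (l n m k0 N : ℕ) : ℝ :=
  ((N : ℝ) + 1) * (N * (2 * 3 ^ d) ^ (2 * 5 ^ d * m) * (ρ ^ m + err)) +
    (N : ℝ) ^ 2 * (1 - (x ^ 2) ^ (d * ((2 * l + 1) * n) ^ d)) ^ k0

private theorem k6_MM_add (x : ℝ) (E : Finset (Ed d)) (A : Vx d → ZMod 2)
    (f g : Finset (Ed d) → Finset (Ed d) → Finset (Ed d) → ℝ) :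
    MM x E A (fun η1 η2 b => f η1 η2 b + g η1 η2 b) = MM x E A f + MM x E A g := by
  unfold MM
  rw [← Finset.sum_add_distrib]
  refine Finset.sum_congr rfl fun η1 _ => ?_
  rw [← Finset.sum_add_distrib]
  refine Finset.sum_congr rfl fun η2 _ => ?_
  rw [← Finset.sum_add_distrib]
  refine Finset.sum_congr rfl fun b _ => ?_
  ring

private theorem k6_ZZ_nonneg {x : ℝ} (h0 : 0 ≤ x) (h1 : x ≤ 1) (E : Finset (Ed d))
    (A : Vx d → ZMod 2) : 0 ≤ ZA bde (fun _ => x) E A * ZA bde (fun _ => x) E 0 := by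
  rw [← MM_one]
  have h2 : MM x E A (fun _ _ _ => (0 : ℝ)) = 0 := by
    unfold MM
    simp
  rw [← h2]
  exact MM_mono h0 h1 E A fun _ _ _ _ _ _ _ _ => zero_le_one

private theorem k6_mem_blks {bs : List (BX d)} {b : BX d} {Q : Vx d} (hb : b ∈ bs) (hQ : Q ∈ b.L) :
    Q ∈ blks bs := by
  classical
  unfold blks
  rw [Finset.mem_biUnion]
  exact ⟨b, List.mem_toFinset.2 hb, hQ⟩

private theorem k6_ball_sub (Q Q' : Vx d) (h : Q' ∈ ball Q 1) : Q' ∈ ball Q 2 := by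
  unfold ball at h ⊢
  rw [Finset.mem_Icc] at h ⊢
  constructor
  · intro k
    have := h.1 k
    push_cast at this ⊢
    omega
  · intro k
    have := h.2 k
    push_cast at this ⊢
    omega

private theorem k6_mem_ball (v : Vx d) (r : ℕ) : v ∈ ball v r := by
  unfold ball
  rw [Finset.mem_Icc]
  constructor
  · intro k
    show v k - (r : ℤ) ≤ v k
    omega
  · intro k
    show v k ≤ v k + (r : ℤ)
    omega

theorem core {x : ℝ} (h0 : 0 ≤ x) (h1 : x ≤ 1) {κ : ℝ} (hκ : 0 < κ) {l n : ℕ} (hn : 1 ≤ n)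
    {ε : ℝ} (hε : 0 ≤ ε) (hL : LocBad x κ l n d ε) {D : Finset (Vx d)} {E : Finset (Ed d)}
    (hED : EndsIn E D) (A : Vx d → ZMod 2) {bs : List (BX d)} (hne : bs ≠ [])
    {m : ℕ} (hm : 1 ≤ m) (hbig : ∀ b ∈ bs, b.big (2 * 5 ^ d * m))
    (hl : Lnk (2 * 5 ^ d * m) bs) (hGia : Gia d (2 * 5 ^ d * m))
    (hE : ∀ Q ∈ blks bs, edg (RG l n Q) ⊆ E) (hD : ∀ Q ∈ blks bs, RG l n Q ⊆ D)
    (hcard : (blks bs).card ≤ D.card) {err : ℝ} (herr : 0 ≤ err)
    (hT : ∀ P ⊆ blks bs, P.card ≤ m → ∀ f : Finset (Vx d) → ℝ, (∀ T, 0 ≤ f T) → (∀ T, f T ≤ 1) →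
      (∀ T, f T = f (T ∩ smp l n P)) →
      MM x E A (fun η1 η2 b => tE D (η1 ∪ η2 ∪ b) f) ≤
        FP x E A (fun ω1 ω2 => fE D ω1 ω2 f) +
          err * (ZA bde (fun _ => x) E A * ZA bde (fun _ => x) E 0)) (k0 : ℕ) :
    MM x E A (fun η1 η2 b =>
        ind (¬ One D l n (k0 * (2 * 5 ^ d * m + 1)) bs η1 η2 b)) ≤
      err1 d x (ε + 3 ^ d / (κ ^ 2 * (n : ℝ) ^ d)) err l n m k0 D.card *
        (ZA bde (fun _ => x) E A * ZA bde (fun _ => x) E 0) := by
  have hZ := k6_ZZ_nonneg h0 h1 E A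
  set Z : ℝ := ZA bde (fun _ => x) E A * ZA bde (fun _ => x) E 0 with hZdef
  have hn0 : (0 : ℝ) < (n : ℝ) ^ d := by
    have : (0 : ℝ) < (n : ℝ) := by exact_mod_cast hn
    positivity
  have hρ : (0 : ℝ) ≤ ε + 3 ^ d / (κ ^ 2 * (n : ℝ) ^ d) := by positivity
  have hc1 := coh_bound h0 h1 hκ hn hε hL hED A bs hE hD hm herr hT
  have hNpos : (0 : ℝ) < (D.card : ℝ) + 1 := by positivity
  have hc2 := markov h0 h1 (D := D) A (fun T => ind (¬ CohA κ l n (2 * 5 ^ d * m) bs T))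
    (fun T => Pool.Agent.SRC.ind_nonneg _) hc1 hNpos
  have hc3 := mask_MM (k0 := k0) h0 h1 hn (D := D) hE A
  have hDc : ∀ b ∈ bs, ∀ Q ∈ b.L, ∀ Q' ∈ ball Q 1, ∀ w ∈ fi n Q', ce l w ∈ D := by
    intro b hb Q hQ Q' hQ' w hw
    exact hD Q (k6_mem_blks hb hQ) (ball_sub_RG hn (k6_ball_sub Q Q' hQ') hw (k6_mem_ball _ _))
  have hmono : MM x E A (fun η1 η2 b =>
        ind (¬ One D l n (k0 * (2 * 5 ^ d * m + 1)) bs η1 η2 b)) ≤
      MM x E A (fun η1 η2 b => ind (1 ≤ ((D.card : ℝ) + 1) * tE D (η1 ∪ η2 ∪ b)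
          (fun T => ind (¬ CohA κ l n (2 * 5 ^ d * m) bs T))) +
        ind (∃ u ∈ D, ∃ g ∈ D, BadP D l n k0 bs (η1 ∪ η2) b u g)) := by
    refine MM_mono h0 h1 E A fun η1 hη1 η2 hη2 b hb _ _ => ?_
    by_cases hOne : One D l n (k0 * (2 * 5 ^ d * m + 1)) bs η1 η2 b
    · rw [Pool.Agent.SRC.ind_false (not_not.2 hOne)]
      exact add_nonneg (Pool.Agent.SRC.ind_nonneg _) (Pool.Agent.SRC.ind_nonneg _)
    · rw [Pool.Agent.SRC.ind_true hOne]
      by_cases hp : 1 ≤ ((D.card : ℝ) + 1) * tE D (η1 ∪ η2 ∪ b)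
          (fun T => ind (¬ CohA κ l n (2 * 5 ^ d * m) bs T))
      · rw [Pool.Agent.SRC.ind_true hp]
        linarith [Pool.Agent.SRC.ind_nonneg (∃ u ∈ D, ∃ g ∈ D, BadP D l n k0 bs (η1 ∪ η2) b u g)]
      · have hends : EndsIn (η1 ∪ η2 ∪ b) D := by
          intro e he
          rw [Finset.mem_union, Finset.mem_union] at he
          rcases he with (he | he) | he
          · exact hED e (hη1 he)
          · exact hED e (hη2 he)
          · exact hED e (hb he)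
        obtain ⟨u, hu, hv⟩ := exists_cluster hκ hn hGia hne hbig hl hDc hends hp
        have hbad : ∃ u ∈ D, ∃ g ∈ D, BadP D l n k0 bs (η1 ∪ η2) b u g := by
          by_contra hcon
          push Not at hcon
          exact hOne (one_of hn hu hv fun g hg => hcon u hu g hg)
        rw [Pool.Agent.SRC.ind_true hbad]
        linarith [Pool.Agent.SRC.ind_nonneg (1 ≤ ((D.card : ℝ) + 1) * tE D (η1 ∪ η2 ∪ b)
          (fun T => ind (¬ CohA κ l n (2 * 5 ^ d * m) bs T)))]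
  rw [k6_MM_add] at hmono
  refine (hmono.trans (add_le_add hc2 hc3)).trans ?_
  have hcard' : ((blks bs).card : ℝ) ≤ (D.card : ℝ) := by exact_mod_cast hcard
  have hY : (0 : ℝ) ≤ (ε + 3 ^ d / (κ ^ 2 * (n : ℝ) ^ d)) ^ m + err :=
    add_nonneg (pow_nonneg hρ m) herr
  have hX : (0 : ℝ) ≤ (2 * 3 ^ d : ℝ) ^ (2 * 5 ^ d * m) := by positivity
  have h4 : ((blks bs).card : ℝ) * (2 * 3 ^ d) ^ (2 * 5 ^ d * m) *
      ((ε + 3 ^ d / (κ ^ 2 * (n : ℝ) ^ d)) ^ m + err) * Z ≤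
      (D.card : ℝ) * (2 * 3 ^ d) ^ (2 * 5 ^ d * m) *
      ((ε + 3 ^ d / (κ ^ 2 * (n : ℝ) ^ d)) ^ m + err) * Z :=
    mul_le_mul_of_nonneg_right (mul_le_mul_of_nonneg_right
      (mul_le_mul_of_nonneg_right hcard' hX) hY) hZ
  have h5 := mul_le_mul_of_nonneg_left h4 hNpos.le
  unfold err1
  calc _ ≤ ((D.card : ℝ) + 1) * ((D.card : ℝ) * (2 * 3 ^ d) ^ (2 * 5 ^ d * m) *
      ((ε + 3 ^ d / (κ ^ 2 * (n : ℝ) ^ d)) ^ m + err) * Z) +
      (D.card : ℝ) ^ 2 * (1 - (x ^ 2) ^ (d * ((2 * l + 1) * n) ^ d)) ^ k0 * Z :=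
        add_le_add h5 le_rfl
    _ = _ := by ring

/-- the core theorem without sources: no error from the transfer (for BG) -/
theorem core0 {x : ℝ} (h0 : 0 ≤ x) (h1 : x ≤ 1) {κ : ℝ} (hκ : 0 < κ) {l n : ℕ} (hn : 1 ≤ n)
    {ε : ℝ} (hε : 0 ≤ ε) (hL : LocBad x κ l n d ε) {D : Finset (Vx d)} {E : Finset (Ed d)}
    (hED : EndsIn E D) {bs : List (BX d)} (hne : bs ≠ [])
    {m : ℕ} (hm : 1 ≤ m) (hbig : ∀ b ∈ bs, b.big (2 * 5 ^ d * m))
    (hl : Lnk (2 * 5 ^ d * m) bs) (hGia : Gia d (2 * 5 ^ d * m))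
    (hE : ∀ Q ∈ blks bs, edg (RG l n Q) ⊆ E) (hD : ∀ Q ∈ blks bs, RG l n Q ⊆ D)
    (hcard : (blks bs).card ≤ D.card) (k0 : ℕ) :
    MM x E 0 (fun η1 η2 b =>
        ind (¬ One D l n (k0 * (2 * 5 ^ d * m + 1)) bs η1 η2 b)) ≤
      err1 d x (ε + 3 ^ d / (κ ^ 2 * (n : ℝ) ^ d)) 0 l n m k0 D.card *
        (ZA bde (fun _ => x) E 0 * ZA bde (fun _ => x) E 0) := by
  refine core h0 h1 hκ hn hε hL hED 0 hne hm hbig hl hGia hE hD hcard le_rfl ?_ k0
  intro P hP _ f hf0 hf1 hf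
  have hW : smp l n P ⊆ D := by
    classical
    intro v hv
    unfold smp at hv
    rw [Finset.mem_biUnion] at hv
    obtain ⟨Q, hQ, hv⟩ := hv
    refine hD Q (hP hQ) (smp_sub_RG hn Q ?_)
    unfold smp
    rw [Finset.mem_biUnion]
    exact ⟨Q, Finset.mem_singleton_self Q, hv⟩
  have h3 := transfer0 hED x hW f (fun T => abs_le.2 ⟨by linarith [hf0 T], hf1 T⟩) hf
  rw [h3]
  linarith


end Pool.Agent.Fac
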