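import Pool.Agent.Fac.Coh
import Pool.Agent.Fac.Det

/-!
# Block FAC: coherence for star-connected sets (helper43)

`CohW` is `Coh` with star-connected sets of `h` blocks instead of star paths of `h` distinct blocks.
-/

set_option autoImplicit false

namespace Pool.Agent.Fac

open Finset
open Pool.Agent.SRC (Vx Ed tip bde bd edg conn ind fl uv)
open Pool.Agent.FK1 (wB wF FF NN bdm ZA Inc SD)
open Pool.Agent.TC (spin cf)

variable {d : ℕ}

/-- star-connected sets -/
def StC (S : Finset (Vx d)) : Prop :=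
  ∀ u ∈ S, ∀ v ∈ S, Relation.ReflTransGen (fun a b : Vx d => b ∈ S ∧ star a b) u v

/-- every star-connected subset of `B` has less than `h` points -/
def Sz (h : ℕ) (B : Finset (Vx d)) : Prop := ∀ S ⊆ B, StC S → S.card < h

/-- coherence for star-connected sets of exactly `h` blocks -/
def CohW (κ : ℝ) (l n h : ℕ) (L T : Finset (Vx d)) : Prop :=
  ∀ S ⊆ L, StC S → S.card = h → 2 * (fl S (fun Q => ¬ gd κ l n Q T)).card < h

/-- coherence in all boxes of a list -/
def CohAW (κ : ℝ) (l n h : ℕ) (bs : List (BX d)) (T : Finset (Vx d)) : Prop :=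
  ∀ b ∈ bs, CohW κ l n h b.L T

theorem star_refl (u : Vx d) : star u u := fun k => by simp

theorem star_symm {u v : Vx d} (h : star u v) : star v u := fun k => by
  rw [abs_sub_comm]; exact h k

/-! ## V1: the depth first walk -/

/-- first exit: a proper subset `A` of a star-connected set has a star neighbour in `S \ A` -/
theorem StC.exit {S A : Finset (Vx d)} (hS : StC S) (hA : A ⊆ S) {v u : Vx d} (hv : v ∈ A)
    (hu : u ∈ S) (huA : u ∉ A) : ∃ a ∈ A, ∃ b ∈ S, b ∉ A ∧ star a b := by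
  have h1 := hS v (hA hv) u hu
  have key : ∀ w, Relation.ReflTransGen (fun a b : Vx d => b ∈ S ∧ star a b) v w → w ∉ A →
      ∃ a ∈ A, ∃ b ∈ S, b ∉ A ∧ star a b := by
    intro w hw
    induction hw with
    | refl => exact fun h => (h hv).elim
    | @tail b c _ hbc ih =>
      intro hc
      by_cases hb : b ∈ A
      · exact ⟨b, hb, c, hbc.1, hc, hbc.2⟩
      · exact ih hb
  exact key u h1 huA

/-- subsets of every size -/
theorem StC.exists_sub {S : Finset (Vx d)} (hS : StC S) {v : Vx d} (hv : v ∈ S) :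
    ∀ k, 1 ≤ k → k ≤ S.card → ∃ (A : Finset (Vx d)) (L : List (Vx d)), A ⊆ S ∧ v ∈ A ∧ A.card = k ∧
      StC A ∧ L.length = 2 * k - 1 ∧ L.head? = some v ∧ L.IsChain star ∧ ∀ u, u ∈ L ↔ u ∈ A := by
  classical
  intro k hk
  induction k, hk using Nat.le_induction with
  | base =>
    intro _
    refine ⟨{v}, [v], by simpa using hv, by simp, by simp, ?_, by simp, by simp, by simp, by simp⟩
    intro u hu w hw
    rw [Finset.mem_singleton] at hu hw
    rw [hu, hw]
  | succ k hk ih =>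
    intro hk2
    obtain ⟨A, L, hAS, hvA, hAc, hAC, hLl, hLh, hLc, hLm⟩ := ih (by omega)
    have h1 : ∃ u ∈ S, u ∉ A := by
      by_contra h
      push Not at h
      have : S.card ≤ A.card := Finset.card_le_card h
      omega
    obtain ⟨u, hu, huA⟩ := h1
    obtain ⟨a, ha, b, hb, hbA, hab⟩ := hS.exit hAS hvA hu huA
    obtain ⟨L1, L2, rfl⟩ := List.append_of_mem ((hLm a).2 ha)
    refine ⟨insert b A, L1 ++ a :: b :: a :: L2, ?_, Finset.mem_insert_of_mem hvA, ?_, ?_, ?_, ?_,
      ?_, ?_⟩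
    · intro w hw
      rcases Finset.mem_insert.1 hw with rfl | hw
      · exact hb
      · exact hAS hw
    · rw [Finset.card_insert_of_notMem hbA, hAc]
    · -- connected
      have hmono : ∀ x y, Relation.ReflTransGen (fun a b : Vx d => b ∈ A ∧ star a b) x y →
          Relation.ReflTransGen (fun p q : Vx d => q ∈ insert b A ∧ star p q) x y := by
        intro x y hxy
        induction hxy with
        | refl => exact Relation.ReflTransGen.refl
        | tail _ hpq ih => exact ih.tail ⟨Finset.mem_insert_of_mem hpq.1, hpq.2⟩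
      have hab' : Relation.ReflTransGen (fun p q : Vx d => q ∈ insert b A ∧ star p q) a b :=
        Relation.ReflTransGen.single ⟨Finset.mem_insert_self _ _, hab⟩
      have hba' : Relation.ReflTransGen (fun p q : Vx d => q ∈ insert b A ∧ star p q) b a :=
        Relation.ReflTransGen.single ⟨Finset.mem_insert_of_mem ha, star_symm hab⟩
      intro x hx y hy
      rcases Finset.mem_insert.1 hx with hxb | hx
      · rcases Finset.mem_insert.1 hy with hyb | hy
        · rw [hxb, hyb]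
        · rw [hxb]
          exact hba'.trans (hmono _ _ (hAC a ha y hy))
      · rcases Finset.mem_insert.1 hy with hyb | hy
        · rw [hyb]
          exact (hmono _ _ (hAC x hx a ha)).trans hab'
        · exact hmono _ _ (hAC x hx y hy)
    · have : (L1 ++ a :: b :: a :: L2).length = (L1 ++ a :: L2).length + 2 := by
        simp only [List.length_append, List.length_cons]
        omega
      rw [this, hLl]
      omega
    · cases L1 with
      | nil => simpa using hLh
      | cons c L1 => simpa using hLh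
    · rw [List.isChain_append] at hLc ⊢
      obtain ⟨c1, c2, c3⟩ := hLc
      refine ⟨c1, ?_, ?_⟩
      · rw [List.isChain_cons_cons, List.isChain_cons_cons]
        exact ⟨hab, star_symm hab, c2⟩
      · intro x hx y hy
        refine c3 x hx y ?_
        simpa using hy
    · intro w
      have := hLm w
      simp only [List.mem_append, List.mem_cons] at this ⊢
      rw [Finset.mem_insert, ← this]
      tauto

theorem StC.sub {S : Finset (Vx d)} (hS : StC S) {k : ℕ} (hk : 1 ≤ k) (hk2 : k ≤ S.card) :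
    ∃ A ⊆ S, StC A ∧ A.card = k := by
  obtain ⟨v, hv⟩ := Finset.card_pos.1 (lt_of_lt_of_le hk hk2)
  obtain ⟨A, L, h1, _, h3, h4, _⟩ := hS.exists_sub hv k hk hk2
  exact ⟨A, h1, h4, h3⟩

/-- the depth first walk -/
theorem StC.walk {S : Finset (Vx d)} (hS : StC S) {v : Vx d} (hv : v ∈ S) :
    ∃ s : ℕ → Vx d, s 0 = v ∧ (∀ i, star (s i) (s (i + 1))) ∧ (∀ i, s i ∈ S) ∧
      ∀ u ∈ S, ∃ i, i < 2 * S.card ∧ s i = u := by
  have hc : 1 ≤ S.card := Finset.card_pos.2 ⟨v, hv⟩
  obtain ⟨A, L, hAS, hvA, hAc, -, hLl, hLh, hLc, hLm⟩ := hS.exists_sub hv S.card hc le_rfl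
  have hA : A = S := Finset.eq_of_subset_of_card_le hAS (by omega)
  subst hA
  have hpos : 0 < L.length := by omega
  have hlt : ∀ i, min i (L.length - 1) < L.length := fun i => by omega
  refine ⟨fun i => L[min i (L.length - 1)]'(hlt i), ?_, ?_, ?_, ?_⟩
  · have h0 : min 0 (L.length - 1) = 0 := by simp
    simp only [h0]
    cases L with
    | nil => simp at hpos
    | cons c L => simpa using hLh
  · intro i
    by_cases hi : i + 1 < L.length
    · have h1 : min i (L.length - 1) = i := by omega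
      have h2 : min (i + 1) (L.length - 1) = i + 1 := by omega
      simp only [h1, h2]
      exact List.isChain_iff_getElem.1 hLc i hi
    · have h1 : min i (L.length - 1) = L.length - 1 := by omega
      have h2 : min (i + 1) (L.length - 1) = L.length - 1 := by omega
      simp only [h1, h2]
      exact star_refl _
  · intro i
    exact (hLm _).1 (List.getElem_mem _)
  · intro u hu
    obtain ⟨i, hi, hiu⟩ := List.getElem_of_mem ((hLm u).2 hu)
    refine ⟨i, by omega, ?_⟩
    have h1 : min i (L.length - 1) = i := by omega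
    simp only [h1]
    exact hiu

/-! ## V3: comparison with paths -/

theorem SPath.StC {h : ℕ} {s : ℕ → Vx d} (hs : SPath h s) :
    StC ((Finset.range h).image s) := by
  classical
  have key : ∀ i, i < h → ∀ j, j < h → i ≤ j →
      Relation.ReflTransGen (fun a b : Vx d => b ∈ (Finset.range h).image s ∧ star a b)
        (s i) (s j) ∧
      Relation.ReflTransGen (fun a b : Vx d => b ∈ (Finset.range h).image s ∧ star a b)
        (s j) (s i) := by
    intro i hi j
    induction j with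
    | zero =>
      intro _ h1
      have : i = 0 := by omega
      subst this
      exact ⟨Relation.ReflTransGen.refl, Relation.ReflTransGen.refl⟩
    | succ j ih =>
      intro hj h1
      rcases Nat.lt_or_ge i (j + 1) with h2 | h2
      · obtain ⟨a1, a2⟩ := ih (by omega) (by omega)
        have h3 : star (s j) (s (j + 1)) := hs.2 j hj
        refine ⟨a1.tail ⟨Finset.mem_image_of_mem _ (Finset.mem_range.2 hj), h3⟩, ?_⟩
        refine Relation.ReflTransGen.head ?_ a2
        exact ⟨Finset.mem_image_of_mem _ (Finset.mem_range.2 (by omega)), star_symm h3⟩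
      · have : i = j + 1 := by omega
        subst this
        exact ⟨Relation.ReflTransGen.refl, Relation.ReflTransGen.refl⟩
  intro u hu v hv
  obtain ⟨i, hi, rfl⟩ := Finset.mem_image.1 hu
  obtain ⟨j, hj, rfl⟩ := Finset.mem_image.1 hv
  rw [Finset.mem_range] at hi hj
  rcases le_total i j with h1 | h1
  · exact (key i hi j hj h1).1
  · exact (key j hj i hi h1).2

theorem SPath.card {h : ℕ} {s : ℕ → Vx d} (hs : SPath h s) :
    ((Finset.range h).image s).card = h := by
  classical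
  rw [Finset.card_image_of_injOn, Finset.card_range]
  intro i hi j hj hij
  exact hs.1 i j (Finset.mem_range.1 hi) (Finset.mem_range.1 hj) hij

/-- no large star-connected subset implies no long star path -/
theorem Sz.Sm {h : ℕ} {B : Finset (Vx d)} (hB : Sz h B) : Sm h B := by
  classical
  intro s hs
  by_contra hc
  push Not at hc
  have h1 : (Finset.range h).image s ⊆ B := by
    intro u hu
    obtain ⟨i, hi, rfl⟩ := Finset.mem_image.1 hu
    exact hc i (Finset.mem_range.1 hi)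
  have h2 := hB _ h1 hs.StC
  rw [hs.card] at h2
  exact lt_irrefl _ h2

theorem Sz_mono {h : ℕ} {B B' : Finset (Vx d)} (hB : Sz h B') (hs : B ⊆ B') : Sz h B :=
  fun S hS hC => hB S (hS.trans hs) hC

/-- `CohW` implies `Coh` -/
theorem CohW.Coh {κ : ℝ} {l n h : ℕ} {L T : Finset (Vx d)} (hW : CohW κ l n h L T) :
    Coh κ l n h L T := by
  classical
  intro s hs hL
  have h1 := hW ((Finset.range h).image s) (by
    intro u hu
    obtain ⟨i, hi, rfl⟩ := Finset.mem_image.1 hu
    exact hL i (Finset.mem_range.1 hi)) hs.StC hs.card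
  have h2 : (fl (Finset.range h) (fun i => ¬ gd κ l n (s i) T)).card ≤
      (fl ((Finset.range h).image s) (fun Q => ¬ gd κ l n Q T)).card := by
    refine Finset.card_le_card_of_injOn s ?_ ?_
    · intro i hi
      have hi' := (SRC.mem_fl _ _ _).1 (Finset.mem_coe.1 hi)
      refine Finset.mem_coe.2 ((SRC.mem_fl _ _ _).2 ⟨Finset.mem_image_of_mem _ hi'.1, hi'.2⟩)
    · intro i hi j hj hij
      have hi' := (SRC.mem_fl _ _ _).1 (Finset.mem_coe.1 hi)
      have hj' := (SRC.mem_fl _ _ _).1 (Finset.mem_coe.1 hj)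
      exact hs.1 i j (Finset.mem_range.1 hi'.1) (Finset.mem_range.1 hj'.1) hij
  omega

theorem CohAW.CohA {κ : ℝ} {l n h : ℕ} {bs : List (BX d)} {T : Finset (Vx d)}
    (hW : CohAW κ l n h bs T) : CohA κ l n h bs T := fun b hb => (hW b hb).Coh

/-- the union of the bad sets of two coherent sign fields has no large star-connected subset -/
theorem cohW_sz {κ : ℝ} {l n h : ℕ} (hh : 1 ≤ h) {L T T' : Finset (Vx d)} (h1 : CohW κ l n h L T)
    (h2 : CohW κ l n h L T') : Sz h (Bd κ l n L T ∪ Bd κ l n L T') := by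
  classical
  intro S hS hC
  by_contra hlt
  push Not at hlt
  obtain ⟨A, hAS, hAC, hAc⟩ := hC.sub hh hlt
  have hAL : A ⊆ L := by
    intro Q hQ
    rcases Finset.mem_union.1 (hS (hAS hQ)) with h3 | h3
    · exact ((SRC.mem_fl _ _ _).1 h3).1
    · exact ((SRC.mem_fl _ _ _).1 h3).1
  have e1 := h1 A hAL hAC hAc
  have e2 := h2 A hAL hAC hAc
  have h3 : A ⊆ fl A (fun Q => ¬ gd κ l n Q T) ∪ fl A (fun Q => ¬ gd κ l n Q T') := by
    intro Q hQ
    rcases Finset.mem_union.1 (hS (hAS hQ)) with h3 | h3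
    · exact Finset.mem_union_left _ ((SRC.mem_fl _ _ _).2 ⟨hQ, ((SRC.mem_fl _ _ _).1 h3).2⟩)
    · exact Finset.mem_union_right _ ((SRC.mem_fl _ _ _).2 ⟨hQ, ((SRC.mem_fl _ _ _).1 h3).2⟩)
  have h4 := (Finset.card_le_card h3).trans (Finset.card_union_le _ _)
  omega

theorem cohW_sz1 {κ : ℝ} {l n h : ℕ} (hh : 1 ≤ h) {L T : Finset (Vx d)} (h1 : CohW κ l n h L T) :
    Sz h (Bd κ l n L T) := Sz_mono (cohW_sz hh h1 h1) Finset.subset_union_left

/-! ## V2: the union bound -/

private theorem w2_mem_blks (bs : List (BX d)) (Q : Vx d) :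
    Q ∈ blks bs ↔ ∃ b ∈ bs, Q ∈ b.L := by
  unfold blks
  simp

/-- the walk with the given start and steps -/
private def w2_path {h : ℕ} (q : Vx d) (t : Fin h → Fin d → Fin 3) : ℕ → Vx d
  | 0 => q
  | i + 1 => fun k => w2_path q t i k + (if hi : i < h then (((t ⟨i, hi⟩ k : Fin 3) : ℕ) : ℤ) - 1
      else 0)

private theorem w2_path_eq {h : ℕ} {s : ℕ → Vx d} (hs : ∀ i, star (s i) (s (i + 1))) :
    ∃ t : Fin h → Fin d → Fin 3, ∀ i, i < h → w2_path (s 0) t i = s i := by
  refine ⟨fun i k => ⟨(s (i + 1) k - s i k + 1).toNat % 3, Nat.mod_lt _ (by norm_num)⟩, ?_⟩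
  intro i
  induction i with
  | zero => exact fun _ => rfl
  | succ i ih =>
    intro hi
    have h1 := ih (by omega)
    have h2 := hs i
    funext k
    simp only [w2_path, h1]
    rw [dif_pos (by omega : i < h)]
    have h3 := abs_le.1 (h2 k)
    have h4 : (s (i + 1) k - s i k + 1).toNat % 3 = (s (i + 1) k - s i k + 1).toNat :=
      Nat.mod_eq_of_lt (by omega)
    change s i k + (((s (i + 1) k - s i k + 1).toNat % 3 : ℕ) - 1 : ℤ) = s (i + 1) k
    rw [h4]
    omega

/-- sparse sets of `m` blocks inside star-connected sets of `h` blocks of the boxes: a finite family which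
contains them all, of cardinality at most `card * (2 * 3 ^ d) ^ (2 * h)` -/
theorem exists_familyW (bs : List (BX d)) (h m : ℕ) (hh : 1 ≤ h) :
    ∃ Fam : Finset (Finset (Vx d)),
      (Fam.card : ℝ) ≤ (blks bs).card * (2 * 3 ^ d) ^ (2 * h) ∧
      (∀ P ∈ Fam, P ⊆ blks bs ∧ Spr P ∧ P.card = m) ∧
      ∀ b ∈ bs, ∀ S ⊆ b.L, StC S → S.card = h → ∀ P : Finset (Vx d), Spr P →
        P.card = m → P ⊆ S → P ∈ Fam := by
  classical
  set S : Finset (Vx d × (Fin (2 * h) → Fin d → Fin 3) × Finset (Fin (2 * h))) :=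
    (blks bs) ×ˢ (Finset.univ ×ˢ Finset.univ) with hS
  set F : Vx d × (Fin (2 * h) → Fin d → Fin 3) × Finset (Fin (2 * h)) → Finset (Vx d) :=
    fun c => c.2.2.image (fun i : Fin (2 * h) => w2_path c.1 c.2.1 (i : ℕ)) with hF
  refine ⟨(S.image F).filter (fun P => P ⊆ blks bs ∧ Spr P ∧ P.card = m), ?_, ?_, ?_⟩
  · have h1 : ((S.image F).filter (fun P => P ⊆ blks bs ∧ Spr P ∧ P.card = m)).card ≤ S.card :=
      (Finset.card_filter_le _ _).trans Finset.card_image_le
    have h2 : S.card = (blks bs).card * ((3 ^ d) ^ (2 * h) * 2 ^ (2 * h)) := by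
      rw [hS, Finset.card_product, Finset.card_product, Finset.card_univ, Finset.card_univ,
        Fintype.card_finset, Fintype.card_fin, Fintype.card_fun, Fintype.card_fun,
        Fintype.card_fin, Fintype.card_fin, Fintype.card_fin]
    rw [h2] at h1
    have h3 : ((((S.image F).filter (fun P => P ⊆ blks bs ∧ Spr P ∧ P.card = m)).card : ℕ) : ℝ) ≤
        (((blks bs).card * ((3 ^ d) ^ (2 * h) * 2 ^ (2 * h)) : ℕ) : ℝ) := by
      exact_mod_cast h1
    refine h3.trans (le_of_eq ?_)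
    push_cast
    rw [mul_pow]
    ring
  · intro P hP
    exact (Finset.mem_filter.1 hP).2
  · intro b hb S' hS'L hS'C hS'c P hSpr hcard hPS
    obtain ⟨v, hv⟩ : S'.Nonempty := Finset.card_pos.1 (by omega)
    obtain ⟨s, hs0, hst, hsS, hsu⟩ := hS'C.walk hv
    refine Finset.mem_filter.2 ⟨?_, ?_, hSpr, hcard⟩
    · obtain ⟨t, ht⟩ := w2_path_eq (h := 2 * h) hst
      refine Finset.mem_image.2
        ⟨(s 0, t, Finset.univ.filter fun i : Fin (2 * h) => s i ∈ P), ?_, ?_⟩
      · rw [hS, Finset.mem_product, Finset.mem_product]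
        exact ⟨(w2_mem_blks bs _).2 ⟨b, hb, hS'L (hsS 0)⟩, Finset.mem_univ _,
          Finset.mem_univ _⟩
      · rw [hF]
        ext Q
        rw [Finset.mem_image]
        constructor
        · rintro ⟨i, hi, rfl⟩
          change w2_path (s 0) t i ∈ P
          rw [ht i i.2]
          exact (Finset.mem_filter.1 hi).2
        · intro hQ
          obtain ⟨i, hi, rfl⟩ := hsu Q (hPS hQ)
          rw [hS'c] at hi
          exact ⟨⟨i, hi⟩, Finset.mem_filter.2 ⟨Finset.mem_univ _, hQ⟩, ht i hi⟩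
    · intro Q hQ
      exact (w2_mem_blks bs _).2 ⟨b, hb, hS'L (hPS hQ)⟩

theorem cohW_le_sum {κ : ℝ} {l n m : ℕ} (hm : 1 ≤ m) (bs : List (BX d))
    {Fam : Finset (Finset (Vx d))}
    (hF : ∀ b ∈ bs, ∀ S ⊆ b.L, StC S → S.card = 2 * 5 ^ d * m → ∀ P : Finset (Vx d), Spr P →
      P.card = m → P ⊆ S → P ∈ Fam) (T : Finset (Vx d)) :
    ind (¬ CohAW κ l n (2 * 5 ^ d * m) bs T) ≤ ∑ P ∈ Fam, ∏ Q ∈ P, ind (¬ gd κ l n Q T) := by
  classical
  have hnn : ∀ P ∈ Fam, 0 ≤ ∏ Q ∈ P, ind (¬ gd κ l n Q T) := fun P _ =>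
    Finset.prod_nonneg fun Q _ => SRC.ind_nonneg _
  by_cases hC : CohAW κ l n (2 * 5 ^ d * m) bs T
  · rw [SRC.ind_false (not_not.2 hC)]
    exact Finset.sum_nonneg hnn
  · rw [SRC.ind_true hC]
    unfold CohAW at hC
    push Not at hC
    obtain ⟨b, hb, hC⟩ := hC
    unfold CohW at hC
    push Not at hC
    obtain ⟨S, hSL, hSC, hSc, hcard⟩ := hC
    set I : Finset (Vx d) := fl S (fun Q => ¬ gd κ l n Q T) with hI
    have hmem : ∀ Q, Q ∈ I ↔ Q ∈ S ∧ ¬ gd κ l n Q T := fun Q => by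
      rw [hI, SRC.mem_fl]
    obtain ⟨P', hP'B, hP'S, hP'c⟩ := exists_sparse I
    have h5 : 0 < 5 ^ d := by positivity
    have hm' : m ≤ P'.card := by
      have h6 : 2 * 5 ^ d * m ≤ 2 * (5 ^ d * P'.card) := hcard.trans (Nat.mul_le_mul_left 2 hP'c)
      have h7 : 5 ^ d * m ≤ 5 ^ d * P'.card := by
        have : 2 * (5 ^ d * m) ≤ 2 * (5 ^ d * P'.card) := by rw [← mul_assoc]; exact h6
        omega
      exact Nat.le_of_mul_le_mul_left h7 h5
    obtain ⟨P, hPP', hPc⟩ := Finset.exists_subset_card_eq hm'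
    have hPI : P ⊆ I := hPP'.trans hP'B
    have hPF : P ∈ Fam := by
      refine hF b hb S hSL hSC hSc P ?_ hPc ?_
      · intro Q hQ Q' hQ' hne
        exact hP'S Q (hPP' hQ) Q' (hPP' hQ') hne
      · intro Q hQ
        exact ((hmem Q).1 (hPI hQ)).1
    have hone : ∏ Q ∈ P, ind (¬ gd κ l n Q T) = 1 := by
      refine Finset.prod_eq_one fun Q hQ => ?_
      exact SRC.ind_true ((hmem Q).1 (hPI hQ)).2
    rw [← hone]
    exact Finset.single_le_sum (f := fun P => ∏ Q ∈ P, ind (¬ gd κ l n Q T)) hnn hPF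

private lemma w4_MM_sum (x : ℝ) (E : Finset (Ed d)) (A : Vx d → ZMod 2)
    (Fam : Finset (Finset (Vx d)))
    (f : Finset (Vx d) → Finset (Ed d) → Finset (Ed d) → Finset (Ed d) → ℝ) :
    MM x E A (fun η1 η2 b => ∑ P ∈ Fam, f P η1 η2 b) = ∑ P ∈ Fam, MM x E A (f P) := by
  unfold MM
  symm
  rw [Finset.sum_comm]
  refine Finset.sum_congr rfl fun η1 _ => ?_
  rw [Finset.sum_comm]
  refine Finset.sum_congr rfl fun η2 _ => ?_
  rw [Finset.sum_comm]
  refine Finset.sum_congr rfl fun b _ => ?_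
  rw [← Finset.mul_sum]

/-- the union bound for `CohAW` -/
theorem cohW_bound {x : ℝ} (h0 : 0 ≤ x) (h1 : x ≤ 1) {κ : ℝ} (hκ : 0 < κ) {l n : ℕ} (hn : 1 ≤ n)
    {ε : ℝ} (hε : 0 ≤ ε) (hL : LocBad x κ l n d ε) {D : Finset (Vx d)} {E : Finset (Ed d)}
    (hED : EndsIn E D) (A : Vx d → ZMod 2) (bs : List (BX d))
    (hE : ∀ Q ∈ blks bs, edg (RG l n Q) ⊆ E) (hD : ∀ Q ∈ blks bs, RG l n Q ⊆ D) {m : ℕ}
    (hm : 1 ≤ m) {err : ℝ} (herr : 0 ≤ err)
    (hT : ∀ P ⊆ blks bs, P.card ≤ m → ∀ f : Finset (Vx d) → ℝ, (∀ T, 0 ≤ f T) → (∀ T, f T ≤ 1) →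
      (∀ T, f T = f (T ∩ smp l n P)) →
      MM x E A (fun η1 η2 b => tE D (η1 ∪ η2 ∪ b) f) ≤
        FP x E A (fun ω1 ω2 => fE D ω1 ω2 f) +
          err * (ZA bde (fun _ => x) E A * ZA bde (fun _ => x) E 0)) :
    MM x E A (fun η1 η2 b => tE D (η1 ∪ η2 ∪ b)
        (fun T => ind (¬ CohAW κ l n (2 * 5 ^ d * m) bs T))) ≤
      (blks bs).card * (2 * 3 ^ d) ^ (2 * (2 * 5 ^ d * m)) *
        ((ε + 3 ^ d / (κ ^ 2 * (n : ℝ) ^ d)) ^ m + err) *
          (ZA bde (fun _ => x) E A * ZA bde (fun _ => x) E 0) := by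
  have hh : 1 ≤ 2 * 5 ^ d * m := by
    have : 0 < 2 * 5 ^ d * m := by positivity
    exact this
  obtain ⟨Fam, hcard, hFam, hmem⟩ := exists_familyW bs (2 * 5 ^ d * m) m hh
  set Z : ℝ := ZA bde (fun _ => x) E A * ZA bde (fun _ => x) E 0 with hZ
  have hZ0 : 0 ≤ Z := by
    rw [hZ, ← MM_one]
    have h2 := MM_mono h0 h1 E A (f := fun _ _ _ => 0) (g := fun _ _ _ => 1)
      (fun _ _ _ _ _ _ _ _ => zero_le_one)
    refine le_trans (le_of_eq ?_) h2
    unfold MM
    simp
  have hc0 : 0 ≤ (ε + 3 ^ d / (κ ^ 2 * (n : ℝ) ^ d)) ^ m + err := by positivity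
  have hstep1 : MM x E A (fun η1 η2 b => tE D (η1 ∪ η2 ∪ b)
        (fun T => ind (¬ CohAW κ l n (2 * 5 ^ d * m) bs T))) ≤
      MM x E A (fun η1 η2 b => ∑ P ∈ Fam, tE D (η1 ∪ η2 ∪ b)
        (fun T => ∏ Q ∈ P, ind (¬ gd κ l n Q T))) := by
    refine MM_mono h0 h1 E A fun η1 _ η2 _ b _ _ _ => ?_
    refine (tE_mono D (η1 ∪ η2 ∪ b)
      fun T _ => cohW_le_sum (κ := κ) (l := l) (n := n) hm bs hmem T).trans (le_of_eq ?_)
    have h3 := tE_sum D (η1 ∪ η2 ∪ b) Fam (fun _ => 1) (fun P T => ∏ Q ∈ P, ind (¬ gd κ l n Q T))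
    simp only [one_mul] at h3
    exact h3
  refine hstep1.trans ?_
  rw [w4_MM_sum]
  have hstep2 : ∀ P ∈ Fam, MM x E A (fun η1 η2 b => tE D (η1 ∪ η2 ∪ b)
        (fun T => ∏ Q ∈ P, ind (¬ gd κ l n Q T))) ≤
      ((ε + 3 ^ d / (κ ^ 2 * (n : ℝ) ^ d)) ^ m + err) * Z := by
    intro P hP
    obtain ⟨hP1, hP2, hP3⟩ := hFam P hP
    have hi0 : ∀ p : Prop, (0 : ℝ) ≤ ind p := fun p => by
      by_cases hp : p
      · unfold ind; rw [if_pos hp]; exact zero_le_one
      · unfold ind; rw [if_neg hp]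
    have hi1 : ∀ p : Prop, ind p ≤ (1 : ℝ) := fun p => by
      by_cases hp : p
      · unfold ind; rw [if_pos hp]
      · unfold ind; rw [if_neg hp]; exact zero_le_one
    have h3 := hT P hP1 hP3.le (fun T => ∏ Q ∈ P, ind (¬ gd κ l n Q T))
      (fun T => Finset.prod_nonneg fun Q _ => hi0 _)
      (fun T => Finset.prod_le_one (fun Q _ => hi0 _) fun Q _ => hi1 _)
      (fun T => prod_bad_inter P T)
    have h4 := FP_bad h0 h1 hκ hn hε hL hED A P hP2 (fun Q hQ => hE Q (hP1 hQ))
      (fun Q hQ => hD Q (hP1 hQ))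
    rw [hP3] at h4
    rw [add_mul]
    exact h3.trans (add_le_add h4 le_rfl)
  refine (Finset.sum_le_sum hstep2).trans ?_
  rw [Finset.sum_const, nsmul_eq_mul,
    mul_assoc (((blks bs).card : ℝ) * (2 * 3 ^ d) ^ (2 * (2 * 5 ^ d * m)))]
  exact mul_le_mul_of_nonneg_right hcard (mul_nonneg hc0 hZ0)

end Pool.Agent.Fac
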