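import Pool.Agent.Fac.Top
import Pool.Agent.Fac.Wlk

/-!
# Block FAC / VIS: the giant meets every cube of side `q` with `h ≤ q ^ (d - 1)` (helper29)

`Sz h B` (file Wlk): every star connected subset of `B` has less than `h` points.
-/

set_option autoImplicit false

namespace Pool.Agent.Fac

open Finset Relation
open Pool.Agent.SRC (Vx Ed tip bde bd edg conn ind fl uv)
open Pool.Agent.TC (spin cf)

variable {d : ℕ}

/-- the cube of side `q` with lower corner `c` -/
noncomputable def cub (q : ℕ) (c : Vx d) : Finset (Vx d) :=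
  Finset.Icc c (fun k => c k + ((q : ℤ) - 1))

private theorem update_box {lo hi w : Vx d} (hw : w ∈ Finset.Icc lo hi) {i : Fin d} {t : ℤ}
    (h1 : lo i ≤ t) (h2 : t ≤ hi i) : Function.update w i t ∈ Finset.Icc lo hi := by
  rw [Finset.mem_Icc] at hw ⊢
  refine ⟨fun k => ?_, fun k => ?_⟩
  · by_cases hk : k = i
    · subst hk
      rw [Function.update_self]
      exact h1
    · rw [Function.update_of_ne hk]
      exact hw.1 k
  · by_cases hk : k = i
    · subst hk
      rw [Function.update_self]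
      exact h2
    · rw [Function.update_of_ne hk]
      exact hw.2 k

private theorem nn_update (w : Vx d) (i : Fin d) (t : ℤ) :
    Lat.nn (Function.update w i t) (Function.update w i (t + 1)) := by
  refine ⟨i, Or.inl ?_⟩
  ext k
  by_cases hk : k = i
  · subst hk
    simp
  · rw [Pi.add_apply, Function.update_of_ne hk, Function.update_of_ne hk, Pi.single_eq_of_ne hk,
      add_zero]

/-- first exit of an integer interval -/
private theorem exit_int (p : ℤ → Prop) {a b s t : ℤ} (hs : a ≤ s ∧ s ≤ b) (ht : a ≤ t ∧ t ≤ b)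
    (h1 : p s) (h2 : ¬ p t) :
    ∃ u, a ≤ u ∧ u < b ∧ ((p u ∧ ¬ p (u + 1)) ∨ (¬ p u ∧ p (u + 1))) := by
  classical
  rcases le_total s t with h | h
  · obtain ⟨u, h3, h4, h5, h6⟩ := Lat.exists_step (fun z => ¬ p z) h (by simpa using h1) h2
    exact ⟨u, by omega, by omega, Or.inl ⟨by simpa using h5, h6⟩⟩
  · obtain ⟨u, h3, h4, h5, h6⟩ := Lat.exists_step p h h2 h1
    exact ⟨u, by omega, by omega, Or.inr ⟨h5, h6⟩⟩

/-- THE GIANT MEETS CUBES. -/
theorem Giant.cube {h q : ℕ} (hd : 1 ≤ d) {lo hi : Vx d} (hb : ∀ k, lo k + (h : ℤ) ≤ hi k)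
    {B G : Finset (Vx d)} (hG : Giant h (Finset.Icc lo hi) B G) (hB : Sz h B) (hq1 : 1 ≤ q)
    (hq : h ≤ q ^ (d - 1)) {c : Vx d} (hc : cub q c ⊆ Finset.Icc lo hi) :
    ∃ Q ∈ cub q c, Q ∈ G := by
  classical
  by_contra hcon
  push Not at hcon
  let i0 : Fin d := ⟨0, by omega⟩
  let Λ : Set (Vx d) := ↑(Finset.Icc lo hi)
  have hΛbox : Λ = Lat.box lo (fun i => hi i + 1) := (box_eq lo hi).symm
  have hΛgood : Lat.Good Λ := by rw [hΛbox]; exact Lat.good_box _ _
  have hΛconn : Lat.Conn Lat.nn Λ := by rw [hΛbox]; exact Lat.conn_box _ _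
  let V : Set (Vx d) := ↑G
  have hVΛ : V ⊆ Λ := fun x hx => Finset.mem_coe.2 (Finset.mem_sdiff.1 (hG.sub (Finset.mem_coe.1 hx))).1
  have hVconn : Lat.Conn Lat.nn V := cnn_iff.1 hG.con
  obtain ⟨v, hv, -⟩ := hG.diam
  have hcc : c ∈ cub q c := by
    unfold cub
    rw [Finset.mem_Icc]
    exact ⟨le_refl _, fun k => by
      have : (1 : ℤ) ≤ q := by exact_mod_cast hq1
      show c k ≤ c k + ((q : ℤ) - 1)
      omega⟩
  have hc0 : c ∈ Λ \ V := ⟨Finset.mem_coe.2 (hc hcc), fun h => hcon c hcc (Finset.mem_coe.1 h)⟩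
  let Y : Set (Vx d) := Lat.comp (Λ \ V) c
  have hYsub : Y ⊆ Λ \ V := Lat.comp_sub hc0
  obtain ⟨hib1, hib2⟩ := Lat.ib_comp hΛgood hΛconn hVconn hVΛ (v := v) (Finset.mem_coe.2 hv) hc0
  -- the inner boundary is finite and consists of points of `B`
  have hibfin : (Lat.ib Λ Y).Finite := (Finset.finite_toSet (Finset.Icc lo hi)).subset
    fun x hx => (hYsub hx.1).1
  have hibB : hibfin.toFinset ⊆ B := by
    intro x hx
    rw [Set.Finite.mem_toFinset] at hx
    obtain ⟨⟨hx1, hx2⟩, y, hy, hn⟩ := hib2 x hx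
    by_contra hxB
    refine hx2 (Finset.mem_coe.2 (hG.max y (Finset.mem_coe.1 hy) x
      (Finset.mem_sdiff.2 ⟨Finset.mem_coe.1 hx1, hxB⟩) ?_))
    exact ReflTransGen.single (adj_edg.2 ⟨Lat.nn_symm hn, hG.sub (Finset.mem_coe.1 hy),
      Finset.mem_sdiff.2 ⟨Finset.mem_coe.1 hx1, hxB⟩⟩)
  have hibC : StC hibfin.toFinset := by
    intro x hx y hy
    rw [Set.Finite.mem_toFinset] at hx hy
    exact ReflTransGen.lift (r := fun u v => Lat.st u v ∧ v ∈ Lat.ib Λ (Lat.comp (Λ \ V) c))
      (fun z => z) (fun a b hab => ⟨hibfin.mem_toFinset.2 hab.2, hab.1⟩) _ _ (hib1 x hx y hy)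
  have hlt := hB _ hibB hibC
  -- the cube lies in `Y`
  have hcubY : ∀ w ∈ cub q c, w ∈ Y := by
    intro w hw
    have h1 : Lat.Conn Lat.nn (↑(cub q c) : Set (Vx d)) := by
      have h2 : (↑(cub q c) : Set (Vx d)) = Lat.box c (fun i => c i + ((q : ℤ) - 1) + 1) :=
        (box_eq _ _).symm
      rw [h2]
      exact Lat.conn_box _ _
    refine Lat.comp_of_conn h1 (fun x hx => ⟨Finset.mem_coe.2 (hc (Finset.mem_coe.1 hx)), fun h =>
      hcon x (Finset.mem_coe.1 hx) (Finset.mem_coe.1 h)⟩) (Finset.mem_coe.2 hcc) (Finset.mem_coe.2 hw)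
  -- every line in the direction `i0` through the cube leaves `Y`
  have hline : ∀ w ∈ cub q c, ∃ t, Function.update w i0 t ∈ Lat.ib Λ Y := by
    intro w hw
    have hwL : w ∈ Finset.Icc lo hi := hc hw
    have hwi := Finset.mem_Icc.1 hwL
    have hmemL : ∀ t, lo i0 ≤ t → t ≤ hi i0 → Function.update w i0 t ∈ Finset.Icc lo hi :=
      fun t h1 h2 => update_box hwL h1 h2
    have hle : lo i0 ≤ hi i0 := (hwi.1 i0).trans (hwi.2 i0)
    -- some point of the line is outside `Y`
    have hout : ∃ t, lo i0 ≤ t ∧ t ≤ hi i0 ∧ Function.update w i0 t ∉ Y := by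
      by_contra hno
      push Not at hno
      let U : Finset (Vx d) := (Finset.Icc (lo i0) (hi i0)).image (fun t => Function.update w i0 t)
      have hUL : U ⊆ Finset.Icc lo hi := by
        intro x hx
        obtain ⟨t, ht, rfl⟩ := Finset.mem_image.1 hx
        rw [Finset.mem_Icc] at ht
        exact hmemL t ht.1 ht.2
      have hUc : Cnn U := by
        rw [cnn_iff]
        have key : ∀ s t : ℤ, s ≤ t → lo i0 ≤ s → t ≤ hi i0 →
            ReflTransGen (fun u v => Lat.nn u v ∧ v ∈ (↑U : Set (Vx d)))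
              (Function.update w i0 s) (Function.update w i0 t) := by
          intro s t hst
          induction t, hst using Int.leInduction with
          | base => exact fun _ _ => ReflTransGen.refl
          | succ t ht ih =>
            intro h1 h2
            refine ReflTransGen.tail (ih h1 (by omega)) ⟨nn_update w i0 t, ?_⟩
            exact Finset.mem_coe.2 (Finset.mem_image.2 ⟨t + 1, Finset.mem_Icc.2 ⟨by omega, h2⟩, rfl⟩)
        have key2 : ∀ s t : ℤ, s ≤ t → lo i0 ≤ s → t ≤ hi i0 →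
            ReflTransGen (fun u v => Lat.nn u v ∧ v ∈ (↑U : Set (Vx d)))
              (Function.update w i0 t) (Function.update w i0 s) := by
          intro s t hst
          induction t, hst using Int.leInduction with
          | base => exact fun _ _ => ReflTransGen.refl
          | succ t ht ih =>
            intro h1 h2
            refine ReflTransGen.head ⟨Lat.nn_symm (nn_update w i0 t), ?_⟩ (ih h1 (by omega))
            exact Finset.mem_coe.2 (Finset.mem_image.2 ⟨t, Finset.mem_Icc.2 ⟨by omega, by omega⟩, rfl⟩)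
        intro x hx y hy
        obtain ⟨s, hs, rfl⟩ := Finset.mem_image.1 (Finset.mem_coe.1 hx)
        obtain ⟨t, ht, rfl⟩ := Finset.mem_image.1 (Finset.mem_coe.1 hy)
        rw [Finset.mem_Icc] at hs ht
        rcases le_total s t with h | h
        · exact key s t h hs.1 ht.2
        · exact key2 t s h ht.1 hs.2
      have hUd : Dm h U := by
        refine ⟨Function.update w i0 (hi i0), Finset.mem_image.2 ⟨_, Finset.mem_Icc.2 ⟨hle, le_refl _⟩, rfl⟩,
          Function.update w i0 (lo i0), Finset.mem_image.2 ⟨_, Finset.mem_Icc.2 ⟨le_refl _, hle⟩, rfl⟩,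
          i0, ?_⟩
        rw [Function.update_self, Function.update_self]
        have h1 := hb i0
        exact (by omega : (h : ℤ) ≤ hi i0 - lo i0).trans (le_abs_self _)
      obtain ⟨u, hu, huG⟩ := hG.meet U hUL hUc hUd
      obtain ⟨t, ht, rfl⟩ := Finset.mem_image.1 hu
      rw [Finset.mem_Icc] at ht
      exact (hYsub (hno t ht.1 ht.2)).2 (Finset.mem_coe.2 huG)
    obtain ⟨t, ht1, ht2, htY⟩ := hout
    have hwY : Function.update w i0 (w i0) ∈ Y := by
      rw [Function.update_eq_self]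
      exact hcubY w hw
    obtain ⟨u, hu1, hu2, hu3⟩ := exit_int (fun z => Function.update w i0 z ∈ Y)
      (a := lo i0) (b := hi i0) ⟨hwi.1 i0, hwi.2 i0⟩ ⟨ht1, ht2⟩ hwY htY
    rcases hu3 with ⟨h1, h2⟩ | ⟨h1, h2⟩
    · exact ⟨u, h1, _, Finset.mem_coe.2 (hmemL (u + 1) (by omega) (by omega)), h2, nn_update w i0 u⟩
    · exact ⟨u + 1, h2, _, Finset.mem_coe.2 (hmemL u hu1 (by omega)), h1,
        Lat.nn_symm (nn_update w i0 u)⟩
  -- count the lines
  choose! f hf using hline
  let W : Finset (Vx d) := (cub q c).filter (fun w => w i0 = c i0)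
  have hinj : ∀ w ∈ W, ∀ w' ∈ W, Function.update w i0 (f w) = Function.update w' i0 (f w') → w = w' := by
    intro w hw w' hw' he
    have h1 := (Finset.mem_filter.1 hw).2
    have h2 := (Finset.mem_filter.1 hw').2
    ext k
    by_cases hk : k = i0
    · subst hk
      rw [h1, h2]
    · have h3 := congrFun he k
      rw [Function.update_of_ne hk, Function.update_of_ne hk] at h3
      exact h3
  have hWcard : W.card ≤ hibfin.toFinset.card := by
    refine Finset.card_le_card_of_injOn (fun w => Function.update w i0 (f w)) ?_ ?_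
    · intro w hw
      rw [Finset.mem_coe, Set.Finite.mem_toFinset]
      exact hf w (Finset.mem_filter.1 (Finset.mem_coe.1 hw)).1
    · intro w hw w' hw' he
      exact hinj w (Finset.mem_coe.1 hw) w' (Finset.mem_coe.1 hw') he
  have hW2 : W = Finset.Icc c (Function.update (fun k => c k + ((q : ℤ) - 1)) i0 (c i0)) := by
    ext w
    rw [Finset.mem_filter, cub, Finset.mem_Icc, Finset.mem_Icc]
    constructor
    · rintro ⟨⟨h1, h2⟩, h3⟩
      refine ⟨h1, fun k => ?_⟩
      by_cases hk : k = i0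
      · subst hk
        rw [Function.update_self, h3]
      · rw [Function.update_of_ne hk]
        exact h2 k
    · rintro ⟨h1, h2⟩
      have h3 : w i0 ≤ c i0 := by
        have h4 := h2 i0
        rw [Function.update_self] at h4
        exact h4
      have hqz : (1 : ℤ) ≤ q := by exact_mod_cast hq1
      refine ⟨⟨h1, fun k => ?_⟩, le_antisymm h3 (h1 i0)⟩
      by_cases hk : k = i0
      · rw [hk]
        show w i0 ≤ c i0 + ((q : ℤ) - 1)
        linarith
      · have h4 := h2 k
        rw [Function.update_of_ne hk] at h4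
        exact h4
  have hW3 : W.card = q ^ (d - 1) := by
    rw [hW2, Pi.card_Icc]
    rw [← Finset.mul_prod_erase Finset.univ _ (Finset.mem_univ i0)]
    rw [Function.update_self, Int.card_Icc]
    have h1 : (c i0 + 1 - c i0).toNat = 1 := by
      rw [show c i0 + 1 - c i0 = 1 by ring]
      rfl
    rw [h1, one_mul]
    rw [Finset.prod_congr rfl (g := fun _ => q)]
    · rw [Finset.prod_const, Finset.card_erase_of_mem (Finset.mem_univ i0), Finset.card_univ,
        Fintype.card_fin]
    · intro k hk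
      rw [Function.update_of_ne (Finset.ne_of_mem_erase hk), Int.card_Icc]
      rw [show c k + ((q : ℤ) - 1) + 1 - c k = (q : ℤ) by ring]
      exact Int.toNat_natCast q
  omega

private theorem v5_one {κ : ℝ} {l n h : ℕ} {bs : List (BX d)} {T : Finset (Vx d)}
    (h1 : sg κ l n h bs T = 1) : Sgn κ l n h bs T 1 := by
  by_contra hn
  unfold sg at h1
  rw [if_neg hn] at h1
  split_ifs at h1
  · linarith
  · linarith

private theorem v5_neg {κ : ℝ} {l n h : ℕ} {bs : List (BX d)} {T : Finset (Vx d)}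
    (h1 : sg κ l n h bs T = -1) : Sgn κ l n h bs T (-1) := by
  by_contra hn
  unfold sg at h1
  rw [if_neg hn] at h1
  split_ifs at h1
  · linarith
  · linarith

/-- a cluster whose flip changes the sign visits every cube of side `q`, `h ≤ q ^ (d - 1)` -/
theorem flip_visits_cube {κ : ℝ} {l n h : ℕ} (hd : 1 ≤ d) (hh : 1 ≤ h) (hGia : Gia d h)
    {bs : List (BX d)} {T C : Finset (Vx d)}
    (h1 : sg κ l n h bs T = 1) (h2 : sg κ l n h bs (symmDiff T C) = -1)
    {b : BX d} (hb : b ∈ bs) (hbig : b.big h)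
    (hT : CohW κ l n h b.L T) (hTC : CohW κ l n h b.L (symmDiff T C))
    {q : ℕ} (hq1 : 1 ≤ q) (hq : h ≤ q ^ (d - 1)) {c : Vx d} (hc : cub q c ⊆ b.L) :
    ∃ Q ∈ cub q c, ∃ w ∈ fi n Q, ce l w ∈ C := by
  obtain ⟨-, -, hT2⟩ := v5_one h1
  obtain ⟨-, -, hC2⟩ := v5_neg h2
  have hz := cohW_sz hh hT hTC
  have hs : Sm h (Bd κ l n b.L T ∪ Bd κ l n b.L (symmDiff T C)) := hz.Sm
  have hsub : ∀ T' : Finset (Vx d), Bd κ l n b.L T' ⊆ Finset.Icc b.lo b.hi := fun T' Q hQ =>
    ((Pool.Agent.SRC.mem_fl _ _ _).1 hQ).1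
  obtain ⟨G, hG⟩ := hGia b.lo b.hi hbig _ (Finset.union_subset (hsub T) (hsub (symmDiff T C))) hs
  obtain ⟨G1, hG1⟩ := hGia b.lo b.hi hbig _ (hsub T) (Sm_mono hs Finset.subset_union_left)
  obtain ⟨G2, hG2⟩ := hGia b.lo b.hi hbig _ (hsub (symmDiff T C))
    (Sm_mono hs Finset.subset_union_right)
  obtain ⟨Q, hQU, hQG⟩ := Giant.cube hd (fun k => by have := hbig k; omega) hG hz hq1 hq hc
  have e1 := hT2 b hb G1 hG1 Q (Giant.anti hG1 hG Finset.subset_union_left hQG)
  have e2 := hC2 b hb G2 hG2 Q (Giant.anti hG2 hG Finset.subset_union_right hQG)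
  refine ⟨Q, hQU, ?_⟩
  by_contra hcon
  push Not at hcon
  have e3 : SS l n Q (symmDiff T C) = SS l n Q T := by
    unfold SS
    refine Finset.sum_congr rfl fun w hw => ?_
    have h3 := hcon w hw
    unfold spin
    by_cases h : ce l w ∈ T
    · rw [if_pos h, if_pos (Finset.mem_symmDiff.2 (Or.inl ⟨h, h3⟩))]
    · rw [if_neg h, if_neg]
      intro h4
      rcases Finset.mem_symmDiff.1 h4 with h5 | h5
      · exact h h5.1
      · exact h3 h5.1
  rw [e3] at e2
  linarith

/-- the same with the cube written as an interval -/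
theorem flip_visits_cube' {κ : ℝ} {l n h : ℕ} (hd : 1 ≤ d) (hh : 1 ≤ h) (hGia : Gia d h)
    {b : BX d} {T C : Finset (Vx d)}
    (h1 : sg κ l n h [b] T = 1) (h2 : sg κ l n h [b] (symmDiff T C) = -1) (hbig : b.big h)
    (hT : CohW κ l n h b.L T) (hTC : CohW κ l n h b.L (symmDiff T C))
    {q : ℕ} (hq : h ≤ q ^ (d - 1)) (hd2 : 2 ≤ d) :
    ∀ c0 : Vx d, Finset.Icc c0 (fun k => c0 k + ((q : ℤ) - 1)) ⊆ b.L →
      ∃ Q ∈ Finset.Icc c0 (fun k => c0 k + ((q : ℤ) - 1)), ∃ w ∈ fi n Q, ce l w ∈ C := by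
  intro c0 hc0
  have hq1 : 1 ≤ q := by
    rcases Nat.eq_zero_or_pos q with h0 | h0
    · exfalso
      rw [h0, Nat.zero_pow (by omega)] at hq
      omega
    · exact h0
  exact flip_visits_cube hd hh hGia h1 h2 (List.mem_singleton.2 rfl) hbig hT hTC hq1 hq hc0

end Pool.Agent.Fac
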