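import Pool.Agent.Fac.Tile
import Pool.Agent.Fac.Vis4

/-!
# Block FAC: the core theorem for cubes (helper61)
-/

set_option autoImplicit false

namespace Pool.Agent.Fac

open Finset
open Pool.Agent.SRC (Vx Ed tip bde bd edg conn ind fl uv)
open Pool.Agent.FK1 (wB wF FF NN bdm ZA Inc SD)

variable {d : ℕ}

theorem coreT {x : ℝ} (h0 : 0 ≤ x) (h1 : x ≤ 1) (hd : 2 ≤ d) {κ : ℝ} (hκ : 0 < κ) {l n : ℕ}
    (hn : 1 ≤ n) {ε : ℝ} (hε : 0 ≤ ε) (hL : LocBad x κ l n d ε) {D : Finset (Vx d)}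
    {E : Finset (Ed d)} (hED : EndsIn E D) (b : BX d) {m : ℕ} (hm : 1 ≤ m)
    (hbig : b.big (2 * 5 ^ d * m)) (hGia : Gia d (2 * 5 ^ d * m))
    (hE : ∀ Q ∈ b.L, edg (RG l n Q) ⊆ E) (hD : ∀ Q ∈ b.L, RG l n Q ⊆ D)
    (hcard : b.L.card ≤ D.card) {q : ℕ} (hq : 2 * 5 ^ d * m ≤ q ^ (d - 1)) :
    MM x E 0 (fun η1 η2 c => ind (¬ ∃ u ∈ D, VQ l n q b (Cl D (η1 ∪ η2 ∪ c) u))) ≤
      ((D.card : ℝ) + 1) * (D.card * (2 * 3 ^ d) ^ (2 * (2 * 5 ^ d * m)) *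
        (ε + 3 ^ d / (κ ^ 2 * (n : ℝ) ^ d)) ^ m) *
        (ZA bde (fun _ => x) E 0 * ZA bde (fun _ => x) E 0) :=
  have hh : 1 ≤ 2 * 5 ^ d * m := by
    have : 0 < 2 * 5 ^ d * m := by positivity
    exact this
  coreT_of h0 h1 hκ hn hε hL hED b hm hbig hGia hE hD hcard
    (fun T C g1 g2 g3 g4 => flip_visits_cube' (by omega) hh hGia g1 g2 hbig g3 g4 hq hd)

end Pool.Agent.Fac
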