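import Pool.Agent.FK1.Fk
import Pool.Agent.TC.LebDefs

/-!
# Block FAC: definitions (helper61)

Vertices `Vx d = Fin d → ℤ`, edges `Ed d`, `E` a finite set of edges, `D` a finite set of vertices which
contains the ends of the edges of `E`. A sign field on `D` is given by the set `T ⊆ D` of its minus signs.
`x = tanh β`.
-/

set_option autoImplicit false

namespace Pool.Agent.Fac

open Finset
open Pool.Agent.SRC (Vx Ed tip bde bd edg conn ind fl uv)
open Pool.Agent.FK1 (wB wF FF NN bdm ZA Inc SD)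
open Pool.Agent.TC (spin cf)

variable {d : ℕ}

/-- indicator mod 2 of a finite vertex set -/
def s1 (U : Finset (Vx d)) : Vx d → ZMod 2 := fun v => if v ∈ U then 1 else 0

/-- product of the spins over `U`, `T` = set of minus spins -/
noncomputable def sU (U T : Finset (Vx d)) : ℝ := ∏ v ∈ U, spin T v

/-- the sign field `T` is constant on the clusters of `ω` -/
def Cst (ω : Finset (Ed d)) (T : Finset (Vx d)) : Prop := ∀ e ∈ ω, (e.1 ∈ T ↔ tip e ∈ T)

/-- the sign fields on `D` which are constant on the clusters of `ω` -/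
noncomputable def HH (D : Finset (Vx d)) (ω : Finset (Ed d)) : Finset (Finset (Vx d)) :=
  fl D.powerset (Cst ω)

/-- expectation over fair signs of the clusters of `ω` -/
noncomputable def tE (D : Finset (Vx d)) (ω : Finset (Ed d)) (f : Finset (Vx d) → ℝ) : ℝ :=
  (∑ T ∈ HH D ω, f T) / (HH D ω).card

/-- expectation over the product of two independent cluster sign fields -/
noncomputable def fE (D : Finset (Vx d)) (ω1 ω2 : Finset (Ed d)) (f : Finset (Vx d) → ℝ) : ℝ :=
  tE D ω1 (fun T1 => tE D ω2 (fun T2 => f (symmDiff T1 T2)))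

/-- one FK copy with sources `A` (unnormalised) -/
noncomputable def FW (x : ℝ) (E : Finset (Ed d)) (A : Vx d → ZMod 2) (f : Finset (Ed d) → ℝ) : ℝ :=
  ∑ ω ∈ E.powerset, wF bde (fun _ => x) E ω * ind (FF bde A ω) * f ω

/-- two FK copies, sources `A` and `0` (unnormalised) -/
noncomputable def FP (x : ℝ) (E : Finset (Ed d)) (A : Vx d → ZMod 2)
    (f : Finset (Ed d) → Finset (Ed d) → ℝ) : ℝ :=
  FW x E A (fun ω1 => FW x E 0 (fun ω2 => f ω1 ω2))

/-- `η1` loop model with sources `A`, `η2` sourceless, coins `b` with parameter `x ^ 2` (unnormalised);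
`η1 ∪ η2 ∪ b` is the trace of the double current -/
noncomputable def MM (x : ℝ) (E : Finset (Ed d)) (A : Vx d → ZMod 2)
    (f : Finset (Ed d) → Finset (Ed d) → Finset (Ed d) → ℝ) : ℝ :=
  ∑ η1 ∈ E.powerset, ∑ η2 ∈ E.powerset, ∑ b ∈ E.powerset,
    ind (bd η1 = A) * ind (bd η2 = 0) * (x ^ η1.card * x ^ η2.card * wB (fun _ => x ^ 2) E b) *
      f η1 η2 b

/-- all edges of `E` have their ends in `D` -/
def EndsIn (E : Finset (Ed d)) (D : Finset (Vx d)) : Prop := ∀ e ∈ E, e.1 ∈ D ∧ tip e ∈ D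

/-! ## Balls, cells, blocks. `l` = radius of a cell, `n` = number of cells on the side of a block -/

/-- the sup ball -/
noncomputable def ball (v : Vx d) (r : ℕ) : Finset (Vx d) :=
  Finset.Icc (fun k => v k - (r : ℤ)) (fun k => v k + (r : ℤ))

/-- the boundary of the ball -/
def sph (v : Vx d) (r : ℕ) (y : Vx d) : Prop := ∃ k, |y k - v k| = (r : ℤ)

/-- `v` is joined to the boundary of its ball of radius `l` inside the ball -/
def Cr (l : ℕ) (v : Vx d) (ω : Finset (Ed d)) : Prop :=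
  ∃ y ∈ ball v l, sph v l y ∧ conn (↑(ω ∩ edg (ball v l)) : Set (Ed d)) v y

/-- the centre of the cell `w` (cells are the balls of radius `l` around the centres, they partition the
lattice) -/
def ce (l : ℕ) (w : Vx d) : Vx d := fun k => (2 * (l : ℤ) + 1) * w k

/-- the cells of the block `Q` -/
noncomputable def fi (n : ℕ) (Q : Vx d) : Finset (Vx d) :=
  Finset.Icc (fun k => (n : ℤ) * Q k) (fun k => (n : ℤ) * Q k + ((n : ℤ) - 1))

/-- the vertices of the block `Q` -/
noncomputable def Bk (l n : ℕ) (Q : Vx d) : Finset (Vx d) :=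
  Finset.Icc (fun k => (2 * (l : ℤ) + 1) * n * Q k - l)
    (fun k => (2 * (l : ℤ) + 1) * n * Q k - l + ((2 * (l : ℤ) + 1) * n - 1))

/-- the block of a vertex -/
def bk (l n : ℕ) (v : Vx d) : Vx d := fun k => (v k + l) / ((2 * (l : ℤ) + 1) * n)

/-- the vertices of the blocks at distance `≤ 2` of `Q` -/
noncomputable def RG (l n : ℕ) (Q : Vx d) : Finset (Vx d) :=
  Finset.Icc (fun k => (2 * (l : ℤ) + 1) * n * (Q k - 2) - l)
    (fun k => (2 * (l : ℤ) + 1) * n * (Q k + 3) - l - 1)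

/-- sum of the signs at the centres of the cells of the block `Q` -/
noncomputable def SS (l n : ℕ) (Q : Vx d) (T : Finset (Vx d)) : ℝ := ∑ w ∈ fi n Q, spin T (ce l w)

/-- the block `Q` is good for the sign field `T` -/
def gd (κ : ℝ) (l n : ℕ) (Q : Vx d) (T : Finset (Vx d)) : Prop :=
  ∃ z : ℝ, (z = 1 ∨ z = -1) ∧ ∀ Q' ∈ ball Q 1, κ * (n : ℝ) ^ d ≤ z * SS l n Q' T

/-- all crossing cells near `Q` are connected in `ω` inside the region of `Q` -/
def G1 (l n : ℕ) (Q : Vx d) (ω : Finset (Ed d)) : Prop :=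
  ∀ Q1 ∈ ball Q 1, ∀ Q2 ∈ ball Q 1, ∀ w1 ∈ fi n Q1, ∀ w2 ∈ fi n Q2,
    Cr l (ce l w1) ω → Cr l (ce l w2) ω →
      conn (↑(ω ∩ edg (RG l n Q)) : Set (Ed d)) (ce l w1) (ce l w2)

/-- many cells of `Q` are crossing in both copies -/
def G2 (κ : ℝ) (l n : ℕ) (Q : Vx d) (ω1 ω2 : Finset (Ed d)) : Prop :=
  2 * κ * (n : ℝ) ^ d ≤ ((fl (fi n Q) (fun w => Cr l (ce l w) ω1 ∧ Cr l (ce l w) ω2)).card : ℝ)

/-- the block `Q` is good for the pair of FK configurations -/
def gF (κ : ℝ) (l n : ℕ) (Q : Vx d) (ω1 ω2 : Finset (Ed d)) : Prop :=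
  G1 l n Q ω1 ∧ G1 l n Q ω2 ∧ ∀ Q' ∈ ball Q 1, G2 κ l n Q' ω1 ω2

/-! ## Star paths, giants -/

/-- star adjacency or equality -/
def star (u v : Vx d) : Prop := ∀ k, |u k - v k| ≤ 1

/-- `s 0, …, s (h - 1)` are distinct and consecutive points are star adjacent -/
def SPath (h : ℕ) (s : ℕ → Vx d) : Prop :=
  (∀ i j, i < h → j < h → s i = s j → i = j) ∧ ∀ i, i + 1 < h → star (s i) (s (i + 1))

/-- there is no star path of `h` distinct points in `B` -/
def Sm (h : ℕ) (B : Finset (Vx d)) : Prop := ∀ s, SPath h s → ∃ i, i < h ∧ s i ∉ B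

/-- connected vertex sets -/
def Cnn (X : Finset (Vx d)) : Prop := ∀ u ∈ X, ∀ v ∈ X, conn (↑(edg X) : Set (Ed d)) u v

/-- sup diameter at least `h` -/
def Dm (h : ℕ) (X : Finset (Vx d)) : Prop := ∃ u ∈ X, ∃ v ∈ X, ∃ k, (h : ℤ) ≤ |u k - v k|

/-- `G` is the giant component of `L \ B` at scale `h` -/
structure Giant (h : ℕ) (L B G : Finset (Vx d)) : Prop where
  sub : G ⊆ L \ B
  con : Cnn G
  diam : Dm h G
  max : ∀ u ∈ G, ∀ v ∈ L \ B, conn (↑(edg (L \ B)) : Set (Ed d)) u v → v ∈ G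
  meet : ∀ U : Finset (Vx d), U ⊆ L → Cnn U → Dm h U → ∃ u ∈ U, u ∈ G

/-- the bad blocks in `L` -/
noncomputable def Bd (κ : ℝ) (l n : ℕ) (L T : Finset (Vx d)) : Finset (Vx d) :=
  fl L (fun Q => ¬ gd κ l n Q T)

/-- coherence: every star path of `h` blocks of `L` has less than `h / 2` bad blocks -/
def Coh (κ : ℝ) (l n h : ℕ) (L T : Finset (Vx d)) : Prop :=
  ∀ s, SPath h s → (∀ i, i < h → s i ∈ L) →
    2 * (fl (Finset.range h) (fun i => ¬ gd κ l n (s i) T)).card < h

/-! ## Boxes of blocks -/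

/-- a box of blocks -/
structure BX (d : ℕ) where
  /-- lower corner -/
  lo : Vx d
  /-- upper corner -/
  hi : Vx d

/-- the blocks of a box -/
noncomputable def BX.L (b : BX d) : Finset (Vx d) := Finset.Icc b.lo b.hi

/-- all sides are at least `h + 4` -/
def BX.big (h : ℕ) (b : BX d) : Prop := ∀ k, b.lo k + (h : ℤ) + 4 ≤ b.hi k

/-- the intersection of two boxes contains a box with sides at least `h + 4` -/
def BX.lap (h : ℕ) (b c : BX d) : Prop :=
  ∀ k, max (b.lo k) (c.lo k) + (h : ℤ) + 4 ≤ min (b.hi k) (c.hi k)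

/-- coherence in all boxes of a list -/
def CohA (κ : ℝ) (l n h : ℕ) (bs : List (BX d)) (T : Finset (Vx d)) : Prop :=
  ∀ b ∈ bs, Coh κ l n h b.L T

/-- the cluster of `u` in the edge set `ω`, as a subset of `D` -/
noncomputable def Cl (D : Finset (Vx d)) (ω : Finset (Ed d)) (u : Vx d) : Finset (Vx d) :=
  fl D (fun v => conn (↑ω : Set (Ed d)) u v)

/-- the blocks visited by a vertex set -/
noncomputable def vis (l n : ℕ) (γ : Finset (Vx d)) : Finset (Vx d) := by
  classical exact γ.image (bk l n)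

/-- the cluster `γ` crosses some box of the list: its blocks contain a connected set inside the box whose
extent in some direction is at least `m` -/
def Crs (l n m : ℕ) (bs : List (BX d)) (γ : Finset (Vx d)) : Prop :=
  ∃ b ∈ bs, ∃ U : Finset (Vx d), U ⊆ vis l n γ ∧ U ⊆ b.L ∧ Cnn U ∧ Dm m U

/-- THE EVENT of the core theorem: one cluster of `m = η1 ∪ η2 ∪ b` contains all crossing clusters of
`η1 ∪ η2` -/
def One (D : Finset (Vx d)) (l n m : ℕ) (bs : List (BX d)) (η1 η2 b : Finset (Ed d)) : Prop :=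
  ∃ u ∈ D, ∀ g ∈ D, Crs l n m bs (Cl D (η1 ∪ η2) g) → conn (↑(η1 ∪ η2 ∪ b) : Set (Ed d)) u g

end Pool.Agent.Fac
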