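import Pool.Agent.Fac.Det

/-!
# Block FAC: face boxes and layers (helper83)

`fce_slab`: a connected set of blocks which meets `{Q k ≤ c}` and `{c' ≤ Q k}` contains a connected set
between the two levels which touches both. `layers`: a connected set of large extent meets a set which
is met by all connected sets of extent `h` many times. `faces`: the `2 d` face boxes of an annulus of blocks.
-/

set_option autoImplicit false

namespace Pool.Agent.Fac

open Finset
open Pool.Agent.SRC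

variable {d : ℕ}

/-! ## paths in vertex sets -/

theorem fce_adj {X : Finset (Vx d)} {u v : Vx d} : adj (↑(edg X) : Set (Ed d)) u v ↔
    u ∈ X ∧ v ∈ X ∧ ∃ i, v = u + uv i ∨ u = v + uv i := by
  constructor
  · rintro ⟨i, ⟨h1, h2⟩ | ⟨h1, h2⟩⟩
    · have h3 := (mem_edg X _).1 (Finset.mem_coe.1 h1)
      refine ⟨h3.1, ?_, i, Or.inl h2⟩
      rw [h2]
      exact h3.2
    · have h3 := (mem_edg X _).1 (Finset.mem_coe.1 h1)
      refine ⟨?_, h3.1, i, Or.inr h2⟩
      rw [h2]
      exact h3.2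
  · rintro ⟨hu, hv, i, h | h⟩
    · refine ⟨i, Or.inl ⟨Finset.mem_coe.2 ((mem_edg X _).2 ⟨hu, ?_⟩), h⟩⟩
      show u + uv i ∈ X
      rw [← h]
      exact hv
    · refine ⟨i, Or.inr ⟨Finset.mem_coe.2 ((mem_edg X _).2 ⟨hv, ?_⟩), h⟩⟩
      show v + uv i ∈ X
      rw [← h]
      exact hu

theorem fce_mem {X : Finset (Vx d)} {u v : Vx d} (hu : u ∈ X)
    (h : conn (↑(edg X) : Set (Ed d)) u v) : v ∈ X := by
  induction h with
  | refl => exact hu
  | tail _ h2 _ => exact (fce_adj.1 h2).2.1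

theorem edg_mono {X Y : Finset (Vx d)} (h : X ⊆ Y) :
    (↑(edg X) : Set (Ed d)) ⊆ ↑(edg Y) := by
  intro e he
  have h1 := (mem_edg X e).1 (Finset.mem_coe.1 he)
  exact Finset.mem_coe.2 ((mem_edg Y e).2 ⟨h h1.1, h h1.2⟩)

/-- the coordinates of neighbours differ by at most one -/
theorem fce_step {u v : Vx d} (h : ∃ i, v = u + uv i ∨ u = v + uv i) (k : Fin d) :
    v k ≤ u k + 1 ∧ u k ≤ v k + 1 := by
  obtain ⟨i, h | h⟩ := h
  · have h1 : v k = u k + (uv i : Vx d) k := congrFun h k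
    have h2 : (uv i : Vx d) k = 0 ∨ (uv i : Vx d) k = 1 := by
      unfold uv
      rcases eq_or_ne k i with rfl | hk
      · exact Or.inr (Pi.single_eq_same _ _)
      · exact Or.inl (Pi.single_eq_of_ne hk _)
    omega
  · have h1 : u k = v k + (uv i : Vx d) k := congrFun h k
    have h2 : (uv i : Vx d) k = 0 ∨ (uv i : Vx d) k = 1 := by
      unfold uv
      rcases eq_or_ne k i with rfl | hk
      · exact Or.inr (Pi.single_eq_same _ _)
      · exact Or.inl (Pi.single_eq_of_ne hk _)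
    omega

/-- first exit of a path from `S` -/
theorem fce_exit {X : Finset (Vx d)} {S : Vx d → Prop} {u v : Vx d} (hu : u ∈ X) (hS : S u)
    (h : conn (↑(edg X) : Set (Ed d)) u v) :
    conn (↑(edg (fl X S)) : Set (Ed d)) u v ∨ ∃ w w', conn (↑(edg (fl X S)) : Set (Ed d)) u w ∧
      w ∈ X ∧ S w ∧ w' ∈ X ∧ ¬ S w' ∧ ∃ i, w' = w + uv i ∨ w = w' + uv i := by
  induction h with
  | refl => exact Or.inl (conn_refl _ _)
  | @tail w y _ h2 ih =>
    rcases ih with ih | ih
    · obtain ⟨hw, hy, hi⟩ := fce_adj.1 h2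
      have h3 : w ∈ fl X S := fce_mem ((mem_fl _ _ _).2 ⟨hu, hS⟩) ih
      by_cases hyS : S y
      · exact Or.inl (conn_trans ih (Relation.ReflTransGen.single
          (fce_adj.2 ⟨h3, (mem_fl _ _ _).2 ⟨hy, hyS⟩, hi⟩)))
      · exact Or.inr ⟨w, y, ih, hw, ((mem_fl _ _ _).1 h3).2, hy, hyS, hi⟩
    · exact Or.inr ih

/-- the component of `u` in the vertex set `Z` -/
noncomputable def cmp (Z : Finset (Vx d)) (u : Vx d) : Finset (Vx d) :=
  fl Z (fun v => conn (↑(edg Z) : Set (Ed d)) u v)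

theorem mem_cmp {Z : Finset (Vx d)} {u : Vx d} (hu : u ∈ Z) {v : Vx d} :
    v ∈ cmp Z u ↔ conn (↑(edg Z) : Set (Ed d)) u v := by
  unfold cmp
  rw [mem_fl]
  exact ⟨fun h => h.2, fun h => ⟨fce_mem hu h, h⟩⟩

theorem cmp_sub (Z : Finset (Vx d)) (u : Vx d) : cmp Z u ⊆ Z := fl_subset _ _

theorem cmp_conn {Z : Finset (Vx d)} {u : Vx d} (hu : u ∈ Z) {v : Vx d}
    (h : conn (↑(edg Z) : Set (Ed d)) u v) : conn (↑(edg (cmp Z u)) : Set (Ed d)) u v := by
  induction h with
  | refl => exact conn_refl _ _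
  | @tail w y h1 h2 ih =>
    refine conn_trans ih (Relation.ReflTransGen.single (fce_adj.2 ⟨(mem_cmp hu).2 h1,
      (mem_cmp hu).2 (Relation.ReflTransGen.tail h1 h2), (fce_adj.1 h2).2.2⟩))

theorem cmp_Cnn {Z : Finset (Vx d)} {u : Vx d} (hu : u ∈ Z) : Cnn (cmp Z u) := by
  intro v hv w hw
  exact conn_trans (conn_symm (cmp_conn hu ((mem_cmp hu).1 hv))) (cmp_conn hu ((mem_cmp hu).1 hw))

theorem cmp_self {Z : Finset (Vx d)} {u : Vx d} (hu : u ∈ Z) : u ∈ cmp Z u :=
  (mem_cmp hu).2 (conn_refl _ _)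

/-- a connected set up to the first exit from `S` -/
theorem fce_first {X : Finset (Vx d)} (hX : Cnn X) {S : Vx d → Prop} {u v : Vx d} (hu : u ∈ X)
    (hS : S u) (hv : v ∈ X) (hSv : ¬ S v) :
    ∃ Y ⊆ X, Cnn Y ∧ u ∈ Y ∧ ∃ w ∈ X, S w ∧ ∃ w' ∈ Y, ¬ S w' ∧
      (∃ i, w' = w + uv i ∨ w = w' + uv i) ∧ ∀ Q ∈ Y, S Q ∨ Q = w' := by
  classical
  rcases fce_exit (S := S) hu hS (hX u hu v hv) with h | ⟨w, w', h1, h2, h3, h4, h5, h6⟩
  · exact absurd ((mem_fl _ _ _).1 (fce_mem ((mem_fl _ _ _).2 ⟨hu, hS⟩) h)).2 hSv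
  · let Z : Finset (Vx d) := insert w' (fl X S)
    have hZX : Z ⊆ X := by
      intro y hy
      rcases Finset.mem_insert.1 hy with rfl | hy
      · exact h4
      · exact ((mem_fl _ _ _).1 hy).1
    have huZ : u ∈ Z := Finset.mem_insert_of_mem ((mem_fl _ _ _).2 ⟨hu, hS⟩)
    have hwZ : w ∈ Z := Finset.mem_insert_of_mem ((mem_fl _ _ _).2 ⟨h2, h3⟩)
    have hw'Z : w' ∈ Z := Finset.mem_insert_self _ _
    have h7 : conn (↑(edg Z) : Set (Ed d)) u w' :=
      conn_trans (conn_mono (edg_mono (Finset.subset_insert _ _)) h1)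
        (Relation.ReflTransGen.single (fce_adj.2 ⟨hwZ, hw'Z, h6⟩))
    refine ⟨cmp Z u, (cmp_sub Z u).trans hZX, cmp_Cnn huZ, cmp_self huZ, w, h2, h3, w',
      (mem_cmp huZ).2 h7, h5, h6, fun Q hQ => ?_⟩
    rcases Finset.mem_insert.1 (cmp_sub Z u hQ) with h8 | h8
    · exact Or.inr h8
    · exact Or.inl ((mem_fl _ _ _).1 h8).2

/-- SLAB CROSSING -/
theorem fce_slab {X : Finset (Vx d)} (hX : Cnn X) (k : Fin d) {c c' : ℤ} (hcc : c ≤ c')
    {u v : Vx d} (hu : u ∈ X) (hv : v ∈ X) (huc : u k ≤ c) (hvc : c' ≤ v k) :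
    ∃ U ⊆ X, Cnn U ∧ (∀ Q ∈ U, c ≤ Q k ∧ Q k ≤ c') ∧ (∃ Q ∈ U, Q k = c) ∧ ∃ Q ∈ U, Q k = c' := by
  classical
  -- a connected set below the level `c'` which touches it
  have h1 : ∃ Y ⊆ X, Cnn Y ∧ u ∈ Y ∧ (∀ Q ∈ Y, Q k ≤ c') ∧ ∃ w ∈ Y, w k = c' := by
    by_cases h2 : u k = c'
    · refine ⟨{u}, Finset.singleton_subset_iff.2 hu, ?_, Finset.mem_singleton_self u, ?_, u,
        Finset.mem_singleton_self u, h2⟩
      · intro a ha b hb
        rw [Finset.mem_singleton.1 ha, Finset.mem_singleton.1 hb]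
        exact conn_refl _ _
      · intro Q hQ
        rw [Finset.mem_singleton.1 hQ, h2]
    · obtain ⟨Y, hYX, hY, huY, w, _, hSw, w', hw', hSw', hi, hQ⟩ :=
        fce_first hX (S := fun Q => Q k < c') hu (by omega) hv (by omega)
      have h3 := fce_step hi k
      have h4 : w' k = c' := by omega
      refine ⟨Y, hYX, hY, huY, fun Q hQY => ?_, w', hw', h4⟩
      rcases hQ Q hQY with h5 | h5
      · exact le_of_lt h5
      · rw [h5, h4]
  obtain ⟨Y, hYX, hY, huY, hYc, w, hw, hwc⟩ := h1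
  -- go back from `w` to `u`
  let S : Vx d → Prop := fun Q => c ≤ Q k
  have hSw : S w := by
    show c ≤ w k
    rw [hwc]
    exact hcc
  have hwZ : w ∈ fl Y S := (mem_fl _ _ _).2 ⟨hw, hSw⟩
  have h2 : ∃ y, conn (↑(edg (fl Y S)) : Set (Ed d)) w y ∧ y k = c := by
    rcases fce_exit (S := S) hw hSw (hY w hw u huY) with h | ⟨a, a', h3, _, h4, _, h5, h6⟩
    · have h3 : c ≤ u k := ((mem_fl _ _ _).1 (fce_mem hwZ h)).2
      exact ⟨u, h, le_antisymm huc h3⟩
    · have h7 := fce_step h6 k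
      have h8 : c ≤ a k := h4
      have h9 : ¬ c ≤ a' k := h5
      exact ⟨a, h3, by omega⟩
  obtain ⟨y, hy, hyc⟩ := h2
  refine ⟨cmp (fl Y S) w, ((cmp_sub _ _).trans (fl_subset _ _)).trans hYX, cmp_Cnn hwZ, ?_,
    ⟨y, (mem_cmp hwZ).2 hy, hyc⟩, ⟨w, cmp_self hwZ, hwc⟩⟩
  intro Q hQ
  have h3 := (mem_fl _ _ _).1 (cmp_sub _ _ hQ)
  exact ⟨h3.2, hYc Q h3.1⟩

/-! ## layers -/

private theorem fce_layers (h k0 : ℕ) {U V : Finset (Vx d)} (hU : Cnn U) {u v : Vx d} (hu : u ∈ U)
    (hv : v ∈ U) (k : Fin d) (huv : u k + ((k0 * (h + 1) : ℕ) : ℤ) ≤ v k)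
    (hV : ∀ U' ⊆ U, Cnn U' → Dm h U' → ∃ Q ∈ U', Q ∈ V) : k0 ≤ (U ∩ V).card := by
  classical
  have h1 : ∀ j ∈ Finset.range k0, ∃ Q ∈ U ∩ V, u k + ((j * (h + 1) : ℕ) : ℤ) ≤ Q k ∧
      Q k ≤ u k + ((j * (h + 1) + h : ℕ) : ℤ) := by
    intro j hj
    have hj' : j + 1 ≤ k0 := Finset.mem_range.1 hj
    have h2 : j * (h + 1) + (h + 1) ≤ k0 * (h + 1) := by
      calc j * (h + 1) + (h + 1) = (j + 1) * (h + 1) := by ring
        _ ≤ _ := Nat.mul_le_mul_right _ hj'
    obtain ⟨U', hU'U, hU', hQ, ⟨Q1, hQ1, hQ1c⟩, Q2, hQ2, hQ2c⟩ := fce_slab hU k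
      (c := u k + ((j * (h + 1) : ℕ) : ℤ)) (c' := u k + ((j * (h + 1) + h : ℕ) : ℤ))
      (by push_cast; omega) hu hv (by omega) (by omega)
    obtain ⟨Q, hQU', hQV⟩ := hV U' hU'U hU' ⟨Q2, hQ2, Q1, hQ1, k, by
      rw [hQ1c, hQ2c]
      refine le_trans ?_ (le_abs_self _)
      omega⟩
    exact ⟨Q, Finset.mem_inter.2 ⟨hU'U hQU', hQV⟩, hQ Q hQU'⟩
  choose! f hf1 hf2 using h1
  calc k0 = (Finset.range k0).card := (Finset.card_range k0).symm
    _ ≤ (U ∩ V).card := by
        refine Finset.card_le_card_of_injOn f (fun j hj => hf1 j hj) ?_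
        intro i hi j hj hij
        have hi' := hf2 i hi
        have hj' := hf2 j hj
        rw [hij] at hi'
        by_contra hne
        rcases lt_or_gt_of_ne hne with h2 | h2
        · have h3 : i * (h + 1) + h + 1 ≤ j * (h + 1) := by
            calc i * (h + 1) + h + 1 = (i + 1) * (h + 1) := by ring
              _ ≤ _ := Nat.mul_le_mul_right _ h2
          omega
        · have h3 : j * (h + 1) + h + 1 ≤ i * (h + 1) := by
            calc j * (h + 1) + h + 1 = (j + 1) * (h + 1) := by ring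
              _ ≤ _ := Nat.mul_le_mul_right _ h2
          omega

/-- LAYERS: a connected set of extent `k0 (h + 1)` meets `V` at least `k0` times, if all its connected
subsets of extent `h` meet `V`. -/
theorem layers_fce (h k0 : ℕ) {U V : Finset (Vx d)} (hU : Cnn U) (hm : Dm (k0 * (h + 1)) U)
    (hV : ∀ U' ⊆ U, Cnn U' → Dm h U' → ∃ Q ∈ U', Q ∈ V) : k0 ≤ (U ∩ V).card := by
  obtain ⟨u, hu, v, hv, k, hk⟩ := hm
  rcases le_or_gt (u k) (v k) with h1 | h1
  · rw [abs_sub_comm, abs_of_nonneg (by omega)] at hk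
    exact fce_layers h k0 hU hu hv k (by omega) hV
  · rw [abs_of_pos (by omega)] at hk
    exact fce_layers h k0 hU hv hu k (by omega) hV

/-! ## face boxes -/

/-- the face box of thickness `τ` of `Icc al be` in direction `k`, upper face for `s = true` -/
def fbx (al be : Vx d) (τ : ℕ) (k : Fin d) (s : Bool) : BX d where
  lo := fun j => if j = k then (if s then be k + 1 else al k - τ) else al j - τ
  hi := fun j => if j = k then (if s then be k + τ else al k - 1) else be j + τ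

/-- the list of all face boxes -/
def fbs (al be : Vx d) (τ : ℕ) : List (BX d) :=
  (List.finRange d).map (fun k => fbx al be τ k true) ++
    (List.finRange d).map (fun k => fbx al be τ k false)

theorem mem_fbs {al be : Vx d} {τ : ℕ} {c : BX d} :
    c ∈ fbs al be τ ↔ ∃ k s, c = fbx al be τ k s := by
  unfold fbs
  rw [List.mem_append, List.mem_map, List.mem_map]
  constructor
  · rintro (⟨k, _, rfl⟩ | ⟨k, _, rfl⟩)
    · exact ⟨k, true, rfl⟩
    · exact ⟨k, false, rfl⟩
  · rintro ⟨k, s, rfl⟩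
    cases s
    · exact Or.inr ⟨k, List.mem_finRange k, rfl⟩
    · exact Or.inl ⟨k, List.mem_finRange k, rfl⟩

theorem length_fbs (al be : Vx d) (τ : ℕ) : (fbs al be τ).length = 2 * d := by
  unfold fbs
  rw [List.length_append, List.length_map, List.length_map, List.length_finRange]
  omega

theorem fbx_big {al be : Vx d} (hab : ∀ k, al k ≤ be k) {τ h : ℕ} (hτ : h + 5 ≤ τ) (k : Fin d)
    (s : Bool) : (fbx al be τ k s).big h := by
  intro j
  have h1 := hab j
  unfold fbx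
  dsimp only
  split_ifs with h2 h3
  · subst h2
    omega
  · subst h2
    omega
  · omega

theorem fbx_lap {al be : Vx d} (hab : ∀ k, al k ≤ be k) {τ h : ℕ} (hτ : h + 5 ≤ τ) {k j : Fin d}
    (hkj : k ≠ j) (s s' : Bool) : BX.lap h (fbx al be τ k s) (fbx al be τ j s') := by
  intro i
  have h1 := hab i
  unfold fbx
  dsimp only
  rcases eq_or_ne i k with h2 | h2
  · have h3 : i ≠ j := h2 ▸ hkj
    subst h2
    rw [if_pos rfl, if_pos rfl, if_neg h3, if_neg h3]
    split_ifs <;> omega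
  · rcases eq_or_ne i j with h3 | h3
    · subst h3
      rw [if_neg h2, if_neg h2, if_pos rfl, if_pos rfl]
      split_ifs <;> omega
    · rw [if_neg h2, if_neg h2, if_neg h3, if_neg h3]
      omega

theorem fbs_lnk (hd : 2 ≤ d) {al be : Vx d} (hab : ∀ k, al k ≤ be k) {τ h : ℕ}
    (hτ : h + 5 ≤ τ) : Lnk h (fbs al be τ) := by
  intro b hb c hc
  obtain ⟨k, s, rfl⟩ := mem_fbs.1 hb
  obtain ⟨j, s', rfl⟩ := mem_fbs.1 hc
  by_cases hkj : k = j
  · subst hkj
    obtain ⟨i, hi⟩ : ∃ i : Fin d, i ≠ k := by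
      by_cases h0 : (k : ℕ) = 0
      · exact ⟨⟨1, by omega⟩, fun h => by have := congrArg Fin.val h; simp only at this; omega⟩
      · exact ⟨⟨0, by omega⟩, fun h => by have := congrArg Fin.val h; simp only at this; omega⟩
    refine Relation.ReflTransGen.tail (b := fbx al be τ i true)
      (Relation.ReflTransGen.single ⟨mem_fbs.2 ⟨i, true, rfl⟩, fbx_lap hab hτ hi.symm _ _⟩)
      ⟨hc, fbx_lap hab hτ hi _ _⟩
  · exact Relation.ReflTransGen.single ⟨hc, fbx_lap hab hτ hkj _ _⟩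

/-- a connected set of blocks which leads from `Icc al be` to distance `τ` crosses a face box -/
theorem fce_cross {al be : Vx d} {τ : ℕ} (hτ : 1 ≤ τ)
    {X : Finset (Vx d)} (hX : Cnn X) {u v : Vx d} (hu : u ∈ X) (hv : v ∈ X)
    (hub : ∀ k, al k ≤ u k ∧ u k ≤ be k) (hvb : ∃ k, v k ≤ al k - τ ∨ be k + τ ≤ v k) :
    ∃ c ∈ fbs al be τ, ∃ U ⊆ X, U ⊆ c.L ∧ Cnn U ∧ Dm (τ - 1) U := by
  let S : Vx d → Prop := fun Q => ∀ k, al k - τ < Q k ∧ Q k < be k + τ
  have hSu : S u := fun k => by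
    have h1 := hub k
    constructor <;> omega
  have hSv : ¬ S v := by
    intro h
    obtain ⟨k, hk⟩ := hvb
    have h1 := h k
    omega
  obtain ⟨Y, hYX, hY, huY, w, _, hSw, w', hw', hSw', hi, hQ⟩ := fce_first hX (S := S) hu hSu hv hSv
  have hYc : ∀ Q ∈ Y, ∀ k, al k - τ ≤ Q k ∧ Q k ≤ be k + τ := by
    intro Q hQY k
    rcases hQ Q hQY with h5 | h5
    · have := h5 k
      constructor <;> omega
    · rw [h5]
      have h6 := fce_step hi k
      have h7 := hSw k
      constructor <;> omega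
  have h1 : ∃ k, w' k ≤ al k - τ ∨ be k + τ ≤ w' k := by
    by_contra hcon
    push Not at hcon
    exact hSw' fun k => ⟨(hcon k).1, (hcon k).2⟩
  obtain ⟨k, hk | hk⟩ := h1
  · obtain ⟨U, hUY, hU, hUc, ⟨Q1, hQ1, hQ1c⟩, Q2, hQ2, hQ2c⟩ := fce_slab hY k
      (c := al k - τ) (c' := al k - 1) (by omega) hw' huY hk (by have := hub k; omega)
    refine ⟨fbx al be τ k false, mem_fbs.2 ⟨k, false, rfl⟩, U, hUY.trans hYX, ?_, hU, Q2, hQ2, Q1,
      hQ1, k, ?_⟩
    · intro Q hQU
      unfold BX.L fbx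
      refine Finset.mem_Icc.2 ⟨fun j => ?_, fun j => ?_⟩
      · dsimp only
        split_ifs with h2 h3
        · exact absurd h3 (by decide)
        · rw [h2]
          exact (hUc Q hQU).1
        · exact (hYc Q (hUY hQU) j).1
      · dsimp only
        split_ifs with h2 h3
        · exact absurd h3 (by decide)
        · rw [h2]
          exact (hUc Q hQU).2
        · exact (hYc Q (hUY hQU) j).2
    · rw [hQ1c, hQ2c]
      refine le_trans ?_ (le_abs_self _)
      omega
  · obtain ⟨U, hUY, hU, hUc, ⟨Q1, hQ1, hQ1c⟩, Q2, hQ2, hQ2c⟩ := fce_slab hY k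
      (c := be k + 1) (c' := be k + τ) (by omega) huY hw' (by have := hub k; omega) hk
    refine ⟨fbx al be τ k true, mem_fbs.2 ⟨k, true, rfl⟩, U, hUY.trans hYX, ?_, hU, Q2, hQ2, Q1,
      hQ1, k, ?_⟩
    · intro Q hQU
      unfold BX.L fbx
      refine Finset.mem_Icc.2 ⟨fun j => ?_, fun j => ?_⟩
      · dsimp only
        split_ifs with h2 h3
        · rw [h2]
          exact (hUc Q hQU).1
        · exact absurd rfl h3
        · exact (hYc Q (hUY hQU) j).1
      · dsimp only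
        split_ifs with h2 h3
        · rw [h2]
          exact (hUc Q hQU).2
        · exact absurd rfl h3
        · exact (hYc Q (hUY hQU) j).2
    · rw [hQ1c, hQ2c]
      refine le_trans ?_ (le_abs_self _)
      omega

/-! ## the blocks of a cluster -/

private theorem fce_div {N : ℤ} (hN : 0 < N) (x : ℤ) : (x + 1) / N = x / N ∨ (x + 1) / N = x / N + 1 := by
  have h1 : x / N ≤ (x + 1) / N := Int.ediv_le_ediv hN (by omega)
  have h2 : (x + 1) / N ≤ x / N + 1 := by
    calc (x + 1) / N ≤ (x + 1 * N) / N := Int.ediv_le_ediv hN (by omega)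
      _ = x / N + 1 := Int.add_mul_ediv_right x 1 hN.ne'
  omega

theorem fce_bk {l n : ℕ} (hn : 1 ≤ n) (v : Vx d) (i : Fin d) :
    bk l n (v + uv i) = bk l n v ∨ bk l n (v + uv i) = bk l n v + uv i := by
  have hN : (0 : ℤ) < (2 * (l : ℤ) + 1) * n := by positivity
  have h1 : ∀ k, k ≠ i → bk l n (v + uv i) k = bk l n v k := by
    intro k hk
    unfold bk uv
    rw [Pi.add_apply, Pi.single_eq_of_ne hk, add_zero]
  have h2 : bk l n (v + uv i) i = (v i + l + 1) / ((2 * (l : ℤ) + 1) * n) := by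
    unfold bk uv
    rw [Pi.add_apply, Pi.single_eq_same]
    congr 1
    ring
  rcases fce_div hN (v i + l) with h3 | h3
  · left
    funext k
    rcases eq_or_ne k i with rfl | hk
    · rw [h2, h3]
      rfl
    · exact h1 k hk
  · right
    funext k
    rcases eq_or_ne k i with rfl | hk
    · rw [h2, h3, Pi.add_apply]
      unfold uv
      rw [Pi.single_eq_same]
      rfl
    · rw [h1 k hk, Pi.add_apply]
      unfold uv
      rw [Pi.single_eq_of_ne hk, add_zero]

theorem mem_Cl {D : Finset (Vx d)} {η : Finset (Ed d)} (hη : EndsIn η D) {p : Vx d} (hp : p ∈ D)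
    {y : Vx d} : y ∈ Cl D η p ↔ conn (↑η : Set (Ed d)) p y := by
  unfold Cl
  rw [mem_fl]
  refine ⟨fun h => h.2, fun h => ⟨?_, h⟩⟩
  induction h with
  | refl => exact hp
  | tail _ h2 _ =>
    obtain ⟨i, ⟨h3, h4⟩ | ⟨h3, h4⟩⟩ := h2
    · rw [h4]
      exact (hη _ (Finset.mem_coe.1 h3)).2
    · exact (hη _ (Finset.mem_coe.1 h3)).1

theorem fce_vis {l n : ℕ} (hn : 1 ≤ n) {D : Finset (Vx d)} {η : Finset (Ed d)} (hη : EndsIn η D)
    {p : Vx d} (hp : p ∈ D) : Cnn (vis l n (Cl D η p)) := by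
  classical
  have hvis : ∀ y, conn (↑η : Set (Ed d)) p y → bk l n y ∈ vis l n (Cl D η p) := by
    intro y hy
    unfold vis
    exact Finset.mem_image.2 ⟨y, (mem_Cl hη hp).2 hy, rfl⟩
  have key : ∀ y, conn (↑η : Set (Ed d)) p y →
      conn (↑(edg (vis l n (Cl D η p))) : Set (Ed d)) (bk l n p) (bk l n y) := by
    intro y hy
    induction hy with
    | refl => exact conn_refl _ _
    | @tail w y h1 h2 ih =>
      have hw := hvis w h1
      have hy := hvis y (Relation.ReflTransGen.tail h1 h2)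
      obtain ⟨i, ⟨_, h4⟩ | ⟨_, h4⟩⟩ := h2
      · rcases fce_bk (l := l) hn w i with h5 | h5
        · rw [h4, h5]
          exact ih
        · refine conn_trans ih (Relation.ReflTransGen.single (fce_adj.2 ⟨hw, hy, i, Or.inl ?_⟩))
          rw [h4, h5]
      · rcases fce_bk (l := l) hn y i with h5 | h5
        · rw [← h4] at h5
          rw [← h5]
          exact ih
        · refine conn_trans ih (Relation.ReflTransGen.single (fce_adj.2 ⟨hw, hy, i, Or.inr ?_⟩))
          rw [← h4] at h5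
          exact h5
  intro u hu v hv
  unfold vis at hu hv
  obtain ⟨a, ha, rfl⟩ := Finset.mem_image.1 hu
  obtain ⟨b, hb, rfl⟩ := Finset.mem_image.1 hv
  exact conn_trans (conn_symm (key a ((mem_Cl hη hp).1 ha))) (key b ((mem_Cl hη hp).1 hb))

/-! ## the theorem -/

/-- FACES -/
theorem faces (hd : 2 ≤ d) {l n : ℕ} (hn : 1 ≤ n) (h m : ℕ) (hm : h + 5 ≤ m) (t : ℕ)
    (ht : 3 * ((2 * l + 1) * n) * (m + 20) ≤ t) (a b : Vx d) (hab : ∀ k, a k ≤ b k) :
    ∃ bs : List (BX d), bs ≠ [] ∧ (∀ c ∈ bs, c.big h) ∧ Lnk h bs ∧ bs.length ≤ 2 * d ∧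
      (∀ c ∈ bs, ∀ Q ∈ c.L, RG l n Q ⊆
        Finset.Icc (fun k => a k - ((2 * (t / 3) : ℕ) : ℤ)) (fun k => b k + ((2 * (t / 3) : ℕ) : ℤ)) \
          Finset.Icc (fun k => a k - ((t / 3 : ℕ) : ℤ)) (fun k => b k + ((t / 3 : ℕ) : ℤ))) ∧
      ∀ η : Finset (Ed d),
        EndsIn η (Finset.Icc (fun k => a k - (t : ℤ)) (fun k => b k + (t : ℤ))) →
        ∀ p ∈ Finset.Icc a b, ∀ q ∈ Finset.Icc (fun k => a k - (t : ℤ)) (fun k => b k + (t : ℤ)),
        (∃ k, q k = a k - t ∨ q k = b k + t) → conn (↑η : Set (Ed d)) p q →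
        Crs l n m bs (Cl (Finset.Icc (fun k => a k - (t : ℤ)) (fun k => b k + (t : ℤ))) η p) := by
  classical
  set s : ℕ := t / 3 with hs
  have hsN : ((2 * l + 1) * n) * (m + 20) ≤ s := by
    rw [hs, Nat.le_div_iff_mul_le (by norm_num)]
    calc ((2 * l + 1) * n) * (m + 20) * 3 = 3 * ((2 * l + 1) * n) * (m + 20) := by ring
      _ ≤ t := ht
  have hst : 3 * s ≤ t := by omega
  obtain ⟨N, hN⟩ : ∃ N : ℤ, N = (2 * (l : ℤ) + 1) * n := ⟨_, rfl⟩
  have hN0 : 0 < N := by
    rw [hN]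
    positivity
  have hl0 : (0 : ℤ) ≤ l := Int.natCast_nonneg l
  have hm0 : (0 : ℤ) ≤ m := Int.natCast_nonneg m
  have hsN' : N * (m + 20) ≤ s := by
    rw [hN]
    exact_mod_cast hsN
  have hst' : 3 * (s : ℤ) ≤ t := by exact_mod_cast hst
  -- the inner box of blocks
  let al : Vx d := fun k => (a k - s + l) / N - 3
  let be : Vx d := fun k => (b k + s + l) / N + 3
  have hale : ∀ k, al k ≤ be k := by
    intro k
    have h1 : (a k - s + l) / N ≤ (b k + s + l) / N :=
      Int.ediv_le_ediv hN0 (by have := hab k; have := Int.natCast_nonneg s; omega)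
    show (a k - s + l) / N - 3 ≤ (b k + s + l) / N + 3
    omega
  -- floors
  have hfl1 : ∀ x : ℤ, N * (x / N) ≤ x := fun x => by
    have h1 := Int.emod_add_mul_ediv x N
    have h2 := Int.emod_nonneg x hN0.ne'
    linarith
  have hfl2 : ∀ x : ℤ, x < N * (x / N) + N := fun x => by
    have h1 := Int.emod_add_mul_ediv x N
    have h2 := Int.emod_lt_of_pos x hN0
    linarith
  -- all blocks of the face boxes
  have hall : ∀ c ∈ fbs al be (m + 1), ∀ Q ∈ c.L, (∀ k, al k - ((m : ℤ) + 1) ≤ Q k ∧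
      Q k ≤ be k + ((m : ℤ) + 1)) ∧ ∃ k, be k + 1 ≤ Q k ∨ Q k ≤ al k - 1 := by
    intro c hc Q hQ
    obtain ⟨k, sg, rfl⟩ := mem_fbs.1 hc
    unfold BX.L fbx at hQ
    obtain ⟨h1, h2⟩ := Finset.mem_Icc.1 hQ
    constructor
    · intro j
      have h3 := h1 j
      have h4 := h2 j
      have h5 := hale j
      dsimp only at h3 h4
      by_cases hj : j = k
      · subst hj
        rw [if_pos rfl] at h3 h4
        cases sg
        · simp only [Bool.false_eq_true, if_false] at h3 h4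
          push_cast at h3
          constructor <;> linarith
        · simp only [if_true] at h3 h4
          push_cast at h4
          constructor <;> linarith
      · rw [if_neg hj] at h3 h4
        push_cast at h3 h4
        exact ⟨h3, h4⟩
    · have h3 := h1 k
      have h4 := h2 k
      dsimp only at h3 h4
      rw [if_pos rfl] at h3 h4
      cases sg
      · simp only [Bool.false_eq_true, if_false] at h4
        exact ⟨k, Or.inr h4⟩
      · simp only [if_true] at h3
        exact ⟨k, Or.inl h3⟩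
  refine ⟨fbs al be (m + 1), ?_, ?_, fbs_lnk hd hale (by omega), (length_fbs _ _ _).le, ?_, ?_⟩
  · intro h0
    have h1 := length_fbs al be (m + 1)
    rw [h0, List.length_nil] at h1
    omega
  · intro c hc
    obtain ⟨k, sg, rfl⟩ := mem_fbs.1 hc
    exact fbx_big hale (by omega) k sg
  · -- the regions of the blocks of the face boxes
    intro c hc Q hQ v hv
    obtain ⟨h1, k, h2⟩ := hall c hc Q hQ
    unfold RG at hv
    rw [← hN] at hv
    obtain ⟨h3, h4⟩ := Finset.mem_Icc.1 hv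
    refine Finset.mem_sdiff.2 ⟨Finset.mem_Icc.2 ⟨fun j => ?_, fun j => ?_⟩, fun hcon => ?_⟩
    · -- `a j - 2 s ≤ v j`
      have h5 : N * (Q j - 2) - l ≤ v j := h3 j
      have h6 : (a j - s + l) / N - 3 - ((m : ℤ) + 1) ≤ Q j := (h1 j).1
      have h7 := hfl2 (a j - s + l)
      have h8 : N * ((a j - s + l) / N - 3 - ((m : ℤ) + 1) - 2) ≤ N * (Q j - 2) :=
        mul_le_mul_of_nonneg_left (by linarith) hN0.le
      have h9 : N * ((a j - s + l) / N - 3 - ((m : ℤ) + 1) - 2) =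
          N * ((a j - s + l) / N) + N - N * (m + 7) := by ring
      have h10 : N * ((m : ℤ) + 7) ≤ N * (m + 20) := mul_le_mul_of_nonneg_left (by linarith) hN0.le
      show a j - ((2 * s : ℕ) : ℤ) ≤ v j
      push_cast
      linarith
    · -- `v j ≤ b j + 2 s`
      have h5 : v j ≤ N * (Q j + 3) - l - 1 := h4 j
      have h6 : Q j ≤ (b j + s + l) / N + 3 + ((m : ℤ) + 1) := (h1 j).2
      have h7 := hfl1 (b j + s + l)
      have h8 : N * (Q j + 3) ≤ N * ((b j + s + l) / N + 3 + ((m : ℤ) + 1) + 3) :=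
        mul_le_mul_of_nonneg_left (by linarith) hN0.le
      have h9 : N * ((b j + s + l) / N + 3 + ((m : ℤ) + 1) + 3) =
          N * ((b j + s + l) / N) + N * (m + 7) := by ring
      have h10 : N * ((m : ℤ) + 7) ≤ N * (m + 20) := mul_le_mul_of_nonneg_left (by linarith) hN0.le
      show v j ≤ b j + ((2 * s : ℕ) : ℤ)
      push_cast
      linarith
    · -- not in the inner box
      obtain ⟨h5, h6⟩ := Finset.mem_Icc.1 hcon
      have h5 : a k - (s : ℤ) ≤ v k := h5 k
      have h6 : v k ≤ b k + (s : ℤ) := h6 k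
      rcases h2 with h2 | h2
      · have h7 : N * (Q k - 2) - l ≤ v k := h3 k
        have h8 : (b k + s + l) / N + 3 + 1 ≤ Q k := h2
        have h9 := hfl2 (b k + s + l)
        have h10 : N * ((b k + s + l) / N + 3 + 1 - 2) ≤ N * (Q k - 2) :=
          mul_le_mul_of_nonneg_left (by linarith) hN0.le
        have h11 : N * ((b k + s + l) / N + 3 + 1 - 2) = N * ((b k + s + l) / N) + N + N := by ring
        linarith
      · have h7 : v k ≤ N * (Q k + 3) - l - 1 := h4 k
        have h8 : Q k ≤ (a k - s + l) / N - 3 - 1 := h2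
        have h9 := hfl1 (a k - s + l)
        have h10 : N * (Q k + 3) ≤ N * ((a k - s + l) / N - 3 - 1 + 3) :=
          mul_le_mul_of_nonneg_left (by linarith) hN0.le
        have h11 : N * ((a k - s + l) / N - 3 - 1 + 3) = N * ((a k - s + l) / N) - N := by ring
        linarith
  · -- clusters which cross the annulus
    intro η hη p hp q hq hqk hpq
    obtain ⟨hp1, hp2⟩ := Finset.mem_Icc.1 hp
    have ht0 : (0 : ℤ) ≤ t := Int.natCast_nonneg t
    have hs0 : (0 : ℤ) ≤ s := Int.natCast_nonneg s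
    have hpD : p ∈ Finset.Icc (fun k => a k - (t : ℤ)) (fun k => b k + (t : ℤ)) :=
      Finset.mem_Icc.2 ⟨fun k => by have := hp1 k; show a k - (t : ℤ) ≤ p k; linarith,
        fun k => by have := hp2 k; show p k ≤ b k + (t : ℤ); linarith⟩
    have hX := fce_vis (l := l) hn hη hpD
    have hbk : ∀ v : Vx d, ∀ k, bk l n v k = (v k + l) / N := fun v k => by
      rw [hN]
      rfl
    have hpX : bk l n p ∈ vis l n (Cl (Finset.Icc (fun k => a k - (t : ℤ))
        (fun k => b k + (t : ℤ))) η p) := by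
      unfold vis
      exact Finset.mem_image.2 ⟨p, (mem_Cl hη hpD).2 (conn_refl _ _), rfl⟩
    have hqX : bk l n q ∈ vis l n (Cl (Finset.Icc (fun k => a k - (t : ℤ))
        (fun k => b k + (t : ℤ))) η p) := by
      unfold vis
      exact Finset.mem_image.2 ⟨q, (mem_Cl hη hpD).2 hpq, rfl⟩
    have hub : ∀ k, al k ≤ bk l n p k ∧ bk l n p k ≤ be k := by
      intro k
      rw [hbk]
      have h1 : (a k - s + l) / N ≤ (p k + l) / N :=
        Int.ediv_le_ediv hN0 (by have := hp1 k; linarith)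
      have h2 : (p k + l) / N ≤ (b k + s + l) / N :=
        Int.ediv_le_ediv hN0 (by have := hp2 k; linarith)
      show (a k - s + l) / N - 3 ≤ (p k + l) / N ∧ (p k + l) / N ≤ (b k + s + l) / N + 3
      omega
    have hvb : ∃ k, bk l n q k ≤ al k - ((m + 1 : ℕ) : ℤ) ∨
        be k + ((m + 1 : ℕ) : ℤ) ≤ bk l n q k := by
      obtain ⟨k, hk | hk⟩ := hqk
      · refine ⟨k, Or.inl ?_⟩
        rw [hbk, hk]
        have h1 : (a k - t + l) / N ≤ (a k - s + l + -(m + 4) * N) / N :=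
          Int.ediv_le_ediv hN0 (by nlinarith)
        rw [Int.add_mul_ediv_right _ _ hN0.ne'] at h1
        show (a k - t + l) / N ≤ (a k - s + l) / N - 3 - ((m + 1 : ℕ) : ℤ)
        push_cast
        linarith
      · refine ⟨k, Or.inr ?_⟩
        rw [hbk, hk]
        have h1 : (b k + s + l + (m + 4) * N) / N ≤ (b k + t + l) / N :=
          Int.ediv_le_ediv hN0 (by nlinarith)
        rw [Int.add_mul_ediv_right _ _ hN0.ne'] at h1
        show (b k + s + l) / N + 3 + ((m + 1 : ℕ) : ℤ) ≤ (b k + t + l) / N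
        push_cast
        linarith
    obtain ⟨c, hc, U, hU1, hU2, hU3, hU4⟩ := fce_cross (τ := m + 1) (by omega) hX hpX hqX
      hub hvb
    exact ⟨c, hc, U, hU1, hU2, hU3, hU4⟩

end Pool.Agent.Fac
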