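import Pool.Agent.Fac.Fin
import Pool.Agent.Fac.Fce

/-!
# Block FAC: the face boxes in the form used in `fac_of` (helper83)
-/

set_option autoImplicit false

namespace Pool.Agent.Fac

open Pool.Agent.SRC (Vx Ed conn)

variable {d : ℕ}

theorem faces_ex (hd : 2 ≤ d) : ∀ l n h m : ℕ, 1 ≤ n → 1 ≤ h → h + 5 ≤ m → ∀ t : ℕ,
    3 * ((2 * l + 1) * n) * (m + 20) ≤ t → ∀ a b : Vx d, (∀ k, a k ≤ b k) →
      ∃ bs : List (BX d), Faces l n h m t a b bs := by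
  intro l n h m hn _ hm t ht a b hab
  obtain ⟨bs, h1, h2, h3, _, h4, h5⟩ := faces hd hn h m hm t ht a b hab
  exact ⟨bs, h1, h2, h3, h4, fun η hη p hp q hq hpq => h5 η hη p hp q hq.1 hq.2 hpq⟩

end Pool.Agent.Fac
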