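import Pool.Agent.Fac.Core
import Pool.Agent.Slb.Defs
import Pool.Agent.FK1.LuB

/-!
# Block FAC, the factorisation of correlations across a shell (helper61)

`Icc a b` product box, `PX a b s` its `s`-neighbourhood, `shE a b t` the edges of the shell of thickness `t`.
-/

set_option autoImplicit false

namespace Pool.Agent.Fac

open Finset
open Pool.Agent.SRC (Vx Ed tip bde bd edg conn ind fl uv ZZ loopM)
open Pool.Agent.FK1 (wB wF FF NN bdm ZA Inc SD)
open Pool.Agent.TC (spin cf)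

variable {d : ℕ}

/-- the neighbourhood of the box -/
noncomputable def PX (a b : Vx d) (s : ℕ) : Finset (Vx d) :=
  Finset.Icc (fun k => a k - (s : ℤ)) (fun k => b k + (s : ℤ))

/-- the edges of the shell of thickness `t` around the box -/
noncomputable def shE (a b : Vx d) (t : ℕ) : Finset (Ed d) := edg (PX a b t) \ edg (Finset.Icc a b)

/-- the outer faces -/
def Out (a b : Vx d) (t : ℕ) (v : Vx d) : Prop :=
  v ∈ PX a b t ∧ ∃ k, v k = a k - (t : ℤ) ∨ v k = b k + (t : ℤ)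

/-- the good event: at most one cluster meets `Icc a b` and the complement of `PX a b (t / 3)`, at most one
cluster meets the outer faces and `PX a b (2 * (t / 3))` -/
def GdE (a b : Vx d) (t : ℕ) (ω : Finset (Ed d)) : Prop :=
  (∀ p ∈ Finset.Icc a b, ∀ q ∈ Finset.Icc a b,
    (∃ y, y ∉ PX a b (t / 3) ∧ conn (↑ω : Set (Ed d)) p y) →
    (∃ y, y ∉ PX a b (t / 3) ∧ conn (↑ω : Set (Ed d)) q y) → conn (↑ω : Set (Ed d)) p q) ∧
  (∀ p q, Out a b t p → Out a b t q →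
    (∃ y ∈ PX a b (2 * (t / 3)), conn (↑ω : Set (Ed d)) p y) →
    (∃ y ∈ PX a b (2 * (t / 3)), conn (↑ω : Set (Ed d)) q y) → conn (↑ω : Set (Ed d)) p q)

/-- the source hypotheses: `A` inside, `S` on the outer faces, both boundaries of finite edge sets -/
structure Src (a b : Vx d) (t : ℕ) (A S : Vx d → ZMod 2) : Prop where
  hA : ∀ v, A v ≠ 0 → v ∈ Finset.Icc a b
  hS : ∀ v, S v ≠ 0 → Out a b t v
  pA : ∃ η : Finset (Ed d), bd η = A
  pS : ∃ η : Finset (Ed d), bd η = S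

/-! ## row f1: parities on the good event. `FK1.FF_bde_iff`: every cluster is even. A cluster which meets the
support of `A` and stays in `PX a b (t / 3)` meets neither `U` nor the support of `S`; the others are all the same
cluster, which is even for `A` because the total parity of `A` is even. The same for `S`. So `FF (A + S + s1 U)`
gives `FF A` and `FF S`, and then `FF (s1 U)`. Conversely `FF.add`. -/

/-! ## row f1: parities on the good event. `FK1.FF_bde_iff`: every cluster is even. A cluster which meets the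
support of `A` and stays in `PX a b (t / 3)` meets neither `U` nor the support of `S`; the others are all the same
cluster, which is even for `A` because the total parity of `A` is even. The same for `S`. So `FF (A + S + s1 U)`
gives `FF A` and `FF S`, and then `FF (s1 U)`. Conversely `FF.add`. -/

-- BEGIN f1
/-- the total parity of a boundary is even -/
private theorem f1_tot {B : Vx d → ZMod 2} {X : Finset (Vx d)} (hX : ∀ x, x ∉ X → B x = 0)
    (h : ∃ η : Finset (Ed d), bd η = B) : ∑ x ∈ X, B x = 0 := by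
  classical
  obtain ⟨η, rfl⟩ := h
  have h1 : ∑ x ∈ X, bd η x = ∑ x ∈ X ∪ Pool.Agent.FK1.ends η, bd η x :=
    Finset.sum_subset Finset.subset_union_left fun x _ hx => hX x hx
  rw [h1]
  exact Pool.Agent.FK1.sum_bd_eq_zero η η (Finset.Subset.refl η) _ fun e he =>
    ⟨fun _ => Finset.mem_union_right _ (Pool.Agent.FK1.mem_ends_right he),
      fun _ => Finset.mem_union_right _ (Pool.Agent.FK1.mem_ends_left he)⟩

private theorem f1_fl_congr {ω : Finset (Ed d)} {X : Finset (Vx d)} {u v : Vx d}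
    (h : conn (↑ω : Set (Ed d)) u v) :
    fl X (conn (↑ω : Set (Ed d)) u) = fl X (conn (↑ω : Set (Ed d)) v) := by
  ext x
  rw [Pool.Agent.SRC.mem_fl, Pool.Agent.SRC.mem_fl]
  exact ⟨fun hx => ⟨hx.1, Pool.Agent.SRC.conn_trans (Pool.Agent.SRC.conn_symm h) hx.2⟩,
    fun hx => ⟨hx.1, Pool.Agent.SRC.conn_trans h hx.2⟩⟩

/-- a cluster with odd parity contains a point of `B`, and the parity of its cluster is odd -/
private theorem f1_pt {ω : Finset (Ed d)} {B : Vx d → ZMod 2} {X : Finset (Vx d)} {u : Vx d}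
    (h : ∑ x ∈ fl X (conn (↑ω : Set (Ed d)) u), B x ≠ 0) :
    ∃ p, B p ≠ 0 ∧ conn (↑ω : Set (Ed d)) u p ∧
      ∑ x ∈ fl X (conn (↑ω : Set (Ed d)) p), B x ≠ 0 := by
  obtain ⟨p, hp, hBp⟩ := Finset.exists_ne_zero_of_sum_ne_zero h
  rw [Pool.Agent.SRC.mem_fl] at hp
  refine ⟨p, hBp, hp.2, ?_⟩
  rw [← f1_fl_congr hp.2]
  exact h

/-- if `B` is a boundary and all odd clusters are equal then all clusters are even -/
private theorem f1_odd {ω : Finset (Ed d)} {B : Vx d → ZMod 2} {X : Finset (Vx d)}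
    (hX : ∀ x, x ∉ X → B x = 0) (htot : ∃ η : Finset (Ed d), bd η = B)
    (h : ∀ p q, B p ≠ 0 → B q ≠ 0 → ∑ x ∈ fl X (conn (↑ω : Set (Ed d)) p), B x ≠ 0 →
      ∑ x ∈ fl X (conn (↑ω : Set (Ed d)) q), B x ≠ 0 → conn (↑ω : Set (Ed d)) p q) :
    FF bde B ω := by
  classical
  rw [Pool.Agent.FK1.FF_bde_iff B X hX ω]
  intro u
  by_contra hu
  obtain ⟨p, hBp, hup, hp⟩ := f1_pt hu
  let B' : Vx d → ZMod 2 := fun x => if conn (↑ω : Set (Ed d)) u x then 0 else B x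
  have hX' : ∀ x, x ∉ X → B' x = 0 := by
    intro x hx
    show (if conn (↑ω : Set (Ed d)) u x then 0 else B x) = 0
    split_ifs
    · rfl
    · exact hX x hx
  have hF : FF bde B' ω := by
    rw [Pool.Agent.FK1.FF_bde_iff B' X hX' ω]
    intro v
    by_cases huv : conn (↑ω : Set (Ed d)) u v
    · refine Finset.sum_eq_zero fun x hx => ?_
      rw [Pool.Agent.SRC.mem_fl] at hx
      exact if_pos (Pool.Agent.SRC.conn_trans huv hx.2)
    · have h1 : ∑ x ∈ fl X (conn (↑ω : Set (Ed d)) v), B' x =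
          ∑ x ∈ fl X (conn (↑ω : Set (Ed d)) v), B x := by
        refine Finset.sum_congr rfl fun x hx => ?_
        rw [Pool.Agent.SRC.mem_fl] at hx
        exact if_neg fun h2 => huv (Pool.Agent.SRC.conn_trans h2 (Pool.Agent.SRC.conn_symm hx.2))
      rw [h1]
      by_contra hv
      obtain ⟨q, hBq, hvq, hq⟩ := f1_pt hv
      exact huv (Pool.Agent.SRC.conn_trans hup (Pool.Agent.SRC.conn_trans (h p q hBp hBq hp hq)
        (Pool.Agent.SRC.conn_symm hvq)))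
  obtain ⟨η, _, hη⟩ := hF
  have h2 : ∑ x ∈ X, B' x = 0 := f1_tot hX' ⟨η, hη⟩
  have h3 : ∑ x ∈ X, B x = 0 := f1_tot hX htot
  have h4 : ∑ x ∈ X, B x = ∑ x ∈ fl X (conn (↑ω : Set (Ed d)) u), B x + ∑ x ∈ X, B' x := by
    have h5 : fl X (conn (↑ω : Set (Ed d)) u) = X.filter (conn (↑ω : Set (Ed d)) u) := by
      ext x
      rw [Pool.Agent.SRC.mem_fl, Finset.mem_filter]
    rw [h5, Finset.sum_filter, ← Finset.sum_add_distrib]
    refine Finset.sum_congr rfl fun x _ => ?_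
    show B x = (if conn (↑ω : Set (Ed d)) u x then B x else 0) +
      (if conn (↑ω : Set (Ed d)) u x then 0 else B x)
    split_ifs
    · rw [add_zero]
    · rw [zero_add]
  rw [h3, h2, add_zero] at h4
  exact hu h4.symm

private theorem f1_mem {a b : Vx d} {s : ℕ} {x : Vx d} :
    x ∈ PX a b s ↔ ∀ k, a k - (s : ℤ) ≤ x k ∧ x k ≤ b k + (s : ℤ) := by
  rw [PX, Finset.mem_Icc]
  exact ⟨fun h k => ⟨h.1 k, h.2 k⟩, fun h => ⟨fun k => (h k).1, fun k => (h k).2⟩⟩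

private theorem f1_mono {a b : Vx d} {s s' : ℕ} (h : s ≤ s') : PX a b s ⊆ PX a b s' := by
  intro x hx
  rw [f1_mem] at hx ⊢
  intro k
  have h1 := hx k
  omega

private theorem f1_icc {a b : Vx d} (s : ℕ) : Finset.Icc a b ⊆ PX a b s := by
  intro x hx
  rw [Finset.mem_Icc] at hx
  rw [f1_mem]
  intro k
  have h1 : a k ≤ x k := hx.1 k
  have h2 : x k ≤ b k := hx.2 k
  omega

theorem par {a b : Vx d} {t : ℕ} (ht : 3 ≤ t) {A S : Vx d → ZMod 2} (h : Src a b t A S)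
    {U : Finset (Vx d)} (hU : U ⊆ PX a b (2 * (t / 3)) \ PX a b (t / 3)) {ω : Finset (Ed d)}
    (hω : ω ⊆ shE a b t) (hG : GdE a b t ω) :
    FF bde (A + S + s1 U) ω ↔ (FF bde A ω ∧ FF bde S ω) ∧ FF bde (s1 U) ω := by
  classical
  constructor
  · intro hF
    have hXA : ∀ x, x ∉ PX a b t → A x = 0 := by
      intro x hx
      by_contra h1
      exact hx (f1_icc t (h.hA x h1))
    have hXS : ∀ x, x ∉ PX a b t → S x = 0 := by
      intro x hx
      by_contra h1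
      exact hx (h.hS x h1).1
    have hXU : ∀ x, x ∉ PX a b t → s1 U x = 0 := by
      intro x hx
      refine if_neg fun h1 => hx ?_
      have h2 := Finset.mem_sdiff.1 (hU h1)
      exact f1_mono (by omega) h2.1
    have hX : ∀ x, x ∉ PX a b t → (A + S + s1 U) x = 0 := by
      intro x hx
      rw [Pi.add_apply, Pi.add_apply, hXA x hx, hXS x hx, hXU x hx]
      rfl
    have hsum := (Pool.Agent.FK1.FF_bde_iff _ (PX a b t) hX ω).1 hF
    have hsum' : ∀ u, ∑ x ∈ fl (PX a b t) (conn (↑ω : Set (Ed d)) u), A x +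
        ∑ x ∈ fl (PX a b t) (conn (↑ω : Set (Ed d)) u), S x +
        ∑ x ∈ fl (PX a b t) (conn (↑ω : Set (Ed d)) u), s1 U x = 0 := by
      intro u
      rw [← hsum u, ← Finset.sum_add_distrib, ← Finset.sum_add_distrib]
      rfl
    have hA : FF bde A ω := by
      refine f1_odd hXA h.pA ?_
      have key : ∀ p, ∑ x ∈ fl (PX a b t) (conn (↑ω : Set (Ed d)) p), A x ≠ 0 →
          ∃ y, y ∉ PX a b (t / 3) ∧ conn (↑ω : Set (Ed d)) p y := by
        intro p hp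
        by_contra hcon
        push Not at hcon
        refine hp ?_
        have h1 : ∑ x ∈ fl (PX a b t) (conn (↑ω : Set (Ed d)) p), S x = 0 := by
          refine Finset.sum_eq_zero fun x hx => ?_
          rw [Pool.Agent.SRC.mem_fl] at hx
          by_contra h2
          obtain ⟨_, k, hk⟩ := h.hS x h2
          refine hcon x ?_ hx.2
          intro h3
          have h4 := (f1_mem.1 h3) k
          rcases hk with hk | hk
          · omega
          · omega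
        have h2 : ∑ x ∈ fl (PX a b t) (conn (↑ω : Set (Ed d)) p), s1 U x = 0 := by
          refine Finset.sum_eq_zero fun x hx => ?_
          rw [Pool.Agent.SRC.mem_fl] at hx
          refine if_neg fun h3 => hcon x ?_ hx.2
          exact (Finset.mem_sdiff.1 (hU h3)).2
        have h3 := hsum' p
        rw [h1, h2, add_zero, add_zero] at h3
        exact h3
      intro p q hp hq hp1 hq1
      exact hG.1 p (h.hA p hp) q (h.hA q hq) (key p hp1) (key q hq1)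
    have hS : FF bde S ω := by
      refine f1_odd hXS h.pS ?_
      have key : ∀ p, ∑ x ∈ fl (PX a b t) (conn (↑ω : Set (Ed d)) p), S x ≠ 0 →
          ∃ y ∈ PX a b (2 * (t / 3)), conn (↑ω : Set (Ed d)) p y := by
        intro p hp
        by_contra hcon
        push Not at hcon
        refine hp ?_
        have h1 : ∑ x ∈ fl (PX a b t) (conn (↑ω : Set (Ed d)) p), A x = 0 := by
          refine Finset.sum_eq_zero fun x hx => ?_
          rw [Pool.Agent.SRC.mem_fl] at hx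
          by_contra h2
          exact hcon x (f1_icc _ (h.hA x h2)) hx.2
        have h2 : ∑ x ∈ fl (PX a b t) (conn (↑ω : Set (Ed d)) p), s1 U x = 0 := by
          refine Finset.sum_eq_zero fun x hx => ?_
          rw [Pool.Agent.SRC.mem_fl] at hx
          exact if_neg fun h3 => hcon x (Finset.mem_sdiff.1 (hU h3)).1 hx.2
        have h3 := hsum' p
        rw [h1, h2, add_zero, zero_add] at h3
        exact h3
      intro p q hp hq hp1 hq1
      exact hG.2 p q (h.hS p hp) (h.hS q hq) (key p hp1) (key q hq1)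
    refine ⟨⟨hA, hS⟩, ?_⟩
    have h1 := Pool.Agent.FK1.FF.add Pool.Agent.FK1.two_fun
      (Pool.Agent.FK1.FF.add Pool.Agent.FK1.two_fun hF hA) hS
    have h2 : A + S + s1 U + A + S = s1 U := by
      have h3 := Pool.Agent.FK1.two_fun A
      have h4 := Pool.Agent.FK1.two_fun S
      calc A + S + s1 U + A + S = (A + A) + (S + S) + s1 U := by abel
        _ = s1 U := by rw [h3, h4, add_zero, zero_add]
    rwa [h2] at h1
  · rintro ⟨⟨hA, hS⟩, hU'⟩
    exact Pool.Agent.FK1.FF.add Pool.Agent.FK1.two_fun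
      (Pool.Agent.FK1.FF.add Pool.Agent.FK1.two_fun hA hS) hU'
-- END f1

/-! ## row f2: the good event has high probability: `LU_out` from the box `PX a b (t / 6)`, `LU_in` from the box
`PX a b (2 * (t / 3))`, `SHELLP` (aspect ratio at most `3 * M + 100`), union bound over the pairs `p, q`. -/

/-! ## row f2: the good event has high probability: `LU_out` from the box `PX a b (t / 6)`, `LU_in` from the box
`PX a b (2 * (t / 3))`, `SHELLP` (aspect ratio at most `3 * M + 100`), union bound over the pairs `p, q`. -/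

-- BEGIN f2
private theorem f2_mem_PX {a b x : Vx d} {s : ℕ} :
    x ∈ PX a b s ↔ ∀ k, a k - (s : ℤ) ≤ x k ∧ x k ≤ b k + (s : ℤ) := by
  unfold PX
  rw [Finset.mem_Icc]
  exact ⟨fun h k => ⟨h.1 k, h.2 k⟩, fun h => ⟨fun k => (h k).1, fun k => (h k).2⟩⟩

private theorem f2_BX (a b : Vx d) (s m : ℕ) :
    FK1.BX (fun k => a k - (s : ℤ)) (fun k => b k + (s : ℤ)) m = PX a b (s + m) := by
  ext x
  rw [FK1.mem_BX, f2_mem_PX]
  refine forall_congr' fun k => ?_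
  push_cast
  constructor
  · rintro ⟨h1, h2⟩
    exact ⟨by linarith, by linarith⟩
  · rintro ⟨h1, h2⟩
    exact ⟨by linarith, by linarith⟩

private theorem f2_PX_mono (a b : Vx d) {s t : ℕ} (h : s ≤ t) : PX a b s ⊆ PX a b t := by
  intro x hx
  rw [f2_mem_PX] at hx ⊢
  intro k
  have h1 := hx k
  have h3 : (s : ℤ) ≤ t := by exact_mod_cast h
  exact ⟨by linarith [h1.1], by linarith [h1.2]⟩

private theorem f2_mem_Icc {a b x : Vx d} (hx : x ∈ Finset.Icc a b) (s : ℕ) : x ∈ PX a b s := by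
  rw [Finset.mem_Icc] at hx
  rw [f2_mem_PX]
  intro k
  have h1 := hx.1 k
  have h2 := hx.2 k
  have h3 : (0 : ℤ) ≤ s := Int.natCast_nonneg s
  exact ⟨by linarith, by linarith⟩

private theorem f2_mem_ShB {a b x : Vx d} {s K j : ℕ} :
    x ∈ FK1.ShB (fun k => a k - (s : ℤ)) (fun k => b k + (s : ℤ)) K j ↔
      x ∈ PX a b (s + (j + 1) * K) ∧ x ∉ PX a b (s + j * K) := by
  rw [FK1.mem_ShB, f2_BX, f2_BX]

private theorem f2_shell {β c : ℝ} {K M' : ℕ}
    (hS : ∀ (a b : Vx d) (L : ℕ), K ≤ L →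
      (∀ k, (L : ℤ) ≤ b k - a k ∧ b k - a k ≤ (M' : ℤ) * L) →
      ∀ x ∈ Finset.Icc (fun k => a k - (K : ℤ)) (fun k => b k + (K : ℤ)) \ Finset.Icc a b,
      ∀ y ∈ Finset.Icc (fun k => a k - (K : ℤ)) (fun k => b k + (K : ℤ)) \ Finset.Icc a b,
        c ≤ cf (Finset.Icc (fun k => a k - (K : ℤ)) (fun k => b k + (K : ℤ)) \ Finset.Icc a b) β x y)
    {a b : Vx d} {s : ℕ} (j L : ℕ) (hL : K ≤ L)
    (h : ∀ k, (L : ℤ) ≤ (b k - a k) + 2 * ((s + j * K : ℕ) : ℤ) ∧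
      (b k - a k) + 2 * ((s + j * K : ℕ) : ℤ) ≤ (M' : ℤ) * L) :
    ∀ p ∈ FK1.ShB (fun k => a k - (s : ℤ)) (fun k => b k + (s : ℤ)) K j,
    ∀ q ∈ FK1.ShB (fun k => a k - (s : ℤ)) (fun k => b k + (s : ℤ)) K j,
      c ≤ cf (FK1.ShB (fun k => a k - (s : ℤ)) (fun k => b k + (s : ℤ)) K j) β p q := by
  set a' : Vx d := fun k => a k - ((s + j * K : ℕ) : ℤ) with ha'
  set b' : Vx d := fun k => b k + ((s + j * K : ℕ) : ℤ) with hb'
  have e1 : FK1.ShB (fun k => a k - (s : ℤ)) (fun k => b k + (s : ℤ)) K j =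
      Finset.Icc (fun k => a' k - (K : ℤ)) (fun k => b' k + (K : ℤ)) \ Finset.Icc a' b' := by
    ext x
    rw [f2_mem_ShB, Finset.mem_sdiff]
    have e2 : x ∈ PX a b (s + (j + 1) * K) ↔
        x ∈ Finset.Icc (fun k => a' k - (K : ℤ)) (fun k => b' k + (K : ℤ)) := by
      rw [f2_mem_PX, Finset.mem_Icc]
      constructor
      · intro h1
        refine ⟨fun k => ?_, fun k => ?_⟩
        · have h2 := (h1 k).1
          change a k - ((s + j * K : ℕ) : ℤ) - (K : ℤ) ≤ x k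
          push_cast at h2 ⊢
          linarith
        · have h2 := (h1 k).2
          change x k ≤ b k + ((s + j * K : ℕ) : ℤ) + (K : ℤ)
          push_cast at h2 ⊢
          linarith
      · rintro ⟨h1, h2⟩ k
        have h3 : a k - ((s + j * K : ℕ) : ℤ) - (K : ℤ) ≤ x k := h1 k
        have h4 : x k ≤ b k + ((s + j * K : ℕ) : ℤ) + (K : ℤ) := h2 k
        push_cast at h3 h4 ⊢
        exact ⟨by linarith, by linarith⟩
    have e3 : x ∈ PX a b (s + j * K) ↔ x ∈ Finset.Icc a' b' := Iff.rfl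
    rw [e2, e3]
  rw [e1]
  refine hS a' b' L hL fun k => ?_
  have h1 := h k
  have h2 : b' k - a' k = (b k - a k) + 2 * ((s + j * K : ℕ) : ℤ) := by
    change (b k + ((s + j * K : ℕ) : ℤ)) - (a k - ((s + j * K : ℕ) : ℤ)) = _
    ring
  rw [h2]
  exact h1

private theorem f2_edg {a b : Vx d} {s t K j : ℕ} (h : s + (j + 1) * K ≤ t) :
    edg (FK1.ShB (fun k => a k - (s : ℤ)) (fun k => b k + (s : ℤ)) K j) ⊆ shE a b t := by
  intro e he
  rw [SRC.mem_edg, f2_mem_ShB, f2_mem_ShB] at he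
  unfold shE
  rw [Finset.mem_sdiff, SRC.mem_edg, SRC.mem_edg]
  exact ⟨⟨f2_PX_mono a b h he.1.1, f2_PX_mono a b h he.2.1⟩,
    fun h1 => he.1.2 (f2_mem_Icc h1.1 _)⟩

private theorem f2_sum {x : ℝ} {E : Finset (Ed d)} {B : Vx d → ZMod 2} {D : Finset (Vx d)}
    (F : Vx d → Vx d → Finset (Ed d) → ℝ) {r : ℝ}
    (h : ∀ p ∈ D, ∀ q ∈ D, FW x E B (F p q) ≤ r * FW x E B (fun _ => 1)) :
    FW x E B (fun ω => ∑ p ∈ D, ∑ q ∈ D, F p q ω) ≤
      (D.card : ℝ) ^ 2 * r * FW x E B (fun _ => 1) := by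
  have e1 : FW x E B (fun ω => ∑ p ∈ D, ∑ q ∈ D, F p q ω) =
      ∑ p ∈ D, ∑ q ∈ D, FW x E B (F p q) := by
    unfold FW
    have e2 : ∀ p ∈ D, ∑ q ∈ D, ∑ ω ∈ E.powerset,
        wF bde (fun _ => x) E ω * ind (FF bde B ω) * F p q ω =
        ∑ ω ∈ E.powerset, ∑ q ∈ D, wF bde (fun _ => x) E ω * ind (FF bde B ω) * F p q ω :=
      fun p _ => Finset.sum_comm
    rw [Finset.sum_congr rfl e2, Finset.sum_comm]
    refine Finset.sum_congr rfl fun ω _ => ?_
    rw [Finset.mul_sum]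
    refine Finset.sum_congr rfl fun p _ => ?_
    rw [Finset.mul_sum]
  rw [e1]
  refine (Finset.sum_le_sum fun p hp => Finset.sum_le_sum fun q hq => h p hp q hq).trans
    (le_of_eq ?_)
  rw [Finset.sum_const, Finset.sum_const, nsmul_eq_mul, nsmul_eq_mul]
  ring

theorem good_bound {β : ℝ} (hβ : 0 < β) (hS : Pool.Agent.Slb.SHELLP d β) (M : ℕ) :
    ∃ c : ℝ, 0 < c ∧ c ≤ 1 ∧ ∃ K t0 : ℕ, 1 ≤ K ∧ 3 ≤ t0 ∧ ∀ t : ℕ, t0 ≤ t → ∀ a b : Vx d,
      (∀ k, a k ≤ b k ∧ b k - a k ≤ (M : ℤ) * t) → ∀ B : Vx d → ZMod 2,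
      FW (Real.tanh β) (shE a b t) B (fun ω => ind (¬ GdE a b t ω)) ≤
        2 * ((PX a b t).card : ℝ) ^ 2 * (1 - c) ^ (t / (8 * K)) *
          FW (Real.tanh β) (shE a b t) B (fun _ => 1) := by
  obtain ⟨K, hK, hS⟩ := hS
  obtain ⟨c, hc, hS⟩ := hS (4 * (M + 2))
  refine ⟨min c 1, lt_min hc one_pos, min_le_right _ _, K, 24 + 6 * K, by omega, by omega, ?_⟩
  intro t ht a b hab B
  have hc1 : min c 1 ≤ 1 := min_le_right _ _
  have hS' : ∀ (a b : Vx d) (L : ℕ), K ≤ L →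
      (∀ k, (L : ℤ) ≤ b k - a k ∧ b k - a k ≤ ((4 * (M + 2) : ℕ) : ℤ) * L) →
      ∀ x ∈ Finset.Icc (fun k => a k - (K : ℤ)) (fun k => b k + (K : ℤ)) \ Finset.Icc a b,
      ∀ y ∈ Finset.Icc (fun k => a k - (K : ℤ)) (fun k => b k + (K : ℤ)) \ Finset.Icc a b,
        min c 1 ≤ cf (Finset.Icc (fun k => a k - (K : ℤ)) (fun k => b k + (K : ℤ)) \
          Finset.Icc a b) β x y := fun a b L hL h x hx y hy =>
    (min_le_left c 1).trans (hS a b L hL h x hx y hy)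
  have hx0 : 0 ≤ Real.tanh β := (FK1.tanh_pos' hβ).le
  have hx1 : Real.tanh β ≤ 1 := (FK1.tanh_lt_one' β).le
  set k : ℕ := t / (8 * K) with hk
  have hkK : 8 * (k * K) ≤ t := by
    have h1 : t / (8 * K) * (8 * K) ≤ t := Nat.div_mul_le_self t (8 * K)
    rw [← hk] at h1
    calc 8 * (k * K) = k * (8 * K) := by ring
      _ ≤ t := h1
  have hL : K ≤ 2 * (t / 6) := by omega
  have hjK : ∀ j, j < k → j * K ≤ k * K := fun j hj => Nat.mul_le_mul_right K hj.le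
  have hjK1 : ∀ j, j < k → (j + 1) * K ≤ k * K := fun j hj => Nat.mul_le_mul_right K hj
  have hasp : ∀ s j, t / 6 ≤ s → s ≤ 2 * (t / 3) → j < k → ∀ i : Fin d,
      ((2 * (t / 6) : ℕ) : ℤ) ≤ (b i - a i) + 2 * ((s + j * K : ℕ) : ℤ) ∧
      (b i - a i) + 2 * ((s + j * K : ℕ) : ℤ) ≤ ((4 * (M + 2) : ℕ) : ℤ) * ((2 * (t / 6) : ℕ) : ℤ) := by
    intro s j hs1 hs2 hj i
    have h1 := hab i
    have h2 := hjK j hj
    have h3 : s + j * K ≤ t := by omega
    have h4 : t ≤ 4 * (2 * (t / 6)) := by omega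
    have h4' : (t : ℤ) ≤ 4 * ((2 * (t / 6) : ℕ) : ℤ) := by exact_mod_cast h4
    have h3' : ((s + j * K : ℕ) : ℤ) ≤ t := by exact_mod_cast h3
    have h5 : ((2 * (t / 6) : ℕ) : ℤ) ≤ 2 * ((s + j * K : ℕ) : ℤ) := by
      have : 2 * (t / 6) ≤ 2 * (s + j * K) := by omega
      exact_mod_cast this
    refine ⟨by linarith, ?_⟩
    have h6 : ((4 * (M + 2) : ℕ) : ℤ) * ((2 * (t / 6) : ℕ) : ℤ) =
        ((M : ℤ) + 2) * (4 * ((2 * (t / 6) : ℕ) : ℤ)) := by
      push_cast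
      ring
    rw [h6]
    have h7 : ((M : ℤ) + 2) * (t : ℤ) ≤ ((M : ℤ) + 2) * (4 * ((2 * (t / 6) : ℕ) : ℤ)) :=
      mul_le_mul_of_nonneg_left h4' (by positivity)
    nlinarith
  -- the two families of events
  set F1 : Vx d → Vx d → Finset (Ed d) → ℝ := fun p q ω =>
    ind (p ∈ Finset.Icc a b ∧ q ∈ Finset.Icc a b ∧
      (∃ y, y ∉ PX a b (t / 6 + k * K) ∧ conn (↑ω : Set (Ed d)) p y) ∧
      (∃ y, y ∉ PX a b (t / 6 + k * K) ∧ conn (↑ω : Set (Ed d)) q y) ∧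
      ¬ conn (↑ω : Set (Ed d)) p q) with hF1
  set F2 : Vx d → Vx d → Finset (Ed d) → ℝ := fun p q ω =>
    ind (p ∉ PX a b (2 * (t / 3) + k * K) ∧ q ∉ PX a b (2 * (t / 3) + k * K) ∧
      (∃ y ∈ PX a b (2 * (t / 3)), conn (↑ω : Set (Ed d)) p y) ∧
      (∃ y ∈ PX a b (2 * (t / 3)), conn (↑ω : Set (Ed d)) q y) ∧
      ¬ conn (↑ω : Set (Ed d)) p q) with hF2
  have hFW1 : 0 ≤ FW (Real.tanh β) (shE a b t) B (fun _ => 1) := by
    unfold FW
    refine Finset.sum_nonneg fun ω hω => ?_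
    exact mul_nonneg (mul_nonneg (FK1.wF_nonneg (fun _ _ => hx0) (fun _ _ => hx1)
      (Finset.mem_powerset.1 hω)) (SRC.ind_nonneg _)) zero_le_one
  have hone : FW (Real.tanh β) (shE a b t) B (fun _ => 1) = ∑ ω ∈ (shE a b t).powerset,
      wF bde (fun _ => Real.tanh β) (shE a b t) ω * ind (FF bde B ω) := by
    unfold FW
    exact Finset.sum_congr rfl fun ω _ => mul_one _
  have hr : 0 ≤ (1 - min c 1) ^ k * FW (Real.tanh β) (shE a b t) B (fun _ => 1) :=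
    mul_nonneg (pow_nonneg (by linarith) _) hFW1
  have hzero : ∀ P : Finset (Ed d) → Prop, (∀ ω, ¬ P ω) →
      FW (Real.tanh β) (shE a b t) B (fun ω => ind (P ω)) = 0 := by
    intro P hP
    unfold FW
    refine Finset.sum_eq_zero fun ω _ => ?_
    change _ * ind (P ω) = 0
    rw [SRC.ind_false (hP ω), mul_zero]
  have b1 : ∀ p ∈ PX a b t, ∀ q ∈ PX a b t, FW (Real.tanh β) (shE a b t) B (F1 p q) ≤
      (1 - min c 1) ^ k * FW (Real.tanh β) (shE a b t) B (fun _ => 1) := by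
    intro p _ q _
    by_cases hpq : p ∈ Finset.Icc a b ∧ q ∈ Finset.Icc a b
    · have h1 := FK1.LU_out hβ (E := shE a b t) B (fun i => a i - ((t / 6 : ℕ) : ℤ))
        (fun i => b i + ((t / 6 : ℕ) : ℤ)) (K := K) (by omega) k
        (fun j hj => f2_edg (by
          have := hjK1 j hj
          omega)) (min c 1) hc1
        (fun j hj => f2_shell hS' j (2 * (t / 6)) hL (hasp (t / 6) j (le_refl _) (by omega) hj))
        p q (by rw [f2_BX]; exact f2_mem_Icc hpq.1 _) (by rw [f2_BX]; exact f2_mem_Icc hpq.2 _)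
      rw [hone]
      refine le_trans (le_of_eq ?_) h1
      unfold FW
      refine Finset.sum_congr rfl fun ω _ => ?_
      congr 1
      refine SRC.ind_congr ?_
      rw [f2_BX]
      exact ⟨fun h => h.2.2, fun h => ⟨hpq.1, hpq.2, h⟩⟩
    · rw [hzero _ fun ω h => hpq ⟨h.1, h.2.1⟩]
      exact hr
  have b2 : ∀ p ∈ PX a b t, ∀ q ∈ PX a b t, FW (Real.tanh β) (shE a b t) B (F2 p q) ≤
      (1 - min c 1) ^ k * FW (Real.tanh β) (shE a b t) B (fun _ => 1) := by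
    intro p _ q _
    by_cases hpq : p ∉ PX a b (2 * (t / 3) + k * K) ∧ q ∉ PX a b (2 * (t / 3) + k * K)
    · have h1 := FK1.LU_in hβ (E := shE a b t) B (fun i => a i - ((2 * (t / 3) : ℕ) : ℤ))
        (fun i => b i + ((2 * (t / 3) : ℕ) : ℤ)) (K := K) (by omega) k
        (fun j hj => f2_edg (by
          have := hjK1 j hj
          omega)) (min c 1) hc1
        (fun j hj => f2_shell hS' j (2 * (t / 6)) hL
          (hasp (2 * (t / 3)) j (by omega) (le_refl _) hj))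
        p q (by rw [f2_BX]; exact hpq.1) (by rw [f2_BX]; exact hpq.2)
      rw [hone]
      refine le_trans (le_of_eq ?_) h1
      unfold FW
      refine Finset.sum_congr rfl fun ω _ => ?_
      congr 1
      refine SRC.ind_congr ?_
      rw [f2_BX, Nat.add_zero]
      exact ⟨fun h => h.2.2, fun h => ⟨hpq.1, hpq.2, h⟩⟩
    · rw [hzero _ fun ω h => hpq ⟨h.1, h.2.1⟩]
      exact hr
  have hmain : FW (Real.tanh β) (shE a b t) B (fun ω => ind (¬ GdE a b t ω)) ≤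
      FW (Real.tanh β) (shE a b t) B (fun ω => ∑ p ∈ PX a b t, ∑ q ∈ PX a b t, F1 p q ω) +
      FW (Real.tanh β) (shE a b t) B (fun ω => ∑ p ∈ PX a b t, ∑ q ∈ PX a b t, F2 p q ω) := by
    have e1 : FW (Real.tanh β) (shE a b t) B (fun ω => ∑ p ∈ PX a b t, ∑ q ∈ PX a b t, F1 p q ω) +
        FW (Real.tanh β) (shE a b t) B (fun ω => ∑ p ∈ PX a b t, ∑ q ∈ PX a b t, F2 p q ω) =
        FW (Real.tanh β) (shE a b t) B (fun ω => ∑ p ∈ PX a b t, ∑ q ∈ PX a b t, F1 p q ω +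
          ∑ p ∈ PX a b t, ∑ q ∈ PX a b t, F2 p q ω) := by
      unfold FW
      rw [← Finset.sum_add_distrib]
      exact Finset.sum_congr rfl fun ω _ => (mul_add _ _ _).symm
    rw [e1]
    refine FW_mono hx0 hx1 _ _ fun ω _ _ => ?_
    have n1 : ∀ p ∈ PX a b t, ∀ q ∈ PX a b t, 0 ≤ F1 p q ω := fun p _ q _ => SRC.ind_nonneg _
    have n2 : ∀ p ∈ PX a b t, ∀ q ∈ PX a b t, 0 ≤ F2 p q ω := fun p _ q _ => SRC.ind_nonneg _
    have N1 : 0 ≤ ∑ p ∈ PX a b t, ∑ q ∈ PX a b t, F1 p q ω :=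
      Finset.sum_nonneg fun p hp => Finset.sum_nonneg fun q hq => n1 p hp q hq
    have N2 : 0 ≤ ∑ p ∈ PX a b t, ∑ q ∈ PX a b t, F2 p q ω :=
      Finset.sum_nonneg fun p hp => Finset.sum_nonneg fun q hq => n2 p hp q hq
    by_cases hG : GdE a b t ω
    · rw [SRC.ind_false (not_not.2 hG)]
      exact add_nonneg N1 N2
    · rw [SRC.ind_true hG]
      unfold GdE at hG
      rw [not_and_or] at hG
      rcases hG with hG | hG
      · push Not at hG
        obtain ⟨p, hp, q, hq, ⟨y, hy, hpy⟩, ⟨z, hz, hqz⟩, hn⟩ := hG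
        have hsub : PX a b (t / 6 + k * K) ⊆ PX a b (t / 3) := f2_PX_mono a b (by omega)
        have e2 : F1 p q ω = 1 := SRC.ind_true ⟨hp, hq, ⟨y, fun h => hy (hsub h), hpy⟩,
          ⟨z, fun h => hz (hsub h), hqz⟩, hn⟩
        have h2 : F1 p q ω ≤ ∑ q ∈ PX a b t, F1 p q ω :=
          Finset.single_le_sum (f := fun q => F1 p q ω) (fun q hq => n1 p (f2_mem_Icc hp t) q hq)
            (f2_mem_Icc hq t)
        have h3 : ∑ q ∈ PX a b t, F1 p q ω ≤ ∑ p ∈ PX a b t, ∑ q ∈ PX a b t, F1 p q ω :=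
          Finset.single_le_sum (f := fun p => ∑ q ∈ PX a b t, F1 p q ω)
            (fun p hp => Finset.sum_nonneg fun q hq => n1 p hp q hq) (f2_mem_Icc hp t)
        linarith
      · push Not at hG
        obtain ⟨p, q, hp, hq, ⟨y, hy, hpy⟩, ⟨z, hz, hqz⟩, hn⟩ := hG
        have hout : ∀ v, Out a b t v → v ∉ PX a b (2 * (t / 3) + k * K) := by
          rintro v ⟨-, i, hi⟩ hv
          rw [f2_mem_PX] at hv
          have h4 := hv i
          have h5 : 2 * (t / 3) + k * K < t := by omega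
          have h6 : ((2 * (t / 3) + k * K : ℕ) : ℤ) < t := by exact_mod_cast h5
          have h7 := hab i
          rcases hi with hi | hi
          · linarith [h4.1]
          · linarith [h4.2]
        have e2 : F2 p q ω = 1 := SRC.ind_true ⟨hout p hp, hout q hq, ⟨y, hy, hpy⟩,
          ⟨z, hz, hqz⟩, hn⟩
        have h2 : F2 p q ω ≤ ∑ q ∈ PX a b t, F2 p q ω :=
          Finset.single_le_sum (f := fun q => F2 p q ω) (fun q hq => n2 p hp.1 q hq) hq.1
        have h3 : ∑ q ∈ PX a b t, F2 p q ω ≤ ∑ p ∈ PX a b t, ∑ q ∈ PX a b t, F2 p q ω :=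
          Finset.single_le_sum (f := fun p => ∑ q ∈ PX a b t, F2 p q ω)
            (fun p hp => Finset.sum_nonneg fun q hq => n2 p hp q hq) hp.1
        linarith
  have c1 := f2_sum F1 b1
  have c2 := f2_sum F2 b2
  calc FW (Real.tanh β) (shE a b t) B (fun ω => ind (¬ GdE a b t ω)) ≤ _ := hmain
    _ ≤ ((PX a b t).card : ℝ) ^ 2 * (1 - min c 1) ^ k *
          FW (Real.tanh β) (shE a b t) B (fun _ => 1) +
        ((PX a b t).card : ℝ) ^ 2 * (1 - min c 1) ^ k *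
          FW (Real.tanh β) (shE a b t) B (fun _ => 1) := add_le_add c1 c2
    _ = _ := by ring
-- END f2

/-! ## row f3: `One` gives the parity event. If `FF S m` fails some cluster of `m` is odd for `S`
(`FF_bde_iff`), and as the total parity is even there is one which does not contain `u`. The loops `η1` have
sources `A + S`; inside this cluster some cluster of `η1` is odd for `S`, hence odd for `A` (it is even for
`A + S`), so it joins a point of `Icc a b` to the outer faces; the cluster of `η1 ∪ η2` crosses, so it is joined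
to `u`: contradiction. -/

/-! ## row f3: `One` gives the parity event. If `FF S m` fails some cluster of `m` is odd for `S`
(`FF_bde_iff`), and as the total parity is even there is one which does not contain `u`. The loops `η1` have
sources `A + S`; inside this cluster some cluster of `η1` is odd for `S`, hence odd for `A` (it is even for
`A + S`), so it joins a point of `Icc a b` to the outer faces; the cluster of `η1 ∪ η2` crosses, so it is joined
to `u`: contradiction. -/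

-- BEGIN f3
private theorem f3_ends {a b : Vx d} {t : ℕ} {ω : Finset (Ed d)} (hω : ω ⊆ shE a b t) :
    EndsIn ω (PX a b t) := by
  intro e he
  have h := hω he
  unfold shE at h
  rw [Finset.mem_sdiff, SRC.mem_edg] at h
  exact h.1

private theorem f3_split (D : Finset (Vx d)) (P : Vx d → Prop) (S : Vx d → ZMod 2) :
    ∑ x ∈ D, S x = ∑ x ∈ fl D P, S x + ∑ x ∈ fl D (fun x => ¬ P x), S x := by
  classical
  have h1 : fl D P ∪ fl D (fun x => ¬ P x) = D := by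
    ext x
    rw [Finset.mem_union, SRC.mem_fl, SRC.mem_fl]
    tauto
  have h2 : Disjoint (fl D P) (fl D (fun x => ¬ P x)) := by
    rw [Finset.disjoint_left]
    intro x hx hx'
    rw [SRC.mem_fl] at hx hx'
    exact hx'.2 hx.2
  rw [← Finset.sum_union h2, h1]

private theorem f3_total {S : Vx d → ZMod 2} {D : Finset (Vx d)} (hS : ∀ x, x ∉ D → S x = 0)
    {η : Finset (Ed d)} (h : bd η = S) : ∑ x ∈ D, S x = 0 := by
  classical
  have h1 : ∑ x ∈ D ∪ FK1.ends η, S x = 0 := by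
    rw [← h]
    exact FK1.sum_bd_eq_zero η η (Finset.Subset.refl _) _
      (fun e he => ⟨fun _ => Finset.mem_union_right _ (FK1.mem_ends_right he),
        fun _ => Finset.mem_union_right _ (FK1.mem_ends_left he)⟩)
  rw [← h1]
  exact Finset.sum_subset Finset.subset_union_left (fun x _ hx => hS x hx)

theorem FF_of_one {a b : Vx d} {t l n m : ℕ} (hab : ∀ k, a k ≤ b k) (ht : 1 ≤ t)
    {bs : List (BX d)}
    (hcr : ∀ η : Finset (Ed d), EndsIn η (PX a b t) → ∀ p ∈ Finset.Icc a b, ∀ q, Out a b t q →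
      conn (↑η : Set (Ed d)) p q → Crs l n m bs (Cl (PX a b t) η p))
    {A S : Vx d → ZMod 2} (h : Src a b t A S) {η1 η2 c : Finset (Ed d)}
    (h1 : η1 ⊆ shE a b t) (h2 : η2 ⊆ shE a b t) (h3 : c ⊆ shE a b t)
    (hb1 : bd η1 = A + S) (hone : One (PX a b t) l n m bs η1 η2 c) :
    FF bde S (η1 ∪ η2 ∪ c) := by
  classical
  have hωs : η1 ∪ η2 ∪ c ⊆ shE a b t := Finset.union_subset (Finset.union_subset h1 h2) h3
  have h12 : EndsIn (η1 ∪ η2) (PX a b t) := f3_ends (Finset.union_subset h1 h2)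
  obtain ⟨u, hu, hone⟩ := hone
  have h1ω : η1 ⊆ η1 ∪ η2 ∪ c := Finset.subset_union_left.trans Finset.subset_union_left
  generalize η1 ∪ η2 ∪ c = ω at hωs hone h1ω ⊢
  have hE := f3_ends hωs
  have hSD : ∀ x, x ∉ PX a b t → S x = 0 := fun x hx => by
    by_contra hne
    exact hx (h.hS x hne).1
  obtain ⟨ηS, hηS⟩ := h.pS
  have htot := f3_total hSD hηS
  rw [FK1.FF_bde_iff S (PX a b t) hSD ω]
  by_contra hne
  push Not at hne
  obtain ⟨v, hv⟩ := hne
  obtain ⟨P, hP1, hP2, hP3⟩ : ∃ P : Vx d → Prop,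
      (∀ x y, conn (↑ω : Set (Ed d)) x y → (P x ↔ P y)) ∧
      (∀ x, P x → ¬ conn (↑ω : Set (Ed d)) u x) ∧ ∑ x ∈ fl (PX a b t) P, S x ≠ 0 := by
    by_cases huv : conn (↑ω : Set (Ed d)) u v
    · refine ⟨fun x => ¬ conn (↑ω : Set (Ed d)) v x, ?_, ?_, ?_⟩
      · intro x y hxy
        exact not_congr ⟨fun h => SRC.conn_trans h hxy,
          fun h => SRC.conn_trans h (SRC.conn_symm hxy)⟩
      · intro x hx hux
        exact hx (SRC.conn_trans (SRC.conn_symm huv) hux)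
      · intro h0
        have h5 := f3_split (PX a b t) (conn (↑ω : Set (Ed d)) v) S
        rw [htot, h0, add_zero] at h5
        exact hv h5.symm
    · refine ⟨conn (↑ω : Set (Ed d)) v, ?_, ?_, hv⟩
      · intro x y hxy
        exact ⟨fun h => SRC.conn_trans h hxy, fun h => SRC.conn_trans h (SRC.conn_symm hxy)⟩
      · intro x hx hux
        exact huv (SRC.conn_trans hux (SRC.conn_symm hx))
  -- the sum over the clusters of `η1` inside `fl (PX a b t) P`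
  have hcl : ∀ e ∈ ω, (e.1 ∈ fl (PX a b t) P ↔ tip e ∈ fl (PX a b t) P) := by
    intro e he
    rw [SRC.mem_fl, SRC.mem_fl]
    have h6 := hP1 _ _ (FK1.conn_edge (Finset.mem_coe.2 he))
    exact ⟨fun h => ⟨(hE e he).2, h6.1 h.2⟩, fun h => ⟨(hE e he).1, h6.2 h.2⟩⟩
  have hodd : ∃ v, ∑ x ∈ fl (PX a b t) (conn (↑η1 : Set (Ed d)) v),
      (if x ∈ fl (PX a b t) P then S x else 0) ≠ 0 := by
    by_contra hall
    push Not at hall
    have h7 := (FK1.FF_bde_iff (fun x => if x ∈ fl (PX a b t) P then S x else 0) (PX a b t)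
      (fun x hx => by
        change (if x ∈ fl (PX a b t) P then S x else 0) = 0
        rw [if_neg fun h => hx (SRC.fl_subset _ _ h)]) η1).2 hall
    obtain ⟨η', hη', hb'⟩ := h7
    have h8 := FK1.sum_bd_eq_zero ω η' (hη'.trans h1ω) (fl (PX a b t) P) hcl
    refine hP3 ?_
    rw [← h8]
    refine Finset.sum_congr rfl fun x hx => ?_
    have h9 : bd η' x = (if x ∈ fl (PX a b t) P then S x else 0) := congrFun hb' x
    rw [h9, if_pos hx]
  obtain ⟨v', hv'⟩ := hodd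
  obtain ⟨q, hq, hq1⟩ := Finset.exists_ne_zero_of_sum_ne_zero hv'
  rw [SRC.mem_fl] at hq
  have hqP : q ∈ fl (PX a b t) P := by
    by_contra hn
    exact hq1 (if_neg hn)
  have hqS : S q ≠ 0 := by
    rw [if_pos hqP] at hq1
    exact hq1
  have hPq : P q := ((SRC.mem_fl _ _ _).1 hqP).2
  have hKP : ∀ x ∈ fl (PX a b t) (conn (↑η1 : Set (Ed d)) v'), conn (↑η1 : Set (Ed d)) q x ∧
      P x := by
    intro x hx
    rw [SRC.mem_fl] at hx
    have h10 : conn (↑η1 : Set (Ed d)) q x := SRC.conn_trans (SRC.conn_symm hq.2) hx.2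
    exact ⟨h10, (hP1 _ _ (SRC.conn_mono (Finset.coe_subset.2 h1ω) h10)).1 hPq⟩
  have hKS : ∑ x ∈ fl (PX a b t) (conn (↑η1 : Set (Ed d)) v'), S x ≠ 0 := by
    intro h0
    refine hv' ?_
    rw [← h0]
    refine Finset.sum_congr rfl fun x hx => ?_
    rw [if_pos ((SRC.mem_fl _ _ _).2 ⟨SRC.fl_subset _ _ hx, (hKP x hx).2⟩)]
  have hE1 := f3_ends h1
  have hK0 : ∑ x ∈ fl (PX a b t) (conn (↑η1 : Set (Ed d)) v'), bd η1 x = 0 := by
    refine FK1.sum_bd_eq_zero η1 η1 (Finset.Subset.refl _) _ fun e he => ?_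
    rw [SRC.mem_fl, SRC.mem_fl]
    have h11 := FK1.conn_edge (Finset.mem_coe.2 he)
    exact ⟨fun h => ⟨(hE1 e he).2, SRC.conn_trans h.2 h11⟩,
      fun h => ⟨(hE1 e he).1, SRC.conn_trans h.2 (SRC.conn_symm h11)⟩⟩
  have hKA : ∑ x ∈ fl (PX a b t) (conn (↑η1 : Set (Ed d)) v'), A x ≠ 0 := by
    intro h0
    rw [hb1] at hK0
    have h12 : ∑ x ∈ fl (PX a b t) (conn (↑η1 : Set (Ed d)) v'), (A + S) x =
        ∑ x ∈ fl (PX a b t) (conn (↑η1 : Set (Ed d)) v'), A x +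
        ∑ x ∈ fl (PX a b t) (conn (↑η1 : Set (Ed d)) v'), S x := Finset.sum_add_distrib
    rw [h12, h0, zero_add] at hK0
    exact hKS hK0
  obtain ⟨p, hp, hpA⟩ := Finset.exists_ne_zero_of_sum_ne_zero hKA
  have hp1 := hKP p hp
  have hpI := h.hA p hpA
  have hpq : conn (↑(η1 ∪ η2) : Set (Ed d)) p q :=
    SRC.conn_mono (Finset.coe_subset.2 Finset.subset_union_left) (SRC.conn_symm hp1.1)
  exact hP2 p hp1.2 (hone p (SRC.fl_subset _ _ hp) (hcr _ h12 p hpI q (h.hS q hqS) hpq))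
-- END f3

/-! ## row f4: numbers. `j = ⌊t ^ (1/4)⌋`. `(2 * 3 ^ d) ^ (2 * 5 ^ d * j) * ρ ^ j ≤ (1 / 4) ^ j`; everything else is
exponentially small in `j` or in `t`. -/

/-! ## row f4: numbers. `j = ⌊t ^ (1/4)⌋`. `(2 * 3 ^ d) ^ (2 * 5 ^ d * j) * ρ ^ j ≤ (1 / 4) ^ j`; everything else is
exponentially small in `j` or in `t`. -/

-- BEGIN f4
private lemma f4_ev (k : ℕ) (C r δ : ℝ) (hr0 : 0 ≤ r) (hr1 : r < 1) (hδ : 0 < δ) :
    ∃ J : ℕ, ∀ j : ℕ, J ≤ j → C * ((j : ℝ) + 1) ^ k * r ^ j ≤ δ := by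
  have h1 := tendsto_pow_const_mul_const_pow_of_abs_lt_one k (r := r) (by rwa [abs_of_nonneg hr0])
  have h2 : 0 < |C| * 2 ^ k + 1 := by positivity
  have h3 := (h1.eventually (ge_mem_nhds (div_pos hδ h2))).and (Filter.eventually_ge_atTop 1)
  obtain ⟨J, hJ⟩ := Filter.eventually_atTop.1 h3
  refine ⟨J, fun j hj => ?_⟩
  obtain ⟨h4, h5⟩ := hJ j hj
  have h6 : (1 : ℝ) ≤ j := by exact_mod_cast h5
  have h7 : ((j : ℝ) + 1) ^ k ≤ 2 ^ k * (j : ℝ) ^ k := by
    rw [← mul_pow]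
    exact pow_le_pow_left₀ (by linarith) (by linarith) k
  have h8 : 0 ≤ r ^ j := pow_nonneg hr0 j
  have h9 : 0 ≤ ((j : ℝ) + 1) ^ k * r ^ j := by positivity
  calc C * ((j : ℝ) + 1) ^ k * r ^ j = C * (((j : ℝ) + 1) ^ k * r ^ j) := by ring
    _ ≤ |C| * (((j : ℝ) + 1) ^ k * r ^ j) := mul_le_mul_of_nonneg_right (le_abs_self C) h9
    _ ≤ |C| * ((2 ^ k * (j : ℝ) ^ k) * r ^ j) :=
        mul_le_mul_of_nonneg_left (mul_le_mul_of_nonneg_right h7 h8) (abs_nonneg C)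
    _ = |C| * 2 ^ k * ((j : ℝ) ^ k * r ^ j) := by ring
    _ ≤ |C| * 2 ^ k * (δ / (|C| * 2 ^ k + 1)) :=
        mul_le_mul_of_nonneg_left h4 (by positivity)
    _ ≤ δ := by
        rw [mul_div_assoc']
        rw [div_le_iff₀ h2]
        nlinarith [hδ]

theorem numeric (d M l n K : ℕ) (hK : 1 ≤ K) {x c ρ ε : ℝ} (hx0 : 0 < x) (hx1 : x < 1)
    (hc0 : 0 < c) (hc1 : c ≤ 1) (hρ0 : 0 ≤ ρ) (hρ : ρ * (2 * 3 ^ d) ^ (2 * 5 ^ d) ≤ 1 / 4)
    (hε : 0 < ε) :
    ∃ t0 : ℕ, ∀ t : ℕ, t0 ≤ t → ∀ N : ℕ, N ≤ ((M + 2) * t + 1) ^ d → ∀ j : ℕ,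
      j = Nat.sqrt (Nat.sqrt t) → 2 ≤ j ∧
        3 * ((2 * l + 1) * n) * (j * (2 * 5 ^ d * j + 1) + 20) ≤ t ∧
        2 * (N : ℝ) ^ 2 * (1 - c) ^ (t / (8 * K)) ≤ 1 / 2 ∧
        err1 d x ρ ((2 : ℝ) ^ (j * (3 ^ d * n ^ d)) *
          (2 * (2 * (N : ℝ) ^ 2 * (1 - c) ^ (t / (8 * K))))) l n j j N ≤ ε := by
  obtain ⟨B, hB⟩ : ∃ B : ℝ, B = (2 * 3 ^ d) ^ (2 * 5 ^ d) := ⟨_, rfl⟩
  obtain ⟨G, hG⟩ : ∃ G : ℝ, G = B * 2 ^ (3 ^ d * n ^ d) := ⟨_, rfl⟩
  obtain ⟨q, hq⟩ : ∃ q : ℝ, q = 1 - (x ^ 2) ^ (d * ((2 * l + 1) * n) ^ d) := ⟨_, rfl⟩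
  obtain ⟨Y, hY⟩ : ∃ Y : ℝ, Y = ((M : ℝ) + 3) ^ d := ⟨_, rfl⟩
  have hB1 : 1 ≤ B := by
    rw [hB]
    refine one_le_pow₀ ?_
    have h1 : (1 : ℝ) ≤ 3 ^ d := one_le_pow₀ (by norm_num)
    linarith
  have h21 : (1 : ℝ) ≤ 2 ^ (3 ^ d * n ^ d) := one_le_pow₀ (by norm_num)
  have hG1 : 1 ≤ G := by
    rw [hG]
    nlinarith
  have hx2 : x ^ 2 ≤ 1 := pow_le_one₀ hx0.le hx1.le
  have hq1 : q < 1 := by
    rw [hq]
    have h1 : 0 < (x ^ 2) ^ (d * ((2 * l + 1) * n) ^ d) := by positivity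
    linarith
  have hq0 : 0 ≤ q := by
    rw [hq]
    have h1 : (x ^ 2) ^ (d * ((2 * l + 1) * n) ^ d) ≤ 1 := pow_le_one₀ (by positivity) hx2
    linarith
  have hY1 : 1 ≤ Y := by
    rw [hY]
    refine one_le_pow₀ ?_
    have h1 : (0 : ℝ) ≤ M := Nat.cast_nonneg M
    linarith
  have hcc0 : 0 ≤ 1 - c := by linarith
  have hcc1 : 1 - c < 1 := by linarith
  obtain ⟨R, hR⟩ := exists_pow_lt_of_lt_one (show (0 : ℝ) < 1 / (2 * G) by positivity) hcc1
  have hR' : G * (1 - c) ^ R ≤ 1 / 2 := by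
    have h1 : G * (1 - c) ^ R ≤ G * (1 / (2 * G)) :=
      mul_le_mul_of_nonneg_left hR.le (by linarith)
    have h2 : G * (1 / (2 * G)) = 1 / 2 := by
      have h3 : G ≠ 0 := by linarith
      field_simp
    linarith
  obtain ⟨J1, hJ1⟩ := f4_ev (8 * d) (2 * Y ^ 2) (1 / 2) (1 / 2) (by norm_num) (by norm_num)
    (by norm_num)
  obtain ⟨J2, hJ2⟩ := f4_ev (16 * d) (10 * Y ^ 4) (1 / 2) (ε / 2) (by norm_num) (by norm_num)
    (half_pos hε)
  obtain ⟨J3, hJ3⟩ := f4_ev (8 * d) (Y ^ 2) q (ε / 2) hq0 hq1 (half_pos hε)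
  obtain ⟨J, hJ⟩ : ∃ J : ℕ, J = J1 + J2 + J3 + 2 + 8 * K * R +
    3 * ((2 * l + 1) * n) * (2 * 5 ^ d + 21) := ⟨_, rfl⟩
  refine ⟨J ^ 4, fun t ht N hN j hj => ?_⟩
  have hs1 : J * J ≤ Nat.sqrt t := by
    rw [Nat.le_sqrt]
    calc J * J * (J * J) = J ^ 4 := by ring
      _ ≤ t := ht
  have hJj : J ≤ j := by
    rw [hj, Nat.le_sqrt]
    exact hs1
  have hjt : j ^ 4 ≤ t := by
    have h1 : j * j ≤ Nat.sqrt t := by
      rw [hj]
      exact Nat.sqrt_le _
    calc j ^ 4 = j * j * (j * j) := by ring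
      _ ≤ Nat.sqrt t * Nat.sqrt t := Nat.mul_le_mul h1 h1
      _ ≤ t := Nat.sqrt_le t
  have htj : t ≤ (j + 1) ^ 4 := by
    have h1 : Nat.sqrt t + 1 ≤ (j + 1) * (j + 1) := by
      have h2 := Nat.lt_succ_sqrt (Nat.sqrt t)
      rw [← hj] at h2
      exact h2
    have h3 : t < (Nat.sqrt t + 1) * (Nat.sqrt t + 1) := Nat.lt_succ_sqrt t
    calc t ≤ (Nat.sqrt t + 1) * (Nat.sqrt t + 1) := h3.le
      _ ≤ (j + 1) * (j + 1) * ((j + 1) * (j + 1)) := Nat.mul_le_mul h1 h1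
      _ = (j + 1) ^ 4 := by ring
  have hj2 : 2 ≤ j := by omega
  have hj1 : 1 ≤ j := by omega
  have hjJ1 : J1 ≤ j := by omega
  have hjJ2 : J2 ≤ j := by omega
  have hjJ3 : J3 ≤ j := by omega
  have hjR : 8 * K * R ≤ j := by omega
  have hjW : 3 * ((2 * l + 1) * n) * (2 * 5 ^ d + 21) ≤ j := by omega
  have hjj : j ≤ j ^ 2 := by nlinarith
  -- the exponent
  have hexp : j * R ≤ t / (8 * K) := by
    rw [Nat.le_div_iff_mul_le (by omega)]
    calc j * R * (8 * K) = j * (8 * K * R) := by ring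
      _ ≤ j * j := Nat.mul_le_mul_left j hjR
      _ = j ^ 2 * 1 := by ring
      _ ≤ j ^ 2 * j ^ 2 := Nat.mul_le_mul_left _ (Nat.one_le_pow _ _ hj1)
      _ = j ^ 4 := by ring
      _ ≤ t := hjt
  obtain ⟨Z, hZ⟩ : ∃ Z : ℝ, Z = (1 - c) ^ (t / (8 * K)) := ⟨_, rfl⟩
  have hZ0 : 0 ≤ Z := by
    rw [hZ]
    exact pow_nonneg hcc0 _
  have hZ1 : Z ≤ ((1 - c) ^ R) ^ j := by
    rw [hZ, ← pow_mul, Nat.mul_comm R j]
    exact pow_le_pow_of_le_one hcc0 hcc1.le hexp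
  have hGZ : G ^ j * Z ≤ (1 / 2) ^ j := by
    calc G ^ j * Z ≤ G ^ j * ((1 - c) ^ R) ^ j :=
          mul_le_mul_of_nonneg_left hZ1 (pow_nonneg (by linarith) _)
      _ = (G * (1 - c) ^ R) ^ j := (mul_pow _ _ _).symm
      _ ≤ (1 / 2) ^ j := pow_le_pow_left₀ (mul_nonneg (by linarith) (pow_nonneg hcc0 _)) hR' _
  have hZ2 : Z ≤ (1 / 2) ^ j := by
    refine le_trans ?_ hGZ
    have h1 : (1 : ℝ) ≤ G ^ j := one_le_pow₀ hG1
    calc Z = 1 * Z := (one_mul Z).symm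
      _ ≤ G ^ j * Z := mul_le_mul_of_nonneg_right h1 hZ0
  -- the polynomial
  obtain ⟨P, hP⟩ : ∃ P : ℝ, P = Y * ((j : ℝ) + 1) ^ (4 * d) := ⟨_, rfl⟩
  have hNP : (N : ℝ) ≤ P := by
    have h1 : (M + 2) * t + 1 ≤ (M + 3) * (j + 1) ^ 4 := by
      have h2 : (M + 2) * t ≤ (M + 2) * (j + 1) ^ 4 := Nat.mul_le_mul_left _ htj
      have h3 : 1 ≤ (j + 1) ^ 4 := Nat.one_le_pow _ _ (by omega)
      calc (M + 2) * t + 1 ≤ (M + 2) * (j + 1) ^ 4 + (j + 1) ^ 4 := Nat.add_le_add h2 h3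
        _ = (M + 3) * (j + 1) ^ 4 := by ring
    have h4 : N ≤ ((M + 3) * (j + 1) ^ 4) ^ d := hN.trans (Nat.pow_le_pow_left h1 d)
    have h5 : (N : ℝ) ≤ (((M + 3) * (j + 1) ^ 4) ^ d : ℕ) := by exact_mod_cast h4
    refine h5.trans (le_of_eq ?_)
    rw [hP, hY]
    push_cast
    rw [mul_pow, ← pow_mul]
  have hN0 : (0 : ℝ) ≤ N := Nat.cast_nonneg N
  have hj10 : (1 : ℝ) ≤ (j : ℝ) + 1 := by
    have h1 : (0 : ℝ) ≤ j := Nat.cast_nonneg j
    linarith
  have hP1 : 1 ≤ P := by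
    rw [hP]
    have h1 : (1 : ℝ) ≤ ((j : ℝ) + 1) ^ (4 * d) := one_le_pow₀ hj10
    nlinarith
  have hP2 : P ^ 2 = Y ^ 2 * ((j : ℝ) + 1) ^ (8 * d) := by
    rw [hP, mul_pow, ← pow_mul]
    congr 2
    ring
  have hP4 : P ^ 4 = Y ^ 4 * ((j : ℝ) + 1) ^ (16 * d) := by
    rw [hP, mul_pow, ← pow_mul]
    congr 2
    ring
  have hNP2 : (N : ℝ) ^ 2 ≤ P ^ 2 := pow_le_pow_left₀ hN0 hNP 2
  have hh0 : (0 : ℝ) ≤ (1 / 2) ^ j := by positivity
  have h3 : 2 * (N : ℝ) ^ 2 * Z ≤ 1 / 2 := by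
    calc 2 * (N : ℝ) ^ 2 * Z ≤ 2 * P ^ 2 * Z :=
          mul_le_mul_of_nonneg_right (by linarith) hZ0
      _ ≤ 2 * P ^ 2 * (1 / 2) ^ j := mul_le_mul_of_nonneg_left hZ2 (by positivity)
      _ = 2 * Y ^ 2 * ((j : ℝ) + 1) ^ (8 * d) * (1 / 2) ^ j := by
          rw [hP2]
          ring
      _ ≤ 1 / 2 := hJ1 j hjJ1
  refine ⟨hj2, ?_, ?_, ?_⟩
  · have h1 : j * (2 * 5 ^ d * j + 1) + 20 ≤ (2 * 5 ^ d + 21) * j ^ 2 := by
      have h2 : 20 ≤ 20 * j ^ 2 := by nlinarith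
      calc j * (2 * 5 ^ d * j + 1) + 20 = 2 * 5 ^ d * j ^ 2 + j + 20 := by ring
        _ ≤ 2 * 5 ^ d * j ^ 2 + j ^ 2 + 20 * j ^ 2 := by omega
        _ = (2 * 5 ^ d + 21) * j ^ 2 := by ring
    calc 3 * ((2 * l + 1) * n) * (j * (2 * 5 ^ d * j + 1) + 20)
        ≤ 3 * ((2 * l + 1) * n) * ((2 * 5 ^ d + 21) * j ^ 2) := Nat.mul_le_mul_left _ h1
      _ = 3 * ((2 * l + 1) * n) * (2 * 5 ^ d + 21) * j ^ 2 := by ring
      _ ≤ j * j ^ 2 := Nat.mul_le_mul_right _ hjW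
      _ ≤ j ^ 2 * j ^ 2 := Nat.mul_le_mul_right _ hjj
      _ = j ^ 4 := by ring
      _ ≤ t := hjt
  · rw [← hZ]
    exact h3
  · unfold err1
    rw [← hZ, ← hq]
    have e1 : ((2 : ℝ) * 3 ^ d) ^ (2 * 5 ^ d * j) = B ^ j := by rw [hB, ← pow_mul]
    have e2 : (2 : ℝ) ^ (j * (3 ^ d * n ^ d)) = (2 ^ (3 ^ d * n ^ d)) ^ j := by
      rw [← pow_mul, Nat.mul_comm j]
    rw [e1, e2]
    have hρB : B ^ j * ρ ^ j ≤ (1 / 2) ^ j := by
      rw [← mul_pow]
      refine pow_le_pow_left₀ (mul_nonneg (by linarith) hρ0) ?_ j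
      rw [← hB] at hρ
      linarith
    have hGj : B ^ j * (2 ^ (3 ^ d * n ^ d)) ^ j = G ^ j := by rw [hG, mul_pow]
    have hNN : ((N : ℝ) + 1) * N ≤ 2 * P ^ 2 := by nlinarith
    have hNN0 : 0 ≤ ((N : ℝ) + 1) * N := by positivity
    have hB0 : 0 ≤ B ^ j := pow_nonneg (by linarith) _
    have hG0 : 0 ≤ G ^ j := pow_nonneg (by linarith) _
    have t1 : ((N : ℝ) + 1) * (N * B ^ j * (ρ ^ j + (2 ^ (3 ^ d * n ^ d)) ^ j *
        (2 * (2 * (N : ℝ) ^ 2 * Z)))) ≤ ε / 2 := by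
      calc ((N : ℝ) + 1) * (N * B ^ j * (ρ ^ j + (2 ^ (3 ^ d * n ^ d)) ^ j *
            (2 * (2 * (N : ℝ) ^ 2 * Z))))
          = ((N : ℝ) + 1) * N * (B ^ j * ρ ^ j) +
            ((N : ℝ) + 1) * N * (4 * (N : ℝ) ^ 2) * (G ^ j * Z) := by
            rw [← hGj]
            ring
        _ ≤ 2 * P ^ 2 * (1 / 2) ^ j + 2 * P ^ 2 * (4 * P ^ 2) * (1 / 2) ^ j := by
            refine add_le_add (mul_le_mul hNN hρB (mul_nonneg hB0 (pow_nonneg hρ0 _))
              (by positivity)) ?_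
            refine mul_le_mul ?_ hGZ (mul_nonneg hG0 hZ0) (by positivity)
            exact mul_le_mul hNN (by linarith) (by positivity) (by positivity)
        _ ≤ 10 * P ^ 4 * (1 / 2) ^ j := by
            have h5 : P ^ 2 ≤ P ^ 4 := pow_le_pow_right₀ hP1 (by norm_num)
            have h6 : 2 * P ^ 2 * (1 / 2) ^ j + 2 * P ^ 2 * (4 * P ^ 2) * (1 / 2 : ℝ) ^ j =
                (2 * P ^ 2 + 8 * P ^ 4) * (1 / 2) ^ j := by ring
            rw [h6]
            exact mul_le_mul_of_nonneg_right (by linarith) hh0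
        _ = 10 * Y ^ 4 * ((j : ℝ) + 1) ^ (16 * d) * (1 / 2) ^ j := by
            rw [hP4]
            ring
        _ ≤ ε / 2 := hJ2 j hjJ2
    have t2 : (N : ℝ) ^ 2 * q ^ j ≤ ε / 2 := by
      calc (N : ℝ) ^ 2 * q ^ j ≤ P ^ 2 * q ^ j :=
            mul_le_mul_of_nonneg_right hNP2 (pow_nonneg hq0 _)
        _ = Y ^ 2 * ((j : ℝ) + 1) ^ (8 * d) * q ^ j := by rw [hP2]
        _ ≤ ε / 2 := hJ3 j hjJ3
    linarith
-- END f4

/-! ## row f5: the factorisation for one shell, from `core`, `transfer`, `par`, `good_bound`, `FF_of_one`,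
`switch`. -/

/-- the family of face boxes (theorem `faces` of Fce.lean) -/
def Faces (l n h m t : ℕ) (a b : Vx d) (bs : List (BX d)) : Prop :=
  bs ≠ [] ∧ (∀ c ∈ bs, c.big h) ∧ Lnk h bs ∧
    (∀ c ∈ bs, ∀ Q ∈ c.L, RG l n Q ⊆ PX a b (2 * (t / 3)) \ PX a b (t / 3)) ∧
    ∀ η : Finset (Ed d), EndsIn η (PX a b t) → ∀ p ∈ Finset.Icc a b, ∀ q, Out a b t q →
      conn (↑η : Set (Ed d)) p q → Crs l n m bs (Cl (PX a b t) η p)

/-- the blocks of the boxes are at most as many as the vertices: every block contains a vertex of `PX a b t` -/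
theorem blks_card_le {a b : Vx d} {l n t : ℕ} (hn : 1 ≤ n) {bs : List (BX d)}
    (hR : ∀ c ∈ bs, ∀ Q ∈ c.L, RG l n Q ⊆ PX a b (2 * (t / 3)) \ PX a b (t / 3)) (ht : 3 ≤ t) :
    (blks bs).card ≤ (PX a b t).card := by
  classical
  have hw : (0 : ℤ) < (2 * (l : ℤ) + 1) * n := by positivity
  refine Finset.card_le_card_of_injOn
    (fun Q k => (2 * (l : ℤ) + 1) * n * Q k - l) ?_ ?_
  · intro Q hQ
    have hQ' : Q ∈ blks bs := hQ
    unfold blks at hQ'
    obtain ⟨c, hc, hQc⟩ := Finset.mem_biUnion.1 hQ'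
    have h1 : (fun k => (2 * (l : ℤ) + 1) * n * Q k - l) ∈ RG l n Q := by
      unfold RG
      rw [Finset.mem_Icc]
      constructor
      · intro k
        show (2 * (l : ℤ) + 1) * n * (Q k - 2) - l ≤ (2 * (l : ℤ) + 1) * n * Q k - l
        nlinarith
      · intro k
        show (2 * (l : ℤ) + 1) * n * Q k - l ≤ (2 * (l : ℤ) + 1) * n * (Q k + 3) - l - 1
        nlinarith
    have h2 := (Finset.mem_sdiff.1 (hR c (List.mem_toFinset.1 hc) Q hQc h1)).1
    unfold PX at h2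
    rw [Finset.mem_Icc] at h2
    show (fun k => (2 * (l : ℤ) + 1) * n * Q k - l) ∈ PX a b t
    unfold PX
    rw [Finset.mem_Icc]
    constructor
    · intro k
      have h3 := h2.1 k
      show a k - (t : ℤ) ≤ _
      have h4 : a k - ((2 * (t / 3) : ℕ) : ℤ) ≤ (2 * (l : ℤ) + 1) * n * Q k - l := h3
      have h5 : ((2 * (t / 3) : ℕ) : ℤ) ≤ (t : ℤ) := by
        have : 2 * (t / 3) ≤ t := by omega
        exact_mod_cast this
      show a k - (t : ℤ) ≤ (2 * (l : ℤ) + 1) * n * Q k - l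
      linarith
    · intro k
      have h3 := h2.2 k
      have h4 : (2 * (l : ℤ) + 1) * n * Q k - l ≤ b k + ((2 * (t / 3) : ℕ) : ℤ) := h3
      have h5 : ((2 * (t / 3) : ℕ) : ℤ) ≤ (t : ℤ) := by
        have : 2 * (t / 3) ≤ t := by omega
        exact_mod_cast this
      show (2 * (l : ℤ) + 1) * n * Q k - l ≤ b k + (t : ℤ)
      linarith
  · intro Q _ Q' _ h
    funext k
    have h1 : (2 * (l : ℤ) + 1) * n * Q k - l = (2 * (l : ℤ) + 1) * n * Q' k - l := congrFun h k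
    have h2 : (2 * (l : ℤ) + 1) * n * Q k = (2 * (l : ℤ) + 1) * n * Q' k := by linarith
    exact mul_left_cancel₀ hw.ne' h2

private lemma f5b_mem_PX {a b : Vx d} {s : ℕ} {v : Vx d} :
    v ∈ PX a b s ↔ ∀ k, a k - (s : ℤ) ≤ v k ∧ v k ≤ b k + (s : ℤ) := by
  unfold PX
  rw [Finset.mem_Icc, Pi.le_def, Pi.le_def]
  exact ⟨fun h k => ⟨h.1 k, h.2 k⟩, fun h => ⟨fun k => (h k).1, fun k => (h k).2⟩⟩

private lemma f5b_mono {a b : Vx d} {s t : ℕ} (h : s ≤ t) : PX a b s ⊆ PX a b t := by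
  intro v hv
  rw [f5b_mem_PX] at hv ⊢
  intro k
  have h1 := hv k
  constructor <;> omega

private lemma f5b_icc {a b : Vx d} (s : ℕ) : Finset.Icc a b ⊆ PX a b s := by
  intro v hv
  rw [Finset.mem_Icc, Pi.le_def, Pi.le_def] at hv
  rw [f5b_mem_PX]
  intro k
  have h1 := hv.1 k
  have h2 := hv.2 k
  constructor <;> omega

private lemma f5b_blks {bs : List (BX d)} {Q : Vx d} (hQ : Q ∈ blks bs) : ∃ c ∈ bs, Q ∈ c.L := by
  classical
  unfold blks at hQ
  obtain ⟨c, hc, hQc⟩ := Finset.mem_biUnion.1 hQ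
  exact ⟨c, List.mem_toFinset.1 hc, hQc⟩

private lemma f5b_two (S : Vx d → ZMod 2) : S + S = 0 := by
  funext v
  exact CharTwo.add_self_eq_zero (S v)

theorem fac_one {x : ℝ} (h0 : 0 < x) (h1 : x < 1) {κ : ℝ} (hκ : 0 < κ) {l n : ℕ} (hn : 1 ≤ n)
    {ε : ℝ} (hε : 0 ≤ ε) (hL : LocBad x κ l n d ε) {a b : Vx d} (hab : ∀ k, a k ≤ b k) {t m : ℕ}
    (ht : 3 ≤ t) (hm : 1 ≤ m) (hGia : Gia d (2 * 5 ^ d * m)) {bs : List (BX d)} (k0 : ℕ)
    (hF : Faces l n (2 * 5 ^ d * m) (k0 * (2 * 5 ^ d * m + 1)) t a b bs) {δ : ℝ} (hδ0 : 0 ≤ δ)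
    (hδ : δ ≤ 1 / 2)
    (hG : ∀ B : Vx d → ZMod 2, FW x (shE a b t) B (fun ω => ind (¬ GdE a b t ω)) ≤
      δ * FW x (shE a b t) B (fun _ => 1))
    {A S : Vx d → ZMod 2} (h : Src a b t A S) :
    (1 - err1 d x (ε + 3 ^ d / (κ ^ 2 * (n : ℝ) ^ d))
        ((2 : ℝ) ^ (m * (3 ^ d * n ^ d)) * (2 * δ)) l n m k0 (PX a b t).card) *
      (ZA bde (fun _ => x) (shE a b t) (A + S) * ZA bde (fun _ => x) (shE a b t) 0) ≤
      ZA bde (fun _ => x) (shE a b t) A * ZA bde (fun _ => x) (shE a b t) S := by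
  classical
  obtain ⟨hne, hbig, hlnk, hRG, hcr⟩ := hF
  have hED : EndsIn (shE a b t) (PX a b t) := by
    intro e he
    have he' : e ∈ edg (PX a b t) := (Finset.mem_sdiff.1 he).1
    exact (Pool.Agent.SRC.mem_edg _ _).1 he'
  have hRG' : ∀ Q ∈ blks bs, RG l n Q ⊆ PX a b (2 * (t / 3)) \ PX a b (t / 3) := by
    intro Q hQ
    obtain ⟨c, hc, hQc⟩ := f5b_blks hQ
    exact hRG c hc Q hQc
  have h23 : 2 * (t / 3) ≤ t := by omega
  have hD : ∀ Q ∈ blks bs, RG l n Q ⊆ PX a b t := fun Q hQ v hv =>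
    f5b_mono h23 (Finset.mem_sdiff.1 (hRG' Q hQ hv)).1
  have hE : ∀ Q ∈ blks bs, edg (RG l n Q) ⊆ shE a b t := by
    intro Q hQ e he
    rw [Pool.Agent.SRC.mem_edg] at he
    refine Finset.mem_sdiff.2 ⟨(Pool.Agent.SRC.mem_edg _ _).2 ⟨hD Q hQ he.1, hD Q hQ he.2⟩, ?_⟩
    intro h2
    exact (Finset.mem_sdiff.1 (hRG' Q hQ he.1)).2
      (f5b_icc _ ((Pool.Agent.SRC.mem_edg _ _).1 h2).1)
  have hcard : (blks bs).card ≤ (PX a b t).card := blks_card_le hn hRG ht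
  have hZ0 : ∀ B : Vx d → ZMod 2, 0 ≤ ZA bde (fun _ => x) (shE a b t) B := by
    intro B
    rw [← FW_one x (shE a b t) B]
    have h2 := FW_mono h0.le h1.le (shE a b t) B (f := fun _ => (0 : ℝ)) (g := fun _ => (1 : ℝ))
      (fun _ _ _ => zero_le_one)
    refine le_trans (le_of_eq ?_) h2
    unfold FW
    rw [Finset.sum_eq_zero]
    intro ω _
    ring
  have hZZ : 0 ≤ ZA bde (fun _ => x) (shE a b t) (A + S) * ZA bde (fun _ => x) (shE a b t) 0 :=
    mul_nonneg (hZ0 _) (hZ0 _)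
  have hsmp : ∀ P ⊆ blks bs, smp l n P ⊆ PX a b (2 * (t / 3)) \ PX a b (t / 3) := by
    intro P hP v hv
    have h2 : ∃ Q ∈ P, v ∈ smp l n {Q} := by
      unfold smp at hv ⊢
      obtain ⟨Q, hQ, hv'⟩ := Finset.mem_biUnion.1 hv
      exact ⟨Q, hQ, Finset.mem_biUnion.2 ⟨Q, Finset.mem_singleton_self Q, hv'⟩⟩
    obtain ⟨Q, hQ, hvQ⟩ := h2
    exact hRG' Q (hP hQ) (smp_sub_RG hn Q hvQ)
  have hcore := core h0.le h1.le hκ hn hε hL hED (A + S) hne hm hbig hlnk hGia hE hD hcard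
    (err := (2 : ℝ) ^ (m * (3 ^ d * n ^ d)) * (2 * δ)) (by positivity)
    (by
      intro P hP hPm f hf0 hf1 hfs
      have hWD : smp l n P ⊆ PX a b t := fun v hv =>
        f5b_mono h23 (Finset.mem_sdiff.1 (hsmp P hP hv)).1
      have htr := transfer hED h0.le h1.le (A + S) hWD (GdE a b t)
        (fun ω => FF bde A ω ∧ FF bde S ω)
        (fun ω _ hH => FF.add f5b_two hH.1 hH.2)
        (fun ω hω hGd U hU => par ht h (fun v hv => hsmp P hP (hU hv)) hω hGd)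
        hδ0 hδ (fun U _ => hG (A + S + s1 U)) f hf0 hf1 hfs
      refine htr.trans ?_
      have h3 : (2 : ℝ) ^ (smp l n P).card ≤ 2 ^ (m * (3 ^ d * n ^ d)) :=
        pow_le_pow_right₀ (by norm_num)
          ((smp_card P).trans (Nat.mul_le_mul_right _ hPm))
      have h4 := mul_le_mul_of_nonneg_right (mul_le_mul_of_nonneg_right h3
        (show (0 : ℝ) ≤ 2 * δ by linarith)) hZZ
      linarith) k0
  -- the complement
  have hone : MM x (shE a b t) (A + S) (fun η1 η2 c =>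
      ind (One (PX a b t) l n (k0 * (2 * 5 ^ d * m + 1)) bs η1 η2 c)) +
      MM x (shE a b t) (A + S) (fun η1 η2 c =>
      ind (¬ One (PX a b t) l n (k0 * (2 * 5 ^ d * m + 1)) bs η1 η2 c)) =
      ZA bde (fun _ => x) (shE a b t) (A + S) * ZA bde (fun _ => x) (shE a b t) 0 := by
    rw [← MM_one x (shE a b t) (A + S)]
    unfold MM
    rw [← Finset.sum_add_distrib]
    refine Finset.sum_congr rfl fun η1 _ => ?_
    rw [← Finset.sum_add_distrib]
    refine Finset.sum_congr rfl fun η2 _ => ?_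
    rw [← Finset.sum_add_distrib]
    refine Finset.sum_congr rfl fun c _ => ?_
    show _ * ind (One (PX a b t) l n (k0 * (2 * 5 ^ d * m + 1)) bs η1 η2 c) +
      _ * ind (¬ One (PX a b t) l n (k0 * (2 * 5 ^ d * m + 1)) bs η1 η2 c) = _ * 1
    rw [Pool.Agent.SRC.ind_not]
    ring
  have hle : MM x (shE a b t) (A + S) (fun η1 η2 c =>
      ind (One (PX a b t) l n (k0 * (2 * 5 ^ d * m + 1)) bs η1 η2 c)) ≤
      MM x (shE a b t) (A + S) (fun η1 η2 c => ind (FF bde S (η1 ∪ η2 ∪ c))) := by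
    refine MM_mono h0.le h1.le _ _ fun η1 hη1 η2 hη2 c hc hb1 _ => ?_
    exact Pool.Agent.SRC.ind_mono fun hO =>
      FF_of_one hab (by omega) hcr h hη1 hη2 hc hb1 hO
  rw [switch x (shE a b t) (A + S) S] at hle
  have hASS : A + S + S = A := by
    rw [add_assoc, f5b_two, add_zero]
  rw [hASS] at hle
  linarith
-- END f5b

/-! ## row f6: THE THEOREM -/

/-- all large shells factorise up to `1 + ε`; `FAC` is the interface of block B4 -/
def FAC (d : ℕ) (β : ℝ) : Prop :=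
  ∀ M : ℕ, ∀ ε : ℝ, 0 < ε → ∃ t0 : ℕ, ∀ t : ℕ, t0 ≤ t → ∀ a b : Vx d,
    (∀ k, a k ≤ b k ∧ b k - a k ≤ (M : ℤ) * t) → ∀ A S : Vx d → ZMod 2,
    (∀ v, A v ≠ 0 → v ∈ Finset.Icc a b) → (∀ v, S v ≠ 0 → Out a b t v) →
    (∃ η : Finset (Ed d), bd η = A) →
    ZZ (loopM (Real.tanh β)) (shE a b t) (A + S) * ZZ (loopM (Real.tanh β)) (shE a b t) 0 ≤
      (1 + ε) * (ZZ (loopM (Real.tanh β)) (shE a b t) A * ZZ (loopM (Real.tanh β)) (shE a b t) S)

private theorem f6_ZZ_nonneg {x : ℝ} (h0 : 0 ≤ x) (E : Finset (Ed d)) (A : Vx d → ZMod 2) :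
    0 ≤ ZZ (loopM x) E A := by
  rw [← ZA_eq_ZZ]
  unfold ZA
  refine Finset.sum_nonneg fun η _ => mul_nonneg ?_ (Finset.prod_nonneg fun _ _ => h0)
  unfold ind
  split_ifs <;> norm_num

private theorem f6_card {M t : ℕ} {a b : Vx d} (hab : ∀ k, a k ≤ b k ∧ b k - a k ≤ (M : ℤ) * t) :
    (PX a b t).card ≤ ((M + 2) * t + 1) ^ d := by
  unfold PX
  rw [Pi.card_Icc]
  calc ∏ k : Fin d, (Finset.Icc (a k - (t : ℤ)) (b k + (t : ℤ))).card
      ≤ ∏ _k : Fin d, ((M + 2) * t + 1) := by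
        refine Finset.prod_le_prod' fun k _ => ?_
        rw [Int.card_Icc]
        have h1 := hab k
        have h2 : b k + (t : ℤ) + 1 - (a k - t) ≤ (((M + 2) * t + 1 : ℕ) : ℤ) := by
          push_cast
          nlinarith [h1.1, h1.2]
        omega
    _ = ((M + 2) * t + 1) ^ d := by
        rw [Finset.prod_const, Finset.card_univ, Fintype.card_fin]

private theorem f6_n {κ W : ℝ} (hκ : 0 < κ) (hW : 1 ≤ W) (hd : 1 ≤ d) (n0 : ℕ) :
    ∃ n : ℕ, n0 ≤ n ∧ 1 ≤ n ∧ (1 / (8 * W) + 3 ^ d / (κ ^ 2 * (n : ℝ) ^ d)) * W ≤ 1 / 4 := by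
  obtain ⟨N, hN⟩ := exists_nat_ge (8 * W * 3 ^ d / κ ^ 2)
  refine ⟨max n0 (max 1 N), le_max_left _ _, le_trans (le_max_left 1 N) (le_max_right _ _), ?_⟩
  set n := max n0 (max 1 N) with hn
  have hn1 : 1 ≤ n := le_trans (le_max_left 1 N) (le_max_right _ _)
  have hnN : N ≤ n := le_trans (le_max_right 1 N) (le_max_right _ _)
  have hn1' : (1 : ℝ) ≤ n := by exact_mod_cast hn1
  have h1 : (n : ℝ) ≤ (n : ℝ) ^ d := by
    calc (n : ℝ) = (n : ℝ) ^ 1 := (pow_one _).symm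
      _ ≤ (n : ℝ) ^ d := pow_le_pow_right₀ hn1' hd
  have h2 : 8 * W * 3 ^ d / κ ^ 2 ≤ (n : ℝ) ^ d :=
    le_trans hN (le_trans (by exact_mod_cast hnN) h1)
  have hκ2 : 0 < κ ^ 2 := by positivity
  have hnd : 0 < (n : ℝ) ^ d := by positivity
  have h3 : 8 * W * 3 ^ d ≤ κ ^ 2 * (n : ℝ) ^ d := by
    rw [div_le_iff₀ hκ2] at h2
    linarith
  have h4 : 3 ^ d / (κ ^ 2 * (n : ℝ) ^ d) * W ≤ 1 / 8 := by
    rw [div_mul_eq_mul_div, div_le_iff₀ (by positivity)]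
    linarith
  have h5 : 1 / (8 * W) * W = 1 / 8 := by
    field_simp
  rw [add_mul, h5]
  linarith

/-- `LocBad` (theorem of Loc.lean), giants (Top.lean), faces (Fce.lean) as hypotheses. Choose `ε'` and `n` with
`ρ = ε' + 3 ^ d / (κ ^ 2 * n ^ d)` small, then `l`, then `c, K, t1` from `good_bound`, then `t0` from `numeric`
with `ε / (1 + ε)`; if `S` is not a boundary then `ZZ (A + S) = 0` because `A` is one. -/
theorem fac_of {β : ℝ} (hβ : 0 < β) (hS : Pool.Agent.Slb.SHELLP d β)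
    (hLoc : ∃ κ : ℝ, 0 < κ ∧ ∀ ε : ℝ, 0 < ε → ∃ n0 : ℕ, ∀ n : ℕ, n0 ≤ n → ∃ l : ℕ,
      LocBad (Real.tanh β) κ l n d ε)
    (hGia : ∀ h : ℕ, 1 ≤ h → Gia d h)
    (hFc : ∀ l n h m : ℕ, 1 ≤ n → 1 ≤ h → h + 5 ≤ m → ∀ t : ℕ, 3 * ((2 * l + 1) * n) * (m + 20) ≤ t →
      ∀ a b : Vx d, (∀ k, a k ≤ b k) → ∃ bs : List (BX d), Faces l n h m t a b bs) (hd : 1 ≤ d) :
    FAC d β := by
  intro M ε hε
  have hx0 : 0 < Real.tanh β := Pool.Agent.FK1.tanh_pos' hβ
  have hx1 : Real.tanh β < 1 := Pool.Agent.FK1.tanh_lt_one' β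
  set x := Real.tanh β with hx
  obtain ⟨κ, hκ, hLoc⟩ := hLoc
  set W : ℝ := (2 * 3 ^ d) ^ (2 * 5 ^ d) with hWdef
  have hW : 1 ≤ W := by
    refine one_le_pow₀ ?_
    have : (1 : ℝ) ≤ 3 ^ d := one_le_pow₀ (by norm_num)
    linarith
  have hW0 : 0 < W := by linarith
  obtain ⟨n0, hn0⟩ := hLoc (1 / (8 * W)) (by positivity)
  obtain ⟨n, hnn, hn1, hρ⟩ := f6_n (d := d) hκ hW hd n0
  obtain ⟨l, hl⟩ := hn0 n hnn
  obtain ⟨c, hc0, hc1, K, t1, hK, ht1, hgb⟩ := good_bound (d := d) hβ hS M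
  have hρ0 : 0 ≤ 1 / (8 * W) + 3 ^ d / (κ ^ 2 * (n : ℝ) ^ d) := by positivity
  obtain ⟨t2, ht2⟩ := numeric d M l n K hK hx0 hx1 hc0 hc1 hρ0 hρ (ε := ε / (1 + ε)) (by positivity)
  refine ⟨max t1 t2, fun t ht a b hab A S hA hS2 hAb => ?_⟩
  have htt1 : t1 ≤ t := le_trans (le_max_left _ _) ht
  have htt2 : t2 ≤ t := le_trans (le_max_right _ _) ht
  have ht3 : 3 ≤ t := le_trans ht1 htt1
  obtain ⟨hj2, hjt, hδ, herr⟩ := ht2 t htt2 (PX a b t).card (f6_card hab) (Nat.sqrt (Nat.sqrt t)) rfl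
  set j := Nat.sqrt (Nat.sqrt t) with hj
  have hab' : ∀ k, a k ≤ b k := fun k => (hab k).1
  have h5 : 1 ≤ 5 ^ d := Nat.one_le_pow _ _ (by norm_num)
  have hh1 : 1 ≤ 2 * 5 ^ d * j := by nlinarith
  have hh2 : 2 * 5 ^ d * j + 5 ≤ j * (2 * 5 ^ d * j + 1) := by
    have e1 : 2 * (2 * 5 ^ d * j) ≤ j * (2 * 5 ^ d * j) := Nat.mul_le_mul_right _ hj2
    have e2 : 5 ≤ 5 ^ d := by
      calc 5 = 5 ^ 1 := (pow_one _).symm
        _ ≤ 5 ^ d := Nat.pow_le_pow_right (by norm_num) hd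
    have e3 : 5 ≤ 2 * 5 ^ d * j := by nlinarith
    nlinarith
  obtain ⟨bs, hbs⟩ := hFc l n (2 * 5 ^ d * j) (j * (2 * 5 ^ d * j + 1)) hn1 hh1 hh2 t hjt a b hab'
  by_cases hSb : ∃ η : Finset (Ed d), bd η = S
  · have key := fac_one hx0 hx1 hκ hn1 (ε := 1 / (8 * W)) (by positivity) hl hab' ht3
      (m := j) (by omega) (hGia _ hh1) j hbs
      (δ := 2 * ((PX a b t).card : ℝ) ^ 2 * (1 - c) ^ (t / (8 * K)))
      (mul_nonneg (by positivity) (pow_nonneg (by linarith) _)) hδ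
      (fun B => hgb t htt1 a b hab B) ⟨hA, hS2, hAb, hSb⟩
    rw [ZA_eq_ZZ, ZA_eq_ZZ, ZA_eq_ZZ, ZA_eq_ZZ] at key
    have n1 := f6_ZZ_nonneg hx0.le (shE a b t) (A + S)
    have n2 := f6_ZZ_nonneg hx0.le (shE a b t) (0 : Vx d → ZMod 2)
    set P := ZZ (loopM x) (shE a b t) (A + S) * ZZ (loopM x) (shE a b t) 0 with hP
    set R := ZZ (loopM x) (shE a b t) A * ZZ (loopM x) (shE a b t) S with hR
    have n3 : 0 ≤ P := mul_nonneg n1 n2
    have e1 : (1 - ε / (1 + ε)) * P ≤ R := by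
      refine le_trans ?_ key
      exact mul_le_mul_of_nonneg_right (by linarith) n3
    have e2 : (1 : ℝ) - ε / (1 + ε) = 1 / (1 + ε) := by
      have : (1 + ε) ≠ 0 := by positivity
      field_simp
      ring
    rw [e2, div_mul_eq_mul_div, one_mul, div_le_iff₀ (by positivity)] at e1
    linarith
  · have h0 : ZZ (loopM x) (shE a b t) (A + S) = 0 := by
      rw [← ZA_eq_ZZ]
      unfold ZA
      refine Finset.sum_eq_zero fun η _ => ?_
      have : ¬ (bdm bde η = A + S) := by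
        intro hη
        apply hSb
        obtain ⟨η', hη'⟩ := hAb
        refine ⟨symmDiff η η', ?_⟩
        have e1 : bdm bde (symmDiff η η') = bdm bde η + bdm bde η' :=
          Pool.Agent.FK1.bdm_symmDiff (fun g => funext fun v => CharTwo.add_self_eq_zero _) η η'
        have e2 : bdm bde η' = A := hη'
        have e3 : bd (symmDiff η η') = bdm bde (symmDiff η η') := rfl
        rw [e3, e1, hη, e2, add_comm A S, add_assoc]
        have e4 : A + A = 0 := by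
          funext v
          exact CharTwo.add_self_eq_zero _
        rw [e4, add_zero]
      rw [Pool.Agent.SRC.ind_false this, zero_mul]
    rw [h0, zero_mul]
    have n1 := f6_ZZ_nonneg hx0.le (shE a b t) A
    have n2 := f6_ZZ_nonneg hx0.le (shE a b t) S
    positivity

end Pool.Agent.Fac
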