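import Pool.Agent.Fac.LocH
import Pool.Agent.Fac.Blk

/-!
# `LocBad` from CUBE, SLAB, SHELL (helper98)
-/

set_option autoImplicit false

namespace Pool.Agent.Fac

/-- hypothesis `hLoc` of `fac_of` -/
theorem locBad {d : ℕ} {β : ℝ} (hd : 2 ≤ d) (hβ : 0 < β) (hC : Pool.Agent.Slb.CUBE d β)
    (hS : Pool.Agent.Slb.SLAB d β) (hH : Pool.Agent.Slb.SHELL d β) :
    ∃ κ : ℝ, 0 < κ ∧ ∀ ε : ℝ, 0 < ε → ∃ n0 : ℕ, ∀ n : ℕ, n0 ≤ n → ∃ l : ℕ,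
      LocBad (Real.tanh β) κ l n d ε := by
  obtain ⟨κ, hκ, h⟩ := Lc.locBad (d := d) hd hβ hC hS hH
  refine ⟨κ, hκ, fun ε hε => ?_⟩
  obtain ⟨n0, h0⟩ := h ε hε
  refine ⟨n0, fun n hn => ?_⟩
  obtain ⟨l0, hl0⟩ := h0 n hn
  exact ⟨l0, fun Q A1 A2 => hl0 l0 le_rfl Q A1 A2⟩

end Pool.Agent.Fac
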