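import Pool.Agent.FK1.Fk

/-!
# One exploration step for FK-Ising given `F_A` (helper98)
-/

set_option autoImplicit false

namespace Pool.Agent.Fac.Lc

open Finset
open Pool.Agent.SRC (ind ind_nonneg ind_le_one ind_true ind_false ind_mono)
open Pool.Agent.FK1

variable {ε : Type*} [DecidableEq ε] {G : Type*} [AddCommGroup G] {δ : ε → G}

/-- the free law on `T` is dominated by the conditional law on `T` given the configuration `w`
outside `T` and given `F_A` -/
theorem SD_in (h2 : ∀ g : G, g + g = 0) {x : ε → ℝ} {E T : Finset ε} (hT : T ⊆ E)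
    (hx0 : ∀ e ∈ E, 0 < x e) (hx1 : ∀ e ∈ E, x e < 1) (A : G) {w : Finset ε} (hw : w ⊆ E \ T) :
    SD T (wF δ x T) (fun t => wF δ x E (w ∪ t) * ind (FF δ A (w ∪ t))) := by
  have hx0' : ∀ e ∈ E, 0 ≤ x e := fun e he => (hx0 e he).le
  have hx1' : ∀ e ∈ E, x e ≤ 1 := fun e he => (hx1 e he).le
  have hwE : w ⊆ E := hw.trans Finset.sdiff_subset
  have hwT : Disjoint w T :=
    Finset.disjoint_of_subset_left hw Finset.sdiff_disjoint
  have hK : 0 < wB x (E \ T) ∅ := wB_pos (fun e he => hx0 e (Finset.sdiff_subset he))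
    (fun e he => hx1 e (Finset.sdiff_subset he)) (Finset.empty_subset _)
  have hKa : ∀ a, a ⊆ T → wF δ x E a = wB x (E \ T) ∅ * wF δ x T a := by
    intro a ha
    have h1 := wB_union x (Finset.sdiff_disjoint (s := T) (t := E)) (Finset.empty_subset (E \ T)) ha
    rw [Finset.sdiff_union_of_subset hT, Finset.empty_union] at h1
    unfold wF
    rw [h1, mul_assoc]
  refine SD_of_lat (fun s hs => wF_nonneg (fun e he => hx0' e (hT he)) (fun e he => hx1' e (hT he)) hs)
    (fun s hs => mul_nonneg (wF_nonneg hx0' hx1' (Finset.union_subset hwE (hs.trans hT)))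
      (ind_nonneg _)) ?_
  intro a ha b hb
  have h1 := wF_lat (δ := δ) h2 hx0 (fun _ _ => le_refl _) hx1 a (ha.trans hT) (w ∪ b)
    (Finset.union_subset hwE (hb.trans hT))
  have e1 : a ∩ (w ∪ b) = a ∩ b := by
    rw [Finset.inter_union_distrib_left]
    have : a ∩ w = ∅ := Finset.disjoint_iff_inter_eq_empty.mp
      (Finset.disjoint_of_subset_left ha hwT.symm)
    rw [this, Finset.empty_union]
  have e2 : a ∪ (w ∪ b) = w ∪ (a ∪ b) := Finset.union_left_comm a w b
  rw [e1, e2, hKa a ha, hKa (a ∩ b) (Finset.inter_subset_left.trans ha)] at h1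
  have h3 : wF δ x T a * wF δ x E (w ∪ b) ≤ wF δ x T (a ∩ b) * wF δ x E (w ∪ (a ∪ b)) := by
    refine le_of_mul_le_mul_left ?_ hK
    calc wB x (E \ T) ∅ * (wF δ x T a * wF δ x E (w ∪ b))
        = wB x (E \ T) ∅ * wF δ x T a * wF δ x E (w ∪ b) := by ring
      _ ≤ _ := h1
      _ = _ := by ring
  have h4 : ind (FF δ A (w ∪ b)) ≤ ind (FF δ A (w ∪ (a ∪ b))) :=
    ind_mono fun h => h.mono (Finset.union_subset_union (Finset.Subset.refl w)
      Finset.subset_union_right)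
  have h5 : 0 ≤ wF δ x T (a ∩ b) * wF δ x E (w ∪ (a ∪ b)) :=
    mul_nonneg (wF_nonneg (fun e he => hx0' e (hT he)) (fun e he => hx1' e (hT he))
      (Finset.inter_subset_left.trans ha))
      (wF_nonneg hx0' hx1' (Finset.union_subset hwE (Finset.union_subset (ha.trans hT)
        (hb.trans hT))))
  calc wF δ x T a * (wF δ x E (w ∪ b) * ind (FF δ A (w ∪ b)))
      = wF δ x T a * wF δ x E (w ∪ b) * ind (FF δ A (w ∪ b)) := by ring
    _ ≤ wF δ x T (a ∩ b) * wF δ x E (w ∪ (a ∪ b)) * ind (FF δ A (w ∪ (a ∪ b))) :=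
        mul_le_mul h3 h4 (ind_nonneg _) h5
    _ = _ := by ring

/-- STEP: `D' ω` implies `D` outside `T`, and given `D` outside `T` some connection inside `T`, of
free probability at least `c`, prevents `D'`; then the probability of `D'` is at most `1 - c` times that
of `D`. -/
theorem step (h2 : ∀ g : G, g + g = 0) {x : ε → ℝ} {E T : Finset ε} (hT : T ⊆ E)
    (hx0 : ∀ e ∈ E, 0 < x e) (hx1 : ∀ e ∈ E, x e < 1) (A : G) (D D' : Finset ε → Prop) {c : ℝ}
    (hD : ∀ ω, ω ⊆ E → D' ω → D (ω \ T))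
    (hc : ∀ w, w ⊆ E \ T → D w → ∃ B : G, c * ZA δ x T 0 ≤ ZA δ x T B ∧
      ∀ t, t ⊆ T → FF δ B t → ¬ D' (w ∪ t)) :
    ∑ ω ∈ E.powerset, wF δ x E ω * ind (FF δ A ω) * ind (D' ω) ≤
      (1 - c) * ∑ ω ∈ E.powerset, wF δ x E ω * ind (FF δ A ω) * ind (D (ω \ T)) := by
  have hx0' : ∀ e ∈ E, 0 ≤ x e := fun e he => (hx0 e he).le
  have hx1' : ∀ e ∈ E, x e ≤ 1 := fun e he => (hx1 e he).le
  have hE : (E \ T) ∪ T = E := Finset.sdiff_union_of_subset hT
  have hd : Disjoint (E \ T) T := Finset.sdiff_disjoint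
  have hs := fun g : Finset ε → ℝ => sum_powerset_union (E \ T) T hd g
  rw [hE] at hs
  rw [hs, hs, Finset.mul_sum]
  refine Finset.sum_le_sum fun w hw => ?_
  rw [Finset.mem_powerset] at hw
  have hwT : Disjoint w T := Finset.disjoint_of_subset_left hw Finset.sdiff_disjoint
  have hwE : w ⊆ E := hw.trans Finset.sdiff_subset
  have e1 : ∀ t, t ⊆ T → (w ∪ t) \ T = w := by
    intro t ht
    rw [Finset.union_sdiff_distrib, Finset.sdiff_eq_empty_iff_subset.mpr ht, Finset.union_empty]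
    exact Finset.sdiff_eq_self_of_disjoint hwT
  have hnn : ∀ t, t ⊆ T → 0 ≤ wF δ x E (w ∪ t) * ind (FF δ A (w ∪ t)) := fun t ht =>
    mul_nonneg (wF_nonneg hx0' hx1' (Finset.union_subset hwE (ht.trans hT))) (ind_nonneg _)
  by_cases hDw : D w
  · obtain ⟨B, hB1, hB2⟩ := hc w hw hDw
    have h3 := SD_in (δ := δ) h2 hT hx0 hx1 A hw _ (Inc_FF (δ := δ) T B)
    rw [← ZA_eq h2] at h3
    have h4 : ∑ s ∈ T.powerset, wF δ x T s = ZA δ x T 0 := by
      rw [ZA_eq h2]
      refine Finset.sum_congr rfl fun s _ => ?_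
      rw [ind_true (FF.zero s), mul_one]
    have hZ : 0 < ∑ s ∈ T.powerset, wF δ x T s :=
      Finset.sum_pos (fun s hs => wF_pos (fun e he => hx0 e (hT he)) (fun e he => hx1 e (hT he))
        (Finset.mem_powerset.mp hs)) ⟨∅, Finset.empty_mem_powerset T⟩
    rw [h4] at h3 hZ
    set q : ℝ := ∑ t ∈ T.powerset, wF δ x E (w ∪ t) * ind (FF δ A (w ∪ t)) with hq
    have hq0 : 0 ≤ q := Finset.sum_nonneg fun t ht => hnn t (Finset.mem_powerset.mp ht)
    have h5 : c * q ≤ ∑ t ∈ T.powerset, wF δ x E (w ∪ t) * ind (FF δ A (w ∪ t)) * ind (FF δ B t) := by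
      refine le_of_mul_le_mul_left ?_ hZ
      calc ZA δ x T 0 * (c * q) = c * ZA δ x T 0 * q := by ring
        _ ≤ ZA δ x T B * q := mul_le_mul_of_nonneg_right hB1 hq0
        _ ≤ _ := h3
    have h6 : ∑ t ∈ T.powerset, wF δ x E (w ∪ t) * ind (FF δ A (w ∪ t)) * ind (D' (w ∪ t)) ≤
        ∑ t ∈ T.powerset, (wF δ x E (w ∪ t) * ind (FF δ A (w ∪ t)) -
          wF δ x E (w ∪ t) * ind (FF δ A (w ∪ t)) * ind (FF δ B t)) := by
      refine Finset.sum_le_sum fun t ht => ?_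
      rw [Finset.mem_powerset] at ht
      have h7 := hnn t ht
      by_cases hf : FF δ B t
      · rw [ind_true hf, ind_false (hB2 t ht hf)]
        linarith
      · rw [ind_false hf, mul_zero, sub_zero]
        exact mul_le_of_le_one_right h7 (ind_le_one _)
    rw [Finset.sum_sub_distrib, ← hq] at h6
    have h8 : ∑ t ∈ T.powerset, wF δ x E (w ∪ t) * ind (FF δ A (w ∪ t)) * ind (D ((w ∪ t) \ T)) = q := by
      refine Finset.sum_congr rfl fun t ht => ?_
      rw [e1 t (Finset.mem_powerset.mp ht), ind_true hDw, mul_one]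
    rw [h8]
    linarith
  · have h9 : ∑ t ∈ T.powerset, wF δ x E (w ∪ t) * ind (FF δ A (w ∪ t)) * ind (D' (w ∪ t)) = 0 := by
      refine Finset.sum_eq_zero fun t ht => ?_
      rw [Finset.mem_powerset] at ht
      have h10 : ¬ D' (w ∪ t) := fun h => hDw (by
        have := hD _ (Finset.union_subset hwE (ht.trans hT)) h
        rwa [e1 t ht] at this)
      rw [ind_false h10, mul_zero]
    have h11 : ∑ t ∈ T.powerset, wF δ x E (w ∪ t) * ind (FF δ A (w ∪ t)) * ind (D ((w ∪ t) \ T)) = 0 := by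
      refine Finset.sum_eq_zero fun t ht => ?_
      rw [e1 t (Finset.mem_powerset.mp ht), ind_false hDw, mul_zero]
    rw [h9, h11, mul_zero]

/-- a connection inside `T` of free probability at least `c` has conditional probability at least `c`, for
any weight `g` which does not depend on `T` -/
theorem lower (h2 : ∀ g : G, g + g = 0) {x : ε → ℝ} {E T : Finset ε} (hT : T ⊆ E)
    (hx0 : ∀ e ∈ E, 0 < x e) (hx1 : ∀ e ∈ E, x e < 1) (A B : G) {c : ℝ}
    (hB : c * ZA δ x T 0 ≤ ZA δ x T B) (g : Finset ε → ℝ) (hg0 : ∀ ω, ω ⊆ E → 0 ≤ g ω)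
    (hg : ∀ ω, ω ⊆ E → g ω = g (ω \ T)) :
    c * ∑ ω ∈ E.powerset, wF δ x E ω * ind (FF δ A ω) * g ω ≤
      ∑ ω ∈ E.powerset, wF δ x E ω * ind (FF δ A ω) * (g ω * ind (FF δ B (ω ∩ T))) := by
  have hx0' : ∀ e ∈ E, 0 ≤ x e := fun e he => (hx0 e he).le
  have hx1' : ∀ e ∈ E, x e ≤ 1 := fun e he => (hx1 e he).le
  have hE : (E \ T) ∪ T = E := Finset.sdiff_union_of_subset hT
  have hd : Disjoint (E \ T) T := Finset.sdiff_disjoint
  have hs := fun g : Finset ε → ℝ => sum_powerset_union (E \ T) T hd g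
  rw [hE] at hs
  rw [hs, hs, Finset.mul_sum]
  refine Finset.sum_le_sum fun w hw => ?_
  rw [Finset.mem_powerset] at hw
  have hwT : Disjoint w T := Finset.disjoint_of_subset_left hw Finset.sdiff_disjoint
  have hwE : w ⊆ E := hw.trans Finset.sdiff_subset
  have e1 : ∀ t, t ⊆ T → (w ∪ t) \ T = w := by
    intro t ht
    rw [Finset.union_sdiff_distrib, Finset.sdiff_eq_empty_iff_subset.mpr ht, Finset.union_empty]
    exact Finset.sdiff_eq_self_of_disjoint hwT
  have e2 : ∀ t, t ⊆ T → (w ∪ t) ∩ T = t := by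
    intro t ht
    rw [Finset.union_inter_distrib_right, Finset.disjoint_iff_inter_eq_empty.mp hwT,
      Finset.empty_union, Finset.inter_eq_left.mpr ht]
  have e3 : ∀ t, t ⊆ T → g (w ∪ t) = g w := by
    intro t ht
    rw [hg _ (Finset.union_subset hwE (ht.trans hT)), e1 t ht]
  have h3 := SD_in (δ := δ) h2 hT hx0 hx1 A hw _ (Inc_FF (δ := δ) T B)
  rw [← ZA_eq h2] at h3
  have h4 : ∑ s ∈ T.powerset, wF δ x T s = ZA δ x T 0 := by
    rw [ZA_eq h2]
    refine Finset.sum_congr rfl fun s _ => ?_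
    rw [ind_true (FF.zero s), mul_one]
  have hZ : 0 < ∑ s ∈ T.powerset, wF δ x T s :=
    Finset.sum_pos (fun s hs => wF_pos (fun e he => hx0 e (hT he)) (fun e he => hx1 e (hT he))
      (Finset.mem_powerset.mp hs)) ⟨∅, Finset.empty_mem_powerset T⟩
  rw [h4] at h3 hZ
  set q : ℝ := ∑ t ∈ T.powerset, wF δ x E (w ∪ t) * ind (FF δ A (w ∪ t)) with hq
  have hq0 : 0 ≤ q := Finset.sum_nonneg fun t ht => mul_nonneg (wF_nonneg hx0' hx1'
    (Finset.union_subset hwE ((Finset.mem_powerset.mp ht).trans hT))) (ind_nonneg _)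
  have h5 : c * q ≤ ∑ t ∈ T.powerset, wF δ x E (w ∪ t) * ind (FF δ A (w ∪ t)) * ind (FF δ B t) := by
    refine le_of_mul_le_mul_left ?_ hZ
    calc ZA δ x T 0 * (c * q) = c * ZA δ x T 0 * q := by ring
      _ ≤ ZA δ x T B * q := mul_le_mul_of_nonneg_right hB hq0
      _ ≤ _ := h3
  have h6 : ∑ t ∈ T.powerset, wF δ x E (w ∪ t) * ind (FF δ A (w ∪ t)) * g (w ∪ t) = q * g w := by
    rw [hq, Finset.sum_mul]
    refine Finset.sum_congr rfl fun t ht => ?_
    rw [e3 t (Finset.mem_powerset.mp ht)]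
  have h7 : ∑ t ∈ T.powerset, wF δ x E (w ∪ t) * ind (FF δ A (w ∪ t)) *
      (g (w ∪ t) * ind (FF δ B ((w ∪ t) ∩ T))) =
      (∑ t ∈ T.powerset, wF δ x E (w ∪ t) * ind (FF δ A (w ∪ t)) * ind (FF δ B t)) * g w := by
    rw [Finset.sum_mul]
    refine Finset.sum_congr rfl fun t ht => ?_
    rw [e3 t (Finset.mem_powerset.mp ht), e2 t (Finset.mem_powerset.mp ht)]
    ring
  rw [h6, h7, ← mul_assoc]
  exact mul_le_mul_of_nonneg_right h5 (hg0 w hwE)

end Pool.Agent.Fac.Lc
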