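import Pool.Agent.Fac.Defs
import Pool.Agent.Fac.Stp
import Pool.Agent.FK1.Gr

/-!
# Local uniqueness for FK-Ising given `F_A` from two-point functions of shells and slabs (helper98)
-/

set_option autoImplicit false

namespace Pool.Agent.Fac.Lc

open Finset
open Pool.Agent.SRC
open Pool.Agent.FK1

variable {d : ℕ}

/-- the free two-point function in `T` is at least `c` (loop model form) -/
def ZB (x c : ℝ) (T : Finset (Vx d)) : Prop :=
  ∀ u ∈ T, ∀ v ∈ T, c * ZA bde (fun _ => x) (edg T) 0 ≤ ZA bde (fun _ => x) (edg T) (pt u v)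

theorem FW_eq (x : ℝ) (E : Finset (Ed d)) (A : Vx d → ZMod 2) (P : Finset (Ed d) → Prop) :
    FW x E A (fun ω => ind (P ω)) =
      ∑ ω ∈ E.powerset, wF bde (fun _ => x) E ω * ind (FF bde A ω) * ind (P ω) := rfl

theorem FW_nonneg {x : ℝ} (hx0 : 0 < x) (hx1 : x < 1) (E : Finset (Ed d)) (A : Vx d → ZMod 2)
    {f : Finset (Ed d) → ℝ} (hf : ∀ ω, ω ⊆ E → 0 ≤ f ω) : 0 ≤ FW x E A f :=
  Finset.sum_nonneg fun ω hω => mul_nonneg (mul_nonneg (wF_nonneg (fun _ _ => hx0.le)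
    (fun _ _ => hx1.le) (Finset.mem_powerset.mp hω)) (ind_nonneg _))
    (hf ω (Finset.mem_powerset.mp hω))

theorem FW_mono {x : ℝ} (hx0 : 0 < x) (hx1 : x < 1) (E : Finset (Ed d)) (A : Vx d → ZMod 2)
    {f g : Finset (Ed d) → ℝ} (h : ∀ ω, ω ⊆ E → f ω ≤ g ω) : FW x E A f ≤ FW x E A g :=
  Finset.sum_le_sum fun ω hω => mul_le_mul_of_nonneg_left (h ω (Finset.mem_powerset.mp hω))
    (mul_nonneg (wF_nonneg (fun _ _ => hx0.le) (fun _ _ => hx1.le) (Finset.mem_powerset.mp hω))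
      (ind_nonneg _))

theorem FW_sum {ι : Type*} (x : ℝ) (E : Finset (Ed d)) (A : Vx d → ZMod 2) (s : Finset ι)
    (f : ι → Finset (Ed d) → ℝ) : FW x E A (fun ω => ∑ i ∈ s, f i ω) = ∑ i ∈ s, FW x E A (f i) := by
  unfold FW
  rw [Finset.sum_comm]
  refine Finset.sum_congr rfl fun ω _ => ?_
  rw [Finset.mul_sum]

theorem FW_add (x : ℝ) (E : Finset (Ed d)) (A : Vx d → ZMod 2) (f g : Finset (Ed d) → ℝ) :
    FW x E A (fun ω => f ω + g ω) = FW x E A f + FW x E A g := by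
  unfold FW
  rw [← Finset.sum_add_distrib]
  refine Finset.sum_congr rfl fun ω _ => ?_
  rw [mul_add]

/-- union bound -/
theorem FW_union {ι : Type*} {x : ℝ} (hx0 : 0 < x) (hx1 : x < 1) (E : Finset (Ed d))
    (A : Vx d → ZMod 2) (s : Finset ι) (P : Finset (Ed d) → Prop) (R : ι → Finset (Ed d) → Prop)
    (h : ∀ ω, ω ⊆ E → P ω → ∃ i ∈ s, R i ω) :
    FW x E A (fun ω => ind (P ω)) ≤ ∑ i ∈ s, FW x E A (fun ω => ind (R i ω)) := by
  rw [← FW_sum]
  refine FW_mono hx0 hx1 E A fun ω hω => ?_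
  by_cases hp : P ω
  · obtain ⟨i, hi, hr⟩ := h ω hω hp
    rw [ind_true hp, ← ind_true hr]
    exact Finset.single_le_sum (f := fun i => ind (R i ω)) (fun _ _ => ind_nonneg _) hi
  · rw [ind_false hp]
    exact Finset.sum_nonneg fun _ _ => ind_nonneg _

/-! ## First exit -/

theorem adj_iff {ω : Set (Ed d)} {u v : Vx d} : adj ω u v ↔
    ∃ e ∈ ω, (e.1 = u ∧ tip e = v) ∨ (e.1 = v ∧ tip e = u) := by
  constructor
  · rintro ⟨i, ⟨h1, rfl⟩ | ⟨h1, rfl⟩⟩
    · exact ⟨(u, i), h1, Or.inl ⟨rfl, rfl⟩⟩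
    · exact ⟨(v, i), h1, Or.inr ⟨rfl, rfl⟩⟩
  · rintro ⟨⟨p, i⟩, h1, ⟨h2, h3⟩ | ⟨h2, h3⟩⟩
    · subst h2; exact ⟨i, Or.inl ⟨h1, h3.symm⟩⟩
    · subst h2; exact ⟨i, Or.inr ⟨h1, h3.symm⟩⟩

/-- a path from `V` to its complement has a first exit -/
theorem exit_ {ω : Set (Ed d)} {V : Finset (Vx d)} {a y : Vx d} (ha : a ∈ V) (h : conn ω a y)
    (hy : y ∉ V) : ∃ u ∈ V, ∃ z, z ∉ V ∧ conn (ω ∩ ↑(edg V)) a u ∧ adj ω u z := by
  unfold conn at h
  have key : ∀ y, Relation.ReflTransGen (adj ω) a y →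
      (conn (ω ∩ ↑(edg V)) a y ∧ y ∈ V) ∨
        ∃ u ∈ V, ∃ z, z ∉ V ∧ conn (ω ∩ ↑(edg V)) a u ∧ adj ω u z := by
    intro y hy
    induction hy with
    | refl => exact Or.inl ⟨conn_refl _ _, ha⟩
    | @tail b c h1 h2 ih =>
      rcases ih with ⟨h3, h4⟩ | h3
      · by_cases hc : c ∈ V
        · left
          refine ⟨Relation.ReflTransGen.tail h3 ?_, hc⟩
          obtain ⟨e, he, h5⟩ := adj_iff.mp h2
          refine adj_iff.mpr ⟨e, ⟨he, ?_⟩, h5⟩
          rw [Finset.mem_coe, mem_edg]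
          rcases h5 with ⟨h6, h7⟩ | ⟨h6, h7⟩
          · exact ⟨h6 ▸ h4, h7 ▸ hc⟩
          · exact ⟨h6 ▸ hc, h7 ▸ h4⟩
        · exact Or.inr ⟨b, h4, c, hc, h3, h2⟩
      · exact Or.inr h3
  rcases key y h with h1 | h1
  · exact absurd h1.2 hy
  · exact h1

/-! ## Exploration of shells -/

/-- `a` and `b` have paths leaving `V`, and are not connected inside `V` -/
def LL (V : Finset (Vx d)) (a b : Vx d) (ω : Finset (Ed d)) : Prop :=
  (∃ y, y ∉ V ∧ conn (↑ω : Set (Ed d)) a y) ∧ (∃ y, y ∉ V ∧ conn (↑ω : Set (Ed d)) b y) ∧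
    ¬ conn (↑(ω ∩ edg V) : Set (Ed d)) a b

theorem shell_step {x c : ℝ} (hx0 : 0 < x) (hx1 : x < 1) {E : Finset (Ed d)}
    (A : Vx d → ZMod 2) {V W : Finset (Vx d)} (hVW : V ⊆ W)
    (hnb : ∀ u ∈ V, ∀ v, adj (Set.univ : Set (Ed d)) u v → v ∈ W) (hE : edg (W \ V) ⊆ E)
    (hZ : ZB x c (W \ V)) (hc0 : c ≤ 1) {a b : Vx d} (ha : a ∈ V) (hb : b ∈ V) :
    FW x E A (fun ω => ind (LL W a b ω)) ≤ (1 - c) * FW x E A (fun ω => ind (LL V a b ω)) := by
  classical
  have hT1 : ∀ e ∈ edg V, e ∉ edg (W \ V) := by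
    intro e he he'
    rw [mem_edg] at he he'
    exact (Finset.mem_sdiff.mp he'.1).2 he.1
  -- exit, outside T
  have hex : ∀ (ω : Finset (Ed d)) (p : Vx d), p ∈ V → (∃ y, y ∉ V ∧ conn (↑ω : Set (Ed d)) p y) →
      ∃ u ∈ V, ∃ z, z ∉ V ∧ conn (↑(ω ∩ edg V) : Set (Ed d)) p u ∧ adj (↑(ω \ edg (W \ V)) : Set (Ed d)) u z := by
    rintro ω p hp ⟨y, hy, h⟩
    obtain ⟨u, hu, z, hz, h1, h2⟩ := exit_ hp h hy
    refine ⟨u, hu, z, hz, ?_, ?_⟩
    · rw [Finset.coe_inter]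
      exact h1
    · obtain ⟨e, he, h3⟩ := adj_iff.mp h2
      refine adj_iff.mpr ⟨e, ?_, h3⟩
      rw [Finset.mem_coe, Finset.mem_sdiff]
      refine ⟨he, fun h4 => ?_⟩
      rw [mem_edg] at h4
      rcases h3 with ⟨h5, h6⟩ | ⟨h5, h6⟩
      · rw [h5] at h4
        exact (Finset.mem_sdiff.mp h4.1).2 hu
      · rw [h6] at h4
        exact (Finset.mem_sdiff.mp h4.2).2 hu
  have hsub : ∀ ω : Finset (Ed d), ω ∩ edg V ⊆ ω \ edg (W \ V) := by
    intro ω e he
    rw [Finset.mem_inter] at he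
    rw [Finset.mem_sdiff]
    exact ⟨he.1, hT1 e he.2⟩
  have hVe : edg V ⊆ edg W := by
    intro e he
    rw [mem_edg] at he ⊢
    exact ⟨hVW he.1, hVW he.2⟩
  have hTe : edg (W \ V) ⊆ edg W := by
    intro e he
    rw [mem_edg] at he ⊢
    exact ⟨(Finset.mem_sdiff.mp he.1).1, (Finset.mem_sdiff.mp he.2).1⟩
  have key := step (δ := (bde : Ed d → Vx d → ZMod 2)) two_fun hE (x := fun _ => x)
    (fun _ _ => hx0) (fun _ _ => hx1) A (LL V a b) (LL W a b) (c := c) ?_ ?_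
  · refine key.trans ?_
    refine mul_le_mul_of_nonneg_left ?_ (by linarith)
    refine FW_mono hx0 hx1 E A fun ω _ => ind_mono ?_
    rintro ⟨⟨y, hy, h1⟩, ⟨y', hy', h2⟩, h3⟩
    refine ⟨⟨y, hy, conn_mono (Finset.coe_subset.mpr Finset.sdiff_subset) h1⟩,
      ⟨y', hy', conn_mono (Finset.coe_subset.mpr Finset.sdiff_subset) h2⟩, fun h4 => h3 ?_⟩
    refine conn_mono (Finset.coe_subset.mpr ?_) h4
    intro e he
    have h5 := hsub ω he
    rw [Finset.mem_inter] at he ⊢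
    exact ⟨h5, he.2⟩
  · rintro ω - ⟨⟨y, hy, h1⟩, ⟨y', hy', h2⟩, h3⟩
    have hout : ∀ p y : Vx d, p ∈ V → y ∉ W → conn (↑ω : Set (Ed d)) p y →
        ∃ z, z ∉ V ∧ conn (↑(ω \ edg (W \ V)) : Set (Ed d)) p z := by
      intro p y hp hy h
      obtain ⟨u, _, z, hz, h4, h5⟩ := hex ω p hp ⟨y, fun h => hy (hVW h), h⟩
      exact ⟨z, hz, Relation.ReflTransGen.tail (conn_mono (Finset.coe_subset.mpr (hsub ω)) h4) h5⟩
    refine ⟨hout a y ha hy h1, hout b y' hb hy' h2, fun h4 => h3 ?_⟩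
    refine conn_mono (Finset.coe_subset.mpr ?_) h4
    intro e he
    rw [Finset.mem_inter, Finset.mem_sdiff] at he
    rw [Finset.mem_inter]
    exact ⟨he.1.1, hVe he.2⟩
  · rintro w hw ⟨h1, h2, h3⟩
    obtain ⟨u, hu, z, hz, h4, h5⟩ := hex w a ha h1
    obtain ⟨u', hu', z', hz', h4', h5'⟩ := hex w b hb h2
    have hzW : ∀ {p q : Vx d}, p ∈ V → q ∉ V → adj (↑(w \ edg (W \ V)) : Set (Ed d)) p q → q ∈ W \ V := by
      intro p q hp hq h
      exact Finset.mem_sdiff.mpr ⟨hnb p hp q (adj_mono (Set.subset_univ _) h), hq⟩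
    refine ⟨pt z z', hZ z (hzW hu hz h5) z' (hzW hu' hz' h5'), fun t ht hF h6 => h6.2.2 ?_⟩
    rw [FF_pt_iff] at hF
    have hw' : ∀ e, e ∈ w ∩ edg V → e ∈ (w ∪ t) ∩ edg W := by
      intro e he
      rw [Finset.mem_inter] at he
      rw [Finset.mem_inter, Finset.mem_union]
      exact ⟨Or.inl he.1, hVe he.2⟩
    have hcr : ∀ {p q : Vx d}, p ∈ V → q ∉ V → adj (↑(w \ edg (W \ V)) : Set (Ed d)) p q →
        adj (↑((w ∪ t) ∩ edg W) : Set (Ed d)) p q := by
      intro p q hp hq h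
      have hqW := (Finset.mem_sdiff.mp (hzW hp hq h)).1
      obtain ⟨e, he, h7⟩ := adj_iff.mp h
      refine adj_iff.mpr ⟨e, ?_, h7⟩
      rw [Finset.mem_coe, Finset.mem_sdiff] at he
      rw [Finset.mem_coe, Finset.mem_inter, Finset.mem_union, mem_edg]
      refine ⟨Or.inl he.1, ?_⟩
      rcases h7 with ⟨h8, h9⟩ | ⟨h8, h9⟩
      · rw [h8, h9]; exact ⟨hVW hp, hqW⟩
      · rw [h8, h9]; exact ⟨hqW, hVW hp⟩
    have c1 : conn (↑((w ∪ t) ∩ edg W) : Set (Ed d)) a z :=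
      Relation.ReflTransGen.tail (conn_mono (fun e he => hw' e he) h4) (hcr hu hz h5)
    have c2 : conn (↑((w ∪ t) ∩ edg W) : Set (Ed d)) b z' :=
      Relation.ReflTransGen.tail (conn_mono (fun e he => hw' e he) h4') (hcr hu' hz' h5')
    have c3 : conn (↑((w ∪ t) ∩ edg W) : Set (Ed d)) z z' := by
      refine conn_mono (fun e he => ?_) hF
      rw [Finset.mem_coe] at he
      rw [Finset.mem_coe, Finset.mem_inter, Finset.mem_union]
      exact ⟨Or.inr he, hTe (ht he)⟩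
    exact conn_trans c1 (conn_trans c3 (conn_symm c2))

/-- iteration over nested sets -/
theorem shells {x c : ℝ} (hx0 : 0 < x) (hx1 : x < 1) (hc0 : c ≤ 1) {E : Finset (Ed d)}
    (A : Vx d → ZMod 2) (V : ℕ → Finset (Vx d)) (N : ℕ) (hV : ∀ i < N, V i ⊆ V (i + 1))
    (hnb : ∀ i < N, ∀ u ∈ V i, ∀ v, adj (Set.univ : Set (Ed d)) u v → v ∈ V (i + 1))
    (hE : ∀ i < N, edg (V (i + 1) \ V i) ⊆ E) (hZ : ∀ i < N, ZB x c (V (i + 1) \ V i))
    {a b : Vx d} (ha : a ∈ V 0) (hb : b ∈ V 0) :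
    FW x E A (fun ω => ind (LL (V N) a b ω)) ≤ (1 - c) ^ N * FW x E A (fun _ => 1) := by
  have hmem : ∀ i ≤ N, a ∈ V i ∧ b ∈ V i := by
    intro i
    induction i with
    | zero => exact fun _ => ⟨ha, hb⟩
    | succ i ih => exact fun h => ⟨hV i h (ih (Nat.le_of_succ_le h)).1,
        hV i h (ih (Nat.le_of_succ_le h)).2⟩
  have key : ∀ i ≤ N, FW x E A (fun ω => ind (LL (V i) a b ω)) ≤
      (1 - c) ^ i * FW x E A (fun _ => 1) := by
    intro i
    induction i with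
    | zero =>
      intro _
      rw [pow_zero, one_mul]
      exact FW_mono hx0 hx1 E A fun ω _ => ind_le_one _
    | succ i ih =>
      intro h
      have h1 := shell_step hx0 hx1 A (hV i h) (hnb i h) (hE i h) (hZ i h) hc0
        (hmem i (Nat.le_of_succ_le h)).1 (hmem i (Nat.le_of_succ_le h)).2
      refine h1.trans ?_
      rw [pow_succ, mul_comm ((1 - c) ^ i), mul_assoc]
      exact mul_le_mul_of_nonneg_left (ih (Nat.le_of_succ_le h)) (by linarith)
  exact key N le_rfl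

/-! ## Independent attempts in disjoint sets -/

theorem tries {x c : ℝ} (hx0 : 0 < x) (hx1 : x < 1) (hc0 : c ≤ 1) {E : Finset (Ed d)}
    (A : Vx d → ZMod 2) (T : ℕ → Finset (Vx d)) (u v : ℕ → Vx d) (N : ℕ)
    (hd : ∀ i j, i < N → j < N → i ≠ j → Disjoint (T i) (T j)) (hE : ∀ i < N, edg (T i) ⊆ E)
    (hZ : ∀ i < N, ZB x c (T i)) (hu : ∀ i < N, u i ∈ T i) (hv : ∀ i < N, v i ∈ T i) :
    FW x E A (fun ω => ind (∀ i < N, ¬ conn (↑(ω ∩ edg (T i)) : Set (Ed d)) (u i) (v i))) ≤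
      (1 - c) ^ N * FW x E A (fun _ => 1) := by
  classical
  have key : ∀ k ≤ N, FW x E A (fun ω => ind (∀ i < k, ¬ conn (↑(ω ∩ edg (T i)) : Set (Ed d))
      (u i) (v i))) ≤ (1 - c) ^ k * FW x E A (fun _ => 1) := by
    intro k
    induction k with
    | zero =>
      intro _
      rw [pow_zero, one_mul]
      exact FW_mono hx0 hx1 E A fun ω _ => ind_le_one _
    | succ k ih =>
      intro hk
      have hk' : k < N := hk
      have h1 := step (δ := (bde : Ed d → Vx d → ZMod 2)) two_fun (hE k hk') (x := fun _ => x)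
        (fun _ _ => hx0) (fun _ _ => hx1) A
        (fun ω => ∀ i < k, ¬ conn (↑(ω ∩ edg (T i)) : Set (Ed d)) (u i) (v i))
        (fun ω => ∀ i < k + 1, ¬ conn (↑(ω ∩ edg (T i)) : Set (Ed d)) (u i) (v i)) (c := c) ?_ ?_
      · refine h1.trans ?_
        rw [pow_succ, mul_comm ((1 - c) ^ k), mul_assoc]
        refine mul_le_mul_of_nonneg_left ?_ (by linarith)
        refine le_trans ?_ (ih (Nat.le_of_succ_le hk))
        refine FW_mono hx0 hx1 E A fun ω _ => ind_mono ?_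
        intro h2 i hi h3
        refine h2 i hi (conn_mono (fun e he => ?_) h3)
        rw [Finset.mem_coe, Finset.mem_inter] at he
        rw [Finset.mem_coe, Finset.mem_inter, Finset.mem_sdiff]
        refine ⟨⟨he.1, fun h4 => ?_⟩, he.2⟩
        have h5 := (mem_edg _ _).mp he.2
        have h6 := (mem_edg _ _).mp h4
        exact Finset.disjoint_left.mp (hd i k (hi.trans hk') hk' hi.ne) h5.1 h6.1
      · intro ω _ h2 i hi h3
        refine h2 i (hi.trans (Nat.lt_succ_self k)) (conn_mono (fun e he => ?_) h3)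
        rw [Finset.mem_coe, Finset.mem_inter, Finset.mem_sdiff] at he
        rw [Finset.mem_coe, Finset.mem_inter]
        exact ⟨he.1.1, he.2⟩
      · intro w _ _
        refine ⟨pt (u k) (v k), hZ k hk' _ (hu k hk') _ (hv k hk'), fun t ht hF h2 => ?_⟩
        rw [FF_pt_iff] at hF
        refine h2 k (Nat.lt_succ_self k) (conn_mono (fun e he => ?_) hF)
        rw [Finset.mem_coe] at he
        rw [Finset.mem_coe, Finset.mem_inter, Finset.mem_union]
        exact ⟨Or.inr he, ht he⟩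
  exact key N le_rfl

/-! ## Balls, shells, slabs -/

theorem mem_ball {u v : Vx d} {r : ℕ} : v ∈ ball u r ↔ ∀ k, |v k - u k| ≤ (r : ℤ) := by
  unfold ball
  rw [Finset.mem_Icc, Pi.le_def, Pi.le_def]
  constructor
  · rintro ⟨h1, h2⟩ k
    have := h1 k
    have := h2 k
    rw [abs_le]
    constructor <;> linarith
  · intro h
    constructor <;> intro k
    · have := (abs_le.mp (h k)).1
      show u k - (r : ℤ) ≤ v k
      linarith
    · have := (abs_le.mp (h k)).2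
      show v k ≤ u k + (r : ℤ)
      linarith

theorem self_ball (u : Vx d) (r : ℕ) : u ∈ ball u r := by
  rw [mem_ball]
  intro k
  rw [sub_self, abs_zero]
  exact Int.natCast_nonneg r

theorem ball_ball {u v w : Vx d} {r s : ℕ} (h1 : v ∈ ball u r) (h2 : w ∈ ball v s) :
    w ∈ ball u (r + s) := by
  rw [mem_ball] at h1 h2 ⊢
  intro k
  have e : w k - u k = (v k - u k) + (w k - v k) := by ring
  rw [e]
  refine (abs_add_le _ _).trans ?_
  push_cast
  linarith [h1 k, h2 k]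

theorem ball_symm {u v : Vx d} {r : ℕ} (h : v ∈ ball u r) : u ∈ ball v r := by
  rw [mem_ball] at h ⊢
  intro k
  rw [abs_sub_comm]
  exact h k

theorem ball_le {u v : Vx d} {r s : ℕ} (hrs : r ≤ s) (h : v ∈ ball u r) : v ∈ ball u s := by
  rw [mem_ball] at h ⊢
  intro k
  have : (r : ℤ) ≤ s := by exact_mod_cast hrs
  exact (h k).trans this

theorem adj_ball {ω : Set (Ed d)} {u v : Vx d} (h : adj ω u v) : v ∈ ball u 1 := by
  rw [mem_ball]
  intro k
  obtain ⟨i, ⟨_, rfl⟩ | ⟨_, rfl⟩⟩ := h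
  · show |u k + uv i k - u k| ≤ _
    unfold uv
    rw [add_sub_cancel_left, Pi.single_apply]
    split_ifs <;> simp
  · show |v k - (v k + uv i k)| ≤ _
    unfold uv
    rw [sub_add_cancel_left, abs_neg, Pi.single_apply]
    split_ifs <;> simp

theorem edg_mono {S T : Finset (Vx d)} (h : S ⊆ T) : edg S ⊆ edg T := by
  intro e he
  rw [mem_edg] at he ⊢
  exact ⟨h he.1, h he.2⟩

theorem conn_edg_mono {ω : Finset (Ed d)} {S T : Finset (Vx d)} (h : S ⊆ T) {u v : Vx d}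
    (hc : conn (↑(ω ∩ edg S) : Set (Ed d)) u v) : conn (↑(ω ∩ edg T) : Set (Ed d)) u v := by
  refine conn_mono (fun e he => ?_) hc
  rw [Finset.mem_coe, Finset.mem_inter] at he ⊢
  exact ⟨he.1, edg_mono h he.2⟩

/-- two-point functions in all shells of thickness `K` are at least `c` -/
def ShZ (d : ℕ) (x c : ℝ) (K : ℕ) : Prop :=
  ∀ (o : Vx d) (r : ℕ), ZB x c (ball o (r + K) \ ball o r)

/-- the slab of thickness `K` in direction `k0` and side `L` in the other directions, corner `a` -/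
noncomputable def slb (k0 : Fin d) (a : Vx d) (K L : ℕ) : Finset (Vx d) :=
  Finset.Icc a (fun k => a k + ((if k = k0 then K else L : ℕ) : ℤ) - 1)

/-- two-point functions in all slabs of thickness `K` are at least `c` -/
def SlZ (d : ℕ) (x c : ℝ) (K : ℕ) : Prop :=
  ∀ (k0 : Fin d) (a : Vx d) (L : ℕ), K ≤ L → ZB x c (slb k0 a K L)

/-- two crossing points at distance at most `4 m` are connected inside the ball of radius `l` -/
theorem pair_bound {x c : ℝ} {K : ℕ} (hx0 : 0 < x) (hx1 : x < 1) (hc1 : c ≤ 1) (hK : 1 ≤ K)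
    (hS : ShZ d x c K) {E : Finset (Ed d)} (A : Vx d → ZMod 2) {p p' : Vx d} {m l N : ℕ}
    (hp : p' ∈ ball p (4 * m)) (hN : 8 * m + N * K < l) (hE : edg (ball p l) ⊆ E) :
    FW x E A (fun ω => ind (Cr l p ω ∧ Cr l p' ω ∧
      ¬ conn (↑(ω ∩ edg (ball p l)) : Set (Ed d)) p p')) ≤ (1 - c) ^ N * FW x E A (fun _ => 1) := by
  have hV : ∀ i j : ℕ, i ≤ j → ball p (4 * m + i * K) ⊆ ball p (4 * m + j * K) := by
    intro i j hij v hv
    exact ball_le (Nat.add_le_add_left (Nat.mul_le_mul_right K hij) _) hv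
  have hVl : ∀ i ≤ N, ball p (4 * m + i * K) ⊆ ball p l := by
    intro i hi v hv
    have := Nat.mul_le_mul_right K hi
    exact ball_le (by omega) hv
  have key := shells (E := E) hx0 hx1 hc1 A (fun i => ball p (4 * m + i * K)) N
    (fun i _ => hV i (i + 1) (Nat.le_succ i)) ?_ ?_ ?_ (a := p) (b := p') (self_ball p _) ?_
  · refine (FW_mono hx0 hx1 E A fun ω _ => ind_mono ?_).trans key
    rintro ⟨h1, h2, h3⟩
    have hfar : ∀ (q y : Vx d) (k : Fin d), q ∈ ball p (4 * m) → |y k - q k| = (l : ℤ) →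
        y ∉ ball p (4 * m + N * K) := by
      intro q y k hq hy hb
      rw [mem_ball] at hq hb
      have a1 := hq k
      have a2 := hb k
      have a3 : |y k - q k| ≤ |y k - p k| + |q k - p k| := by
        have e : y k - q k = (y k - p k) - (q k - p k) := by ring
        rw [e]
        exact abs_sub _ _
      rw [hy] at a3
      have a4 : ((8 * m + N * K : ℕ) : ℤ) < (l : ℤ) := by exact_mod_cast hN
      push_cast at a1 a2 a4
      linarith
    refine ⟨?_, ?_, fun h4 => h3 (conn_edg_mono (hVl N le_rfl) h4)⟩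
    · obtain ⟨y, _, ⟨k, hk⟩, hy⟩ := h1
      exact ⟨y, hfar p y k (self_ball p _) hk,
        conn_mono (Finset.coe_subset.mpr Finset.inter_subset_left) hy⟩
    · obtain ⟨y, _, ⟨k, hk⟩, hy⟩ := h2
      exact ⟨y, hfar p' y k hp hk,
        conn_mono (Finset.coe_subset.mpr Finset.inter_subset_left) hy⟩
  · intro i _ u hu v hv
    have h1 := ball_ball hu (adj_ball hv)
    refine ball_le ?_ h1
    rw [Nat.add_mul, one_mul]
    omega
  · intro i hi
    refine (edg_mono ?_).trans hE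
    exact Finset.sdiff_subset.trans (hVl (i + 1) hi)
  · intro i _
    have h1 := hS p (4 * m + i * K)
    have e : 4 * m + i * K + K = 4 * m + (i + 1) * K := by ring
    rw [e] at h1
    exact h1
  · show p' ∈ ball p (4 * m + 0 * K)
    rw [zero_mul, add_zero]
    exact hp

/-- the ball of radius `m` contains a crossing point -/
theorem point_bound {x c : ℝ} {K : ℕ} (hd : 2 ≤ d) (hx0 : 0 < x) (hx1 : x < 1) (hc1 : c ≤ 1)
    (hK : 1 ≤ K) (hS : SlZ d x c K) {E : Finset (Ed d)} (A : Vx d → ZMod 2) (p : Vx d)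
    {m l N : ℕ} (hN : N * K ≤ 2 * m + 1) (hml : m ≤ l) (hKl : K ≤ l + 1)
    (hE : edg (ball p l) ⊆ E) :
    FW x E A (fun ω => ind (∀ q ∈ ball p m, ¬ Cr l q ω)) ≤ (1 - c) ^ N * FW x E A (fun _ => 1) := by
  obtain ⟨k0, k1, hk⟩ : ∃ k0 k1 : Fin d, k1 ≠ k0 :=
    ⟨⟨0, by omega⟩, ⟨1, by omega⟩, by
      intro h
      have := congrArg Fin.val h
      simp at this⟩
  set a : ℕ → Vx d := fun j k => if k = k0 then p k - m + (j : ℤ) * K else p k with ha
  set v : ℕ → Vx d := fun j k => if k = k1 then a j k + l else a j k with hv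
  have hjN : ∀ j < N, ((j : ℤ) + 1) * K ≤ 2 * m + 1 := by
    intro j hj
    have h1 : (j + 1) * K ≤ 2 * m + 1 := (Nat.mul_le_mul_right K hj).trans hN
    exact_mod_cast h1
  have hKz : (1 : ℤ) ≤ K := by exact_mod_cast hK
  have hmlz : (m : ℤ) ≤ l := by exact_mod_cast hml
  have hKlz : (K : ℤ) ≤ l + 1 := by exact_mod_cast hKl
  have hmem : ∀ (j : ℕ) (y : Vx d), y ∈ slb k0 (a j) K (l + 1) ↔ ∀ k, a j k ≤ y k ∧
      y k ≤ a j k + ((if k = k0 then K else l + 1 : ℕ) : ℤ) - 1 := by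
    intro j y
    unfold slb
    rw [Finset.mem_Icc, Pi.le_def, Pi.le_def]
    exact ⟨fun h k => ⟨h.1 k, h.2 k⟩, fun h => ⟨fun k => (h k).1, fun k => (h k).2⟩⟩
  have hTa : ∀ j < N, slb k0 (a j) K (l + 1) ⊆ ball (a j) l := by
    intro j _ y hy
    rw [hmem] at hy
    rw [mem_ball]
    intro k
    have h1 := hy k
    rw [abs_le]
    by_cases h2 : k = k0
    · rw [if_pos h2] at h1
      constructor <;> linarith
    · rw [if_neg h2] at h1
      push_cast at h1
      constructor <;> linarith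
  have hTp : ∀ j < N, slb k0 (a j) K (l + 1) ⊆ ball p l := by
    intro j hj y hy
    rw [hmem] at hy
    rw [mem_ball]
    intro k
    have h1 := hy k
    have h3 := hjN j hj
    have h4 : (0 : ℤ) ≤ (j : ℤ) * K := mul_nonneg (Int.natCast_nonneg j) (by linarith)
    rw [abs_le]
    by_cases h2 : k = k0
    · rw [if_pos h2] at h1
      have h5 : a j k = p k - m + (j : ℤ) * K := if_pos h2
      rw [h5] at h1
      have h6 : ((j : ℤ) + 1) * K = (j : ℤ) * K + K := by ring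
      rw [h6] at h3
      constructor <;> linarith
    · rw [if_neg h2] at h1
      have h5 : a j k = p k := if_neg h2
      rw [h5] at h1
      push_cast at h1
      constructor <;> linarith
  have key := tries (E := E) hx0 hx1 hc1 A (fun j => slb k0 (a j) K (l + 1)) a v N ?_ ?_ ?_ ?_ ?_
  · refine (FW_mono hx0 hx1 E A fun ω _ => ind_mono ?_).trans key
    intro h1 j hj h2
    refine h1 (a j) ?_ ⟨v j, hTa j hj ?_, ⟨k1, ?_⟩, conn_edg_mono (hTa j hj) h2⟩
    · rw [mem_ball]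
      intro k
      have h3 := hjN j hj
      have h4 : (0 : ℤ) ≤ (j : ℤ) * K := mul_nonneg (Int.natCast_nonneg j) (by linarith)
      have h6 : ((j : ℤ) + 1) * K = (j : ℤ) * K + K := by ring
      rw [h6] at h3
      by_cases h5 : k = k0
      · have h7 : a j k = p k - m + (j : ℤ) * K := if_pos h5
        rw [h7, abs_le]
        constructor <;> linarith
      · have h7 : a j k = p k := if_neg h5
        rw [h7, sub_self, abs_zero]
        exact Int.natCast_nonneg m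
    · rw [hmem]
      intro k
      by_cases h3 : k = k1
      · have h4 : v j k = a j k + l := if_pos h3
        have h5 : k ≠ k0 := by rw [h3]; exact hk
        rw [h4, if_neg h5]
        push_cast
        constructor <;> linarith [Int.natCast_nonneg l]
      · have h4 : v j k = a j k := if_neg h3
        rw [h4]
        refine ⟨le_rfl, ?_⟩
        split_ifs
        · linarith
        · push_cast
          linarith [Int.natCast_nonneg l]
    · have h4 : v j k1 = a j k1 + l := if_pos rfl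
      rw [h4, add_sub_cancel_left]
      exact abs_of_nonneg (Int.natCast_nonneg l)
  · intro i j hi hj hij
    rw [Finset.disjoint_left]
    intro y hy hy'
    have h1 := (hmem i y).mp hy k0
    have h2 := (hmem j y).mp hy' k0
    rw [if_pos rfl] at h1 h2
    have e1 : a i k0 = p k0 - m + (i : ℤ) * K := if_pos rfl
    have e2 : a j k0 = p k0 - m + (j : ℤ) * K := if_pos rfl
    rw [e1] at h1
    rw [e2] at h2
    rcases Nat.lt_or_gt_of_ne hij with h3 | h3
    · have h4 : ((i : ℤ) + 1) * K ≤ (j : ℤ) * K :=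
        mul_le_mul_of_nonneg_right (by exact_mod_cast h3) (by linarith)
      have h6 : ((i : ℤ) + 1) * K = (i : ℤ) * K + K := by ring
      rw [h6] at h4
      linarith [h1.2, h2.1]
    · have h4 : ((j : ℤ) + 1) * K ≤ (i : ℤ) * K :=
        mul_le_mul_of_nonneg_right (by exact_mod_cast h3) (by linarith)
      have h6 : ((j : ℤ) + 1) * K = (j : ℤ) * K + K := by ring
      rw [h6] at h4
      linarith [h1.1, h2.2]
  · intro j hj
    exact (edg_mono (hTp j hj)).trans hE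
  · intro j _
    exact hS k0 (a j) (l + 1) hKl
  · intro j _
    rw [hmem]
    intro k
    refine ⟨le_rfl, ?_⟩
    split_ifs
    · linarith
    · push_cast
      linarith [Int.natCast_nonneg l]
  · intro j _
    rw [hmem]
    intro k
    by_cases h3 : k = k1
    · have h4 : v j k = a j k + l := if_pos h3
      have h5 : k ≠ k0 := by rw [h3]; exact hk
      rw [h4, if_neg h5]
      push_cast
      constructor <;> linarith [Int.natCast_nonneg l]
    · have h4 : v j k = a j k := if_neg h3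
      rw [h4]
      refine ⟨le_rfl, ?_⟩
      split_ifs
      · linarith
      · push_cast
        linarith [Int.natCast_nonneg l]

/-! ## The chain -/

/-- neighbourhood -/
noncomputable def nb (Q : Finset (Vx d)) (r : ℕ) : Finset (Vx d) := by
  classical exact Q.biUnion (fun q => ball q r)

theorem ball_nb {Q : Finset (Vx d)} {q : Vx d} (hq : q ∈ Q) (r : ℕ) : ball q r ⊆ nb Q r := by
  classical
  unfold nb
  exact Finset.subset_biUnion_of_mem (fun q => ball q r) hq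

theorem chain {Q : Finset (Vx d)} (hQ : Cnn Q) {m l : ℕ} (hm : 1 ≤ m)
    {ω : Finset (Ed d)} (h1 : ∀ q ∈ Q, ∃ p ∈ ball q m, Cr l p ω)
    (h2 : ∀ q ∈ Q, ∀ p ∈ ball q m, ∀ p' ∈ ball p (4 * m), Cr l p ω → Cr l p' ω →
      conn (↑(ω ∩ edg (ball p l)) : Set (Ed d)) p p') {u v : Vx d} (hu : u ∈ Q) (hv : v ∈ Q)
    (hcu : Cr l u ω) (hcv : Cr l v ω) : conn (↑(ω ∩ edg (nb Q (m + l))) : Set (Ed d)) u v := by
  have hsub : ∀ q ∈ Q, ∀ p ∈ ball q m, ball p l ⊆ nb Q (m + l) := by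
    intro q hq p hp y hy
    exact ball_nb hq (m + l) (ball_ball hp hy)
  have key : ∀ q, conn (↑(edg Q) : Set (Ed d)) u q → q ∈ Q ∧ ∀ p ∈ ball q m, Cr l p ω →
      conn (↑(ω ∩ edg (nb Q (m + l))) : Set (Ed d)) u p := by
    intro q hq
    unfold conn at hq
    induction hq with
    | refl =>
      refine ⟨hu, fun p hp hc => ?_⟩
      exact conn_edg_mono (hsub u hu u (self_ball u m))
        (h2 u hu u (self_ball u m) p (ball_le (by omega) hp) hcu hc)
    | @tail b c hb hbc ih =>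
      obtain ⟨e, he, h3⟩ := adj_iff.mp hbc
      rw [Finset.mem_coe, mem_edg] at he
      have hcQ : c ∈ Q := by
        rcases h3 with ⟨_, h5⟩ | ⟨h4, _⟩
        · rw [← h5]; exact he.2
        · rw [← h4]; exact he.1
      refine ⟨hcQ, fun p' hp' hc => ?_⟩
      obtain ⟨p, hp, hpc⟩ := h1 b ih.1
      have h5 := ih.2 p hp hpc
      have h6 : p' ∈ ball p (4 * m) := by
        have h7 := ball_ball (ball_ball (ball_symm hp) (adj_ball hbc)) hp'
        exact ball_le (by omega) h7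
      exact conn_trans h5 (conn_edg_mono (hsub b ih.1 p hp) (h2 b ih.1 p hp p' h6 hpc hc))
  exact (key v (hQ u hu v hv)).2 v (self_ball v m) hcv

/-- local uniqueness and density of crossing points -/
def LUn (Q : Finset (Vx d)) (m l : ℕ) (ω : Finset (Ed d)) : Prop :=
  (∀ q ∈ Q, ∃ p ∈ ball q m, Cr l p ω) ∧ ∀ u ∈ Q, ∀ v ∈ Q, Cr l u ω → Cr l v ω →
    conn (↑(ω ∩ edg (nb Q (m + l))) : Set (Ed d)) u v

theorem card_ball (v : Vx d) (r : ℕ) : (ball v r).card = (2 * r + 1) ^ d := by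
  unfold ball
  rw [Pi.card_Icc]
  have h : ∀ k ∈ (Finset.univ : Finset (Fin d)),
      (Finset.Icc (v k - (r : ℤ)) (v k + (r : ℤ))).card = 2 * r + 1 := by
    intro k _
    rw [Int.card_Icc]
    have : v k + (r : ℤ) + 1 - (v k - (r : ℤ)) = ((2 * r + 1 : ℕ) : ℤ) := by
      push_cast
      ring
    rw [this, Int.toNat_natCast]
  rw [Finset.prod_congr rfl h, Finset.prod_const, Finset.card_univ, Fintype.card_fin]

/-- MAIN LOCAL ESTIMATE -/
theorem loc {x c : ℝ} {K K' : ℕ} (hd : 2 ≤ d) (hx0 : 0 < x) (hx1 : x < 1) (hc1 : c ≤ 1)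
    (hK : 1 ≤ K) (hK' : 1 ≤ K') (hSh : ShZ d x c K) (hSl : SlZ d x c K') {E : Finset (Ed d)}
    (A : Vx d → ZMod 2) {Q : Finset (Vx d)} (hQ : Cnn Q) {m l N1 N2 : ℕ} (hm : 1 ≤ m)
    (hN1 : 8 * m + N1 * K < l) (hN2 : N2 * K' ≤ 2 * m + 1) (hKl : K' ≤ l + 1)
    (hE : ∀ q ∈ Q, edg (ball q (m + l)) ⊆ E) :
    FW x E A (fun ω => ind (¬ LUn Q m l ω)) ≤
      (Q.card * ((2 * m + 1) ^ d * ((8 * m + 1) ^ d * (1 - c) ^ N1) + (1 - c) ^ N2) : ℝ) *
        FW x E A (fun _ => 1) := by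
  classical
  have hF : 0 ≤ FW x E A (fun _ => 1) := FW_nonneg hx0 hx1 E A fun _ _ => zero_le_one
  have h0 : ∀ ω, ω ⊆ E → ¬ LUn Q m l ω → ∃ q ∈ Q, (∀ p ∈ ball q m, ¬ Cr l p ω) ∨
      ∃ p ∈ ball q m, ∃ p' ∈ ball p (4 * m), Cr l p ω ∧ Cr l p' ω ∧
        ¬ conn (↑(ω ∩ edg (ball p l)) : Set (Ed d)) p p' := by
    intro ω _ h
    by_contra hc
    push Not at hc
    refine h ⟨fun q hq => ?_, fun u hu v hv hcu hcv => ?_⟩
    · obtain ⟨p, hp, h1⟩ := (hc q hq).1
      exact ⟨p, hp, h1⟩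
    · refine chain hQ hm (fun q hq => ?_) (fun q hq p hp p' hp' h1 h2 => ?_) hu hv hcu hcv
      · obtain ⟨p, hp, h1⟩ := (hc q hq).1
        exact ⟨p, hp, h1⟩
      · exact (hc q hq).2 p hp p' hp' h1 h2
  refine (FW_union hx0 hx1 E A Q _ _ h0).trans ?_
  have h1 : ∀ q ∈ Q, FW x E A (fun ω => ind ((∀ p ∈ ball q m, ¬ Cr l p ω) ∨
      ∃ p ∈ ball q m, ∃ p' ∈ ball p (4 * m), Cr l p ω ∧ Cr l p' ω ∧
        ¬ conn (↑(ω ∩ edg (ball p l)) : Set (Ed d)) p p')) ≤
      ((2 * m + 1) ^ d * ((8 * m + 1) ^ d * (1 - c) ^ N1) + (1 - c) ^ N2 : ℝ) *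
        FW x E A (fun _ => 1) := by
    intro q hq
    have hEq := hE q hq
    have a1 : FW x E A (fun ω => ind (∀ p ∈ ball q m, ¬ Cr l p ω)) ≤
        (1 - c) ^ N2 * FW x E A (fun _ => 1) :=
      point_bound hd hx0 hx1 hc1 hK' hSl A q hN2 (by omega) hKl
        ((edg_mono fun v hv => ball_le (Nat.le_add_left l m) hv).trans hEq)
    have a2 : FW x E A (fun ω => ind (∃ p ∈ ball q m, ∃ p' ∈ ball p (4 * m), Cr l p ω ∧
        Cr l p' ω ∧ ¬ conn (↑(ω ∩ edg (ball p l)) : Set (Ed d)) p p')) ≤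
        (2 * m + 1) ^ d * ((8 * m + 1) ^ d * (1 - c) ^ N1) * FW x E A (fun _ => 1) := by
      refine (FW_union hx0 hx1 E A (ball q m) _ (fun p ω => ∃ p' ∈ ball p (4 * m), Cr l p ω ∧
        Cr l p' ω ∧ ¬ conn (↑(ω ∩ edg (ball p l)) : Set (Ed d)) p p') fun ω _ h => h).trans ?_
      have a3 : ∀ p ∈ ball q m, FW x E A (fun ω => ind (∃ p' ∈ ball p (4 * m), Cr l p ω ∧
          Cr l p' ω ∧ ¬ conn (↑(ω ∩ edg (ball p l)) : Set (Ed d)) p p')) ≤
          (8 * m + 1) ^ d * (1 - c) ^ N1 * FW x E A (fun _ => 1) := by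
        intro p hp
        have hEp : edg (ball p l) ⊆ E := (edg_mono fun v hv => ball_ball hp hv).trans hEq
        refine (FW_union hx0 hx1 E A (ball p (4 * m)) _ (fun p' ω => Cr l p ω ∧
          Cr l p' ω ∧ ¬ conn (↑(ω ∩ edg (ball p l)) : Set (Ed d)) p p') fun ω _ h => h).trans ?_
        refine (Finset.sum_le_sum fun p' hp' =>
          pair_bound hx0 hx1 hc1 hK hSh A hp' hN1 hEp).trans ?_
        rw [Finset.sum_const, card_ball, nsmul_eq_mul]
        have e : 2 * (4 * m) + 1 = 8 * m + 1 := by ring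
        rw [e]
        push_cast
        rw [mul_assoc]
      refine (Finset.sum_le_sum a3).trans ?_
      rw [Finset.sum_const, card_ball, nsmul_eq_mul]
      push_cast
      rw [mul_assoc, mul_assoc, mul_assoc]
    refine (FW_mono hx0 hx1 E A (g := fun ω => ind (∀ p ∈ ball q m, ¬ Cr l p ω) +
      ind (∃ p ∈ ball q m, ∃ p' ∈ ball p (4 * m), Cr l p ω ∧
        Cr l p' ω ∧ ¬ conn (↑(ω ∩ edg (ball p l)) : Set (Ed d)) p p')) fun ω _ =>
          ind_or_le _ _).trans ?_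
    rw [FW_add]
    linarith
  refine (Finset.sum_le_sum h1).trans ?_
  rw [Finset.sum_const, nsmul_eq_mul, mul_assoc]

end Pool.Agent.Fac.Lc
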