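import Pool.Agent.Fac.Defs
import Pool.Agent.Lat.Giant

/-!
# The giant component of the complement of a set with small star clusters

`giant`: if `B` contains no star path with `h` distinct points, then in a box of `ℤ ^ d` (`d ≥ 2`)
with sides at least `h + 1` the complement of `B` has a component which meets every connected set of
diameter at least `h`.
-/

set_option autoImplicit false

namespace Pool.Agent.Fac

open Finset Relation
open Pool.Agent.SRC
open Pool.Agent.Lat (st nn Conn Small path_mem exists_giant)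

variable {d : ℕ}

/-- The graph of the star neighbours in `S`. -/
private def stG (S : Set (Vx d)) : SimpleGraph (Vx d) where
  Adj u v := u ≠ v ∧ st u v ∧ u ∈ S ∧ v ∈ S
  symm := ⟨fun u v h => ⟨h.1.symm, fun i => by rw [abs_sub_comm]; exact h.2.1 i, h.2.2.2, h.2.2.1⟩⟩
  loopless := ⟨fun _ h => h.1 rfl⟩

private theorem walk_len (S : Set (Vx d)) {x y : Vx d} (p : (stG S).Walk x y) (i : Fin d) :
    |x i - y i| ≤ p.length := by
  induction p with
  | nil => simp
  | cons h p ih =>
    rename_i u v w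
    rw [SimpleGraph.Walk.length_cons]
    have h1 := h.2.1 i
    rw [abs_le] at h1 ih ⊢
    push_cast
    omega

private theorem walk_mem (S : Set (Vx d)) {x y : Vx d} (p : (stG S).Walk x y) (hy : y ∈ S) :
    ∀ z ∈ p.support, z ∈ S := by
  induction p with
  | nil => intro z hz; simp at hz; rw [hz]; exact hy
  | cons h p ih =>
    intro z hz
    rw [SimpleGraph.Walk.support_cons, List.mem_cons] at hz
    rcases hz with hz | hz
    · rw [hz]; exact h.2.2.1
    · exact ih hy z hz

theorem small_of_sm {h : ℕ} {B : Finset (Vx d)} (hB : Sm h B) : Small h (↑B : Set (Vx d)) := by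
  classical
  intro S hSB _ hS x hx y hy i
  by_contra hcon
  push Not at hcon
  have hr : (stG S).Reachable x y := by
    have key : ∀ z, ReflTransGen (fun u v => st u v ∧ v ∈ S) x z → (stG S).Reachable x z := by
      intro z hz
      induction hz with
      | refl => exact SimpleGraph.Reachable.refl _
      | tail hab hbc ih =>
        rename_i b c
        by_cases hbc' : b = c
        · rw [← hbc']; exact ih
        · exact ih.trans (SimpleGraph.Adj.reachable ⟨hbc', hbc.1, path_mem hx hab, hbc.2⟩)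
    exact key y (hS x hx y hy)
  obtain ⟨p, hp⟩ := hr.exists_isPath
  have h1 := walk_len S p i
  have h2 : h ≤ p.length := by
    have : (h : ℤ) ≤ p.length := le_trans hcon h1
    omega
  obtain ⟨j, hj, hjB⟩ := hB (fun j => p.getVert j)
    ⟨fun a b ha hb hab => hp.getVert_injOn (by simp; omega) (by simp; omega) hab,
      fun a ha => (p.adj_getVert_succ (by omega)).2.1⟩
  exact hjB (hSB (walk_mem S p hy _ (p.getVert_mem_support j)))

theorem mem_edg' {X : Finset (Vx d)} {u : Vx d} {i : Fin d} :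
    (u, i) ∈ (↑(edg X) : Set (Ed d)) ↔ u ∈ X ∧ u + uv i ∈ X := by
  simp [edg, tip]

theorem adj_edg {X : Finset (Vx d)} {u v : Vx d} :
    adj (↑(edg X) : Set (Ed d)) u v ↔ nn u v ∧ u ∈ X ∧ v ∈ X := by
  unfold adj nn
  constructor
  · rintro ⟨i, h | h⟩
    · obtain ⟨h1, h2⟩ := mem_edg'.1 h.1
      refine ⟨⟨i, Or.inl h.2⟩, h1, ?_⟩
      rw [h.2]; exact h2
    · obtain ⟨h1, h2⟩ := mem_edg'.1 h.1
      refine ⟨⟨i, Or.inr h.2⟩, ?_, h1⟩
      rw [h.2]; exact h2
  · rintro ⟨⟨i, h | h⟩, hu, hv⟩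
    · refine ⟨i, Or.inl ⟨mem_edg'.2 ⟨hu, ?_⟩, h⟩⟩
      have h' : v = u + uv i := h
      rw [← h']; exact hv
    · refine ⟨i, Or.inr ⟨mem_edg'.2 ⟨hv, ?_⟩, h⟩⟩
      have h' : u = v + uv i := h
      rw [← h']; exact hu

theorem cnn_iff {X : Finset (Vx d)} : Cnn X ↔ Conn nn (↑X : Set (Vx d)) := by
  constructor
  · intro h x hx y hy
    have key : ∀ z, conn (↑(edg X) : Set (Ed d)) x z →
        ReflTransGen (fun u v => nn u v ∧ v ∈ (↑X : Set (Vx d))) x z := by
      intro z hz
      unfold conn at hz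
      induction hz with
      | refl => exact ReflTransGen.refl
      | tail _ hbc ih =>
        obtain ⟨h1, _, h3⟩ := adj_edg.1 hbc
        exact ReflTransGen.tail ih ⟨h1, h3⟩
    exact key y (h x hx y hy)
  · intro h x hx y hy
    have key : ∀ z, ReflTransGen (fun u v => nn u v ∧ v ∈ (↑X : Set (Vx d))) x z →
        conn (↑(edg X) : Set (Ed d)) x z := by
      intro z hz
      unfold conn
      induction hz with
      | refl => exact ReflTransGen.refl
      | tail hab hbc ih =>
        exact ReflTransGen.tail ih (adj_edg.2 ⟨hbc.1, path_mem (S := (↑X : Set (Vx d))) hx hab, hbc.2⟩)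
    exact key y (h x hx y hy)

theorem box_eq (lo hi : Vx d) :
    Lat.box lo (fun i => hi i + 1) = (↑(Finset.Icc lo hi) : Set (Vx d)) := by
  ext x
  simp only [Lat.box, Set.mem_setOf_eq, Finset.coe_Icc, Set.mem_Icc, Pi.le_def]
  constructor
  · intro h
    exact ⟨fun i => (h i).1, fun i => by have h1 : x i < hi i + 1 := (h i).2; omega⟩
  · intro h i
    have h1 := h.1 i
    have h2 := h.2 i
    exact ⟨h1, by show x i < hi i + 1; omega⟩

/-- THE GIANT COMPONENT. -/
theorem giant' (hd : 2 ≤ d) {h : ℕ} {lo hi : Vx d} (hb : ∀ k, lo k + (h : ℤ) + 1 ≤ hi k)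
    {B : Finset (Vx d)} (hB : Sm h B) :
    ∃ G, Giant h (Finset.Icc lo hi) B G := by
  classical
  have hi01 : (⟨0, by omega⟩ : Fin d) ≠ ⟨1, by omega⟩ := by
    intro h1
    rw [Fin.mk.injEq] at h1
    omega
  obtain ⟨T, h1, h2, h3, ⟨x, hx, y, hy, h4⟩, h5⟩ := exists_giant (a := lo) (b := fun i => hi i + 1)
    hi01 (fun i => by have := hb i; show lo i + h + 2 ≤ hi i + 1; omega) (small_of_sm hB)
  rw [box_eq] at h1 h3 h5
  have hTf : T.Finite := (Finset.finite_toSet (Finset.Icc lo hi)).subset fun z hz => (h1 hz).1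
  have hsub : hTf.toFinset ⊆ Finset.Icc lo hi \ B := by
    intro z hz
    have := h1 (hTf.mem_toFinset.1 hz)
    exact Finset.mem_sdiff.2 ⟨Finset.mem_coe.1 this.1, fun h => this.2 (Finset.mem_coe.2 h)⟩
  refine ⟨hTf.toFinset, hsub, ?_, ?_, ?_, ?_⟩
  · rw [cnn_iff, Set.Finite.coe_toFinset]
    exact h2
  · exact ⟨x, hTf.mem_toFinset.2 hx, y, hTf.mem_toFinset.2 hy, _, h4⟩
  · intro u hu v _ huv
    have key : ∀ w, conn (↑(edg (Finset.Icc lo hi \ B)) : Set (Ed d)) u w → w ∈ T := by
      intro w hw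
      unfold conn at hw
      induction hw with
      | refl => exact hTf.mem_toFinset.1 hu
      | tail _ hbc ih =>
        obtain ⟨e1, _, e3⟩ := adj_edg.1 hbc
        exact h3 _ ih _ ⟨Finset.mem_coe.2 (Finset.mem_sdiff.1 e3).1,
          fun h => (Finset.mem_sdiff.1 e3).2 (Finset.mem_coe.1 h)⟩ e1
    exact hTf.mem_toFinset.2 (key v huv)
  · intro U hU hUc hUd
    obtain ⟨p, hp, q, hq, i, hpq⟩ := hUd
    obtain ⟨z, hz1, hz2⟩ := h5 (↑U : Set (Vx d)) (fun z hz => Finset.mem_coe.2 (hU hz))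
      (cnn_iff.1 hUc) ⟨p, hp, q, hq, i, hpq⟩
    exact ⟨z, hz1, hTf.mem_toFinset.2 hz2⟩

theorem giant (hd : 2 ≤ d) {h : ℕ} (_hh : 1 ≤ h) {lo hi : Vx d} (hb : ∀ k, lo k + (h : ℤ) + 4 ≤ hi k)
    {B : Finset (Vx d)} (hB : Sm h B) (_hBL : B ⊆ Finset.Icc lo hi) :
    ∃ G, Giant h (Finset.Icc lo hi) B G :=
  giant' hd (fun k => by have := hb k; omega) hB

end Pool.Agent.Fac
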