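import Pool.Agent.Fac.Loc
import Pool.Agent.Fac.Top

/-!
# A block is good for the FK pair with probability close to one, for all sources (helper98)
-/

set_option autoImplicit false

namespace Pool.Agent.Fac.Lc

open Finset
open Pool.Agent.SRC
open Pool.Agent.FK1
open Pool.Agent.Fac

variable {d : ℕ}

/-- two-point functions in all cubes are at least `c` -/
def CuZ (d : ℕ) (x c : ℝ) : Prop := ∀ (v : Vx d) (l : ℕ), ZB x c (ball v l)

/-- a crossing point has conditional probability at least `c` -/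
theorem Cr_lower {x c : ℝ} (hd : 1 ≤ d) (hx0 : 0 < x) (hx1 : x < 1) (hCu : CuZ d x c)
    {E : Finset (Ed d)} (A : Vx d → ZMod 2) (v : Vx d) (l : ℕ) (hE : edg (ball v l) ⊆ E)
    (g : Finset (Ed d) → ℝ) (hg0 : ∀ ω, ω ⊆ E → 0 ≤ g ω)
    (hg : ∀ ω, ω ⊆ E → g ω = g (ω \ edg (ball v l))) :
    c * FW x E A g ≤ FW x E A (fun ω => g ω * ind (Cr l v ω)) := by
  set k0 : Fin d := ⟨0, hd⟩
  set y : Vx d := fun k => if k = k0 then v k + l else v k with hy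
  have hyb : y ∈ ball v l := by
    rw [mem_ball]
    intro k
    by_cases h : k = k0
    · have : y k = v k + l := if_pos h
      rw [this, add_sub_cancel_left, abs_of_nonneg (Int.natCast_nonneg l)]
    · have : y k = v k := if_neg h
      rw [this, sub_self, abs_zero]
      exact Int.natCast_nonneg l
  have hys : sph v l y := ⟨k0, by
    have : y k0 = v k0 + l := if_pos rfl
    rw [this, add_sub_cancel_left, abs_of_nonneg (Int.natCast_nonneg l)]⟩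
  have h1 := lower (δ := (bde : Ed d → Vx d → ZMod 2)) two_fun hE (x := fun _ => x)
    (fun _ _ => hx0) (fun _ _ => hx1) A (pt v y) (hCu v l v (self_ball v l) y hyb) g hg0 hg
  refine h1.trans (FW_mono hx0 hx1 E A fun ω hω => ?_)
  refine mul_le_mul_of_nonneg_left (ind_mono fun h => ?_) (hg0 ω hω)
  rw [FF_pt_iff] at h
  exact ⟨y, hyb, hys, h⟩

theorem FW_smul (x : ℝ) (E : Finset (Ed d)) (A : Vx d → ZMod 2) (c : ℝ) (f : Finset (Ed d) → ℝ) :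
    FW x E A (fun ω => c * f ω) = c * FW x E A f := by
  unfold FW
  rw [Finset.mul_sum]
  refine Finset.sum_congr rfl fun ω _ => ?_
  ring

theorem FW_sub (x : ℝ) (E : Finset (Ed d)) (A : Vx d → ZMod 2) (f g : Finset (Ed d) → ℝ) :
    FW x E A (fun ω => f ω - g ω) = FW x E A f - FW x E A g := by
  unfold FW
  rw [← Finset.sum_sub_distrib]
  refine Finset.sum_congr rfl fun ω _ => ?_
  ring

/-- two copies, arbitrary sources -/
noncomputable def F2 (x : ℝ) (E : Finset (Ed d)) (A1 A2 : Vx d → ZMod 2)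
    (f : Finset (Ed d) → Finset (Ed d) → ℝ) : ℝ :=
  FW x E A1 (fun ω1 => FW x E A2 (fun ω2 => f ω1 ω2))

theorem F2_mono {x : ℝ} (hx0 : 0 < x) (hx1 : x < 1) (E : Finset (Ed d)) (A1 A2 : Vx d → ZMod 2)
    {f g : Finset (Ed d) → Finset (Ed d) → ℝ} (h : ∀ ω1, ω1 ⊆ E → ∀ ω2, ω2 ⊆ E → f ω1 ω2 ≤ g ω1 ω2) :
    F2 x E A1 A2 f ≤ F2 x E A1 A2 g :=
  FW_mono hx0 hx1 E A1 fun ω1 h1 => FW_mono hx0 hx1 E A2 fun ω2 h2 => h ω1 h1 ω2 h2

theorem F2_sub (x : ℝ) (E : Finset (Ed d)) (A1 A2 : Vx d → ZMod 2)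
    (f g : Finset (Ed d) → Finset (Ed d) → ℝ) :
    F2 x E A1 A2 (fun ω1 ω2 => f ω1 ω2 - g ω1 ω2) = F2 x E A1 A2 f - F2 x E A1 A2 g := by
  unfold F2
  rw [← FW_sub]
  congr 1
  funext ω1
  rw [FW_sub]

theorem F2_add (x : ℝ) (E : Finset (Ed d)) (A1 A2 : Vx d → ZMod 2)
    (f g : Finset (Ed d) → Finset (Ed d) → ℝ) :
    F2 x E A1 A2 (fun ω1 ω2 => f ω1 ω2 + g ω1 ω2) = F2 x E A1 A2 f + F2 x E A1 A2 g := by
  unfold F2
  rw [← FW_add]
  congr 1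
  funext ω1
  rw [FW_add]

theorem F2_smul (x : ℝ) (E : Finset (Ed d)) (A1 A2 : Vx d → ZMod 2) (c : ℝ)
    (f : Finset (Ed d) → Finset (Ed d) → ℝ) :
    F2 x E A1 A2 (fun ω1 ω2 => c * f ω1 ω2) = c * F2 x E A1 A2 f := by
  unfold F2
  rw [← FW_smul]
  congr 1
  funext ω1
  rw [FW_smul]

theorem F2_sum {ι : Type*} (x : ℝ) (E : Finset (Ed d)) (A1 A2 : Vx d → ZMod 2) (s : Finset ι)
    (f : ι → Finset (Ed d) → Finset (Ed d) → ℝ) :
    F2 x E A1 A2 (fun ω1 ω2 => ∑ i ∈ s, f i ω1 ω2) = ∑ i ∈ s, F2 x E A1 A2 (f i) := by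
  unfold F2
  rw [← FW_sum]
  congr 1
  funext ω1
  rw [FW_sum]

theorem F2_one (x : ℝ) (E : Finset (Ed d)) (A1 A2 : Vx d → ZMod 2) :
    F2 x E A1 A2 (fun _ _ => 1) = FW x E A1 (fun _ => 1) * FW x E A2 (fun _ => 1) := by
  unfold F2
  have h : (fun _ : Finset (Ed d) => FW x E A2 (fun _ => 1)) =
      fun ω1 => FW x E A2 (fun _ => 1) * (fun _ : Finset (Ed d) => (1 : ℝ)) ω1 := by
    funext ω1
    rw [mul_one]
  rw [h, FW_smul, mul_comm]

theorem F2_left (x : ℝ) (E : Finset (Ed d)) (A1 A2 : Vx d → ZMod 2) (f : Finset (Ed d) → ℝ) :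
    F2 x E A1 A2 (fun ω1 _ => f ω1) = FW x E A1 f * FW x E A2 (fun _ => 1) := by
  unfold F2
  have h : (fun ω1 : Finset (Ed d) => FW x E A2 (fun _ => f ω1)) =
      fun ω1 => FW x E A2 (fun _ => 1) * f ω1 := by
    funext ω1
    have e : (fun _ : Finset (Ed d) => f ω1) = fun ω => f ω1 * (fun _ : Finset (Ed d) => (1 : ℝ)) ω := by
      funext ω
      rw [mul_one]
    rw [e, FW_smul, mul_comm]
  rw [h, FW_smul, mul_comm]

theorem F2_right (x : ℝ) (E : Finset (Ed d)) (A1 A2 : Vx d → ZMod 2) (f : Finset (Ed d) → ℝ) :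
    F2 x E A1 A2 (fun _ ω2 => f ω2) = FW x E A1 (fun _ => 1) * FW x E A2 f := by
  unfold F2
  have h : (fun _ : Finset (Ed d) => FW x E A2 (fun ω2 => f ω2)) =
      fun ω1 => FW x E A2 f * (fun _ : Finset (Ed d) => (1 : ℝ)) ω1 := by
    funext ω1
    rw [mul_one]
  rw [h, FW_smul, mul_comm]

/-- `Cr` depends only on the edges in the ball -/
theorem Cr_congr {l : ℕ} {v : Vx d} {ω ω' : Finset (Ed d)}
    (h : ω ∩ edg (ball v l) = ω' ∩ edg (ball v l)) : Cr l v ω ↔ Cr l v ω' := by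
  unfold Cr
  rw [h]

/-- the cell `w` is crossing in both copies -/
def JJ (l : ℕ) (w : Vx d) (ω1 ω2 : Finset (Ed d)) : Prop := Cr l (ce l w) ω1 ∧ Cr l (ce l w) ω2

theorem cell_disj {l : ℕ} {w w' : Vx d} (h : w ≠ w') : Disjoint (ball (ce l w) l) (ball (ce l w') l) := by
  rw [Finset.disjoint_left]
  intro y hy hy'
  rw [mem_ball] at hy hy'
  apply h
  funext k
  have h1 := abs_le.mp (hy k)
  have h2 := abs_le.mp (hy' k)
  have e1 : ce l w k = (2 * (l : ℤ) + 1) * w k := rfl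
  have e2 : ce l w' k = (2 * (l : ℤ) + 1) * w' k := rfl
  rw [e1] at h1
  rw [e2] at h2
  have hl : (0 : ℤ) ≤ l := Int.natCast_nonneg l
  rcases lt_trichotomy (w k) (w' k) with h3 | h3 | h3
  · exfalso
    have h4 : (2 * (l : ℤ) + 1) * (w k + 1) ≤ (2 * (l : ℤ) + 1) * w' k :=
      mul_le_mul_of_nonneg_left h3 (by linarith)
    linarith
  · exact h3
  · exfalso
    have h4 : (2 * (l : ℤ) + 1) * (w' k + 1) ≤ (2 * (l : ℤ) + 1) * w k :=
      mul_le_mul_of_nonneg_left h3 (by linarith)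
    linarith

theorem inter_sdiff_edg {ω : Finset (Ed d)} {S T : Finset (Vx d)} (h : Disjoint S T) :
    (ω \ edg T) ∩ edg S = ω ∩ edg S := by
  ext e
  rw [Finset.mem_inter, Finset.mem_inter, Finset.mem_sdiff]
  constructor
  · rintro ⟨⟨h1, _⟩, h2⟩
    exact ⟨h1, h2⟩
  · rintro ⟨h1, h2⟩
    refine ⟨⟨h1, fun h3 => ?_⟩, h2⟩
    rw [mem_edg] at h2 h3
    exact Finset.disjoint_left.mp h h2.1 h3.1

/-- exponential moment of the number of cells which are crossing in both copies -/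
theorem cells {x c : ℝ} (hd : 1 ≤ d) (hx0 : 0 < x) (hx1 : x < 1) (hc0 : 0 ≤ c) (hc1 : c ≤ 1)
    (hCu : CuZ d x c) {E : Finset (Ed d)} (A1 A2 : Vx d → ZMod 2) (l : ℕ) (S : Finset (Vx d))
    (hE : ∀ w ∈ S, edg (ball (ce l w) l) ⊆ E) :
    F2 x E A1 A2 (fun ω1 ω2 => ∏ w ∈ S, (1 - ind (JJ l w ω1 ω2) / 2)) ≤
      (1 - c ^ 2 / 2) ^ S.card * F2 x E A1 A2 (fun _ _ => 1) := by
  classical
  induction S using Finset.induction_on with
  | empty =>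
    rw [Finset.card_empty, pow_zero, one_mul]
    refine F2_mono hx0 hx1 E A1 A2 fun ω1 _ ω2 _ => ?_
    rw [Finset.prod_empty]
  | insert w S hw ih =>
    have hES : ∀ w' ∈ S, edg (ball (ce l w') l) ⊆ E := fun w' h => hE w' (Finset.mem_insert_of_mem h)
    have hEw : edg (ball (ce l w) l) ⊆ E := hE w (Finset.mem_insert_self w S)
    set g : Finset (Ed d) → Finset (Ed d) → ℝ :=
      fun ω1 ω2 => ∏ w' ∈ S, (1 - ind (JJ l w' ω1 ω2) / 2) with hg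
    have hg0 : ∀ ω1 ω2, 0 ≤ g ω1 ω2 := by
      intro ω1 ω2
      refine Finset.prod_nonneg fun w' _ => ?_
      have := ind_le_one (JJ l w' ω1 ω2)
      linarith
    have hJ1 : ∀ w' ∈ S, ∀ ω1 ω2, (JJ l w' ω1 ω2 ↔ JJ l w' (ω1 \ edg (ball (ce l w) l)) ω2) := by
      intro w' hw' ω1 ω2
      have hne : w' ≠ w := fun h => hw (h ▸ hw')
      unfold JJ
      rw [Cr_congr (inter_sdiff_edg (cell_disj hne)).symm]
    have hJ2 : ∀ w' ∈ S, ∀ ω1 ω2, (JJ l w' ω1 ω2 ↔ JJ l w' ω1 (ω2 \ edg (ball (ce l w) l))) := by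
      intro w' hw' ω1 ω2
      have hne : w' ≠ w := fun h => hw (h ▸ hw')
      unfold JJ
      rw [Cr_congr (ω := ω2) (inter_sdiff_edg (cell_disj hne)).symm]
    have hg1 : ∀ ω1 ω2, g ω1 ω2 = g (ω1 \ edg (ball (ce l w) l)) ω2 := by
      intro ω1 ω2
      refine Finset.prod_congr rfl fun w' hw' => ?_
      rw [ind_congr (hJ1 w' hw' ω1 ω2)]
    have hg2 : ∀ ω1 ω2, g ω1 ω2 = g ω1 (ω2 \ edg (ball (ce l w) l)) := by
      intro ω1 ω2
      refine Finset.prod_congr rfl fun w' hw' => ?_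
      rw [ind_congr (hJ2 w' hw' ω1 ω2)]
    have h1 : F2 x E A1 A2 (fun ω1 ω2 => ∏ w' ∈ insert w S, (1 - ind (JJ l w' ω1 ω2) / 2)) =
        F2 x E A1 A2 g - 1 / 2 * F2 x E A1 A2 (fun ω1 ω2 =>
          g ω1 ω2 * ind (Cr l (ce l w) ω2) * ind (Cr l (ce l w) ω1)) := by
      rw [← F2_smul, ← F2_sub]
      congr 1
      funext ω1 ω2
      rw [Finset.prod_insert hw]
      have h2 : ind (JJ l w ω1 ω2) = ind (Cr l (ce l w) ω1) * ind (Cr l (ce l w) ω2) := ind_and _ _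
      rw [h2]
      show (1 - ind (Cr l (ce l w) ω1) * ind (Cr l (ce l w) ω2) / 2) * g ω1 ω2 = _
      ring
    have h3 : c ^ 2 * F2 x E A1 A2 g ≤ F2 x E A1 A2 (fun ω1 ω2 =>
        g ω1 ω2 * ind (Cr l (ce l w) ω2) * ind (Cr l (ce l w) ω1)) := by
      have h4 : ∀ ω1, c * FW x E A2 (fun ω2 => g ω1 ω2) ≤
          FW x E A2 (fun ω2 => g ω1 ω2 * ind (Cr l (ce l w) ω2)) := fun ω1 =>
        Cr_lower hd hx0 hx1 hCu A2 (ce l w) l hEw (fun ω2 => g ω1 ω2) (fun ω2 _ => hg0 ω1 ω2)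
          fun ω2 _ => hg2 ω1 ω2
      have h5 := Cr_lower hd hx0 hx1 hCu A1 (ce l w) l hEw (fun ω1 => FW x E A2 (fun ω2 => g ω1 ω2))
        (fun ω1 _ => FW_nonneg hx0 hx1 E A2 fun ω2 _ => hg0 ω1 ω2) fun ω1 _ => by
          show FW x E A2 (fun ω2 => g ω1 ω2) = FW x E A2 (fun ω2 => g (ω1 \ _) ω2)
          congr 1
          funext ω2
          exact hg1 ω1 ω2
      calc c ^ 2 * F2 x E A1 A2 g = c * (c * F2 x E A1 A2 g) := by ring
        _ ≤ c * FW x E A1 (fun ω1 => FW x E A2 (fun ω2 => g ω1 ω2) * ind (Cr l (ce l w) ω1)) :=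
            mul_le_mul_of_nonneg_left h5 hc0
        _ = FW x E A1 (fun ω1 => c * (FW x E A2 (fun ω2 => g ω1 ω2) * ind (Cr l (ce l w) ω1))) :=
            (FW_smul x E A1 c _).symm
        _ ≤ _ := by
            refine FW_mono hx0 hx1 E A1 fun ω1 _ => ?_
            have h6 : FW x E A2 (fun ω2 => g ω1 ω2 * ind (Cr l (ce l w) ω2) * ind (Cr l (ce l w) ω1)) =
                ind (Cr l (ce l w) ω1) * FW x E A2 (fun ω2 => g ω1 ω2 * ind (Cr l (ce l w) ω2)) := by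
              rw [← FW_smul]
              congr 1
              funext ω2
              ring
            rw [h6]
            calc c * (FW x E A2 (fun ω2 => g ω1 ω2) * ind (Cr l (ce l w) ω1))
                = ind (Cr l (ce l w) ω1) * (c * FW x E A2 (fun ω2 => g ω1 ω2)) := by ring
              _ ≤ _ := mul_le_mul_of_nonneg_left (h4 ω1) (ind_nonneg _)
    rw [h1, Finset.card_insert_of_notMem hw, pow_succ, mul_comm ((1 - c ^ 2 / 2) ^ S.card), mul_assoc]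
    have h7 := ih hES
    have h8 : 0 ≤ 1 - c ^ 2 / 2 := by nlinarith
    calc F2 x E A1 A2 g - 1 / 2 * F2 x E A1 A2 (fun ω1 ω2 =>
          g ω1 ω2 * ind (Cr l (ce l w) ω2) * ind (Cr l (ce l w) ω1))
        ≤ F2 x E A1 A2 g - 1 / 2 * (c ^ 2 * F2 x E A1 A2 g) := by linarith
      _ = (1 - c ^ 2 / 2) * F2 x E A1 A2 g := by ring
      _ ≤ _ := mul_le_mul_of_nonneg_left h7 h8

/-- (G2) fails with small probability -/
theorem G2_bound {x c : ℝ} (hd : 1 ≤ d) (hx0 : 0 < x) (hx1 : x < 1) (hc0 : 0 ≤ c) (hc1 : c ≤ 1)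
    (hCu : CuZ d x c) {E : Finset (Ed d)} (A1 A2 : Vx d → ZMod 2) (l n : ℕ) (Q : Vx d)
    (hE : ∀ w ∈ fi n Q, edg (ball (ce l w) l) ⊆ E) :
    F2 x E A1 A2 (fun ω1 ω2 => ind (¬ G2 (c ^ 2 / 8) l n Q ω1 ω2)) ≤
      Real.exp (-(c ^ 2 / 4 * (n : ℝ) ^ d)) * F2 x E A1 A2 (fun _ _ => 1) := by
  classical
  have hcard : (fi n Q).card = n ^ d := by
    unfold fi
    rw [Pi.card_Icc]
    have h : ∀ k ∈ (Finset.univ : Finset (Fin d)),
        (Finset.Icc ((n : ℤ) * Q k) ((n : ℤ) * Q k + ((n : ℤ) - 1))).card = n := by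
      intro k _
      rw [Int.card_Icc]
      have : (n : ℤ) * Q k + ((n : ℤ) - 1) + 1 - (n : ℤ) * Q k = (n : ℤ) := by ring
      rw [this, Int.toNat_natCast]
    rw [Finset.prod_congr rfl h, Finset.prod_const, Finset.card_univ, Fintype.card_fin]
  have hF : 0 ≤ F2 x E A1 A2 (fun _ _ => 1) :=
    FW_nonneg hx0 hx1 E A1 fun _ _ => FW_nonneg hx0 hx1 E A2 fun _ _ => zero_le_one
  have h1 : ∀ ω1, ω1 ⊆ E → ∀ ω2, ω2 ⊆ E → ind (¬ G2 (c ^ 2 / 8) l n Q ω1 ω2) ≤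
      Real.exp (c ^ 2 / 4 * (n : ℝ) ^ d) * ∏ w ∈ fi n Q, (1 - ind (JJ l w ω1 ω2) / 2) := by
    intro ω1 _ ω2 _
    have hp0 : ∀ w ∈ fi n Q, 0 ≤ 1 - ind (JJ l w ω1 ω2) / 2 := fun w _ => by
      have := ind_le_one (JJ l w ω1 ω2)
      linarith
    by_cases hG : G2 (c ^ 2 / 8) l n Q ω1 ω2
    · rw [ind_false (not_not.mpr hG)]
      exact mul_nonneg (Real.exp_pos _).le (Finset.prod_nonneg hp0)
    · rw [ind_true hG]
      unfold G2 at hG
      push Not at hG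
      set s : ℕ := (fl (fi n Q) (fun w => Cr l (ce l w) ω1 ∧ Cr l (ce l w) ω2)).card with hs
      have h2 : ∏ w ∈ fi n Q, (1 - ind (JJ l w ω1 ω2) / 2) = (1 / 2) ^ s := by
        have h3 : ∀ w ∈ fi n Q, 1 - ind (JJ l w ω1 ω2) / 2 =
            if (Cr l (ce l w) ω1 ∧ Cr l (ce l w) ω2) then (1 / 2 : ℝ) else 1 := by
          intro w _
          by_cases h4 : JJ l w ω1 ω2
          · have h4' : Cr l (ce l w) ω1 ∧ Cr l (ce l w) ω2 := h4
            rw [ind_true h4, if_pos h4']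
            norm_num
          · have h4' : ¬ (Cr l (ce l w) ω1 ∧ Cr l (ce l w) ω2) := h4
            rw [ind_false h4, if_neg h4']
            norm_num
        rw [Finset.prod_congr rfl h3, Finset.prod_ite, Finset.prod_const, Finset.prod_const_one,
          mul_one, hs]
        congr 2
        ext w
        rw [Finset.mem_filter, mem_fl]
      rw [h2]
      have h5 : Real.exp (-(s : ℝ)) ≤ (1 / 2) ^ s := by
        have h6 : Real.exp (-(s : ℝ)) = (Real.exp (-1)) ^ s := by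
          rw [← Real.exp_nat_mul]
          congr 1
          ring
        rw [h6]
        refine pow_le_pow_left₀ (Real.exp_pos _).le ?_ s
        rw [Real.exp_neg, ← one_div]
        refine one_div_le_one_div_of_le (by norm_num) ?_
        have := Real.add_one_le_exp (1 : ℝ)
        linarith
      have h7 : (s : ℝ) ≤ c ^ 2 / 4 * (n : ℝ) ^ d := by
        refine hG.le.trans (le_of_eq ?_)
        ring
      calc (1 : ℝ) ≤ Real.exp (c ^ 2 / 4 * (n : ℝ) ^ d) * Real.exp (-(s : ℝ)) := by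
            rw [← Real.exp_add]
            refine Real.one_le_exp ?_
            linarith
        _ ≤ _ := mul_le_mul_of_nonneg_left h5 (Real.exp_pos _).le
  refine (F2_mono hx0 hx1 E A1 A2 h1).trans ?_
  rw [F2_smul]
  have h8 := cells hd hx0 hx1 hc0 hc1 hCu A1 A2 l (fi n Q) hE
  rw [hcard] at h8
  have h9 : (1 - c ^ 2 / 2) ^ (n ^ d) ≤ Real.exp (-(c ^ 2 / 2 * (n : ℝ) ^ d)) := by
    have h10 : Real.exp (-(c ^ 2 / 2 * (n : ℝ) ^ d)) = (Real.exp (-(c ^ 2 / 2))) ^ (n ^ d) := by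
      rw [← Real.exp_nat_mul]
      congr 1
      push_cast
      ring
    rw [h10]
    refine pow_le_pow_left₀ (by nlinarith) ?_ _
    have := Real.add_one_le_exp (-(c ^ 2 / 2))
    linarith
  calc Real.exp (c ^ 2 / 4 * (n : ℝ) ^ d) *
        F2 x E A1 A2 (fun ω1 ω2 => ∏ w ∈ fi n Q, (1 - ind (JJ l w ω1 ω2) / 2))
      ≤ Real.exp (c ^ 2 / 4 * (n : ℝ) ^ d) *
        (Real.exp (-(c ^ 2 / 2 * (n : ℝ) ^ d)) * F2 x E A1 A2 (fun _ _ => 1)) :=
        mul_le_mul_of_nonneg_left (h8.trans (mul_le_mul_of_nonneg_right h9 hF)) (Real.exp_pos _).le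
    _ = _ := by
        rw [← mul_assoc, ← Real.exp_add]
        congr 2
        ring

/-! ## (G1) -/

/-- the vertices of the blocks at distance `≤ 1` of `Q` -/
noncomputable def NQ (l n : ℕ) (Q : Vx d) : Finset (Vx d) :=
  Finset.Icc (fun k => (2 * (l : ℤ) + 1) * n * (Q k - 1) - l)
    (fun k => (2 * (l : ℤ) + 1) * n * (Q k + 2) - l - 1)

theorem mem_NQ {l n : ℕ} {Q y : Vx d} : y ∈ NQ l n Q ↔
    ∀ k, (2 * (l : ℤ) + 1) * n * (Q k - 1) - l ≤ y k ∧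
      y k ≤ (2 * (l : ℤ) + 1) * n * (Q k + 2) - l - 1 := by
  unfold NQ
  rw [Finset.mem_Icc, Pi.le_def, Pi.le_def]
  exact ⟨fun h k => ⟨h.1 k, h.2 k⟩, fun h => ⟨fun k => (h k).1, fun k => (h k).2⟩⟩

theorem mem_RG {l n : ℕ} {Q y : Vx d} : y ∈ RG l n Q ↔
    ∀ k, (2 * (l : ℤ) + 1) * n * (Q k - 2) - l ≤ y k ∧
      y k ≤ (2 * (l : ℤ) + 1) * n * (Q k + 3) - l - 1 := by
  unfold RG
  rw [Finset.mem_Icc, Pi.le_def, Pi.le_def]
  exact ⟨fun h k => ⟨h.1 k, h.2 k⟩, fun h => ⟨fun k => (h k).1, fun k => (h k).2⟩⟩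

theorem cell_ball {l n : ℕ} {Q Q' w : Vx d} (hQ' : Q' ∈ ball Q 1) (hw : w ∈ fi n Q') :
    ball (ce l w) l ⊆ NQ l n Q := by
  intro y hy
  rw [mem_ball] at hy hQ'
  unfold fi at hw
  rw [Finset.mem_Icc, Pi.le_def, Pi.le_def] at hw
  rw [mem_NQ]
  intro k
  have h1 := abs_le.mp (hy k)
  have h2 := abs_le.mp (hQ' k)
  have h3 : (n : ℤ) * Q' k ≤ w k := hw.1 k
  have h4 : w k ≤ (n : ℤ) * Q' k + ((n : ℤ) - 1) := hw.2 k
  have e1 : ce l w k = (2 * (l : ℤ) + 1) * w k := rfl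
  rw [e1] at h1
  have hl : (0 : ℤ) ≤ 2 * (l : ℤ) + 1 := by linarith [Int.natCast_nonneg l]
  have hn : (0 : ℤ) ≤ n := Int.natCast_nonneg n
  have h2' := h2.1
  have h2'' := h2.2
  push_cast at h2' h2''
  have h5 : (n : ℤ) * (Q k - 1) ≤ w k := by nlinarith
  have h6 : w k + 1 ≤ (n : ℤ) * (Q k + 2) := by nlinarith
  have h7 : (2 * (l : ℤ) + 1) * ((n : ℤ) * (Q k - 1)) ≤ (2 * (l : ℤ) + 1) * w k :=
    mul_le_mul_of_nonneg_left h5 hl
  have h8 : (2 * (l : ℤ) + 1) * (w k + 1) ≤ (2 * (l : ℤ) + 1) * ((n : ℤ) * (Q k + 2)) :=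
    mul_le_mul_of_nonneg_left h6 hl
  constructor
  · linarith [h1.1]
  · linarith [h1.2]

theorem NQ_nb {l n m : ℕ} (hn : 1 ≤ n) (hm : m ≤ l) {Q q : Vx d} (hq : q ∈ NQ l n Q) :
    ball q (m + l) ⊆ RG l n Q := by
  intro y hy
  rw [mem_ball] at hy
  rw [mem_NQ] at hq
  rw [mem_RG]
  intro k
  have h1 := abs_le.mp (hy k)
  have h2 := hq k
  have h3 : ((m + l : ℕ) : ℤ) ≤ (2 * (l : ℤ) + 1) * n := by
    have h4 : m + l ≤ (2 * l + 1) * n := by nlinarith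
    exact_mod_cast h4
  constructor
  · linarith [h1.1, h2.1]
  · linarith [h1.2, h2.2]

theorem card_NQ (l n : ℕ) (Q : Vx d) : (NQ l n Q).card = (3 * ((2 * l + 1) * n)) ^ d := by
  unfold NQ
  rw [Pi.card_Icc]
  have h : ∀ k ∈ (Finset.univ : Finset (Fin d)),
      (Finset.Icc ((2 * (l : ℤ) + 1) * n * (Q k - 1) - l)
        ((2 * (l : ℤ) + 1) * n * (Q k + 2) - l - 1)).card = 3 * ((2 * l + 1) * n) := by
    intro k _
    rw [Int.card_Icc]
    have : (2 * (l : ℤ) + 1) * n * (Q k + 2) - l - 1 + 1 - ((2 * (l : ℤ) + 1) * n * (Q k - 1) - l) =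
        ((3 * ((2 * l + 1) * n) : ℕ) : ℤ) := by
      push_cast
      ring
    rw [this, Int.toNat_natCast]
  rw [Finset.prod_congr rfl h, Finset.prod_const, Finset.card_univ, Fintype.card_fin]

theorem Cnn_box (a b : Vx d) : Cnn (Finset.Icc a b) := by
  rw [cnn_iff]
  have h : (↑(Finset.Icc a b) : Set (Vx d)) = Pool.Agent.Lat.box a (fun k => b k + 1) := by
    rw [Finset.coe_Icc]
    ext x
    rw [Set.mem_Icc, Pi.le_def, Pi.le_def]
    exact ⟨fun h k => ⟨h.1 k, Int.lt_add_one_of_le (h.2 k)⟩,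
      fun h => ⟨fun k => (h k).1, fun k => Int.le_of_lt_add_one (h k).2⟩⟩
  rw [h]
  exact Pool.Agent.Lat.conn_box a _

theorem G1_bound {x c : ℝ} {K K' : ℕ} (hd : 2 ≤ d) (hx0 : 0 < x) (hx1 : x < 1) (hc1 : c ≤ 1)
    (hK : 1 ≤ K) (hK' : 1 ≤ K') (hSh : ShZ d x c K) (hSl : SlZ d x c K') {E : Finset (Ed d)}
    (A : Vx d → ZMod 2)
    {l n : ℕ} (hn : 1 ≤ n) (Q : Vx d) (hE : edg (RG l n Q) ⊆ E) {m N1 N2 : ℕ} (hm : 1 ≤ m)
    (hN1 : 8 * m + N1 * K < l) (hN2 : N2 * K' ≤ 2 * m + 1) (hKl : K' ≤ l + 1) :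
    FW x E A (fun ω => ind (¬ G1 l n Q ω)) ≤
      ((3 * ((2 * l + 1) * n)) ^ d * ((2 * m + 1) ^ d * ((8 * m + 1) ^ d * (1 - c) ^ N1) +
        (1 - c) ^ N2) : ℝ) * FW x E A (fun _ => 1) := by
  classical
  have hml : m ≤ l := by omega
  have h1 := loc (Q := NQ l n Q) hd hx0 hx1 hc1 hK hK' hSh hSl A (Cnn_box _ _) hm hN1 hN2 hKl
    (fun q hq => (edg_mono (NQ_nb hn hml hq)).trans hE)
  rw [card_NQ] at h1
  push_cast at h1
  refine le_trans (FW_mono hx0 hx1 E A fun ω _ => ind_mono fun h => ?_) h1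
  intro hL
  apply h
  intro Q1 hQ1 Q2 hQ2 w1 hw1 w2 hw2 hc1 hc2
  have hsub : nb (NQ l n Q) (m + l) ⊆ RG l n Q := by
    intro y hy
    unfold nb at hy
    rw [Finset.mem_biUnion] at hy
    obtain ⟨q, hq, hy⟩ := hy
    exact NQ_nb hn hml hq hy
  exact conn_edg_mono hsub (hL.2 _ (cell_ball hQ1 hw1 (self_ball _ _)) _
    (cell_ball hQ2 hw2 (self_ball _ _)) hc1 hc2)

/-- the block is bad with small probability, explicit form -/
theorem gF_bound {x c : ℝ} {K K' : ℕ} (hd : 2 ≤ d) (hx0 : 0 < x) (hx1 : x < 1) (hc0 : 0 ≤ c)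
    (hc1 : c ≤ 1) (hK : 1 ≤ K) (hK' : 1 ≤ K') (hSh : ShZ d x c K) (hSl : SlZ d x c K')
    (hCu : CuZ d x c)
    (A1 A2 : Vx d → ZMod 2) {l n : ℕ} (hn : 1 ≤ n) (Q : Vx d) {m N1 N2 : ℕ} (hm : 1 ≤ m)
    (hN1 : 8 * m + N1 * K < l) (hN2 : N2 * K' ≤ 2 * m + 1) (hKl : K' ≤ l + 1) :
    F2 x (edg (RG l n Q)) A1 A2 (fun ω1 ω2 => ind (¬ gF (c ^ 2 / 8) l n Q ω1 ω2)) ≤
      (2 * ((3 * ((2 * l + 1) * n)) ^ d * ((2 * m + 1) ^ d * ((8 * m + 1) ^ d * (1 - c) ^ N1) +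
        (1 - c) ^ N2)) + 3 ^ d * Real.exp (-(c ^ 2 / 4 * (n : ℝ) ^ d))) *
        (FW x (edg (RG l n Q)) A1 (fun _ => 1) * FW x (edg (RG l n Q)) A2 (fun _ => 1)) := by
  classical
  set E := edg (RG l n Q) with hEdef
  have b1 := G1_bound (E := E) hd hx0 hx1 hc1 hK hK' hSh hSl A1 hn Q (Finset.Subset.refl _) hm hN1 hN2 hKl
  have b2 := G1_bound (E := E) hd hx0 hx1 hc1 hK hK' hSh hSl A2 hn Q (Finset.Subset.refl _) hm hN1 hN2 hKl
  set B : ℝ := (3 * ((2 * l + 1) * n)) ^ d * ((2 * m + 1) ^ d * ((8 * m + 1) ^ d * (1 - c) ^ N1) +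
        (1 - c) ^ N2) with hB
  have p1 : 0 ≤ FW x E A1 (fun _ => 1) := FW_nonneg hx0 hx1 E A1 fun _ _ => zero_le_one
  have p2 : 0 ≤ FW x E A2 (fun _ => 1) := FW_nonneg hx0 hx1 E A2 fun _ _ => zero_le_one
  have hml : m ≤ l := by omega
  have h0 : ∀ ω1, ω1 ⊆ E → ∀ ω2, ω2 ⊆ E → ind (¬ gF (c ^ 2 / 8) l n Q ω1 ω2) ≤
      (ind (¬ G1 l n Q ω1) + ind (¬ G1 l n Q ω2)) +
        ∑ Q' ∈ ball Q 1, ind (¬ G2 (c ^ 2 / 8) l n Q' ω1 ω2) := by
    intro ω1 _ ω2 _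
    have hs : 0 ≤ ∑ Q' ∈ ball Q 1, ind (¬ G2 (c ^ 2 / 8) l n Q' ω1 ω2) :=
      Finset.sum_nonneg fun _ _ => ind_nonneg _
    have i1 := ind_nonneg (¬ G1 l n Q ω1)
    have i2 := ind_nonneg (¬ G1 l n Q ω2)
    by_cases h : gF (c ^ 2 / 8) l n Q ω1 ω2
    · rw [ind_false (not_not.mpr h)]
      linarith
    · rw [ind_true h]
      by_cases g1 : G1 l n Q ω1
      · by_cases g2 : G1 l n Q ω2
        · have : ∃ Q' ∈ ball Q 1, ¬ G2 (c ^ 2 / 8) l n Q' ω1 ω2 := by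
            by_contra hc
            push Not at hc
            exact h ⟨g1, g2, hc⟩
          obtain ⟨Q', hQ', hG⟩ := this
          have h5 : ind (¬ G2 (c ^ 2 / 8) l n Q' ω1 ω2) ≤
              ∑ Q' ∈ ball Q 1, ind (¬ G2 (c ^ 2 / 8) l n Q' ω1 ω2) :=
            Finset.single_le_sum (f := fun Q' => ind (¬ G2 (c ^ 2 / 8) l n Q' ω1 ω2))
              (fun _ _ => ind_nonneg _) hQ'
          rw [ind_true hG] at h5
          linarith
        · rw [ind_true g2]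
          linarith
      · rw [ind_true g1]
        linarith
  refine (F2_mono hx0 hx1 E A1 A2 h0).trans ?_
  rw [F2_add, F2_add, F2_sum, F2_left, F2_right]
  have h6 : ∀ Q' ∈ ball Q 1, F2 x E A1 A2 (fun ω1 ω2 => ind (¬ G2 (c ^ 2 / 8) l n Q' ω1 ω2)) ≤
      Real.exp (-(c ^ 2 / 4 * (n : ℝ) ^ d)) *
        (FW x E A1 (fun _ => 1) * FW x E A2 (fun _ => 1)) := by
    intro Q' hQ'
    rw [← F2_one]
    refine G2_bound (le_trans one_le_two hd) hx0 hx1 hc0 hc1 hCu A1 A2 l n Q' fun w hw => ?_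
    refine edg_mono (Finset.Subset.trans (cell_ball hQ' hw) ?_)
    intro y hy
    exact NQ_nb hn hml hy (self_ball y _)
  have h7 := Finset.sum_le_sum h6
  rw [Finset.sum_const, card_ball, nsmul_eq_mul] at h7
  push_cast at h7
  have q1 := mul_le_mul_of_nonneg_right b1 p2
  have q2 := mul_le_mul_of_nonneg_left b2 p1
  have e1 : B * FW x E A1 (fun _ => 1) * FW x E A2 (fun _ => 1) =
      B * (FW x E A1 (fun _ => 1) * FW x E A2 (fun _ => 1)) := by ring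
  have e2 : FW x E A1 (fun _ => 1) * (B * FW x E A2 (fun _ => 1)) =
      B * (FW x E A1 (fun _ => 1) * FW x E A2 (fun _ => 1)) := by ring
  rw [e1] at q1
  rw [e2] at q2
  have e3 : (2 * B + 3 ^ d * Real.exp (-(c ^ 2 / 4 * (n : ℝ) ^ d))) *
      (FW x E A1 (fun _ => 1) * FW x E A2 (fun _ => 1)) =
      B * (FW x E A1 (fun _ => 1) * FW x E A2 (fun _ => 1)) +
      B * (FW x E A1 (fun _ => 1) * FW x E A2 (fun _ => 1)) +
      3 ^ d * (Real.exp (-(c ^ 2 / 4 * (n : ℝ) ^ d)) *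
        (FW x E A1 (fun _ => 1) * FW x E A2 (fun _ => 1))) := by ring
  rw [e3]
  exact add_le_add (add_le_add q1 q2) h7

/-! ## Asymptotics -/

theorem poly_small (r C : ℝ) (hr0 : 0 ≤ r) (hr1 : r < 1) (k : ℕ) {ε : ℝ} (hε : 0 < ε) :
    ∃ j0 : ℕ, ∀ j ≥ j0, C * ((j : ℝ) + 1) ^ k * r ^ j ≤ ε := by
  have h1 := tendsto_pow_const_mul_const_pow_of_abs_lt_one k (r := r)
    (by rw [abs_of_nonneg hr0]; exact hr1)
  have h2 : Filter.Tendsto (fun j : ℕ => |C| * 2 ^ k * ((j : ℝ) ^ k * r ^ j)) Filter.atTop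
      (nhds (|C| * 2 ^ k * 0)) := h1.const_mul _
  rw [mul_zero] at h2
  have h3 := h2.eventually (gt_mem_nhds hε)
  rw [Filter.eventually_atTop] at h3
  obtain ⟨j0, hj0⟩ := h3
  refine ⟨max j0 1, fun j hj => ?_⟩
  have hj1 : 1 ≤ j := le_trans (le_max_right _ _) hj
  have h4 := hj0 j (le_trans (le_max_left _ _) hj)
  have hjr : (1 : ℝ) ≤ j := by exact_mod_cast hj1
  have h5 : ((j : ℝ) + 1) ^ k ≤ 2 ^ k * (j : ℝ) ^ k := by
    rw [← mul_pow]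
    exact pow_le_pow_left₀ (by linarith) (by linarith) k
  have h6 : 0 ≤ r ^ j := pow_nonneg hr0 j
  have h7 : 0 ≤ ((j : ℝ) + 1) ^ k := by positivity
  calc C * ((j : ℝ) + 1) ^ k * r ^ j ≤ |C| * ((j : ℝ) + 1) ^ k * r ^ j :=
        mul_le_mul_of_nonneg_right (mul_le_mul_of_nonneg_right (le_abs_self C) h7) h6
    _ ≤ |C| * (2 ^ k * (j : ℝ) ^ k) * r ^ j :=
        mul_le_mul_of_nonneg_right (mul_le_mul_of_nonneg_left h5 (abs_nonneg C)) h6
    _ = |C| * 2 ^ k * ((j : ℝ) ^ k * r ^ j) := by ring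
    _ ≤ ε := h4.le

theorem B_small (c : ℝ) (hc0 : 0 < c) (hc1 : c ≤ 1) (d n K : ℕ) (hK : 1 ≤ K) {ε : ℝ} (hε : 0 < ε) :
    ∃ l0 : ℕ, ∀ l ≥ l0, 16 ≤ l ∧ K ≤ l + 1 ∧
      ((3 * ((2 * (l : ℝ) + 1) * n)) ^ d * ((2 * ((l / 16 : ℕ) : ℝ) + 1) ^ d *
        ((8 * ((l / 16 : ℕ) : ℝ) + 1) ^ d * (1 - c) ^ (l / 4 / K)) + (1 - c) ^ (l / 16 / K))) ≤ ε := by
  have hr0 : 0 ≤ 1 - c := by linarith
  have hr1 : 1 - c < 1 := by linarith
  obtain ⟨j0, hj0⟩ := poly_small (1 - c) (2 * (243 * (n : ℝ) * (16 * K) ^ 3) ^ d) hr0 hr1 (3 * d) hε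
  refine ⟨16 * K * (j0 + 1) + 16 + K, fun l hl => ?_⟩
  have hl16 : 16 ≤ l := by
    have : 0 ≤ 16 * K * (j0 + 1) := Nat.zero_le _
    omega
  have hlK : K ≤ l + 1 := by
    have : 0 ≤ 16 * K * (j0 + 1) := Nat.zero_le _
    omega
  refine ⟨hl16, hlK, ?_⟩
  set j := l / 16 / K with hj
  have hjj0 : j0 ≤ j := by
    rw [hj, Nat.le_div_iff_mul_le hK, Nat.le_div_iff_mul_le (by norm_num)]
    nlinarith
  have hlj : l ≤ 16 * K * (j + 1) := by
    have h1 : l / 16 < (l / 16 / K + 1) * K := by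
      have := Nat.lt_div_mul_add (a := l / 16) (b := K) hK
      rw [Nat.add_mul, one_mul]
      exact this
    have h2 : l < (l / 16 + 1) * 16 := by omega
    have h3 : l / 16 + 1 ≤ (j + 1) * K := h1
    nlinarith
  have hm : ((l / 16 : ℕ) : ℝ) ≤ l := by exact_mod_cast Nat.div_le_self l 16
  have hm0 : (0 : ℝ) ≤ ((l / 16 : ℕ) : ℝ) := Nat.cast_nonneg _
  have hl1 : (1 : ℝ) ≤ l := by
    have : 1 ≤ l := le_trans (by norm_num) hl16
    exact_mod_cast this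
  have hn0 : (0 : ℝ) ≤ n := Nat.cast_nonneg n
  have hN : (1 - c) ^ (l / 4 / K) ≤ (1 - c) ^ j := by
    refine pow_le_pow_of_le_one hr0 hr1.le ?_
    exact Nat.div_le_div_right (Nat.div_le_div_left (by norm_num) (by norm_num))
  have hrj : 0 ≤ (1 - c) ^ j := pow_nonneg hr0 j
  have hrj' : 0 ≤ (1 - c) ^ (l / 4 / K) := pow_nonneg hr0 _
  have s1 : (2 * ((l / 16 : ℕ) : ℝ) + 1) ^ d ≤ (3 * (l : ℝ)) ^ d :=
    pow_le_pow_left₀ (by linarith) (by linarith) d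
  have s2 : (8 * ((l / 16 : ℕ) : ℝ) + 1) ^ d ≤ (9 * (l : ℝ)) ^ d :=
    pow_le_pow_left₀ (by linarith) (by linarith) d
  have s3 : (3 * ((2 * (l : ℝ) + 1) * n)) ^ d ≤ (9 * (l : ℝ) * n) ^ d := by
    refine pow_le_pow_left₀ (by positivity) ?_ d
    nlinarith
  have s4 : (1 : ℝ) ≤ (3 * (l : ℝ)) ^ d * (9 * (l : ℝ)) ^ d := by
    have a1 : (1 : ℝ) ≤ (3 * (l : ℝ)) ^ d := one_le_pow₀ (by linarith)
    have a2 : (1 : ℝ) ≤ (9 * (l : ℝ)) ^ d := one_le_pow₀ (by linarith)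
    nlinarith
  have s5 : (2 * ((l / 16 : ℕ) : ℝ) + 1) ^ d * ((8 * ((l / 16 : ℕ) : ℝ) + 1) ^ d *
      (1 - c) ^ (l / 4 / K)) + (1 - c) ^ j ≤
      2 * ((3 * (l : ℝ)) ^ d * (9 * (l : ℝ)) ^ d) * (1 - c) ^ j := by
    have a1 : (2 * ((l / 16 : ℕ) : ℝ) + 1) ^ d * ((8 * ((l / 16 : ℕ) : ℝ) + 1) ^ d *
        (1 - c) ^ (l / 4 / K)) ≤ (3 * (l : ℝ)) ^ d * ((9 * (l : ℝ)) ^ d * (1 - c) ^ j) := by
      refine mul_le_mul s1 ?_ (by positivity) (by positivity)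
      exact mul_le_mul s2 hN hrj' (by positivity)
    have a2 : (1 - c) ^ j ≤ (3 * (l : ℝ)) ^ d * (9 * (l : ℝ)) ^ d * (1 - c) ^ j :=
      le_mul_of_one_le_left hrj s4
    nlinarith
  have hljr : (l : ℝ) ≤ 16 * K * ((j : ℝ) + 1) := by exact_mod_cast hlj
  calc (3 * ((2 * (l : ℝ) + 1) * n)) ^ d * ((2 * ((l / 16 : ℕ) : ℝ) + 1) ^ d *
        ((8 * ((l / 16 : ℕ) : ℝ) + 1) ^ d * (1 - c) ^ (l / 4 / K)) + (1 - c) ^ j)
      ≤ (9 * (l : ℝ) * n) ^ d * (2 * ((3 * (l : ℝ)) ^ d * (9 * (l : ℝ)) ^ d) * (1 - c) ^ j) :=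
        mul_le_mul s3 s5 (by positivity) (by positivity)
    _ = 2 * (243 * (n : ℝ) * (l : ℝ) ^ 3) ^ d * (1 - c) ^ j := by
        have : (243 * (n : ℝ) * (l : ℝ) ^ 3) ^ d =
            (9 * (l : ℝ) * n) ^ d * ((3 * (l : ℝ)) ^ d * (9 * (l : ℝ)) ^ d) := by
          rw [← mul_pow, ← mul_pow]
          congr 1
          ring
        rw [this]
        ring
    _ ≤ 2 * (243 * (n : ℝ) * (16 * K * ((j : ℝ) + 1)) ^ 3) ^ d * (1 - c) ^ j := by
        refine mul_le_mul_of_nonneg_right ?_ hrj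
        refine mul_le_mul_of_nonneg_left ?_ (by norm_num)
        refine pow_le_pow_left₀ (by positivity) ?_ d
        refine mul_le_mul_of_nonneg_left ?_ (by positivity)
        exact pow_le_pow_left₀ (by linarith) hljr 3
    _ = 2 * (243 * (n : ℝ) * (16 * K) ^ 3) ^ d * ((j : ℝ) + 1) ^ (3 * d) * (1 - c) ^ j := by
        rw [pow_mul, mul_pow (16 * (K : ℝ)) ((j : ℝ) + 1) 3, ← mul_assoc, mul_pow]
        ring
    _ ≤ ε := hj0 j hjj0

/-- MAIN: the local hypothesis of block FAC. For every `ε` and all large `n`, then all large `l`: for all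
sources the block is bad for the FK pair with probability at most `ε`. -/
theorem loc_gF {x c : ℝ} {K K' : ℕ} (hd : 2 ≤ d) (hx0 : 0 < x) (hx1 : x < 1) (hc0 : 0 < c)
    (hc1 : c ≤ 1) (hK : 1 ≤ K) (hK' : 1 ≤ K') (hSh : ShZ d x c K) (hSl : SlZ d x c K')
    (hCu : CuZ d x c) {ε : ℝ} (hε : 0 < ε) : ∃ n0 : ℕ, ∀ n ≥ n0, ∃ l0 : ℕ, ∀ l ≥ l0, ∀ (Q : Vx d) (A1 A2 : Vx d → ZMod 2),
      FW x (edg (RG l n Q)) A1 (fun ω1 => FW x (edg (RG l n Q)) A2 (fun ω2 =>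
        ind (¬ gF (c ^ 2 / 8) l n Q ω1 ω2))) ≤
        ε * (FW x (edg (RG l n Q)) A1 (fun _ => 1) * FW x (edg (RG l n Q)) A2 (fun _ => 1)) := by
  obtain ⟨n1, hn1⟩ := exists_nat_ge (4 / c ^ 2 * (2 * 3 ^ d / ε))
  refine ⟨max n1 1, fun n hn => ?_⟩
  have hn1' : 1 ≤ n := le_trans (le_max_right _ _) hn
  have hnr : 4 / c ^ 2 * (2 * 3 ^ d / ε) ≤ (n : ℝ) :=
    hn1.trans (by exact_mod_cast le_trans (le_max_left _ _) hn)
  have hexp : 3 ^ d * Real.exp (-(c ^ 2 / 4 * (n : ℝ) ^ d)) ≤ ε / 2 := by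
    have hc2 : 0 < c ^ 2 := by positivity
    have h1 : (n : ℝ) ≤ (n : ℝ) ^ d := by
      have : n ^ 1 ≤ n ^ d := Nat.pow_le_pow_right hn1' (le_trans one_le_two hd)
      rw [pow_one] at this
      exact_mod_cast this
    have h2 : 2 * 3 ^ d / ε ≤ c ^ 2 / 4 * (n : ℝ) ^ d := by
      have h3 : c ^ 2 / 4 * (4 / c ^ 2 * (2 * 3 ^ d / ε)) ≤ c ^ 2 / 4 * (n : ℝ) ^ d :=
        mul_le_mul_of_nonneg_left (hnr.trans h1) (by positivity)
      have h4 : c ^ 2 / 4 * (4 / c ^ 2 * (2 * 3 ^ d / ε)) = 2 * 3 ^ d / ε := by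
        field_simp
      rw [h4] at h3
      exact h3
    set t : ℝ := c ^ 2 / 4 * (n : ℝ) ^ d with ht
    have h5 : 0 < 2 * 3 ^ d / ε := by positivity
    have ht0 : 0 < t := lt_of_lt_of_le h5 h2
    have h6 : Real.exp (-t) ≤ 1 / t := by
      rw [Real.exp_neg, ← one_div]
      refine one_div_le_one_div_of_le ht0 ?_
      have := Real.add_one_le_exp t
      linarith
    have h7 : 1 / t ≤ ε / (2 * 3 ^ d) := by
      rw [div_le_div_iff₀ ht0 (by positivity)]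
      rw [div_le_iff₀ hε] at h2
      linarith
    calc 3 ^ d * Real.exp (-t) ≤ 3 ^ d * (ε / (2 * 3 ^ d)) :=
          mul_le_mul_of_nonneg_left (h6.trans h7) (by positivity)
      _ = ε / 2 := by
          field_simp
  have hKK : 1 ≤ K * K' := Nat.mul_pos hK hK'
  obtain ⟨l0, hl0⟩ := B_small c hc0 hc1 d n (K * K') hKK (ε := ε / 4) (by positivity)
  refine ⟨l0, fun l hl Q A1 A2 => ?_⟩
  obtain ⟨h16, hKl, hB⟩ := hl0 l hl
  have hm : 1 ≤ l / 16 := by omega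
  have hN1 : 8 * (l / 16) + l / 4 / (K * K') * K < l := by
    have h2 := Nat.div_mul_le_self (l / 4) (K * K')
    have h3 : l / 4 / (K * K') * K ≤ l / 4 / (K * K') * (K * K') :=
      Nat.mul_le_mul_left _ (Nat.le_mul_of_pos_right K hK')
    omega
  have hN2 : l / 16 / (K * K') * K' ≤ 2 * (l / 16) + 1 := by
    have h2 := Nat.div_mul_le_self (l / 16) (K * K')
    have h3 : l / 16 / (K * K') * K' ≤ l / 16 / (K * K') * (K * K') :=
      Nat.mul_le_mul_left _ (Nat.le_mul_of_pos_left K' hK)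
    omega
  have hKl' : K' ≤ l + 1 := le_trans (Nat.le_mul_of_pos_left K' hK) hKl
  have h1 := gF_bound hd hx0 hx1 hc0.le hc1 hK hK' hSh hSl hCu A1 A2 hn1' Q hm hN1 hN2 hKl'
  refine h1.trans (mul_le_mul_of_nonneg_right ?_ ?_)
  · linarith
  · exact mul_nonneg (FW_nonneg hx0 hx1 _ A1 fun _ _ => zero_le_one)
      (FW_nonneg hx0 hx1 _ A2 fun _ _ => zero_le_one)

end Pool.Agent.Fac.Lc
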