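import Pool.Agent.Fac.LocG
import Pool.Agent.FK1.Br
import Pool.Agent.Slb.Defs

/-!
# The local hypothesis of block FAC from CUBE, SLAB, SHELL (helper98)
-/

set_option autoImplicit false

namespace Pool.Agent.Fac.Lc

open Finset
open Pool.Agent.SRC
open Pool.Agent.FK1
open Pool.Agent.Fac
open Pool.Agent.TC (cf)

variable {d : ℕ}

theorem th_pos {β : ℝ} (hβ : 0 < β) : 0 < Real.tanh β := by
  rw [Real.tanh_eq_sinh_div_cosh]
  exact div_pos (Real.sinh_pos_iff.mpr hβ) (Real.cosh_pos β)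

theorem th_lt_one (β : ℝ) : Real.tanh β < 1 := by
  rw [Real.tanh_eq_sinh_div_cosh, div_lt_one (Real.cosh_pos β)]
  exact Real.sinh_lt_cosh β

theorem ZB_of_cf {β c : ℝ} (hβ : 0 ≤ β) {T : Finset (Vx d)}
    (h : ∀ u ∈ T, ∀ v ∈ T, c ≤ cf T β u v) : ZB (Real.tanh β) c T :=
  fun u hu v hv => ZA_of_cf T hβ u v hu hv (h u hu v hv)

theorem CuZ_of {β c : ℝ} (hβ : 0 ≤ β) (h : ∀ (a : Vx d) (n : ℕ), 1 ≤ n →
    ∀ x ∈ Slb.bo a (fun _ => n), ∀ y ∈ Slb.bo a (fun _ => n), c ≤ cf (Slb.bo a (fun _ => n)) β x y) :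
    CuZ d (Real.tanh β) c := by
  intro v l
  have e : ball v l = Slb.bo (fun k => v k - (l : ℤ)) (fun _ => 2 * l + 1) := by
    ext y
    rw [mem_ball, Slb.mem_bo]
    refine forall_congr' fun k => ?_
    rw [abs_le]
    push_cast
    constructor
    · rintro ⟨h1, h2⟩
      constructor <;> linarith
    · rintro ⟨h1, h2⟩
      constructor <;> linarith
  rw [e]
  exact ZB_of_cf hβ (h _ (2 * l + 1) (Nat.le_add_left 1 (2 * l)))

theorem SlZ_of {β c : ℝ} (hβ : 0 ≤ β) {K : ℕ} (h : ∀ (k0 : Fin d) (a : Vx d) (L : ℕ), K ≤ L →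
    ∀ x ∈ Slb.bo a (fun k => if k = k0 then K else L),
    ∀ y ∈ Slb.bo a (fun k => if k = k0 then K else L),
      c ≤ cf (Slb.bo a (fun k => if k = k0 then K else L)) β x y) : SlZ d (Real.tanh β) c K := by
  intro k0 a L hL
  have e : slb k0 a K L = Slb.bo a (fun k => if k = k0 then K else L) := by
    ext y
    unfold slb
    rw [Finset.mem_Icc, Pi.le_def, Pi.le_def, Slb.mem_bo, ← forall_and]
    refine forall_congr' fun k => ?_
    constructor
    · rintro ⟨h1, h2⟩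
      exact ⟨h1, by linarith⟩
    · rintro ⟨h1, h2⟩
      exact ⟨h1, by linarith⟩
  rw [e]
  exact ZB_of_cf hβ (h k0 a L hL)

/-- END STATEMENT of the local block: the hypothesis `LocBad` of block FAC -/
theorem locBad {β : ℝ} (hd : 2 ≤ d) (hβ : 0 < β) (hC : Slb.CUBE d β) (hS : Slb.SLAB d β)
    (hH : Slb.SHELL d β) : ∃ κ : ℝ, 0 < κ ∧ ∀ ε : ℝ, 0 < ε → ∃ n0 : ℕ, ∀ n ≥ n0, ∃ l0 : ℕ, ∀ l ≥ l0,
      ∀ (Q : Vx d) (A1 A2 : Vx d → ZMod 2),
        FW (Real.tanh β) (edg (RG l n Q)) A1 (fun ω1 => FW (Real.tanh β) (edg (RG l n Q)) A2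
          (fun ω2 => ind (¬ gF κ l n Q ω1 ω2))) ≤
        ε * (FW (Real.tanh β) (edg (RG l n Q)) A1 (fun _ => 1) *
          FW (Real.tanh β) (edg (RG l n Q)) A2 (fun _ => 1)) := by
  obtain ⟨c1, hc1, h1⟩ := hC
  obtain ⟨c2, hc2, K', hK', h2⟩ := hS
  obtain ⟨c3, hc3, K, hK, h3⟩ := hH
  set c : ℝ := min (min c1 c2) (min c3 1) with hc
  have hc0 : 0 < c := lt_min (lt_min hc1 hc2) (lt_min hc3 one_pos)
  have l1 : c ≤ c1 := (min_le_left _ _).trans (min_le_left _ _)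
  have l2 : c ≤ c2 := (min_le_left _ _).trans (min_le_right _ _)
  have l3 : c ≤ c3 := (min_le_right _ _).trans (min_le_left _ _)
  have l4 : c ≤ 1 := (min_le_right _ _).trans (min_le_right _ _)
  refine ⟨c ^ 2 / 8, by positivity, fun ε hε => ?_⟩
  exact loc_gF hd (th_pos hβ) (th_lt_one β) hc0 l4 hK (le_trans one_le_two hK')
    (fun o r => ZB_of_cf hβ.le fun u hu v hv => l3.trans (h3 o r u hu v hv))
    (SlZ_of hβ.le fun k0 a L hL x hx y hy => l2.trans (h2 k0 a L hL x hx y hy))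
    (CuZ_of hβ.le fun a n hn x hx y hy => l1.trans (h1 a n hn x hx y hy)) hε

end Pool.Agent.Fac.Lc
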