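import Pool.Agent.Fac.Fcf
import Pool.Agent.Fac.Top
import Pool.Agent.Fac.Lcb

/-!
# Block FAC: the main theorem (helper61)
-/

set_option autoImplicit false

namespace Pool.Agent.Fac

open Finset
open Pool.Agent.SRC (Vx Ed tip bde bd edg conn ind fl uv ZZ loopM)

variable {d : ℕ}

theorem gia (hd : 2 ≤ d) (h : ℕ) (hh : 1 ≤ h) : Gia d h :=
  fun _ _ hb _ hBL hB => giant hd hh hb hB hBL

/-- all but `LocBad` -/
theorem fac_main (hd : 2 ≤ d) {β : ℝ} (hβ : 0 < β) (hS : Pool.Agent.Slb.SHELLP d β)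
    (hLoc : ∃ κ : ℝ, 0 < κ ∧ ∀ ε : ℝ, 0 < ε → ∃ n0 : ℕ, ∀ n : ℕ, n0 ≤ n → ∃ l : ℕ,
      LocBad (Real.tanh β) κ l n d ε) : FAC d β :=
  fac_of hβ hS hLoc (gia hd) (faces_ex hd) (by omega)

/-- THE FACTORISATION THEOREM -/
theorem fac (hd : 2 ≤ d) {β : ℝ} (hβ : 0 < β) (h1 : Pool.Agent.Slb.CUBE d β)
    (h2 : Pool.Agent.Slb.SLAB d β) (h3 : Pool.Agent.Slb.SHELL d β) (h4 : Pool.Agent.Slb.SHELLP d β) :
    FAC d β :=
  fac_main hd hβ h4 (locBad hd hβ h1 h2 h3)

/-- a set of edges in `edg X` has its boundary in `X` -/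
theorem bd_sub {X : Finset (Vx d)} {y : Finset (Ed d)} (hy : y ⊆ edg X) {v : Vx d} (hv : bd y v ≠ 0) :
    v ∈ X := by
  by_contra hX
  apply hv
  unfold bd
  rw [Finset.sum_apply]
  refine Finset.sum_eq_zero fun e he => ?_
  have h1 := (Pool.Agent.SRC.mem_edg X e).1 (hy he)
  have h2 : v ≠ e.1 := fun h => hX (h ▸ h1.1)
  have h3 : v ≠ tip e := fun h => hX (h ▸ h1.2)
  unfold bde
  simp [Pi.single_apply, h2, h3]

/-- the form with a set `y` of edges of the core and sources `S` outside the open fattened box -/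
theorem fac_core (hd : 2 ≤ d) {β : ℝ} (hβ : 0 < β) (h1 : Pool.Agent.Slb.CUBE d β)
    (h2 : Pool.Agent.Slb.SLAB d β) (h3 : Pool.Agent.Slb.SHELL d β) (h4 : Pool.Agent.Slb.SHELLP d β)
    (M : ℕ) (ε : ℝ) (hε : 0 < ε) :
    ∃ t0 : ℕ, ∀ t : ℕ, t0 ≤ t → ∀ a b : Vx d, (∀ k, a k ≤ b k ∧ b k - a k ≤ (M : ℤ) * t) →
      ∀ (y : Finset (Ed d)) (S : Vx d → ZMod 2), y ⊆ edg (Finset.Icc a b) →
        (∀ v, (∀ k, a k - (t : ℤ) < v k ∧ v k < b k + (t : ℤ)) → S v = 0) →
        ZZ (loopM (Real.tanh β)) (shE a b t) (bd y + S) * ZZ (loopM (Real.tanh β)) (shE a b t) 0 ≤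
          (1 + ε) * (ZZ (loopM (Real.tanh β)) (shE a b t) (bd y) *
            ZZ (loopM (Real.tanh β)) (shE a b t) S) := by
  obtain ⟨t0, ht0⟩ := fac hd hβ h1 h2 h3 h4 M ε hε
  refine ⟨t0, fun t ht a b hab y S hy hS => ?_⟩
  have hx0 : 0 ≤ Real.tanh β := (Pool.Agent.FK1.tanh_pos' hβ).le
  have hab' : ∀ k, a k ≤ b k := fun k => (hab k).1
  have nn : ∀ B : Vx d → ZMod 2, 0 ≤ ZZ (loopM (Real.tanh β)) (shE a b t) B := by
    intro B
    rw [← ZA_eq_ZZ]
    unfold Pool.Agent.FK1.ZA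
    refine Finset.sum_nonneg fun η _ => mul_nonneg ?_ (Finset.prod_nonneg fun _ _ => hx0)
    unfold ind
    split_ifs <;> norm_num
  by_cases hin : ∀ v, S v ≠ 0 → v ∈ PX a b t
  · refine ht0 t ht a b hab (bd y) S (fun v hv => bd_sub hy hv) (fun v hv => ⟨hin v hv, ?_⟩) ⟨y, rfl⟩
    by_contra hcon
    push Not at hcon
    apply hv
    refine hS v fun k => ?_
    have h5 := hin v hv
    unfold PX at h5
    rw [Finset.mem_Icc, Pi.le_def, Pi.le_def] at h5
    have h6 : a k - (t : ℤ) ≤ v k := h5.1 k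
    have h7 : v k ≤ b k + (t : ℤ) := h5.2 k
    exact ⟨lt_of_le_of_ne h6 (Ne.symm (hcon k).1), lt_of_le_of_ne h7 (hcon k).2⟩
  · push Not at hin
    obtain ⟨v, hv, hvP⟩ := hin
    have hPX : edg (PX a b t) ⊆ edg (PX a b t) := subset_rfl
    have hvI : v ∉ Finset.Icc a b := by
      intro h
      apply hvP
      rw [Finset.mem_Icc, Pi.le_def, Pi.le_def] at h
      unfold PX
      rw [Finset.mem_Icc, Pi.le_def, Pi.le_def]
      exact ⟨fun k => by have := h.1 k; show a k - (t : ℤ) ≤ v k; omega,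
        fun k => by have := h.2 k; show v k ≤ b k + (t : ℤ); omega⟩
    have h0 : ZZ (loopM (Real.tanh β)) (shE a b t) (bd y + S) = 0 := by
      rw [← ZA_eq_ZZ]
      unfold Pool.Agent.FK1.ZA
      refine Finset.sum_eq_zero fun η hη => ?_
      have : ¬ (Pool.Agent.FK1.bdm bde η = bd y + S) := by
        intro hη2
        have e1 : bd η v = 0 := by
          by_contra h
          exact hvP (bd_sub ((Finset.mem_powerset.1 hη).trans Finset.sdiff_subset) h)
        have e2 : bd y v = 0 := by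
          by_contra h
          exact hvI (bd_sub hy h)
        have e3 : bd η v = bd y v + S v := congrFun hη2 v
        rw [e1, e2, zero_add] at e3
        exact hv e3.symm
      rw [Pool.Agent.SRC.ind_false this, zero_mul]
    rw [h0, zero_mul]
    have := nn (bd y)
    have := nn S
    positivity

end Pool.Agent.Fac
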