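import Pool.Agent.Fac.Alg

/-!
# Block FAC, noise: the cells which are not crossing carry private fair signs (helper61)
-/

set_option autoImplicit false

namespace Pool.Agent.Fac

open Finset
open Pool.Agent.SRC (Vx Ed tip bde bd edg conn ind fl uv)
open Pool.Agent.FK1 (wB wF FF NN bdm ZA Inc SD)
open Pool.Agent.TC (spin cf)

variable {d : ℕ}

/-- the noise of the block `Q`: sum of the signs at the cells which are not crossing in both copies -/
noncomputable def Nz (l n : ℕ) (Q : Vx d) (ω1 ω2 : Finset (Ed d)) (T : Finset (Vx d)) : ℝ :=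
  ∑ w ∈ fl (fi n Q) (fun w => ¬ (Cr l (ce l w) ω1 ∧ Cr l (ce l w) ω2)), spin T (ce l w)

/-- blocks of `P` pairwise at sup distance at least 5 -/
def Spr (P : Finset (Vx d)) : Prop := ∀ Q ∈ P, ∀ Q' ∈ P, Q ≠ Q' → ∃ k, 5 ≤ |Q k - Q' k|

/-! ## row n1: geometry of cells -/

/-! ## row n1: geometry of cells -/

-- BEGIN n1a
private theorem n1a_mem {v u : Vx d} {r : ℕ} :
    u ∈ ball v r ↔ ∀ k, v k - (r : ℤ) ≤ u k ∧ u k ≤ v k + (r : ℤ) := by
  unfold ball
  rw [Finset.mem_Icc, Pi.le_def, Pi.le_def]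
  exact ⟨fun h k => ⟨h.1 k, h.2 k⟩, fun h => ⟨fun k => (h k).1, fun k => (h k).2⟩⟩

/-- the centre of the cell is the only centre of a cell in its ball -/
theorem ce_mem_ball (l : ℕ) (w w' : Vx d) : ce l w' ∈ ball (ce l w) l ↔ w' = w := by
  rw [n1a_mem]
  constructor
  · intro h
    funext k
    have h1 := (h k).1
    have h2 := (h k).2
    unfold ce at h1 h2
    have hl : (0 : ℤ) ≤ (l : ℤ) := Int.natCast_nonneg l
    rcases lt_trichotomy (w' k) (w k) with h3 | h3 | h3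
    · exfalso
      have h4 : w' k + 1 ≤ w k := h3
      nlinarith
    · exact h3
    · exfalso
      have h4 : w k + 1 ≤ w' k := h3
      nlinarith
  · rintro rfl k
    have hl : (0 : ℤ) ≤ (l : ℤ) := Int.natCast_nonneg l
    constructor <;> linarith

private theorem n1a_out {v u u' : Vx d} {l : ℕ} (i : Fin d) (hu : u ∈ ball v l)
    (hu' : u' ∉ ball v l) (h : u' = u + uv i ∨ u = u' + uv i) : sph v l u := by
  rw [n1a_mem] at hu hu'
  obtain ⟨k, hk⟩ := not_forall.1 hu'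
  have hki : k = i := by
    by_contra hne
    apply hk
    have h1 : u' k = u k := by
      rcases h with h | h
      · rw [h]
        simp [uv, hne]
      · rw [h]
        simp [uv, hne]
    rw [h1]
    exact hu k
  subst hki
  refine ⟨k, ?_⟩
  have h2 := hu k
  rcases h with h | h
  · have h1 : u' k = u k + 1 := by
      rw [h]
      simp [uv]
    rw [h1] at hk
    have h3 : u k = v k + l := by
      by_contra h4
      exact hk ⟨by linarith [h2.1], by have := lt_of_le_of_ne h2.2 h4; linarith⟩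
    rw [h3]
    simp
  · have h1 : u k = u' k + 1 := by
      conv_lhs => rw [h]
      simp [uv]
    have h3 : u k = v k - l := by
      by_contra h4
      exact hk ⟨by have := lt_of_le_of_ne h2.1 (Ne.symm h4); linarith, by linarith [h2.2]⟩
    rw [h3]
    simp

/-- the cluster of a point which is not a crossing point stays in the ball -/
theorem Cl_sub_ball {D : Finset (Vx d)} {ω : Finset (Ed d)} (hω : EndsIn ω D) {l : ℕ} {v : Vx d}
    (h : ¬ Cr l v ω) : Cl D ω v ⊆ ball v l := by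
  have key : ∀ u, conn (↑ω : Set (Ed d)) v u →
      u ∈ ball v l ∧ conn (↑(ω ∩ edg (ball v l)) : Set (Ed d)) v u := by
    intro u hu
    induction hu with
    | refl =>
      refine ⟨n1a_mem.2 fun k => ?_, Pool.Agent.SRC.conn_refl _ _⟩
      have hl : (0 : ℤ) ≤ (l : ℤ) := Int.natCast_nonneg l
      constructor <;> linarith
    | @tail a b _ hab ih =>
      obtain ⟨ha, hc⟩ := ih
      obtain ⟨i, hi⟩ := hab
      have hb : b ∈ ball v l := by
        by_contra hb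
        apply h
        refine ⟨a, ha, n1a_out i ha hb ?_, hc⟩
        rcases hi with hi | hi
        · exact Or.inl hi.2
        · exact Or.inr hi.2
      refine ⟨hb, Relation.ReflTransGen.tail hc ⟨i, ?_⟩⟩
      rcases hi with ⟨h1, h2⟩ | ⟨h1, h2⟩
      · left
        refine ⟨?_, h2⟩
        rw [Finset.mem_coe] at h1
        rw [Finset.mem_coe, Finset.mem_inter]
        refine ⟨h1, ?_⟩
        unfold edg
        rw [Finset.mem_filter, Finset.mem_product]
        refine ⟨⟨ha, Finset.mem_univ _⟩, ?_⟩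
        unfold tip
        rw [← h2]
        exact hb
      · right
        refine ⟨?_, h2⟩
        rw [Finset.mem_coe] at h1
        rw [Finset.mem_coe, Finset.mem_inter]
        refine ⟨h1, ?_⟩
        unfold edg
        rw [Finset.mem_filter, Finset.mem_product]
        refine ⟨⟨hb, Finset.mem_univ _⟩, ?_⟩
        unfold tip
        rw [← h2]
        exact ha
  intro u hu
  unfold Cl at hu
  rw [Pool.Agent.SRC.mem_fl] at hu
  exact (key u hu.2).1

/-- crossing depends only on the edges inside the ball -/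
theorem Cr_congr {l : ℕ} {v : Vx d} {ω ω' : Finset (Ed d)}
    (h : ω ∩ edg (ball v l) = ω' ∩ edg (ball v l)) : Cr l v ω ↔ Cr l v ω' := by
  unfold Cr
  rw [h]
-- END n1a

variable {d : ℕ}

-- BEGIN n1b (helper89)
theorem fi_card (n : ℕ) (Q : Vx d) : (fi n Q).card = n ^ d := by
  unfold fi
  rw [Pi.card_Icc]
  have h : ∀ k ∈ (Finset.univ : Finset (Fin d)),
      (Finset.Icc ((n : ℤ) * Q k) ((n : ℤ) * Q k + ((n : ℤ) - 1))).card = n := by
    intro k _
    rw [Int.card_Icc]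
    omega
  rw [Finset.prod_congr rfl h, Finset.prod_const, Finset.card_univ, Fintype.card_fin]

theorem ball_card (v : Vx d) (r : ℕ) : (ball v r).card = (2 * r + 1) ^ d := by
  unfold ball
  rw [Pi.card_Icc]
  have h : ∀ k ∈ (Finset.univ : Finset (Fin d)),
      (Finset.Icc (v k - (r : ℤ)) (v k + (r : ℤ))).card = 2 * r + 1 := by
    intro k _
    rw [Int.card_Icc]
    omega
  rw [Finset.prod_congr rfl h, Finset.prod_const, Finset.card_univ, Fintype.card_fin]

/-- different blocks have different cells -/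
theorem fi_disj {n : ℕ} (hn : 1 ≤ n) {Q Q' : Vx d} (h : Q ≠ Q') : Disjoint (fi n Q) (fi n Q') := by
  rw [Finset.disjoint_left]
  intro w hw hw'
  apply h
  funext k
  unfold fi at hw hw'
  rw [Finset.mem_Icc] at hw hw'
  have h1 : (n : ℤ) * Q k ≤ w k := hw.1 k
  have h2 : w k ≤ (n : ℤ) * Q k + ((n : ℤ) - 1) := hw.2 k
  have h3 : (n : ℤ) * Q' k ≤ w k := hw'.1 k
  have h4 : w k ≤ (n : ℤ) * Q' k + ((n : ℤ) - 1) := hw'.2 k
  have hn' : (1 : ℤ) ≤ n := by exact_mod_cast hn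
  rcases lt_trichotomy (Q k) (Q' k) with h5 | h5 | h5
  · have h6 : (n : ℤ) * (Q k + 1) ≤ (n : ℤ) * Q' k := mul_le_mul_of_nonneg_left h5 (by omega)
    rw [mul_add, mul_one] at h6
    omega
  · exact h5
  · have h6 : (n : ℤ) * (Q' k + 1) ≤ (n : ℤ) * Q k := mul_le_mul_of_nonneg_left h5 (by omega)
    rw [mul_add, mul_one] at h6
    omega

/-- the ball of a cell of a block near `Q` lies in the region of `Q` -/
theorem ball_sub_RG {l n : ℕ} (hn : 1 ≤ n) {Q Q' w : Vx d} (hQ : Q' ∈ ball Q 2) (hw : w ∈ fi n Q') :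
    ball (ce l w) l ⊆ RG l n Q := by
  intro u hu
  unfold ball at hu hQ
  unfold fi at hw
  unfold RG
  rw [Finset.mem_Icc] at hu hQ hw ⊢
  have hl : (0 : ℤ) ≤ 2 * (l : ℤ) + 1 := by positivity
  have hln : (0 : ℤ) ≤ (2 * (l : ℤ) + 1) * n := by positivity
  refine ⟨fun k => ?_, fun k => ?_⟩
  · show (2 * (l : ℤ) + 1) * n * (Q k - 2) - l ≤ u k
    have h1 : (2 * (l : ℤ) + 1) * w k - (l : ℤ) ≤ u k := hu.1 k
    have h2 : Q k - ((2 : ℕ) : ℤ) ≤ Q' k := hQ.1 k
    have h3 : (n : ℤ) * Q' k ≤ w k := hw.1 k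
    have h4 := mul_le_mul_of_nonneg_left h3 hl
    have h5 := mul_le_mul_of_nonneg_left h2 hln
    push_cast at h5
    have h6 : (2 * (l : ℤ) + 1) * (↑n * Q' k) = (2 * (l : ℤ) + 1) * n * Q' k := by ring
    linarith
  · show u k ≤ (2 * (l : ℤ) + 1) * n * (Q k + 3) - l - 1
    have h1 : u k ≤ (2 * (l : ℤ) + 1) * w k + (l : ℤ) := hu.2 k
    have h2 : Q' k ≤ Q k + ((2 : ℕ) : ℤ) := hQ.2 k
    have h3 : w k ≤ (n : ℤ) * Q' k + ((n : ℤ) - 1) := hw.2 k
    have h4 := mul_le_mul_of_nonneg_left h3 hl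
    have h5 := mul_le_mul_of_nonneg_left h2 hln
    push_cast at h5
    have h6 : (2 * (l : ℤ) + 1) * (↑n * Q' k + (↑n - 1)) =
        (2 * (l : ℤ) + 1) * n * Q' k + (2 * (l : ℤ) + 1) * n - (2 * (l : ℤ) + 1) := by ring
    have h7 : (2 * (l : ℤ) + 1) * ↑n * (Q k + 3) =
        (2 * (l : ℤ) + 1) * ↑n * (Q k + 2) + (2 * (l : ℤ) + 1) * n := by ring
    linarith
-- END n1b

/-! ## row n2: private signs. If `Cr` fails for the first copy, the flip of the cluster `Cl D ω1 (ce l w)` is an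
involution of `HH D ω1` which changes the sign at `ce l w` and does not change `G`; the same for the second copy. -/

/-! ## row n2: private signs. If `Cr` fails for the first copy, the flip of the cluster `Cl D ω1 (ce l w)` is an
involution of `HH D ω1` which changes the sign at `ce l w` and does not change `G`; the same for the second copy. -/

-- BEGIN n2
/-- the flip of a cluster preserves the sign fields -/
private theorem n2_mem {D : Finset (Vx d)} {ω : Finset (Ed d)} (hω : EndsIn ω D) (v : Vx d)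
    {T : Finset (Vx d)} (hT : T ∈ HH D ω) : symmDiff T (Cl D ω v) ∈ HH D ω := by
  unfold HH at hT ⊢
  rw [SRC.mem_fl, Finset.mem_powerset] at hT ⊢
  obtain ⟨hT1, hT2⟩ := hT
  have hC : ∀ u, u ∈ Cl D ω v ↔ u ∈ D ∧ conn (↑ω : Set (Ed d)) v u := fun u => SRC.mem_fl _ _ _
  refine ⟨?_, ?_⟩
  · intro u hu
    rw [Finset.mem_symmDiff] at hu
    rcases hu with h | h
    · exact hT1 h.1
    · exact ((hC u).1 h.1).1
  · intro e he
    have hadj : SRC.adj (↑ω : Set (Ed d)) e.1 (tip e) := ⟨e.2, Or.inl ⟨he, rfl⟩⟩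
    have h3 : e.1 ∈ Cl D ω v ↔ tip e ∈ Cl D ω v := by
      rw [hC, hC]
      constructor
      · exact fun h => ⟨(hω e he).2, h.2.tail hadj⟩
      · exact fun h => ⟨(hω e he).1, h.2.tail (SRC.adj_symm hadj)⟩
    have h4 := hT2 e he
    rw [Finset.mem_symmDiff, Finset.mem_symmDiff]
    tauto

/-- a function which changes sign under the flip of a cluster has sum zero -/
private theorem n2_sum {D : Finset (Vx d)} {ω : Finset (Ed d)} (hω : EndsIn ω D) (v : Vx d)
    (F : Finset (Vx d) → ℝ) (hF : ∀ T, F (symmDiff T (Cl D ω v)) = - F T) :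
    ∑ T ∈ HH D ω, F T = 0 := by
  have h1 : ∑ T ∈ HH D ω, F T = ∑ T ∈ HH D ω, F (symmDiff T (Cl D ω v)) := by
    apply Finset.sum_nbij' (fun T => symmDiff T (Cl D ω v)) (fun T => symmDiff T (Cl D ω v))
    · intro T hT
      exact n2_mem hω v hT
    · intro T hT
      exact n2_mem hω v hT
    · intro T _
      exact symmDiff_symmDiff_cancel_right _ _
    · intro T _
      exact symmDiff_symmDiff_cancel_right _ _
    · intro T _
      rw [symmDiff_symmDiff_cancel_right]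
  rw [Finset.sum_congr rfl fun T _ => hF T, Finset.sum_neg_distrib] at h1
  linarith

/-- the sign at a point of the flipped set -/
private theorem n2_spin (T V : Finset (Vx d)) (v : Vx d) (hv : v ∈ V) :
    spin (symmDiff T V) v = - spin T v := by
  unfold spin
  by_cases h : v ∈ T
  · rw [if_pos h, if_neg]
    · norm_num
    · rw [Finset.mem_symmDiff]
      tauto
  · rw [if_neg h, if_pos]
    rw [Finset.mem_symmDiff]
    tauto

theorem flip_zero {D : Finset (Vx d)} {ω1 ω2 : Finset (Ed d)} (h1 : EndsIn ω1 D) (h2 : EndsIn ω2 D)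
    {l : ℕ} {w : Vx d} (hD : ball (ce l w) l ⊆ D)
    (hw : ¬ (Cr l (ce l w) ω1 ∧ Cr l (ce l w) ω2)) (G : Finset (Vx d) → ℝ)
    (hG : ∀ T V, V ⊆ ball (ce l w) l → G (symmDiff T V) = G T) :
    fE D ω1 ω2 (fun T => spin T (ce l w) * G T) = 0 := by
  have hc : ce l w ∈ ball (ce l w) l := (ce_mem_ball l w w).2 rfl
  have hself : ∀ ω : Finset (Ed d), ce l w ∈ Cl D ω (ce l w) := fun ω =>
    (SRC.mem_fl _ _ _).2 ⟨hD hc, SRC.conn_refl _ _⟩
  have key : ∀ ω : Finset (Ed d), EndsIn ω D → ¬ Cr l (ce l w) ω → ∀ T,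
      spin (symmDiff T (Cl D ω (ce l w))) (ce l w) * G (symmDiff T (Cl D ω (ce l w))) =
        - (spin T (ce l w) * G T) := by
    intro ω hω hcr T
    rw [n2_spin _ _ _ (hself ω), hG _ _ (Cl_sub_ball hω hcr)]
    ring
  by_cases hc1 : Cr l (ce l w) ω1
  · have hc2 : ¬ Cr l (ce l w) ω2 := fun h => hw ⟨hc1, h⟩
    have h3 : ∀ T1, tE D ω2 (fun T2 => spin (symmDiff T1 T2) (ce l w) * G (symmDiff T1 T2)) = 0 := by
      intro T1
      unfold tE
      rw [n2_sum h2 (ce l w), zero_div]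
      intro T
      rw [← symmDiff_assoc]
      exact key ω2 h2 hc2 _
    unfold fE
    simp only [h3]
    unfold tE
    rw [Finset.sum_const_zero, zero_div]
  · unfold fE
    rw [tE, n2_sum h1 (ce l w), zero_div]
    intro T
    have h3 : ∀ T2, symmDiff (symmDiff T (Cl D ω1 (ce l w))) T2 =
        symmDiff (symmDiff T T2) (Cl D ω1 (ce l w)) := by
      intro T2
      rw [symmDiff_assoc, symmDiff_comm (Cl D ω1 (ce l w)) T2, ← symmDiff_assoc]
    simp only [h3, key ω1 h1 hc1]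
    unfold tE
    rw [Finset.sum_neg_distrib, neg_div]
-- END n2

/-! ## row n3: one block. Expand the square: the diagonal gives the number of cells, the products of two
different cells vanish by `flip_zero` (`G` = the other sign times the rest). -/

-- row n3 of Fac/Nse.lean (helper35): replaces the stub of noise_step
-- BEGIN n3
private theorem n3_spin {T V : Finset (Vx d)} {v : Vx d} (h : v ∉ V) :
    spin (symmDiff T V) v = spin T v := by
  unfold Pool.Agent.TC.spin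
  have h1 : v ∈ symmDiff T V ↔ v ∈ T := by
    rw [Finset.mem_symmDiff]
    constructor
    · rintro (⟨h2, _⟩ | ⟨h2, _⟩)
      · exact h2
      · exact absurd h2 h
    · intro h2
      exact Or.inl ⟨h2, h⟩
  simp only [h1]

private theorem n3_sq (T : Finset (Vx d)) (v : Vx d) : spin T v * spin T v = 1 := by
  unfold Pool.Agent.TC.spin
  split_ifs <;> norm_num

private theorem n3_nonneg (D : Finset (Vx d)) (ω1 ω2 : Finset (Ed d)) {G : Finset (Vx d) → ℝ}
    (hG0 : ∀ T, 0 ≤ G T) : 0 ≤ fE D ω1 ω2 G := by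
  unfold fE tE
  exact div_nonneg (Finset.sum_nonneg fun T1 _ =>
    div_nonneg (Finset.sum_nonneg fun T2 _ => hG0 _) (Nat.cast_nonneg _)) (Nat.cast_nonneg _)

theorem noise_step {D : Finset (Vx d)} {ω1 ω2 : Finset (Ed d)} (h1 : EndsIn ω1 D) (h2 : EndsIn ω2 D)
    {l n : ℕ} {Q : Vx d} (hD : ∀ w ∈ fi n Q, ball (ce l w) l ⊆ D) (G : Finset (Vx d) → ℝ)
    (hG0 : ∀ T, 0 ≤ G T)
    (hG : ∀ w ∈ fi n Q, ∀ T V, V ⊆ ball (ce l w) l → G (symmDiff T V) = G T) :
    fE D ω1 ω2 (fun T => Nz l n Q ω1 ω2 T ^ 2 * G T) ≤ (n : ℝ) ^ d * fE D ω1 ω2 G := by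
  classical
  set X := fl (fi n Q) (fun w => ¬ (Cr l (ce l w) ω1 ∧ Cr l (ce l w) ω2)) with hX
  have hXm : ∀ w ∈ X, w ∈ fi n Q ∧ ¬ (Cr l (ce l w) ω1 ∧ Cr l (ce l w) ω2) := fun w hw =>
    (Pool.Agent.SRC.mem_fl _ _ _).1 hw
  have hexp : (fun T => Nz l n Q ω1 ω2 T ^ 2 * G T) = fun T =>
      ∑ p ∈ X ×ˢ X, (1 : ℝ) * (spin T (ce l p.1) * (spin T (ce l p.2) * G T)) := by
    funext T
    unfold Nz
    rw [← hX, sq, Finset.sum_mul_sum, Finset.sum_product, Finset.sum_mul]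
    refine Finset.sum_congr rfl fun w _ => ?_
    rw [Finset.sum_mul]
    refine Finset.sum_congr rfl fun w' _ => ?_
    ring
  have hterm : ∀ p ∈ X ×ˢ X, (1 : ℝ) * fE D ω1 ω2
      (fun T => spin T (ce l p.1) * (spin T (ce l p.2) * G T)) =
        if p.1 = p.2 then fE D ω1 ω2 G else 0 := by
    intro p hp
    rw [Finset.mem_product] at hp
    rw [one_mul]
    by_cases h : p.1 = p.2
    · rw [if_pos h, h]
      congr 1
      funext T
      rw [← mul_assoc, n3_sq, one_mul]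
    · rw [if_neg h]
      obtain ⟨h3, h4⟩ := hXm p.1 hp.1
      refine flip_zero h1 h2 (hD p.1 h3) h4 (fun T => spin T (ce l p.2) * G T) ?_
      intro T V hV
      have h5 : ce l p.2 ∉ V := fun h6 => h ((ce_mem_ball l p.1 p.2).1 (hV h6)).symm
      show spin (symmDiff T V) (ce l p.2) * G (symmDiff T V) = spin T (ce l p.2) * G T
      rw [n3_spin h5, hG p.1 h3 T V hV]
  have hsum : fE D ω1 ω2 (fun T => Nz l n Q ω1 ω2 T ^ 2 * G T) =
      (X.card : ℝ) * fE D ω1 ω2 G := by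
    rw [hexp, fE_sum D ω1 ω2 (X ×ˢ X) (fun _ => (1 : ℝ))
      (fun p T => spin T (ce l p.1) * (spin T (ce l p.2) * G T)), Finset.sum_congr rfl hterm,
      Finset.sum_product]
    have h3 : ∀ w ∈ X, ∑ w' ∈ X, (if (w, w').1 = (w, w').2 then fE D ω1 ω2 G else 0) =
        fE D ω1 ω2 G := by
      intro w hw
      have h4 : ∑ w' ∈ X, (if w = w' then fE D ω1 ω2 G else 0) = fE D ω1 ω2 G := by
        rw [Finset.sum_ite_eq, if_pos hw]
      exact h4
    rw [Finset.sum_congr rfl h3, Finset.sum_const, nsmul_eq_mul]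
  rw [hsum]
  refine mul_le_mul_of_nonneg_right ?_ (n3_nonneg D ω1 ω2 hG0)
  have h3 : X.card ≤ n ^ d := by
    rw [← fi_card n Q]
    exact Finset.card_le_card fun w hw => (hXm w hw).1
  exact_mod_cast h3
-- END n3

/-! ## row n4: the product over sparse blocks, by induction over `P` -/

/-! ## row n4: the product over sparse blocks, by induction over `P` -/

-- BEGIN n4
private theorem n4_tE_one (D : Finset (Vx d)) (ω : Finset (Ed d)) : tE D ω (fun _ => 1) = 1 := by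
  unfold tE
  rw [Finset.sum_const, nsmul_eq_mul, mul_one]
  exact div_self (Nat.cast_ne_zero.mpr (HH_card_pos D ω).ne')

private theorem n4_one (D : Finset (Vx d)) (ω1 ω2 : Finset (Ed d)) :
    fE D ω1 ω2 (fun _ => 1) = 1 := by
  unfold fE
  simp only [n4_tE_one]

private theorem n4_add (D : Finset (Vx d)) (ω1 ω2 : Finset (Ed d)) (f g : Finset (Vx d) → ℝ) :
    fE D ω1 ω2 (fun T => f T + g T) = fE D ω1 ω2 f + fE D ω1 ω2 g := by
  unfold fE
  simp only [tE_add]

private theorem n4_smul (D : Finset (Vx d)) (ω1 ω2 : Finset (Ed d)) (c : ℝ)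
    (f : Finset (Vx d) → ℝ) : fE D ω1 ω2 (fun T => c * f T) = c * fE D ω1 ω2 f := by
  unfold fE tE
  simp only [← Finset.mul_sum, mul_div_assoc]

/-- the noise of another block does not change -/
private theorem n4_Nz {l n : ℕ} (hn : 1 ≤ n) {Q' Q'' : Vx d} (hne : Q' ≠ Q'') {w : Vx d}
    (hw : w ∈ fi n Q') {ω1 ω2 : Finset (Ed d)} {T V : Finset (Vx d)} (hV : V ⊆ ball (ce l w) l) :
    Nz l n Q'' ω1 ω2 (symmDiff T V) = Nz l n Q'' ω1 ω2 T := by
  unfold Nz
  refine Finset.sum_congr rfl fun w' hw' => ?_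
  have h1 : w' ∈ fi n Q'' := ((Pool.Agent.SRC.mem_fl _ _ _).1 hw').1
  have h2 : w' ≠ w := by
    rintro rfl
    exact Finset.disjoint_left.1 (fi_disj hn hne) hw h1
  have h3 : ce l w' ∉ V := fun h => h2 ((ce_mem_ball l w w').1 (hV h))
  unfold spin
  have h4 : ce l w' ∈ symmDiff T V ↔ ce l w' ∈ T := by
    rw [Finset.mem_symmDiff]
    constructor
    · rintro (h | h)
      · exact h.1
      · exact absurd h.1 h3
    · exact fun h => Or.inl ⟨h, h3⟩
  by_cases h5 : ce l w' ∈ T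
  · rw [if_pos h5, if_pos (h4.2 h5)]
  · rw [if_neg h5, if_neg fun h => h5 (h4.1 h)]

/-- blocks near different blocks of a sparse set are different -/
private theorem n4_ne {P : Finset (Vx d)} {Q Q3 Q' Q'' : Vx d} (hP : Spr (insert Q P))
    (hQ : Q ∉ P) (hQ3 : Q3 ∈ P) (hQ' : Q' ∈ ball Q 1) (hQ'' : Q'' ∈ ball Q3 1) : Q' ≠ Q'' := by
  rintro rfl
  obtain ⟨k, hk⟩ := hP Q (Finset.mem_insert_self _ _) Q3 (Finset.mem_insert_of_mem hQ3)
    (fun h => hQ (h ▸ hQ3))
  unfold ball at hQ' hQ''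
  rw [Finset.mem_Icc, Pi.le_def, Pi.le_def] at hQ' hQ''
  have h1 := hQ'.1 k
  have h2 := hQ'.2 k
  have h3 := hQ''.1 k
  have h4 := hQ''.2 k
  rcases abs_cases (Q k - Q3 k) with h | h <;> push_cast at h1 h2 h3 h4 <;> omega

theorem noise_prod {D : Finset (Vx d)} {ω1 ω2 : Finset (Ed d)} (h1 : EndsIn ω1 D) (h2 : EndsIn ω2 D)
    {l n : ℕ} (hn : 1 ≤ n) (P : Finset (Vx d)) (hP : Spr P)
    (hD : ∀ Q ∈ P, ∀ Q' ∈ ball Q 1, ∀ w ∈ fi n Q', ball (ce l w) l ⊆ D)
    (a : Vx d → ℝ) (ha : ∀ Q, 0 ≤ a Q) {c : ℝ} (hc : 0 ≤ c) :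
    fE D ω1 ω2 (fun T => ∏ Q ∈ P, (a Q + c * ∑ Q' ∈ ball Q 1, Nz l n Q' ω1 ω2 T ^ 2)) ≤
      ∏ Q ∈ P, (a Q + c * (3 ^ d * (n : ℝ) ^ d)) := by
  classical
  induction P using Finset.induction_on with
  | empty =>
    simp only [Finset.prod_empty]
    exact (n4_one D ω1 ω2).le
  | insert Q P hQP ih =>
    have hP' : Spr P := fun Q1 h1 Q2 h2 =>
      hP Q1 (Finset.mem_insert_of_mem h1) Q2 (Finset.mem_insert_of_mem h2)
    have hD' : ∀ Q ∈ P, ∀ Q' ∈ ball Q 1, ∀ w ∈ fi n Q', ball (ce l w) l ⊆ D :=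
      fun Q hQ => hD Q (Finset.mem_insert_of_mem hQ)
    have hih := ih hP' hD'
    set G : Finset (Vx d) → ℝ := fun T =>
      ∏ Q ∈ P, (a Q + c * ∑ Q' ∈ ball Q 1, Nz l n Q' ω1 ω2 T ^ 2) with hG
    have hG0 : ∀ T, 0 ≤ G T := fun T => Finset.prod_nonneg fun Q _ =>
      add_nonneg (ha Q) (mul_nonneg hc (Finset.sum_nonneg fun _ _ => sq_nonneg _))
    have hGi : ∀ Q' ∈ ball Q 1, ∀ w ∈ fi n Q', ∀ T V, V ⊆ ball (ce l w) l →
        G (symmDiff T V) = G T := by
      intro Q' hQ' w hw T V hV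
      refine Finset.prod_congr rfl fun Q3 hQ3 => ?_
      congr 2
      refine Finset.sum_congr rfl fun Q'' hQ'' => ?_
      rw [n4_Nz hn (n4_ne hP hQP hQ3 hQ' hQ'') hw hV]
    have e1 : (fun T => ∏ Q ∈ insert Q P, (a Q + c * ∑ Q' ∈ ball Q 1, Nz l n Q' ω1 ω2 T ^ 2)) =
        fun T => a Q * G T + ∑ Q' ∈ ball Q 1, c * (Nz l n Q' ω1 ω2 T ^ 2 * G T) := by
      funext T
      rw [Finset.prod_insert hQP, add_mul, ← Finset.mul_sum, ← Finset.sum_mul]
      ring
    rw [e1, n4_add, n4_smul, fE_sum, Finset.prod_insert hQP]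
    have hst : ∀ Q' ∈ ball Q 1, c * fE D ω1 ω2 (fun T => Nz l n Q' ω1 ω2 T ^ 2 * G T) ≤
        c * ((n : ℝ) ^ d * fE D ω1 ω2 G) := fun Q' hQ' =>
      mul_le_mul_of_nonneg_left (noise_step h1 h2 (hD Q (Finset.mem_insert_self _ _) Q' hQ') G hG0
        (hGi Q' hQ')) hc
    have hcard : ((ball Q 1).card : ℝ) = 3 ^ d := by
      rw [ball_card]
      push_cast
      norm_num
    have hfac : 0 ≤ a Q + c * (3 ^ d * (n : ℝ) ^ d) := add_nonneg (ha Q) (by positivity)
    calc a Q * fE D ω1 ω2 G + ∑ Q' ∈ ball Q 1, c * fE D ω1 ω2 (fun T =>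
          Nz l n Q' ω1 ω2 T ^ 2 * G T)
        ≤ a Q * fE D ω1 ω2 G + ∑ _Q' ∈ ball Q 1, c * ((n : ℝ) ^ d * fE D ω1 ω2 G) :=
          add_le_add le_rfl (Finset.sum_le_sum hst)
      _ = (a Q + c * (3 ^ d * (n : ℝ) ^ d)) * fE D ω1 ω2 G := by
          rw [Finset.sum_const, nsmul_eq_mul, hcard]
          ring
      _ ≤ _ := mul_le_mul_of_nonneg_left hih hfac
-- END n4

/-! ## row n5: a bad block of the sign field is bad for the FK pair or noisy. In an FK good block all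
crossing cells have the same sign in both copies (`G1`, `T1`, `T2` constant on clusters), there are at least
`2 κ n ^ d` of them in every `Q' ∈ ball Q 1`; if all noises are at most `κ n ^ d` the block is good. -/

/-! ## row n5: a bad block of the sign field is bad for the FK pair or noisy. In an FK good block all
crossing cells have the same sign in both copies (`G1`, `T1`, `T2` constant on clusters), there are at least
`2 κ n ^ d` of them in every `Q' ∈ ball Q 1`; if all noises are at most `κ n ^ d` the block is good. -/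

-- BEGIN n5
/-- a sign field is constant on clusters -/
private theorem n5_conn {D : Finset (Vx d)} {ω ω' : Finset (Ed d)} {T : Finset (Vx d)}
    (hT : T ∈ HH D ω) (hω : ω' ⊆ ω) {u v : Vx d} (h : conn (↑ω' : Set (Ed d)) u v) :
    u ∈ T ↔ v ∈ T := by
  have hc : Cst ω T := ((Pool.Agent.SRC.mem_fl _ _ _).1 hT).2
  unfold conn at h
  induction h with
  | refl => exact Iff.rfl
  | tail _ h2 ih =>
    refine ih.trans ?_
    obtain ⟨i, hi | hi⟩ := h2
    · have h3 := hc _ (hω (Finset.mem_coe.1 hi.1))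
      rw [hi.2]
      exact h3
    · have h3 := hc _ (hω (Finset.mem_coe.1 hi.1))
      rw [hi.2]
      exact h3.symm

private theorem n5_spin {T1 T2 : Finset (Vx d)} {u v : Vx d} (h1 : u ∈ T1 ↔ v ∈ T1)
    (h2 : u ∈ T2 ↔ v ∈ T2) : spin (symmDiff T1 T2) u = spin (symmDiff T1 T2) v := by
  unfold spin
  have h : u ∈ symmDiff T1 T2 ↔ v ∈ symmDiff T1 T2 := by
    rw [Finset.mem_symmDiff, Finset.mem_symmDiff, h1, h2]
  by_cases h5 : u ∈ symmDiff T1 T2
  · rw [if_pos h5, if_pos (h.1 h5)]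
  · rw [if_neg h5, if_neg fun h6 => h5 (h.2 h6)]

private theorem n5_split {α : Type*} (s : Finset α) (p : α → Prop) (f : α → ℝ) :
    ∑ a ∈ s, f a = ∑ a ∈ fl s p, f a + ∑ a ∈ fl s (fun a => ¬ p a), f a := by
  classical
  have h1 : fl s p = s.filter p := by
    ext a
    rw [Pool.Agent.SRC.mem_fl, Finset.mem_filter]
  have h2 : fl s (fun a => ¬ p a) = s.filter (fun a => ¬ p a) := by
    ext a
    rw [Pool.Agent.SRC.mem_fl, Finset.mem_filter]
  rw [h1, h2, Finset.sum_filter_add_sum_filter_not]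

private theorem n5_self (Q : Vx d) (r : ℕ) : Q ∈ ball Q r := by
  unfold ball
  rw [Finset.mem_Icc, Pi.le_def, Pi.le_def]
  exact ⟨fun k => by simp, fun k => by simp⟩

theorem bad_le {D : Finset (Vx d)} {ω1 ω2 : Finset (Ed d)} (h1 : EndsIn ω1 D) (h2 : EndsIn ω2 D)
    {κ : ℝ} (hκ : 0 < κ) {l n : ℕ} (hn : 1 ≤ n) {Q : Vx d} (hD : RG l n Q ⊆ D)
    {T1 T2 : Finset (Vx d)} (hT1 : T1 ∈ HH D ω1) (hT2 : T2 ∈ HH D ω2) :
    ind (¬ gd κ l n Q (symmDiff T1 T2)) ≤ ind (¬ gF κ l n Q ω1 ω2) +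
      1 / (κ * (n : ℝ) ^ d) ^ 2 * ∑ Q' ∈ ball Q 1, Nz l n Q' ω1 ω2 (symmDiff T1 T2) ^ 2 := by
  classical
  set T := symmDiff T1 T2 with hT
  set K : ℝ := κ * (n : ℝ) ^ d with hK
  have hn0 : (0 : ℝ) < (n : ℝ) := by exact_mod_cast hn
  have hK0 : 0 < K := by positivity
  have hsum : 0 ≤ 1 / K ^ 2 * ∑ Q' ∈ ball Q 1, Nz l n Q' ω1 ω2 T ^ 2 :=
    mul_nonneg (by positivity) (Finset.sum_nonneg fun _ _ => sq_nonneg _)
  by_cases hg : gd κ l n Q T
  · rw [Pool.Agent.SRC.ind_false (not_not.2 hg)]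
    exact add_nonneg (Pool.Agent.SRC.ind_nonneg _) hsum
  rw [Pool.Agent.SRC.ind_true hg]
  by_cases hF : gF κ l n Q ω1 ω2
  swap
  · rw [Pool.Agent.SRC.ind_true hF]
    linarith
  rw [Pool.Agent.SRC.ind_false (not_not.2 hF), zero_add]
  obtain ⟨g1, g2, g3⟩ := hF
  -- the crossing cells
  set cr : Vx d → Prop := fun w => Cr l (ce l w) ω1 ∧ Cr l (ce l w) ω2 with hcr
  have hsame : ∀ Q1 ∈ ball Q 1, ∀ Q2 ∈ ball Q 1, ∀ w1 ∈ fi n Q1, ∀ w2 ∈ fi n Q2,
      cr w1 → cr w2 → spin T (ce l w1) = spin T (ce l w2) := by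
    intro Q1 hQ1 Q2 hQ2 w1 hw1 w2 hw2 c1 c2
    exact n5_spin
      (n5_conn hT1 Finset.inter_subset_left (g1 Q1 hQ1 Q2 hQ2 w1 hw1 w2 hw2 c1.1 c2.1))
      (n5_conn hT2 Finset.inter_subset_left (g2 Q1 hQ1 Q2 hQ2 w1 hw1 w2 hw2 c1.2 c2.2))
  obtain ⟨w0, hw0, hc0⟩ : ∃ w0 ∈ fi n Q, cr w0 := by
    have h5 := g3 Q (n5_self Q 1)
    unfold G2 at h5
    have h6 : 0 < ((fl (fi n Q) (fun w => Cr l (ce l w) ω1 ∧ Cr l (ce l w) ω2)).card : ℝ) := by
      refine lt_of_lt_of_le ?_ h5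
      rw [mul_assoc]
      positivity
    obtain ⟨w0, hw0⟩ := Finset.card_pos.1 (Nat.cast_pos.1 h6)
    exact ⟨w0, ((Pool.Agent.SRC.mem_fl _ _ _).1 hw0).1, ((Pool.Agent.SRC.mem_fl _ _ _).1 hw0).2⟩
  set z : ℝ := spin T (ce l w0) with hz
  have hz1 : z = 1 ∨ z = -1 := by
    rw [hz]
    unfold spin
    split_ifs
    · exact Or.inr rfl
    · exact Or.inl rfl
  have hzz : z * z = 1 := by
    rcases hz1 with h | h <;> rw [h] <;> norm_num
  -- some block is noisy
  obtain ⟨Q', hQ', hbig⟩ : ∃ Q' ∈ ball Q 1, K < |Nz l n Q' ω1 ω2 T| := by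
    by_contra hcon
    push Not at hcon
    refine hg ⟨z, hz1, fun Q' hQ' => ?_⟩
    have h7 : SS l n Q' T =
        z * ((fl (fi n Q') cr).card : ℝ) + Nz l n Q' ω1 ω2 T := by
      have h8 : SS l n Q' T = ∑ w ∈ fl (fi n Q') cr, spin T (ce l w) + Nz l n Q' ω1 ω2 T :=
        n5_split (fi n Q') cr (fun w => spin T (ce l w))
      rw [h8]
      congr 1
      have h9 : ∀ w ∈ fl (fi n Q') cr, spin T (ce l w) = z := fun w hw =>
        hsame Q' hQ' Q (n5_self Q 1) w ((Pool.Agent.SRC.mem_fl _ _ _).1 hw).1 w0 hw0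
          ((Pool.Agent.SRC.mem_fl _ _ _).1 hw).2 hc0
      rw [Finset.sum_congr rfl h9, Finset.sum_const, nsmul_eq_mul, mul_comm]
    have h10 : 2 * κ * (n : ℝ) ^ d ≤ ((fl (fi n Q') cr).card : ℝ) := g3 Q' hQ'
    have h11 := hcon Q' hQ'
    have h12 : -K ≤ z * Nz l n Q' ω1 ω2 T := by
      have h13 := abs_le.1 h11
      rcases hz1 with h | h <;> rw [h] <;> linarith [h13.1, h13.2]
    rw [h7]
    have h14 : z * (z * ((fl (fi n Q') cr).card : ℝ) + Nz l n Q' ω1 ω2 T) =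
        ((fl (fi n Q') cr).card : ℝ) + z * Nz l n Q' ω1 ω2 T := by
      rw [mul_add, ← mul_assoc, hzz, one_mul]
    rw [h14]
    have h15 : 2 * κ * (n : ℝ) ^ d = 2 * K := by rw [hK]; ring
    linarith
  have h16 : K ^ 2 ≤ Nz l n Q' ω1 ω2 T ^ 2 := by
    rw [← sq_abs (Nz l n Q' ω1 ω2 T)]
    exact pow_le_pow_left₀ hK0.le hbig.le 2
  have h17 : Nz l n Q' ω1 ω2 T ^ 2 ≤ ∑ Q' ∈ ball Q 1, Nz l n Q' ω1 ω2 T ^ 2 :=
    Finset.single_le_sum (f := fun Q' => Nz l n Q' ω1 ω2 T ^ 2) (fun _ _ => sq_nonneg _) hQ'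
  rw [one_div, inv_mul_eq_div, le_div_iff₀ (by positivity), one_mul]
  exact h16.trans h17
-- END n5

/-! ## row n6: from n4, n5, `fE_mono` -/

theorem bad_prod {D : Finset (Vx d)} {ω1 ω2 : Finset (Ed d)} (h1 : EndsIn ω1 D) (h2 : EndsIn ω2 D)
    {κ : ℝ} (hκ : 0 < κ) {l n : ℕ} (hn : 1 ≤ n) (P : Finset (Vx d)) (hP : Spr P)
    (hD : ∀ Q ∈ P, RG l n Q ⊆ D) :
    fE D ω1 ω2 (fun T => ∏ Q ∈ P, ind (¬ gd κ l n Q T)) ≤
      ∏ Q ∈ P, (ind (¬ gF κ l n Q ω1 ω2) + 3 ^ d / (κ ^ 2 * (n : ℝ) ^ d)) := by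
  have hn0 : (0 : ℝ) < (n : ℝ) ^ d := by
    have : (0 : ℝ) < (n : ℝ) := by exact_mod_cast hn
    positivity
  have hball : ∀ Q Q' : Vx d, Q' ∈ ball Q 1 → Q' ∈ ball Q 2 := by
    intro Q Q' h
    unfold ball at h ⊢
    rw [Finset.mem_Icc] at h ⊢
    constructor
    · intro k
      have := h.1 k
      push_cast at this ⊢
      omega
    · intro k
      have := h.2 k
      push_cast at this ⊢
      omega
  have hD' : ∀ Q ∈ P, ∀ Q' ∈ ball Q 1, ∀ w ∈ fi n Q', ball (ce l w) l ⊆ D := by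
    intro Q hQ Q' hQ' w hw
    exact (ball_sub_RG hn (hball Q Q' hQ') hw).trans (hD Q hQ)
  have hc : (0 : ℝ) ≤ 1 / (κ * (n : ℝ) ^ d) ^ 2 := by positivity
  have h3 := noise_prod h1 h2 hn P hP hD' (fun Q => ind (¬ gF κ l n Q ω1 ω2))
    (fun Q => Pool.Agent.SRC.ind_nonneg _) hc
  refine (fE_mono D ω1 ω2 ?_).trans (h3.trans (le_of_eq ?_))
  · intro T1 hT1 T2 hT2
    refine Finset.prod_le_prod (fun Q _ => Pool.Agent.SRC.ind_nonneg _) fun Q hQ => ?_
    exact bad_le h1 h2 hκ hn (hD Q hQ) hT1 hT2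
  · refine Finset.prod_congr rfl fun Q _ => ?_
    congr 1
    field_simp


end Pool.Agent.Fac
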