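import Pool.Agent.Fac.Core
import Pool.Agent.Fac.Wlk

/-!
# Block FAC: the core theorem for a coherence event `W` stronger than `CohA` (helper61)

`flipW`: if `W` is very likely given the trace `m`, the flip of one cluster changes the sign between two sign
fields in `W`. `coreW`: the probability that no cluster has the property `V`.
-/

set_option autoImplicit false

namespace Pool.Agent.Fac

open Finset
open Pool.Agent.SRC (Vx Ed tip bde bd edg conn ind fl uv)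
open Pool.Agent.FK1 (wB wF FF NN bdm ZA Inc SD)
open Pool.Agent.TC (spin cf)

variable {d : ℕ}

private theorem tl_count {D : Finset (Vx d)} {m : Finset (Ed d)} {P R : Finset (Vx d) → Prop}
    (hPR : ∀ T ∈ HH D m, P T → R T)
    (hp : ((D.card : ℝ) + 1) * tE D m (fun T => ind (R T)) < 1) :
    (fl (HH D m) P).card * (D.card + 1) < (HH D m).card := by
  have hc : (0 : ℝ) < (HH D m).card := by exact_mod_cast HH_card_pos D m
  have h1 : ((fl (HH D m) P).card : ℝ) ≤ ∑ T ∈ HH D m, ind (R T) := by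
    have h2 : ((fl (HH D m) P).card : ℝ) = ∑ T ∈ fl (HH D m) P, ind (R T) := by
      rw [Finset.card_eq_sum_ones, Nat.cast_sum]
      refine Finset.sum_congr rfl fun T hT => ?_
      have h3 := (Pool.Agent.SRC.mem_fl _ _ _).1 hT
      rw [Pool.Agent.SRC.ind_true (hPR T h3.1 h3.2), Nat.cast_one]
    rw [h2]
    exact Finset.sum_le_sum_of_subset_of_nonneg (Pool.Agent.SRC.fl_subset _ _)
      fun T _ _ => Pool.Agent.SRC.ind_nonneg _
  unfold tE at hp
  rw [← mul_div_assoc, div_lt_one hc] at hp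
  have h4 : ((fl (HH D m) P).card : ℝ) * ((D.card : ℝ) + 1) < (HH D m).card := by
    refine lt_of_le_of_lt ?_ hp
    rw [mul_comm]
    exact mul_le_mul_of_nonneg_left h1 (by positivity)
  exact_mod_cast h4

theorem flipW {κ : ℝ} (hκ : 0 < κ) {l n h : ℕ} (hn : 1 ≤ n) (hGia : Gia d h)
    {bs : List (BX d)} (hne : bs ≠ []) (hbig : ∀ b ∈ bs, b.big h) (hl : Lnk h bs)
    {D : Finset (Vx d)}
    (hD : ∀ b ∈ bs, ∀ Q ∈ b.L, ∀ Q' ∈ ball Q 1, ∀ w ∈ fi n Q', ce l w ∈ D)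
    {m : Finset (Ed d)} (hm : EndsIn m D) (W : Finset (Vx d) → Prop)
    (hW : ∀ T, W T → CohA κ l n h bs T) (hWc : ∀ T ⊆ D, W T → W (D \ T))
    (hp : ¬ 1 ≤ ((D.card : ℝ) + 1) * tE D m (fun T => ind (¬ W T))) :
    ∃ T : Finset (Vx d), ∃ u ∈ D, W T ∧ W (symmDiff T (Cl D m u)) ∧ sg κ l n h bs T = 1 ∧
      sg κ l n h bs (symmDiff T (Cl D m u)) = -1 := by
  classical
  have hsub : ∀ T ∈ HH D m, T ⊆ D := fun T hT =>
    Finset.mem_powerset.1 ((Pool.Agent.SRC.mem_fl _ _ _).1 hT).1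
  set z : Finset (Vx d) → ℝ := fun T => if W T then sg κ l n h bs T else 0 with hz
  have hz1 : ∀ T, W T → z T = sg κ l n h bs T := fun T hT => if_pos hT
  have hz0 : ∀ T, ¬ W T → z T = 0 := fun T hT => if_neg hT
  obtain ⟨T, hT, u, hu, _, h1, h2⟩ := flip_one hm z
    (fun T _ => by
      by_cases hWT : W T
      · rw [hz1 T hWT]
        rcases sg_val κ l n h bs T with h | h | h
        · exact Or.inr (Or.inl h)
        · exact Or.inr (Or.inr h)
        · exact Or.inl h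
      · exact Or.inl (hz0 T hWT))
    (fun T hT => by
      have hTD := hsub T hT
      by_cases hWT : W T
      · rw [hz1 T hWT, hz1 _ (hWc T hTD hWT)]
        exact sg_compl hκ hn hGia hne hbig hl hD T hTD
      · have h3 : ¬ W (D \ T) := by
          intro h4
          apply hWT
          have h5 := hWc (D \ T) Finset.sdiff_subset h4
          rwa [Finset.sdiff_sdiff_eq_self hTD] at h5
        rw [hz0 T hWT, hz0 _ h3, neg_zero])
    (tl_count (R := fun T => ¬ W T)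
      (fun T _ h0 hWT => by
        rw [hz1 T hWT] at h0
        exact sg_eq_zero hκ hn hGia hne hbig hl h0 (hW T hWT)) (not_le.1 hp))
  have hWT : W T := by
    by_contra h
    rw [hz0 T h] at h1
    exact zero_ne_one h1
  have hWT' : W (symmDiff T (Cl D m u)) := by
    by_contra h
    rw [hz0 _ h] at h2
    linarith
  rw [hz1 _ hWT] at h1
  rw [hz1 _ hWT'] at h2
  exact ⟨T, u, hu, hWT, hWT', h1, h2⟩

theorem coreW {x : ℝ} (h0 : 0 ≤ x) (h1 : x ≤ 1) {κ : ℝ} (hκ : 0 < κ) {l n h : ℕ} (hn : 1 ≤ n)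
    {D : Finset (Vx d)} {E : Finset (Ed d)}
    (hED : EndsIn E D) (A : Vx d → ZMod 2) {bs : List (BX d)} (hne : bs ≠ [])
    (hbig : ∀ b ∈ bs, b.big h) (hl : Lnk h bs) (hGia : Gia d h)
    (hD : ∀ b ∈ bs, ∀ Q ∈ b.L, ∀ Q' ∈ ball Q 1, ∀ w ∈ fi n Q', ce l w ∈ D)
    (W V : Finset (Vx d) → Prop)
    (hW : ∀ T, W T → CohA κ l n h bs T) (hWc : ∀ T ⊆ D, W T → W (D \ T))
    (hV : ∀ T C, sg κ l n h bs T = 1 → sg κ l n h bs (symmDiff T C) = -1 → W T →
      W (symmDiff T C) → V C) {β : ℝ}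
    (hp : MM x E A (fun η1 η2 b => tE D (η1 ∪ η2 ∪ b) (fun T => ind (¬ W T))) ≤ β) :
    MM x E A (fun η1 η2 b => ind (¬ ∃ u ∈ D, V (Cl D (η1 ∪ η2 ∪ b) u))) ≤
      ((D.card : ℝ) + 1) * β := by
  have hNpos : (0 : ℝ) < (D.card : ℝ) + 1 := by positivity
  have hc2 := markov h0 h1 (D := D) A (fun T => ind (¬ W T))
    (fun T => Pool.Agent.SRC.ind_nonneg _) hp hNpos
  refine le_trans ?_ hc2
  refine MM_mono h0 h1 E A fun η1 hη1 η2 hη2 b hb _ _ => ?_
  by_cases hp1 : 1 ≤ ((D.card : ℝ) + 1) * tE D (η1 ∪ η2 ∪ b) (fun T => ind (¬ W T))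
  · rw [Pool.Agent.SRC.ind_true hp1]
    exact Pool.Agent.SRC.ind_le_one _
  · have hends : EndsIn (η1 ∪ η2 ∪ b) D := by
      intro e he
      rw [Finset.mem_union, Finset.mem_union] at he
      rcases he with (he | he) | he
      · exact hED e (hη1 he)
      · exact hED e (hη2 he)
      · exact hED e (hb he)
    obtain ⟨T, u, hu, g1, g2, g3, g4⟩ := flipW hκ hn hGia hne hbig hl hD hends W hW hWc hp1
    rw [Pool.Agent.SRC.ind_false (not_not.2 ⟨u, hu, hV T _ g3 g4 g1 g2⟩)]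
    exact Pool.Agent.SRC.ind_nonneg _

/-- every cube of `q ^ d` blocks of the box contains a cell whose centre is in `C` -/
def VQ (l n q : ℕ) (b : BX d) (C : Finset (Vx d)) : Prop :=
  ∀ c0 : Vx d, Finset.Icc c0 (fun k => c0 k + ((q : ℤ) - 1)) ⊆ b.L →
    ∃ Q ∈ Finset.Icc c0 (fun k => c0 k + ((q : ℤ) - 1)), ∃ w ∈ fi n Q, ce l w ∈ C

theorem cohW_compl {κ : ℝ} {l n h : ℕ} {L D : Finset (Vx d)}
    (hD : ∀ Q ∈ L, ∀ Q' ∈ ball Q 1, ∀ w ∈ fi n Q', ce l w ∈ D) {T : Finset (Vx d)} (hT : T ⊆ D)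
    (hW : CohW κ l n h L T) : CohW κ l n h L (D \ T) := by
  intro S hS hC hc
  have h1 : fl S (fun Q => ¬ gd κ l n Q (D \ T)) = fl S (fun Q => ¬ gd κ l n Q T) := by
    ext Q
    rw [Pool.Agent.SRC.mem_fl, Pool.Agent.SRC.mem_fl]
    constructor
    · rintro ⟨h2, h3⟩
      exact ⟨h2, fun h4 => h3 ((gd_compl (hD Q (hS h2)) T hT).2 h4)⟩
    · rintro ⟨h2, h3⟩
      exact ⟨h2, fun h4 => h3 ((gd_compl (hD Q (hS h2)) T hT).1 h4)⟩
  rw [h1]
  exact hW S hS hC hc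

/-- the core theorem for cubes, without sources; `hV` is `flip_visits_cube` -/
theorem coreT_of {x : ℝ} (h0 : 0 ≤ x) (h1 : x ≤ 1) {κ : ℝ} (hκ : 0 < κ) {l n : ℕ} (hn : 1 ≤ n)
    {ε : ℝ} (hε : 0 ≤ ε) (hL : LocBad x κ l n d ε) {D : Finset (Vx d)} {E : Finset (Ed d)}
    (hED : EndsIn E D) (b : BX d) {m : ℕ} (hm : 1 ≤ m) (hbig : b.big (2 * 5 ^ d * m))
    (hGia : Gia d (2 * 5 ^ d * m)) (hE : ∀ Q ∈ b.L, edg (RG l n Q) ⊆ E)
    (hD : ∀ Q ∈ b.L, RG l n Q ⊆ D) (hcard : b.L.card ≤ D.card) {q : ℕ}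
    (hV : ∀ T C, sg κ l n (2 * 5 ^ d * m) [b] T = 1 →
      sg κ l n (2 * 5 ^ d * m) [b] (symmDiff T C) = -1 → CohW κ l n (2 * 5 ^ d * m) b.L T →
      CohW κ l n (2 * 5 ^ d * m) b.L (symmDiff T C) → VQ l n q b C) :
    MM x E 0 (fun η1 η2 c => ind (¬ ∃ u ∈ D, VQ l n q b (Cl D (η1 ∪ η2 ∪ c) u))) ≤
      ((D.card : ℝ) + 1) * (D.card * (2 * 3 ^ d) ^ (2 * (2 * 5 ^ d * m)) *
        (ε + 3 ^ d / (κ ^ 2 * (n : ℝ) ^ d)) ^ m) *
        (ZA bde (fun _ => x) E 0 * ZA bde (fun _ => x) E 0) := by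
  have hblk : ∀ Q, Q ∈ blks [b] ↔ Q ∈ b.L := by
    intro Q
    classical
    unfold blks
    simp
  have hblk' : blks [b] = b.L := by
    ext Q
    exact hblk Q
  have hball : ∀ Q Q' : Vx d, Q' ∈ ball Q 1 → Q' ∈ ball Q 2 := by
    intro Q Q' h
    unfold ball at h ⊢
    rw [Finset.mem_Icc] at h ⊢
    constructor
    · intro k
      have := h.1 k
      push_cast at this ⊢
      omega
    · intro k
      have := h.2 k
      push_cast at this ⊢
      omega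
  have hself : ∀ (v : Vx d) (r : ℕ), v ∈ ball v r := by
    intro v r
    unfold ball
    rw [Finset.mem_Icc]
    constructor
    · intro k
      show v k - (r : ℤ) ≤ v k
      omega
    · intro k
      show v k ≤ v k + (r : ℤ)
      omega
  have hDc : ∀ Q ∈ b.L, ∀ Q' ∈ ball Q 1, ∀ w ∈ fi n Q', ce l w ∈ D := by
    intro Q hQ Q' hQ' w hw
    exact hD Q hQ (ball_sub_RG hn (hball Q Q' hQ') hw (hself _ _))
  have hW : ∀ P ⊆ blks [b], smp l n P ⊆ D := by
    classical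
    intro P hP v hv
    unfold smp at hv
    rw [Finset.mem_biUnion] at hv
    obtain ⟨Q, hQ, hv⟩ := hv
    refine hD Q ((hblk Q).1 (hP hQ)) (smp_sub_RG hn Q ?_)
    unfold smp
    rw [Finset.mem_biUnion]
    exact ⟨Q, Finset.mem_singleton_self Q, hv⟩
  have hb := cohW_bound h0 h1 hκ hn hε hL hED 0 [b] (fun Q hQ => hE Q ((hblk Q).1 hQ))
    (fun Q hQ => hD Q ((hblk Q).1 hQ)) hm (err := 0) le_rfl (by
      intro P hP _ f hf0 hf1 hf
      have h3 := transfer0 hED x (hW P hP) f (fun T => abs_le.2 ⟨by linarith [hf0 T], hf1 T⟩) hf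
      rw [h3]
      linarith)
  have key := coreW h0 h1 hκ hn hED 0 (bs := [b]) (by simp)
    (fun c hc => by rw [List.mem_singleton.1 hc]; exact hbig)
    (fun c hc c' hc' => by
      rw [List.mem_singleton.1 hc, List.mem_singleton.1 hc']) hGia
    (fun c hc Q hQ => hDc Q (by rw [← List.mem_singleton.1 hc]; exact hQ))
    (CohAW κ l n (2 * 5 ^ d * m) [b]) (VQ l n q b)
    (fun T hT => hT.CohA)
    (fun T hT hTW c hc => by
      rw [List.mem_singleton.1 hc]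
      exact cohW_compl hDc hT (hTW b (List.mem_singleton_self b)))
    (fun T C g1 g2 g3 g4 => hV T C g1 g2 (g3 b (List.mem_singleton_self b))
      (g4 b (List.mem_singleton_self b))) hb
  refine key.trans ?_
  have hZ : 0 ≤ ZA bde (fun _ => x) E 0 * ZA bde (fun _ => x) E 0 := mul_self_nonneg _
  have hρ : (0 : ℝ) ≤ ε + 3 ^ d / (κ ^ 2 * (n : ℝ) ^ d) := by positivity
  have hcard' : ((blks [b]).card : ℝ) ≤ (D.card : ℝ) := by
    rw [hblk']
    exact_mod_cast hcard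
  rw [add_zero]
  have hX : (0 : ℝ) ≤ (2 * 3 ^ d) ^ (2 * (2 * 5 ^ d * m)) := by positivity
  have h4 : ((blks [b]).card : ℝ) * (2 * 3 ^ d) ^ (2 * (2 * 5 ^ d * m)) *
      (ε + 3 ^ d / (κ ^ 2 * (n : ℝ) ^ d)) ^ m *
        (ZA bde (fun _ => x) E 0 * ZA bde (fun _ => x) E 0) ≤
      (D.card : ℝ) * (2 * 3 ^ d) ^ (2 * (2 * 5 ^ d * m)) *
      (ε + 3 ^ d / (κ ^ 2 * (n : ℝ) ^ d)) ^ m *
        (ZA bde (fun _ => x) E 0 * ZA bde (fun _ => x) E 0) :=
    mul_le_mul_of_nonneg_right (mul_le_mul_of_nonneg_right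
      (mul_le_mul_of_nonneg_right hcard' hX) (pow_nonneg hρ _)) hZ
  have h5 : (0 : ℝ) ≤ (D.card : ℝ) + 1 := by positivity
  refine (mul_le_mul_of_nonneg_left h4 h5).trans (le_of_eq ?_)
  ring

end Pool.Agent.Fac
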