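import Pool.Agent.Fac.VisA

/-!
# Block FAC: (VIS) (helper61)
-/

set_option autoImplicit false

namespace Pool.Agent.Fac

open Finset Filter
open Pool.Agent.SRC (Vx Ed tip bde bd edg conn ind fl uv ZZ loopM EL EB mem_edg)
open Pool.Agent.FK1 (wB wF FF NN bdm ZA Inc SD)
open Pool.Agent.Bg (RB mem_RB Vs VIS)
open Pool.Agent.Drt (Q3)

variable {d : ℕ}

private theorem v_n {κ W : ℝ} (hκ : 0 < κ) (hW : 1 ≤ W) (hd : 1 ≤ d) (n0 : ℕ) :
    ∃ n : ℕ, n0 ≤ n ∧ 1 ≤ n ∧ (1 / (8 * W) + 3 ^ d / (κ ^ 2 * (n : ℝ) ^ d)) * W ≤ 1 / 4 := by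
  obtain ⟨N, hN⟩ := exists_nat_ge (8 * W * 3 ^ d / κ ^ 2)
  refine ⟨max n0 (max 1 N), le_max_left _ _, le_trans (le_max_left 1 N) (le_max_right _ _), ?_⟩
  set n := max n0 (max 1 N) with hn
  have hn1 : 1 ≤ n := le_trans (le_max_left 1 N) (le_max_right _ _)
  have hnN : N ≤ n := le_trans (le_max_right 1 N) (le_max_right _ _)
  have hn1' : (1 : ℝ) ≤ n := by exact_mod_cast hn1
  have h1 : (n : ℝ) ≤ (n : ℝ) ^ d := by
    calc (n : ℝ) = (n : ℝ) ^ 1 := (pow_one _).symm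
      _ ≤ (n : ℝ) ^ d := pow_le_pow_right₀ hn1' hd
  have h2 : 8 * W * 3 ^ d / κ ^ 2 ≤ (n : ℝ) ^ d :=
    le_trans hN (le_trans (by exact_mod_cast hnN) h1)
  have hκ2 : 0 < κ ^ 2 := by positivity
  have hnd : 0 < (n : ℝ) ^ d := by positivity
  have h3 : 8 * W * 3 ^ d ≤ κ ^ 2 * (n : ℝ) ^ d := by
    rw [div_le_iff₀ hκ2] at h2
    linarith
  have h4 : 3 ^ d / (κ ^ 2 * (n : ℝ) ^ d) * W ≤ 1 / 8 := by
    rw [div_mul_eq_mul_div, div_le_iff₀ (by positivity)]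
    linarith
  have h5 : 1 / (8 * W) * W = 1 / 8 := by
    field_simp
  rw [add_mul, h5]
  linarith

/-- the probability bound -/
private theorem v_prob (d b C K A : ℕ) (hA : A = C + 2 * d + 1) (hK : 2 * (2 * b + 3) ^ (2 * d) ≤ K)
    (hK1 : 1 ≤ K) {W ρ : ℝ} (hW : 0 ≤ W) (hρ : 0 ≤ ρ) (hWρ : ρ * W ≤ 1 / 4) :
    (K : ℝ) ^ C * (((((2 * b + 3) * K) ^ d : ℕ) + 1 : ℝ) * ((((2 * b + 3) * K) ^ d : ℕ) *
      W ^ (A * (Nat.log 2 K + 1)) * ρ ^ (A * (Nat.log 2 K + 1)))) ≤ 1 := by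
  set m := A * (Nat.log 2 K + 1) with hm
  have hK0 : (0 : ℝ) < K := by exact_mod_cast hK1
  have hK1' : (1 : ℝ) ≤ K := by exact_mod_cast hK1
  set N : ℝ := ((((2 * b + 3) * K) ^ d : ℕ) : ℝ) with hN
  have hN1 : 1 ≤ N := by
    rw [hN]
    exact_mod_cast Nat.one_le_pow _ _ (by positivity)
  have h1 : W ^ m * ρ ^ m ≤ (1 / 4) ^ m := by
    rw [← mul_pow, mul_comm W ρ]
    exact pow_le_pow_left₀ (mul_nonneg hρ hW) hWρ m
  have h2 : ((1 : ℝ) / 4) ^ m * (K : ℝ) ^ (2 * A) ≤ 1 := by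
    have e1 : ((1 : ℝ) / 4) ^ m = ((1 / 2) ^ (Nat.log 2 K + 1)) ^ (2 * A) := by
      rw [hm, ← pow_mul]
      have : (Nat.log 2 K + 1) * (2 * A) = 2 * (A * (Nat.log 2 K + 1)) := by ring
      rw [this, pow_mul ((1 : ℝ) / 2) 2]
      norm_num
    rw [e1, ← mul_pow]
    refine pow_le_one₀ (by positivity) ?_
    have e2 : (K : ℝ) ≤ 2 ^ (Nat.log 2 K + 1) := by
      exact_mod_cast (Nat.lt_pow_succ_log_self (by norm_num) K).le
    rw [one_div, inv_pow, inv_mul_le_iff₀ (by positivity), mul_one]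
    exact e2
  have h3 : (N + 1) * N ≤ (K : ℝ) ^ (2 * d + 1) := by
    have e1 : (N + 1) * N ≤ 2 * N ^ 2 := by nlinarith
    refine e1.trans ?_
    have e2 : 2 * N ^ 2 = (2 * (2 * b + 3) ^ (2 * d)) * (K : ℝ) ^ (2 * d) := by
      rw [hN]
      push_cast
      rw [mul_pow, mul_pow, ← pow_mul, ← pow_mul, mul_comm d 2]
      ring
    rw [e2, pow_succ (K : ℝ) (2 * d), mul_comm ((K : ℝ) ^ (2 * d)) (K : ℝ)]
    refine mul_le_mul_of_nonneg_right ?_ (by positivity)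
    exact_mod_cast hK
  have h4 : (0 : ℝ) ≤ W ^ m * ρ ^ m := mul_nonneg (pow_nonneg hW _) (pow_nonneg hρ _)
  calc (K : ℝ) ^ C * ((N + 1) * (N * W ^ m * ρ ^ m))
      = (K : ℝ) ^ C * (((N + 1) * N) * (W ^ m * ρ ^ m)) := by ring
    _ ≤ (K : ℝ) ^ C * ((K : ℝ) ^ (2 * d + 1) * (1 / 4) ^ m) := by
        refine mul_le_mul_of_nonneg_left ?_ (by positivity)
        exact mul_le_mul h3 h1 h4 (by positivity)
    _ = (1 / 4) ^ m * (K : ℝ) ^ A := by
        rw [hA]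
        ring
    _ ≤ (1 / 4) ^ m * (K : ℝ) ^ (2 * A) := by
        refine mul_le_mul_of_nonneg_left ?_ (by positivity)
        exact pow_le_pow_right₀ hK1' (by omega)
    _ ≤ 1 := h2

private theorem v_num (A c0 s : ℕ) (hA : 1 ≤ A) (hc0 : 1 ≤ c0) (hs : 1 ≤ s) {δ : ℝ} (hδ : 0 < δ)
    (K1 : ℕ) :
    ∃ K0 : ℕ, ∀ K : ℕ, K0 ≤ K → K1 ≤ K ∧ 1 ≤ K ∧
      s * (c0 * (A * (Nat.log 2 K + 1)) + 12) ≤ K ∧
      (((Nat.sqrt (c0 * (A * (Nat.log 2 K + 1))) + 1 + 1) * s : ℕ) : ℝ) ≤ δ * Real.log K := by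
  have hAr : (1 : ℝ) ≤ A := by exact_mod_cast hA
  have hc0r : (1 : ℝ) ≤ c0 := by exact_mod_cast hc0
  have hsr : (1 : ℝ) ≤ s := by exact_mod_cast hs
  set c2 : ℝ := 3 * c0 * A with hc2
  have hc2p : 0 < c2 := by positivity
  have hlog : Tendsto (fun K : ℕ => Real.log (K : ℝ)) atTop atTop :=
    Real.tendsto_log_atTop.comp tendsto_natCast_atTop_atTop
  have hlo : ∀ᶠ K : ℕ in atTop, Real.log (K : ℝ) ≤ 1 / (2 * s * c2) * (K : ℝ) := by
    have h1 := Real.isLittleO_log_id_atTop.def (c := 1 / (2 * s * c2)) (by positivity)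
    have h2 := tendsto_natCast_atTop_atTop (R := ℝ) |>.eventually h1
    filter_upwards [h2, eventually_ge_atTop 1] with K hK hK1
    have hK0 : (0 : ℝ) ≤ K := Nat.cast_nonneg K
    simp only [id, Real.norm_eq_abs] at hK
    rw [abs_of_nonneg hK0] at hK
    exact (le_abs_self _).trans hK
  have hev : ∀ᶠ K : ℕ in atTop, K1 ≤ K ∧ 1 ≤ K ∧
      s * (c0 * (A * (Nat.log 2 K + 1)) + 12) ≤ K ∧
      (((Nat.sqrt (c0 * (A * (Nat.log 2 K + 1))) + 1 + 1) * s : ℕ) : ℝ) ≤ δ * Real.log K := by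
    filter_upwards [eventually_ge_atTop K1, eventually_ge_atTop 1, hlo,
      eventually_ge_atTop (24 * s), hlog.eventually_ge_atTop 1,
      hlog.eventually_ge_atTop (4 * s ^ 2 * c2 / δ ^ 2), hlog.eventually_ge_atTop (4 * s / δ)]
      with K h1 h2 h3 h4 h5 h6 h7
    set L : ℝ := Real.log (K : ℝ) with hL
    have hK0 : (0 : ℝ) < K := by exact_mod_cast h2
    have hlogn : ((Nat.log 2 K : ℕ) : ℝ) ≤ 2 * L := by
      have e1 := Real.natLog_le_logb K 2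
      have e2 : Real.logb ((2 : ℕ) : ℝ) K = L / Real.log 2 := by
        rw [Real.logb, hL]
        norm_num
      rw [e2] at e1
      refine e1.trans ?_
      have e3 : (1 : ℝ) / 2 ≤ Real.log 2 := by linarith [Real.log_two_gt_d9]
      rw [div_le_iff₀ (by linarith)]
      nlinarith
    set H : ℕ := c0 * (A * (Nat.log 2 K + 1)) with hH
    have hHr : (H : ℝ) ≤ c2 * L := by
      rw [hH, hc2]
      push_cast
      have : ((Nat.log 2 K : ℕ) : ℝ) + 1 ≤ 3 * L := by linarith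
      calc (c0 : ℝ) * (A * (((Nat.log 2 K : ℕ) : ℝ) + 1)) ≤ c0 * (A * (3 * L)) := by gcongr
        _ = 3 * c0 * A * L := by ring
    refine ⟨h1, h2, ?_, ?_⟩
    · have e1 : (s : ℝ) * ((H : ℝ) + 12) ≤ K := by
        have g1 : (s : ℝ) * H ≤ (K : ℝ) / 2 := by
          calc (s : ℝ) * H ≤ s * (c2 * L) := by gcongr
            _ ≤ s * (c2 * (1 / (2 * s * c2) * K)) := by gcongr
            _ = (K : ℝ) / 2 := by field_simp
        have g2 : (24 : ℝ) * s ≤ K := by exact_mod_cast h4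
        linarith
      exact_mod_cast e1
    · set r : ℕ := Nat.sqrt H with hr
      have hr2 : (r : ℝ) ^ 2 ≤ c2 * L := by
        have e1 : r * r ≤ H := Nat.sqrt_le H
        have e2 : (r : ℝ) * r ≤ H := by exact_mod_cast e1
        nlinarith
      have hL0 : 0 < L := by linarith
      have g1 : (s : ℝ) * r ≤ δ * L / 2 := by
        have e1 : 4 * (s : ℝ) ^ 2 * c2 ≤ L * δ ^ 2 := by
          rw [div_le_iff₀ (by positivity)] at h6
          exact h6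
        have e2 : ((s : ℝ) * r) ^ 2 ≤ (δ * L / 2) ^ 2 := by
          have e3 : ((s : ℝ) * r) ^ 2 ≤ s ^ 2 * (c2 * L) := by
            rw [mul_pow]
            exact mul_le_mul_of_nonneg_left hr2 (by positivity)
          refine e3.trans ?_
          have e4 : (s : ℝ) ^ 2 * (c2 * L) * 4 ≤ (δ * L) ^ 2 := by
            calc (s : ℝ) ^ 2 * (c2 * L) * 4 = (4 * (s : ℝ) ^ 2 * c2) * L := by ring
              _ ≤ (L * δ ^ 2) * L := mul_le_mul_of_nonneg_right e1 hL0.le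
              _ = (δ * L) ^ 2 := by ring
          have e5 : (δ * L / 2) ^ 2 = (δ * L) ^ 2 / 4 := by ring
          rw [e5]
          linarith
        exact le_of_sq_le_sq e2 (by positivity)
      have g2 : 2 * (s : ℝ) ≤ δ * L / 2 := by
        rw [div_le_iff₀ hδ] at h7
        linarith
      push_cast
      nlinarith
  exact eventually_atTop.1 hev

/-- (VIS) -/
theorem visT (hd : 3 ≤ d) {β : ℝ} (hβ : 0 < β) (hC : Pool.Agent.Slb.CUBE d β)
    (hS : Pool.Agent.Slb.SLAB d β) (hH : Pool.Agent.Slb.SHELL d β) : VIS d (Real.tanh β) := by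
  intro b C δ hδ
  have hx0 : 0 < Real.tanh β := Pool.Agent.FK1.tanh_pos' hβ
  have hx1 : Real.tanh β < 1 := Pool.Agent.FK1.tanh_lt_one' β
  set x := Real.tanh β with hx
  obtain ⟨κ, hκ, hLoc⟩ := locBad (d := d) (by omega) hβ hC hS hH
  set W : ℝ := (2 * 3 ^ d) ^ (2 * (2 * 5 ^ d)) with hWdef
  have hW : 1 ≤ W := by
    refine one_le_pow₀ ?_
    have : (1 : ℝ) ≤ 3 ^ d := one_le_pow₀ (by norm_num)
    linarith
  have hW0 : 0 < W := by linarith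
  obtain ⟨n0, hn0⟩ := hLoc (1 / (8 * W)) (by positivity)
  obtain ⟨n, hnn, hn1, hρ⟩ := v_n (d := d) hκ hW (by omega) n0
  obtain ⟨l, hl⟩ := hn0 n hnn
  set ρ : ℝ := 1 / (8 * W) + 3 ^ d / (κ ^ 2 * (n : ℝ) ^ d) with hρdef
  have hρ0 : 0 ≤ ρ := by positivity
  have hs : 1 ≤ (2 * l + 1) * n := Nat.mul_pos (by omega) hn1
  set A : ℕ := C + 2 * d + 1 with hA
  have hc0 : 1 ≤ 2 * 5 ^ d := by
    have : 0 < 2 * 5 ^ d := by positivity
    exact this
  obtain ⟨K0, hK0⟩ := v_num A (2 * 5 ^ d) ((2 * l + 1) * n) (by omega) hc0 hs hδ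
    (2 * (2 * b + 3) ^ (2 * d))
  refine ⟨K0, fun K hK => ?_⟩
  obtain ⟨g1, g2, g3, g4⟩ := hK0 K hK
  set m : ℕ := A * (Nat.log 2 K + 1) with hm
  have hm1 : 1 ≤ m := Nat.mul_pos (by omega) (by omega)
  set q : ℕ := Nat.sqrt (2 * 5 ^ d * m) + 1 with hq
  have hq1 : 2 * 5 ^ d * m ≤ q ^ (d - 1) := by
    have e1 : 2 * 5 ^ d * m < q * q := Nat.lt_succ_sqrt _
    have e2 : q * q ≤ q ^ (d - 1) := by
      calc q * q = q ^ 2 := (sq q).symm
        _ ≤ q ^ (d - 1) := Nat.pow_le_pow_right (by omega) (by omega)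
    exact e1.le.trans e2
  refine ⟨(q + 1) * ((2 * l + 1) * n), Nat.mul_pos (by omega) hs, g4, fun z => ?_⟩
  have key := vis_one hx0.le hx1.le (by omega) hκ hn1 (ε := 1 / (8 * W)) (by positivity) hl hm1 hq1
    (K := K) (b := b) g3 z
  have hZ : 0 ≤ ZZ (loopM x) (edg (RB K (b + 1) z)) 0 * ZZ (loopM x) (edg (RB K (b + 1) z)) 0 :=
    mul_self_nonneg _
  have hKC : (0 : ℝ) ≤ (K : ℝ) ^ C := by positivity
  refine (mul_le_mul_of_nonneg_left key hKC).trans ?_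
  have hp := v_prob d b C K A hA g1 g2 hW0.le hρ0 hρ
  have e1 : ((2 : ℝ) * 3 ^ d) ^ (2 * (2 * 5 ^ d * m)) = W ^ m := by
    rw [hWdef, ← pow_mul]
    congr 1
    ring
  rw [e1, ← mul_assoc]
  calc _ ≤ 1 * (ZZ (loopM x) (edg (RB K (b + 1) z)) 0 *
        ZZ (loopM x) (edg (RB K (b + 1) z)) 0) := mul_le_mul_of_nonneg_right hp hZ
    _ = _ := one_mul _

end Pool.Agent.Fac
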