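import Pool.Agent.Fac.CoreT
import Pool.Agent.Fac.Main
import Pool.Agent.Bg.Defs

/-!
# Block FAC: (VIS), part A: `Q3 = MM`, the box of blocks (helper61)
-/

set_option autoImplicit false

namespace Pool.Agent.Fac

open Finset
open Pool.Agent.SRC (Vx Ed tip bde bd edg conn ind fl uv ZZ loopM EL EB mem_edg)
open Pool.Agent.FK1 (wB wF FF NN bdm ZA Inc SD)
open Pool.Agent.Uni (cb mem_cb)
open Pool.Agent.Bg (RB mem_RB Vs)
open Pool.Agent.Drt (Q3)

variable {d : ℕ}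

theorem Q3_eq_MM (x : ℝ) (E : Finset (Ed d)) (f : Finset (Ed d) → Finset (Ed d) → Finset (Ed d) → ℝ) :
    Q3 x (x ^ 2) E 0 0 f = MM x E 0 f := by
  have hw : ∀ b : Finset (Ed d), wB (fun _ => x ^ 2) E b =
      (x ^ 2) ^ b.card * (1 - x ^ 2) ^ (E \ b).card := by
    intro b
    unfold wB
    rw [Finset.prod_const, Finset.prod_const]
  unfold Q3 MM EL EB loopM
  refine Finset.sum_congr rfl fun η1 _ => ?_
  rw [Finset.mul_sum]
  refine Finset.sum_congr rfl fun η2 _ => ?_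
  rw [Finset.mul_sum, Finset.mul_sum]
  refine Finset.sum_congr rfl fun b _ => ?_
  rw [hw]
  simp only [one_smul, one_pow, mul_one]
  ring

/-- the box of the blocks whose regions are in `RB K (b + 1) z`; `s` = side of a block -/
def bxV (l s K b : ℕ) (z : Vx d) : BX d where
  lo := fun k => -((-((K : ℤ) * (z k - (b : ℤ) - 1) + l)) / (s : ℤ)) + 2
  hi := fun k => ((K : ℤ) * (z k + (b : ℤ) + 2) + l) / (s : ℤ) - 3

theorem mem_bxV {l s K b : ℕ} (hs : 1 ≤ s) {z Q : Vx d} : Q ∈ (bxV l s K b z).L ↔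
    ∀ k, (K : ℤ) * (z k - b - 1) ≤ (s : ℤ) * (Q k - 2) - l ∧
      (s : ℤ) * (Q k + 3) - l ≤ (K : ℤ) * (z k + b + 2) := by
  have hs0 : (0 : ℤ) < (s : ℤ) := by exact_mod_cast hs
  unfold BX.L bxV
  rw [Finset.mem_Icc, Pi.le_def, Pi.le_def]
  dsimp only
  constructor
  · rintro ⟨h1, h2⟩ k
    have g1 := h1 k
    have g2 := h2 k
    constructor
    · have e1 : -(Q k - 2) ≤ (-((K : ℤ) * (z k - (b : ℤ) - 1) + l)) / (s : ℤ) := by linarith
      have e2 := (Int.le_ediv_iff_mul_le hs0).1 e1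
      nlinarith
    · have e1 : Q k + 3 ≤ ((K : ℤ) * (z k + (b : ℤ) + 2) + l) / (s : ℤ) := by linarith
      have e2 := (Int.le_ediv_iff_mul_le hs0).1 e1
      nlinarith
  · intro h
    refine ⟨fun k => ?_, fun k => ?_⟩
    · have e1 : -(Q k - 2) ≤ (-((K : ℤ) * (z k - (b : ℤ) - 1) + l)) / (s : ℤ) := by
        rw [Int.le_ediv_iff_mul_le hs0]
        nlinarith [(h k).1]
      linarith
    · have e1 : Q k + 3 ≤ ((K : ℤ) * (z k + (b : ℤ) + 2) + l) / (s : ℤ) := by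
        rw [Int.le_ediv_iff_mul_le hs0]
        nlinarith [(h k).2]
      linarith

theorem bxV_big {l s K b h : ℕ} (hs : 1 ≤ s) (hK : s * (h + 12) ≤ K) (z : Vx d) :
    (bxV l s K b z).big h := by
  have hs0 : (0 : ℤ) < (s : ℤ) := by exact_mod_cast hs
  intro k
  unfold bxV
  dsimp only
  set A : ℤ := (K : ℤ) * (z k - (b : ℤ) - 1) + l with hA
  set B : ℤ := (K : ℤ) * (z k + (b : ℤ) + 2) + l with hB
  have h1 : B = A + (K : ℤ) * (2 * b + 3) := by rw [hA, hB]; ring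
  have h2 : (s : ℤ) * (h + 12) ≤ K := by exact_mod_cast hK
  have hK0 : (0 : ℤ) ≤ K := Int.natCast_nonneg K
  have hb0 : (0 : ℤ) ≤ b := Int.natCast_nonneg b
  have h3 : A + (s : ℤ) * (h + 12) ≤ B := by nlinarith
  -- `-((-A) / s) ≤ A / s + 1`
  have e1 : -((-A) / (s : ℤ)) ≤ A / (s : ℤ) + 1 := by
    have g1 : -(A / (s : ℤ) + 1) ≤ (-A) / (s : ℤ) := by
      rw [Int.le_ediv_iff_mul_le hs0]
      have g2 := Int.lt_ediv_add_one_mul_self A hs0
      nlinarith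
    linarith
  have e2 : A / (s : ℤ) + (h + 12) ≤ B / (s : ℤ) := by
    rw [Int.le_ediv_iff_mul_le hs0]
    have g2 := Int.ediv_mul_le A hs0.ne'
    nlinarith
  linarith

theorem RG_sub {l n K b : ℕ} (hn : 1 ≤ n) {z Q : Vx d}
    (hQ : Q ∈ (bxV l ((2 * l + 1) * n) K b z).L) : RG l n Q ⊆ RB K (b + 1) z := by
  have hs : 1 ≤ (2 * l + 1) * n := Nat.mul_pos (by omega) hn
  have h := (mem_bxV hs).1 hQ
  intro v hv
  unfold RG at hv
  rw [Finset.mem_Icc, Pi.le_def, Pi.le_def] at hv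
  rw [mem_RB]
  intro k
  have h1 := h k
  have h2 := hv.1 k
  have h3 := hv.2 k
  push_cast at h1 h2 h3 ⊢
  constructor
  · linarith [h1.1]
  · have e : (K : ℤ) * (z k + (b + 1) + 1) = (K : ℤ) * (z k + b + 2) := by ring
    rw [e]
    linarith [h1.2]

/-- a cube of vertices of side `(q + 1) s` contains a cube of `q ^ d` blocks -/
theorem cube_blocks {l n q : ℕ} (hn : 1 ≤ n) (c : Vx d) :
    ∃ c0 : Vx d, ∀ Q ∈ Finset.Icc c0 (fun k => c0 k + ((q : ℤ) - 1)),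
      Bk l n Q ⊆ cb c ((q + 1) * ((2 * l + 1) * n)) := by
  have hs : 1 ≤ (2 * l + 1) * n := Nat.mul_pos (by omega) hn
  set s := (2 * l + 1) * n with hsdef
  have hs0 : (0 : ℤ) < (s : ℤ) := by exact_mod_cast hs
  have hsZ : (s : ℤ) = (2 * (l : ℤ) + 1) * n := by rw [hsdef]; push_cast; ring
  refine ⟨fun k => -((-(c k + l)) / (s : ℤ)), fun Q hQ v hv => ?_⟩
  rw [Finset.mem_Icc, Pi.le_def, Pi.le_def] at hQ
  unfold Bk at hv
  rw [Finset.mem_Icc, Pi.le_def, Pi.le_def] at hv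
  rw [mem_cb]
  intro k
  have h1 := hQ.1 k
  have h2 := hQ.2 k
  have h3 := hv.1 k
  have h4 := hv.2 k
  dsimp only at h1 h2 h3 h4
  rw [← hsZ] at h3 h4
  set e := -((-(c k + l)) / (s : ℤ)) with he
  have g1 : c k + l ≤ (s : ℤ) * e := by
    have := Int.ediv_mul_le (-(c k + l)) hs0.ne'
    rw [he]
    nlinarith
  have g2 : (s : ℤ) * e < c k + l + s := by
    have := Int.lt_ediv_add_one_mul_self (-(c k + l)) hs0
    rw [he]
    nlinarith
  constructor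
  · have : (s : ℤ) * e ≤ (s : ℤ) * Q k := mul_le_mul_of_nonneg_left h1 hs0.le
    linarith
  · have : (s : ℤ) * Q k ≤ (s : ℤ) * (e + ((q : ℤ) - 1)) := mul_le_mul_of_nonneg_left h2 hs0.le
    push_cast
    nlinarith

theorem vs_of {l n q K b : ℕ} (hn : 1 ≤ n) (hK : 2 * ((2 * l + 1) * n) ≤ K) {z : Vx d}
    {D : Finset (Vx d)} {m : Finset (Ed d)}
    (h : ∃ u ∈ D, VQ l n q (bxV l ((2 * l + 1) * n) K b z) (Cl D m u)) :
    Vs ((q + 1) * ((2 * l + 1) * n)) K b z m := by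
  have hs : 1 ≤ (2 * l + 1) * n := Nat.mul_pos (by omega) hn
  obtain ⟨u, _, hu⟩ := h
  refine ⟨u, fun c' hc' => ?_⟩
  obtain ⟨c0, hc0⟩ := cube_blocks (l := l) (q := q) hn c'
  have hsZ : (((2 * l + 1) * n : ℕ) : ℤ) = (2 * (l : ℤ) + 1) * n := by push_cast; ring
  have hs0 : (1 : ℤ) ≤ (((2 * l + 1) * n : ℕ) : ℤ) := by exact_mod_cast hs
  have hKZ : 2 * (((2 * l + 1) * n : ℕ) : ℤ) ≤ (K : ℤ) := by exact_mod_cast hK
  have hin : Finset.Icc c0 (fun k => c0 k + ((q : ℤ) - 1)) ⊆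
      (bxV l ((2 * l + 1) * n) K b z).L := by
    intro Q hQ
    have h1 := (hc0 Q hQ).trans hc'
    rw [mem_bxV hs]
    intro k
    set s : ℤ := (((2 * l + 1) * n : ℕ) : ℤ) with hsdef
    have v1 : (fun k => (2 * (l : ℤ) + 1) * n * Q k - l) ∈ Bk l n Q := by
      unfold Bk
      rw [Finset.mem_Icc, Pi.le_def, Pi.le_def]
      refine ⟨fun _ => le_rfl, fun k => ?_⟩
      rw [← hsZ]
      linarith
    have v2 : (fun k => (2 * (l : ℤ) + 1) * n * Q k - l + ((2 * (l : ℤ) + 1) * n - 1)) ∈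
        Bk l n Q := by
      unfold Bk
      rw [Finset.mem_Icc, Pi.le_def, Pi.le_def]
      refine ⟨fun k => ?_, fun _ => le_rfl⟩
      rw [← hsZ]
      linarith
    have g1 := (mem_RB.1 (h1 v1) k).1
    have g2 := (mem_RB.1 (h1 v2) k).2
    rw [← hsZ] at g1 g2
    constructor
    · have e : (K : ℤ) * (z k - b - 1) = (K : ℤ) * (z k - b) - K := by ring
      rw [e]
      linarith
    · have e : (K : ℤ) * (z k + b + 2) = (K : ℤ) * (z k + b + 1) + K := by ring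
      rw [e]
      linarith
  obtain ⟨Q, hQ, w, hw, hwC⟩ := hu c0 hin
  refine ⟨ce l w, hc0 Q hQ (ce_mem_Bk hn hw), ?_⟩
  unfold Cl at hwC
  exact ((Pool.Agent.SRC.mem_fl _ _ _).1 hwC).2

theorem bxV_card {l n K b : ℕ} (hn : 1 ≤ n) (z : Vx d) :
    (bxV l ((2 * l + 1) * n) K b z).L.card ≤ (RB K (b + 1) z).card := by
  have hs : 1 ≤ (2 * l + 1) * n := Nat.mul_pos (by omega) hn
  have hsZ : (((2 * l + 1) * n : ℕ) : ℤ) = (2 * (l : ℤ) + 1) * n := by push_cast; ring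
  have hs0 : (0 : ℤ) < (2 * (l : ℤ) + 1) * n := by
    rw [← hsZ]
    exact_mod_cast hs
  refine Finset.card_le_card_of_injOn (fun Q k => (2 * (l : ℤ) + 1) * n * Q k - l) ?_ ?_
  · intro Q hQ
    have h1 := RG_sub hn (Finset.mem_coe.1 hQ)
    refine Finset.mem_coe.2 (h1 (Bk_sub_RG hn Q ?_))
    unfold Bk
    rw [Finset.mem_Icc, Pi.le_def, Pi.le_def]
    refine ⟨fun _ => le_rfl, fun k => ?_⟩
    dsimp only
    linarith
  · intro Q _ Q' _ h
    funext k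
    have h1 : (2 * (l : ℤ) + 1) * n * Q k - l = (2 * (l : ℤ) + 1) * n * Q' k - l := congrFun h k
    have h2 : (2 * (l : ℤ) + 1) * n * Q k = (2 * (l : ℤ) + 1) * n * Q' k := by linarith
    exact mul_left_cancel₀ hs0.ne' h2

theorem RB_card (K b : ℕ) (z : Vx d) : (RB K b z).card = ((2 * b + 1) * K) ^ d := by
  unfold RB Pool.Agent.Bg.sd cb
  rw [Pi.card_Icc]
  have h : ∀ i : Fin d, (Finset.Icc (Pool.Agent.Bg.lc K b z i)
      (Pool.Agent.Bg.lc K b z i + (((2 * b + 1) * K : ℕ) : ℤ) - 1)).card = (2 * b + 1) * K := by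
    intro i
    rw [Int.card_Icc]
    have e : Pool.Agent.Bg.lc K b z i + (((2 * b + 1) * K : ℕ) : ℤ) - 1 + 1 -
      Pool.Agent.Bg.lc K b z i = (((2 * b + 1) * K : ℕ) : ℤ) := by ring
    rw [e, Int.toNat_natCast]
  rw [Finset.prod_congr rfl fun i _ => h i, Finset.prod_const, Finset.card_univ, Fintype.card_fin]

/-- (VIS) for one `K`: all parameters given -/
theorem vis_one {x : ℝ} (h0 : 0 ≤ x) (h1 : x ≤ 1) (hd : 2 ≤ d) {κ : ℝ} (hκ : 0 < κ) {l n : ℕ}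
    (hn : 1 ≤ n) {ε : ℝ} (hε : 0 ≤ ε) (hL : LocBad x κ l n d ε) {m : ℕ} (hm : 1 ≤ m) {q : ℕ}
    (hq : 2 * 5 ^ d * m ≤ q ^ (d - 1)) {K b : ℕ}
    (hK : ((2 * l + 1) * n) * (2 * 5 ^ d * m + 12) ≤ K) (z : Vx d) :
    Q3 x (x ^ 2) (edg (RB K (b + 1) z)) 0 0 (fun n1 n2 c =>
        ind (¬ Vs ((q + 1) * ((2 * l + 1) * n)) K b z (n1 ∪ n2 ∪ c))) ≤
      ((((2 * b + 3) * K) ^ d : ℕ) + 1 : ℝ) * ((((2 * b + 3) * K) ^ d : ℕ) *
        (2 * 3 ^ d) ^ (2 * (2 * 5 ^ d * m)) * (ε + 3 ^ d / (κ ^ 2 * (n : ℝ) ^ d)) ^ m) *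
        (ZZ (loopM x) (edg (RB K (b + 1) z)) 0 * ZZ (loopM x) (edg (RB K (b + 1) z)) 0) := by
  have hs : 1 ≤ (2 * l + 1) * n := Nat.mul_pos (by omega) hn
  have hh : 1 ≤ 2 * 5 ^ d * m := by
    have : 0 < 2 * 5 ^ d * m := by positivity
    exact this
  have hED : EndsIn (edg (RB K (b + 1) z)) (RB K (b + 1) z) := fun e he => (mem_edg _ _).1 he
  have key := coreT h0 h1 hd hκ hn hε hL hED (bxV l ((2 * l + 1) * n) K b z) hm
    (bxV_big hs hK z) (gia hd _ hh)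
    (fun Q hQ e he => by
      rw [mem_edg] at he ⊢
      exact ⟨RG_sub hn hQ he.1, RG_sub hn hQ he.2⟩)
    (fun Q hQ => RG_sub hn hQ) (bxV_card hn z) hq
  rw [Q3_eq_MM]
  rw [ZA_eq_ZZ, RB_card] at key
  have e1 : 2 * (b + 1) + 1 = 2 * b + 3 := by ring
  rw [e1] at key
  refine le_trans ?_ key
  refine MM_mono h0 h1 _ 0 fun η1 _ η2 _ c _ _ _ => ?_
  by_cases hV : ∃ u ∈ RB K (b + 1) z, VQ l n q (bxV l ((2 * l + 1) * n) K b z)
      (Cl (RB K (b + 1) z) (η1 ∪ η2 ∪ c) u)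
  · rw [Pool.Agent.SRC.ind_false (not_not.2 (vs_of hn (by nlinarith) hV))]
    exact Pool.Agent.SRC.ind_nonneg _
  · rw [Pool.Agent.SRC.ind_true hV]
    exact Pool.Agent.SRC.ind_le_one _

end Pool.Agent.Fac
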